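import Pool.Agent.MPC.Act
import Pool.Agent.DCIG.Roitman

/-!
# Points which differ in one component

If the character is trivial on one factor of the group and the total degree of the equations in the
variables of this factor is small, then two points which differ only in this component have the same
image in the part of the Chow group which belongs to the character. This follows from Roitman's
theorem for the fibre.
-/

open scoped LinearAlgebra.Projectivization

namespace Pool.Agent.MPC

open Pool.Agent.ZCyc

universe u w

variable {k : Type u} [Field k] {r : ℕ} {J : Fin r → Type} {m : ℕ} {L : Type}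

/-- the polynomial `f` in the variables of the `i`-th group, the other variables have the values
`c` -/
noncomputable def spec {A : Type*} [CommRing A] [Algebra k A] (i : Fin r) (c : ∀ i, J i → A)
    (f : MvPolynomial (Σ i, J i) k) : MvPolynomial (J i) A :=
  MvPolynomial.aeval (fun x => Function.update (fun i' j => MvPolynomial.C (c i' j)) i
    (fun j => MvPolynomial.X j) x.1 x.2) f

lemma eval_spec {A : Type*} [CommRing A] [Algebra k A] (i : Fin r) (c : ∀ i, J i → A)
    (y : J i → A) (f : MvPolynomial (Σ i, J i) k) :
    MvPolynomial.eval y (spec i c f) =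
      MvPolynomial.aeval (fun x : (Σ i, J i) => Function.update c i y x.1 x.2) f := by
  have h1 := MvPolynomial.comp_aeval_apply
    ((MvPolynomial.aeval y : MvPolynomial (J i) A →ₐ[A] A).restrictScalars k)
    (f := fun x : (Σ i, J i) => Function.update (fun i' j => MvPolynomial.C (c i' j)) i
    (fun j => MvPolynomial.X j) x.1 x.2) f
  rw [← MvPolynomial.coe_aeval_eq_eval]
  refine h1.trans ?_
  congr 1
  congr 1
  funext x
  obtain ⟨i', j⟩ := x
  by_cases h : i' = i
  · subst h
    simp
  · simp [Function.update_of_ne h]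

lemma spec_homogeneous [∀ i, Fintype (J i)] {A : Type*} [CommRing A] [Algebra k A] (i : Fin r)
    (c : ∀ i, J i → A) {f : MvPolynomial (Σ i, J i) k} {δ : Fin r → ℕ}
    (hf : IsMultihomogeneous f δ) : (spec i c f).IsHomogeneous (δ i) := by
  classical
  unfold spec
  rw [MvPolynomial.aeval_def, MvPolynomial.eval₂_eq']
  apply MvPolynomial.IsHomogeneous.sum
  intro n hn
  have h1 := hf n (MvPolynomial.mem_support_iff.1 hn) i
  have h2 : ∑ x : (Σ i, J i), (if x.1 = i then n x else 0) = δ i := by
    rw [← h1, Fintype.sum_sigma, Finset.sum_eq_single i]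
    · simp
    · intro i' _ hi'
      simp [hi']
    · simp
  have h3 : (∏ x : (Σ i, J i), (Function.update (fun i' j => (MvPolynomial.C (c i' j) :
      MvPolynomial (J i) A)) i (fun j => MvPolynomial.X j) x.1 x.2) ^ n x).IsHomogeneous (δ i) := by
    rw [← h2]
    apply MvPolynomial.IsHomogeneous.prod
    rintro ⟨i', j⟩ _
    by_cases h : i' = i
    · subst h
      simp only [Function.update_self, if_true]
      have := (MvPolynomial.isHomogeneous_X A j).pow (n ⟨i', j⟩)
      simpa using this
    · simp only [Function.update_of_ne h, if_neg h]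
      have := (MvPolynomial.isHomogeneous_C (J i) (c i' j)).pow (n ⟨i', j⟩)
      simpa using this
  have h4 : (algebraMap k (MvPolynomial (J i) A) (f.coeff n)).IsHomogeneous 0 := by
    rw [IsScalarTower.algebraMap_apply k A (MvPolynomial (J i) A)]
    exact MvPolynomial.isHomogeneous_C _ _
  have := h4.mul h3
  rwa [zero_add] at this

/-- polynomials of degree zero in the variables of the `i`-th group do not depend on them -/
lemma aeval_congr [∀ i, Fintype (J i)] {A : Type*} [CommRing A] [Algebra k A] {i : Fin r}
    {f : MvPolynomial (Σ i, J i) k} {δ : Fin r → ℕ} (hf : IsMultihomogeneous f δ) (hi : δ i = 0)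
    {v w : (Σ i, J i) → A} (h : ∀ x, x.1 ≠ i → v x = w x) :
    MvPolynomial.aeval v f = MvPolynomial.aeval w f := by
  classical
  rw [MvPolynomial.aeval_def, MvPolynomial.aeval_def, MvPolynomial.eval₂_eq',
    MvPolynomial.eval₂_eq']
  apply Finset.sum_congr rfl
  intro n hn
  congr 1
  apply Finset.prod_congr rfl
  rintro ⟨i', j⟩ _
  by_cases hi' : i' = i
  · subst hi'
    have h1 := hf n (MvPolynomial.mem_support_iff.1 hn) i'
    rw [hi, Finset.sum_eq_zero_iff] at h1
    rw [h1 j (Finset.mem_univ j), pow_zero, pow_zero]
  · rw [h ⟨i', j⟩ hi']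

/-- points of a fibre -/
lemma update_mem_iff {f : L → MvPolynomial (Σ i, J i) k} (i : Fin r) (p : ∀ i, ℙ k (J i → k))
    (q : ℙ k (J i → k)) : Function.update p i q ∈ Zeros m f ↔
    ∀ l, MvPolynomial.eval (fun j => q.rep j ^ m)
      (spec i (fun i' j => (p i').rep j ^ m) (f l)) = 0 := by
  unfold Zeros
  rw [Set.mem_ofPred_eq]
  apply forall_congr'
  intro l
  rw [eval_spec, ← MvPolynomial.coe_aeval_eq_eval]
  have h1 : (fun a : (Σ i, J i) => (Function.update p i q a.1).rep a.2 ^ m) =
      fun x : (Σ i, J i) => Function.update (fun i' j => (p i').rep j ^ m) i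
        (fun j => q.rep j ^ m) x.1 x.2 := by
    funext x
    obtain ⟨i', j⟩ := x
    by_cases h : i' = i
    · subst h
      simp
    · simp [Function.update_of_ne h]
  rw [h1]
  rfl

section

variable {F : Type*} [Field F] [Algebra k F] {v : Place k F}

omit m L in
lemma isValue_const {J : Type} (v : Place k F) (p : ℙ k (J → k)) :
    DCI57.IsValue v (fun j => algebraMap k F (p.rep j)) p :=
  DCI57.isValue_iff.2 ⟨1, fun j => by
    rw [one_mul]
    exact Place.at_const _⟩

lemma IsValue.update {i : Fin r} {x : ∀ i, J i → F} {p : ∀ i, ℙ k (J i → k)} {y : J i → F}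
    {q : ℙ k (J i → k)} (h : ∀ i', i' ≠ i → DCI57.IsValue v (x i') (p i'))
    (hq : DCI57.IsValue v y q) :
    IsValue v (Function.update x i y) (Function.update p i q) := by
  intro i'
  by_cases hi : i' = i
  · subst hi
    simpa using hq
  · rw [Function.update_of_ne hi, Function.update_of_ne hi]
    exact h i' hi

end

/-- direct images under the inclusion of a fibre -/
lemma push {R : Type w} [Field R] (i : Fin r) (p : ∀ i, ℙ k (J i → k)) {Y : Set (ℙ k (J i → k))}
    {X : Set (∀ i, ℙ k (J i → k))} (h : ∀ q ∈ Y, Function.update p i q ∈ X)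
    {z : ℙ k (J i → k) →₀ R} (hz : z ∈ DCI57.ratEquiv R Y) :
    z.mapDomain (Function.update p i) ∈ ratEquiv R X := by
  have hle : DCI57.ratEquiv R Y ≤
      (ratEquiv R X).comap (Finsupp.lmapDomain R R (Function.update p i)) := by
    conv_lhs => rw [DCI57.ratEquiv]
    rw [Submodule.span_le]
    rintro _ ⟨F, _, _, _, _, _, _, x, φ, h1, h2, a, b, v, w, hv, hw, rfl⟩
    rw [SetLike.mem_coe, Submodule.mem_comap, map_sum]
    have h3 : ∀ τ : F ≃ₐ[RatFunc k] F, Finsupp.lmapDomain R R (Function.update p i)
        (Finsupp.single (φ (v.map (τ.restrictScalars k))) 1 -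
          Finsupp.single (φ (w.map (τ.restrictScalars k))) 1) =
        Finsupp.single (Function.update p i (φ (v.map (τ.restrictScalars k)))) 1 -
          Finsupp.single (Function.update p i (φ (w.map (τ.restrictScalars k)))) 1 := by
      intro τ
      rw [map_sub, Finsupp.lmapDomain_apply, Finsupp.lmapDomain_apply, Finsupp.mapDomain_single,
        Finsupp.mapDomain_single]
    rw [Finset.sum_congr rfl fun τ _ => h3 τ]
    exact gen_mem (R := R)
      (x := Function.update (fun i' j => algebraMap k F ((p i').rep j)) i x)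
      (φ := fun v => Function.update p i (φ v))
      (fun v => IsValue.update (fun i' _ => isValue_const v (p i')) (h1 v))
      (fun v => h _ (h2 v)) hv hw
  exact hle hz

variable [∀ i, Fintype (J i)] [∀ i, DecidableEq (J i)] [NeZero m] {R : Type w} [Field R]
  [CharZero R] [Fintype L]

omit [∀ i, Fintype (J i)] [∀ i, DecidableEq (J i)] in
/-- elements of the `i`-th factor of the group -/
lemma update_act (ζ : kˣ) (i : Fin r) (p : ∀ i, ℙ k (J i → k)) (t : J i → ZMod m) :
    act ζ (fun x => Function.update (fun (i' : Fin r) (_ : J i') => (0 : ZMod m)) i t x.1 x.2) p =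
      Function.update p i (DCI57.act ζ t (p i)) := by
  funext i'
  unfold act
  by_cases h : i' = i
  · subst h
    simp
  · rw [Function.update_of_ne h]
    simp only [Function.update_of_ne h]
    exact DCI57.act_zero ζ (p i')

/-- points which differ only in one component -/
theorem fiber [IsAlgClosed k] [CharZero k] {ζ : kˣ} (hζ : IsPrimitiveRoot (ζ : k) m)
    {f : L → MvPolynomial (Σ i, J i) k} {δ : L → Fin r → ℕ}
    (hf : ∀ l, IsMultihomogeneous (f l) (δ l)) (i : Fin r)
    (hcard : ∑ l, δ l i < Fintype.card (J i)) {p q : ∀ i, ℙ k (J i → k)}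
    (hp : p ∈ Zeros m f) (hq : q ∈ Zeros m f) (hpq : ∀ i', i' ≠ i → p i' = q i')
    {ψ : AddChar ((Σ i, J i) → ZMod m) R} (hψ : ∀ t, (∀ x, x.1 ≠ i → t x = 0) → ψ t = 1) :
    op ζ ψ (Finsupp.single p 1) - op ζ ψ (Finsupp.single q 1) ∈ ratEquiv R (Zeros m f) := by
  classical
  have hζ1 : ζ ^ m = 1 := by
    apply Units.ext
    push_cast
    exact hζ.pow_eq_one
  have hq' : q = Function.update p i (q i) := by
    funext i'
    by_cases h : i' = i
    · subst h
      simp
    · rw [Function.update_of_ne h, hpq i' h]
  have hp' : p = Function.update p i (p i) := (Function.update_eq_self i p).symm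
  set e := Fintype.equivFin {l // δ l i ≠ 0} with he
  set f' : Fin (Fintype.card {l // δ l i ≠ 0}) → MvPolynomial (J i) k :=
    fun s => spec i (fun i' j => (p i').rep j ^ m) (f (e.symm s)) with hf'
  have hmem : ∀ q : ℙ k (J i → k), q ∈ DCIG.Zeros m f' ↔ Function.update p i q ∈ Zeros m f := by
    intro q
    rw [update_mem_iff]
    unfold DCIG.Zeros
    rw [Set.mem_ofPred_eq]
    constructor
    · intro h l
      by_cases hl : δ l i = 0
      · rw [eval_spec, aeval_congr (hf l) hl (w := fun x : (Σ i, J i) => (p x.1).rep x.2 ^ m)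
          (fun x hx => by rw [Function.update_of_ne hx])]
        exact hp l
      · have := h (e ⟨l, hl⟩)
        simpa [hf'] using this
    · intro h s
      exact h (e.symm s)
  have h1 := DCIG.trivial_part (R := R) hζ (f := f') (d := fun s => δ (e.symm s) i)
    (fun s => spec_homogeneous i _ (hf _)) (fun s => (e.symm s).2)
    (by
      rw [Equiv.sum_comp e.symm fun l : {l // δ l i ≠ 0} => δ l i]
      refine lt_of_le_of_lt ?_ hcard
      rw [← Finset.sum_subtype (Finset.univ.filter fun l => δ l i ≠ 0) (by simp)
        fun l => δ l i]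
      exact Finset.sum_le_sum_of_subset (Finset.filter_subset _ _)) (p := p i) (q := q i)
    ((hmem _).2 (by rwa [← hp'])) ((hmem _).2 (by rwa [← hq']))
    (ψ := 1) (fun t => AddChar.one_apply t)
  have h2 := push i p (X := Zeros m f) (fun q hq => (hmem q).1 hq) h1
  have h3 := op_mem (ζ := ζ) ψ (X := Zeros m f) (fun g p hp => act_mem hf hζ1 hp g) h2
  have key : ∀ q ∈ Zeros m f, (∀ i', i' ≠ i → p i' = q i') →
      op ζ ψ (((DCI57.op ζ (1 : AddChar (J i → ZMod m) R)) (Finsupp.single (q i) 1)).mapDomain
        (Function.update p i)) =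
        (Fintype.card (J i → ZMod m) : R) • op ζ ψ (Finsupp.single q 1) := by
    intro q hq hpq
    rw [DCI57.op_single, Finsupp.mapDomain_finsetSum, map_sum]
    have h4 : ∀ t : J i → ZMod m, op ζ ψ ((Finsupp.single (DCI57.act ζ t (q i))
        ((1 : AddChar (J i → ZMod m) R) t)).mapDomain (Function.update p i)) =
        op ζ ψ (Finsupp.single q 1) := by
      intro t
      rw [Finsupp.mapDomain_single, AddChar.one_apply]
      have h5 : Function.update p i (DCI57.act ζ t (q i)) = act ζ (fun x =>
          Function.update (fun (i' : Fin r) (_ : J i') => (0 : ZMod m)) i t x.1 x.2) q := by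
        rw [update_act]
        funext i'
        by_cases h : i' = i
        · subst h
          simp
        · rw [Function.update_of_ne h, Function.update_of_ne h, hpq i' h]
      rw [h5, ← op_act hζ1 ψ _ q, hψ, one_smul]
      rintro ⟨i', j⟩ hi
      simp [Function.update_of_ne hi]
    rw [Finset.sum_congr rfl fun t _ => h4 t, Finset.sum_const, Finset.card_univ,
      Nat.cast_smul_eq_nsmul]
  rw [Finsupp.mapDomain_sub, map_sub, key p hp fun _ _ => rfl, key q hq hpq, ← smul_sub] at h3
  exact (Submodule.smul_mem_iff _ (Nat.cast_ne_zero.2 Fintype.card_ne_zero)).1 h3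

end Pool.Agent.MPC
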