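import Pool.Agent.MPC.FracM

/-!
# Fractional packings for several factors with different moduli: the general statement
-/

open Finset Filter Topology

namespace Pool.Agent.MPC

open Pool.Agent.SavChen

variable {m : ℕ} [NeZero m]

/-- a minimal function which is as small as possible at a unit is the function of a unit -/
lemma IsMin.eq_zf {y : ZMod m → ℝ} (hy : IsMin y) (u : (ZMod m)ˣ)
    (h : y ((u⁻¹ : (ZMod m)ˣ) : ZMod m) = 1 / m) (x : ZMod m) : y x = zf u x := by
  have h1 : ∀ z, y z ≤ zf u z := by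
    intro z
    have h2 := hy.le_val u z
    rw [h] at h2
    unfold zf
    calc y z ≤ ((u : ZMod m) * z).val * (1 / m) := h2
      _ = (((u : ZMod m) * z).val : ℝ) / m := by ring
  by_cases hx : x = 0
  · rw [hx, hy.zero, (zf_isMin u).zero]
  · apply le_antisymm (h1 x)
    have h2 := h1 (-x)
    have h3 := hy.symm x hx
    have h4 := (zf_isMin u).symm x hx
    linarith

/-- an element with the smallest possible value gives a unit modulo its order -/
lemma exists_item {y : ZMod m → ℝ} (hy : IsMin y) {a : ZMod m} (ha : a ≠ 0) {d o W : ℕ}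
    (hd : d ∣ m) (ho : 0 < o) (hoa : (o : ZMod m) * a = 0) (hWo : W * o ≤ d)
    (hya : (d : ℝ) * y a = W) :
    ∃ (e : ℕ) (he : e ∣ m) (_ : NeZero e) (u : (ZMod e)ˣ), (∀ x, y (inc e m x) = zf u x) ∧
      ∀ v : (ZMod m)ˣ, ZMod.unitsMap he v = u → d * ((v : ZMod m) * a).val = m * W := by
  have hm0 : 0 < m := NeZero.pos m
  have hmR : (0 : ℝ) < m := by exact_mod_cast hm0
  have hd0 : 0 < d := Nat.pos_of_dvd_of_pos hd hm0
  have hdR : (0 : ℝ) < d := by exact_mod_cast hd0
  set e := addOrderOf a with he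
  have hem : e ∣ m := by
    rw [he]
    apply addOrderOf_dvd_of_nsmul_eq_zero
    simp
  have he0 : 0 < e := Nat.pos_of_dvd_of_pos hem hm0
  have heR : (0 : ℝ) < e := by exact_mod_cast he0
  have heo : e ∣ o := by
    rw [he]
    apply addOrderOf_dvd_of_nsmul_eq_zero
    rw [nsmul_eq_mul, hoa]
  have heo' : e ≤ o := Nat.le_of_dvd ho heo
  have : NeZero e := ⟨he0.ne'⟩
  have hea : (e : ZMod m) * a = 0 := by
    rw [← nsmul_eq_mul, he, addOrderOf_nsmul_eq_zero]
  obtain ⟨b, hb⟩ := exists_inc hem hea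
  -- the value of `y` at `a`
  have h1 : (1 : ℝ) ≤ e * y a := by
    have h2 : (((m / e : ℕ)) : ℝ) ≤ m * y a :=
      hy.feas.weight ha he0 hea (Nat.div_mul_cancel hem).le
    have h3 : ((m / e : ℕ) : ℝ) * e = m := by exact_mod_cast Nat.div_mul_cancel hem
    have h4 : (0 : ℝ) < ((m / e : ℕ) : ℝ) := by
      have : 0 < m / e := Nat.div_pos (Nat.le_of_dvd hm0 hem) he0
      exact_mod_cast this
    rw [← h3] at h2
    have h5 : ((m / e : ℕ) : ℝ) * 1 ≤ ((m / e : ℕ) : ℝ) * (e * y a) := by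
      rw [mul_one, ← mul_assoc]
      exact h2
    exact le_of_mul_le_mul_left h5 h4
  have h2 : (W : ℝ) * e ≤ d := by
    have h3 : W * e ≤ d := (Nat.mul_le_mul_left W heo').trans hWo
    exact_mod_cast h3
  have h3 : (W : ℝ) * e = d := by
    apply le_antisymm h2
    have h4 : (d : ℝ) * 1 ≤ d * (e * y a) := mul_le_mul_of_nonneg_left h1 hdR.le
    calc (d : ℝ) = d * 1 := by ring
      _ ≤ d * (e * y a) := h4
      _ = W * e := by rw [← hya]; ring
  have h4 : y a = 1 / e := by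
    rw [eq_div_iff heR.ne']
    have h5 : (d : ℝ) * (y a * e) = d * 1 := by
      calc (d : ℝ) * (y a * e) = d * y a * e := by ring
        _ = d * 1 := by rw [hya, h3, mul_one]
    exact mul_left_cancel₀ hdR.ne' h5
  -- the unit
  have hbu : IsUnit b := by
    have h5 : addOrderOf b = e := by
      apply Nat.dvd_antisymm
      · apply addOrderOf_dvd_of_nsmul_eq_zero
        simp
      · have h6 : addOrderOf a ∣ addOrderOf b := by
          apply addOrderOf_dvd_of_nsmul_eq_zero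
          have h7 : ((addOrderOf b : ℕ) : ZMod e) * b = 0 := by
            rw [← nsmul_eq_mul, addOrderOf_nsmul_eq_zero]
          have h8 : ((addOrderOf b : ℕ) : ZMod m) * a = 0 := by
            rw [← hb, ← inc_natCast_mul hem, h7, inc_zero]
          rw [nsmul_eq_mul]
          exact h8
        exact h6
    have h6 : (b.val : ZMod e) = b := by simp
    rw [← h6]
    by_cases he1 : e = 1
    · have : Subsingleton (ZMod e) := by
        rw [he1]
        infer_instance
      exact isUnit_of_subsingleton _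
    rw [ZMod.isUnit_iff_coprime]
    have h7 := ZMod.addOrderOf_coe' (n := e) (a := b.val) (by
      intro h8
      have h9 : b = 0 := (ZMod.val_eq_zero _).1 h8
      rw [h9, addOrderOf_zero] at h5
      exact he1 h5.symm)
    rw [h6, h5] at h7
    have h8 : Nat.gcd e b.val ∣ e := Nat.gcd_dvd_left _ _
    have h9 : e / Nat.gcd e b.val * Nat.gcd e b.val = e := Nat.div_mul_cancel h8
    rw [← h7] at h9
    have h10 : Nat.gcd e b.val = 1 := by
      have : e * Nat.gcd e b.val = e * 1 := by rw [h9, mul_one]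
      exact Nat.eq_of_mul_eq_mul_left he0 this
    rw [Nat.coprime_comm]
    exact h10
  obtain ⟨c, hc⟩ := hbu
  refine ⟨e, hem, this, c⁻¹, fun x => ?_, fun v hv => ?_⟩
  · apply (hy.inc hem).eq_zf c⁻¹
    rw [inv_inv, hc, hb, h4]
  · have h5 : (v : ZMod m) * a = inc e m 1 := by
      rw [← hb, inc_units hem, hv, ← hc, Units.inv_mul]
    have h6 : ((v : ZMod m) * a).val = m / e := by
      rw [h5, inc_val hem]
      rcases Nat.lt_or_ge 1 e with h7 | h7
      · have : Fact (1 < e) := ⟨h7⟩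
        rw [ZMod.val_one, mul_one]
      · exfalso
        have h8 : e = 1 := le_antisymm h7 he0
        rw [h8, Nat.cast_one, one_mul] at hea
        exact ha hea
    have h7 : W * e = d := by exact_mod_cast h3
    rw [h6, ← h7]
    have h8 : m / e * e = m := Nat.div_mul_cancel hem
    calc W * e * (m / e) = W * (m / e * e) := by ring
      _ = m * W := by rw [h8, mul_comm]

/-- **Gluing of units.** -/
theorem glue {P : Type} [Fintype P] {y : ZMod m → ℝ} (e : P → ℕ)
    [∀ p, NeZero (e p)] (he : ∀ p, e p ∣ m) (u w : ∀ p, (ZMod (e p))ˣ) (l : P → ℝ)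
    (hl0 : ∀ p, 0 < l p) (hl1 : ∀ p, l p ≤ 1)
    (hform : ∀ p x, y (inc (e p) m x) = l p * zf (u p) x + (1 - l p) * zf (w p) x)
    (hcase : ∀ p, l p = 1 ∨ ((w p : ZMod (e p)) = 2 * u p ∧ Odd (e p)))
    (h3 : ∀ p q, l p = 1 ∨ l q = 1 ∨ (3 ∣ e p ↔ 3 ∣ e q)) :
    ∃ v : (ZMod m)ˣ, ∀ p, ZMod.unitsMap (he p) v = u p ∨ ZMod.unitsMap (he p) v = w p := by
  classical
  have hm0 : 0 < m := NeZero.pos m
  have hw2 : ∀ p, l p ≠ 1 → (w p : ZMod (e p)) = 2 * u p ∧ Odd (e p) := fun p hp =>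
    (hcase p).resolve_left hp
  -- the formula on a smaller subgroup
  have hrestr : ∀ p (g : ℕ) [NeZero g] (hg : g ∣ e p) (x : ZMod g), y (inc g m x) =
      l p * zf (ZMod.unitsMap hg (u p)) x + (1 - l p) * zf (ZMod.unitsMap hg (w p)) x := by
    intro p g _ hg x
    rw [← zf_inc hg, ← zf_inc hg, ← hform p, inc_inc (he p) hg]
  have hw2' : ∀ p (g : ℕ) (hg : g ∣ e p), l p ≠ 1 →
      ((ZMod.unitsMap hg (w p) : (ZMod g)ˣ) : ZMod g) = 2 * (ZMod.unitsMap hg (u p) : (ZMod g)ˣ) := by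
    intro p g hg hp
    rw [ZMod.unitsMap_val, ZMod.unitsMap_val, (hw2 p hp).1]
    have h5 := map_mul (ZMod.castHom hg (ZMod g)) 2 (u p : ZMod (e p))
    rw [map_ofNat] at h5
    simpa using h5
  -- a mixture and a pure function
  have hmix : ∀ p q (g : ℕ), 1 < g → g ∣ e p → g ∣ e q → l q = 1 → l p = 1 := by
    intro p q g hg1 hgp hgq hq
    by_contra hp
    have : Fact (1 < g) := ⟨hg1⟩
    have : NeZero g := ⟨by omega⟩
    have hodd : Odd g := Odd.of_dvd_nat (hw2 p hp).2 hgp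
    refine hp (no_mixture hodd (hl0 p) (hl1 p) (hw2' p g hgp hp) (u' := ZMod.unitsMap hgq (u q))
      (w' := ZMod.unitsMap hgq (w q)) fun x => ?_)
    rw [← hrestr p g hgp x, hrestr q g hgq x, hq]
  -- uniqueness
  have huniq : ∀ p q (g : ℕ) [NeZero g] (hgp : g ∣ e p) (hgq : g ∣ e q),
      (g ≠ 3 ∨ (l p = 1 ∧ l q = 1)) → ZMod.unitsMap hgp (u p) = ZMod.unitsMap hgq (u q) := by
    intro p q g _ hgp hgq hg3
    refine unique_unit (hl0 p) (hl1 p) (hl0 q) (hl1 q) (fun x => by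
      rw [← hrestr p g hgp x, ← hrestr q g hgq x]) ?_ ?_
    · by_cases hp : l p = 1
      · exact Or.inl hp
      · exact Or.inr ⟨hw2' p g hgp hp, Odd.of_dvd_nat (hw2 p hp).2 hgp,
          hg3.resolve_right fun h => hp h.1⟩
    · by_cases hq : l q = 1
      · exact Or.inl hq
      · exact Or.inr ⟨hw2' q g hgq hq, Odd.of_dvd_nat (hw2 q hq).2 hgq,
          hg3.resolve_right fun h => hq h.2⟩
  -- the choice of the units
  have hchoice : ∃ c : ∀ p, (ZMod (e p))ˣ, (∀ p, c p = u p ∨ c p = w p) ∧ ∀ p q,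
      ((c p : ZMod (e p)).val) ≡ ((c q : ZMod (e q)).val) [MOD Nat.gcd (e p) (e q)] := by
    -- from units modulo the gcd to numbers
    have hconv : ∀ p q (cp : (ZMod (e p))ˣ) (cq : (ZMod (e q))ˣ),
        ZMod.unitsMap (Nat.gcd_dvd_left (e p) (e q)) cp =
          ZMod.unitsMap (Nat.gcd_dvd_right (e p) (e q)) cq →
        ((cp : ZMod (e p)).val) ≡ ((cq : ZMod (e q)).val) [MOD Nat.gcd (e p) (e q)] := by
      intro p q cp cq h
      have h2 := congrArg (fun v : (ZMod (Nat.gcd (e p) (e q)))ˣ =>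
        (v : ZMod (Nat.gcd (e p) (e q)))) h
      simp only [ZMod.unitsMap_val] at h2
      rw [ZMod.cast_eq_val, ZMod.cast_eq_val, ZMod.natCast_eq_natCast_iff] at h2
      exact h2
    have hgne : ∀ p q, NeZero (Nat.gcd (e p) (e q)) := fun p q =>
      ⟨(Nat.gcd_pos_of_pos_left _ (NeZero.pos (e p))).ne'⟩
    by_cases hI : ∀ p, l p = 1 ∨ ¬ 3 ∣ e p
    · refine ⟨u, fun p => Or.inl rfl, fun p q => hconv p q _ _ ?_⟩
      have := hgne p q
      apply huniq p q _ (Nat.gcd_dvd_left _ _) (Nat.gcd_dvd_right _ _)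
      by_cases hg3 : Nat.gcd (e p) (e q) = 3
      · right
        exact ⟨(hI p).resolve_right (not_not.2 (hg3 ▸ Nat.gcd_dvd_left (e p) (e q))),
          (hI q).resolve_right (not_not.2 (hg3 ▸ Nat.gcd_dvd_right (e p) (e q)))⟩
      · exact Or.inl hg3
    · push Not at hI
      obtain ⟨p₀, hp₀, h3p₀⟩ := hI
      have hiff : ∀ q, l q ≠ 1 ↔ 3 ∣ e q := by
        intro q
        constructor
        · intro hq
          rcases h3 p₀ q with h | h | h
          · exact absurd h hp₀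
          · exact absurd h hq
          · exact h.1 h3p₀
        · intro h3q hq
          exact hp₀ (hmix p₀ q 3 (by norm_num) h3p₀ h3q hq)
      -- the unit which is one modulo three
      have hthree : ∀ q (h3q : 3 ∣ e q), l q ≠ 1 → ∃ c : (ZMod (e q))ˣ, (c = u q ∨ c = w q) ∧
          ZMod.unitsMap h3q c = 1 ∧ (c = u q ↔ ZMod.unitsMap h3q (u q) = 1) := by
        intro q h3q hq
        have h4 := hw2' q 3 h3q hq
        by_cases h5 : ZMod.unitsMap h3q (u q) = 1
        · exact ⟨u q, Or.inl rfl, h5, iff_of_true rfl h5⟩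
        · have h6 : ∀ a b : (ZMod 3)ˣ, (b : ZMod 3) = 2 * a → a ≠ 1 → b = 1 := by decide
          have h7 := h6 _ _ h4 h5
          refine ⟨w q, Or.inr rfl, h7, iff_of_false ?_ h5⟩
          intro h8
          rw [h8] at h7
          exact h5 h7
      have hcex : ∀ q, ∃ c : (ZMod (e q))ˣ, (c = u q ∨ c = w q) ∧ (l q = 1 → c = u q) ∧
          ∀ h3q : 3 ∣ e q, l q ≠ 1 → ZMod.unitsMap h3q c = 1 ∧
            (c = u q ↔ ZMod.unitsMap h3q (u q) = 1) := by
        intro q
        by_cases hq : l q = 1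
        · exact ⟨u q, Or.inl rfl, fun _ => rfl, fun _ h => absurd hq h⟩
        · obtain ⟨c, hc1, hc2, hc3⟩ := hthree q ((hiff q).1 hq) hq
          exact ⟨c, hc1, fun h => absurd h hq, fun _ _ => ⟨hc2, hc3⟩⟩
      choose c hc1 hc2 hc3 using hcex
      refine ⟨c, hc1, fun p q => hconv p q _ _ ?_⟩
      have := hgne p q
      by_cases hp : l p = 1
      · by_cases hq : l q = 1
        · rw [hc2 p hp, hc2 q hq]
          exact huniq p q _ _ _ (Or.inr ⟨hp, hq⟩)
        · -- the gcd is one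
          have hg1 : Nat.gcd (e p) (e q) = 1 := by
            by_contra hg
            have h4 : 1 < Nat.gcd (e p) (e q) := by
              have := NeZero.pos (Nat.gcd (e p) (e q))
              omega
            exact hq (hmix q p _ h4 (Nat.gcd_dvd_right _ _) (Nat.gcd_dvd_left _ _) hp)
          have : Subsingleton (ZMod (Nat.gcd (e p) (e q))) := by
            rw [hg1]
            infer_instance
          exact Subsingleton.elim _ _
      · by_cases hq : l q = 1
        · have hg1 : Nat.gcd (e p) (e q) = 1 := by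
            by_contra hg
            have h4 : 1 < Nat.gcd (e p) (e q) := by
              have := NeZero.pos (Nat.gcd (e p) (e q))
              omega
            exact hp (hmix p q _ h4 (Nat.gcd_dvd_left _ _) (Nat.gcd_dvd_right _ _) hq)
          have : Subsingleton (ZMod (Nat.gcd (e p) (e q))) := by
            rw [hg1]
            infer_instance
          exact Subsingleton.elim _ _
        · have h3p := (hiff p).1 hp
          have h3q := (hiff q).1 hq
          have h3g : 3 ∣ Nat.gcd (e p) (e q) := Nat.dvd_gcd h3p h3q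
          obtain ⟨hp1, hp2⟩ := hc3 p h3p hp
          obtain ⟨hq1, hq2⟩ := hc3 q h3q hq
          have hcomp : ∀ (r : P) (hr : Nat.gcd (e p) (e q) ∣ e r) (h3r : 3 ∣ e r)
              (x : (ZMod (e r))ˣ), ZMod.unitsMap h3g (ZMod.unitsMap hr x) = ZMod.unitsMap h3r x := by
            intro r hr h3r x
            have := ZMod.unitsMap_comp h3g hr
            rw [← this]
            rfl
          by_cases hg3 : Nat.gcd (e p) (e q) = 3
          · have hinj : Function.Injective (ZMod.unitsMap h3g) := by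
              intro x x' hx
              have hx' := congrArg (fun v : (ZMod 3)ˣ => (v : ZMod 3)) hx
              simp only [ZMod.unitsMap_val] at hx'
              rw [ZMod.cast_eq_val, ZMod.cast_eq_val, ZMod.natCast_eq_natCast_iff, ← hg3,
                ← ZMod.natCast_eq_natCast_iff] at hx'
              ext
              simpa using hx'
            apply hinj
            rw [hcomp p _ h3p, hcomp q _ h3q, hp1, hq1]
          · have h4 := huniq p q _ (Nat.gcd_dvd_left (e p) (e q)) (Nat.gcd_dvd_right (e p) (e q))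
              (Or.inl hg3)
            have h5 : ZMod.unitsMap h3p (u p) = ZMod.unitsMap h3q (u q) := by
              rw [← hcomp p (Nat.gcd_dvd_left (e p) (e q)) h3p,
                ← hcomp q (Nat.gcd_dvd_right (e p) (e q)) h3q, h4]
            by_cases h6 : ZMod.unitsMap h3p (u p) = 1
            · rw [hp2.2 h6, hq2.2 (h5 ▸ h6), h4]
            · have h7 : c p = w p := (hc1 p).resolve_left fun h => h6 (hp2.1 h)
              have h8 : c q = w q := (hc1 q).resolve_left fun h => h6 (h5 ▸ hq2.1 h)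
              rw [h7, h8]
              ext
              rw [hw2' p _ _ hp, hw2' q _ _ hq, h4]
  obtain ⟨c, hc, hpair⟩ := hchoice
  obtain ⟨t, ht⟩ := Pool.Agent.WBP.exists_crt Finset.univ e
    (fun p => (c p : ZMod (e p)).val) (fun p _ q _ => hpair p q)
  have hcop : ∀ A : Finset P, Nat.Coprime t (A.lcm e) := by
    intro A
    induction A using Finset.induction_on with
    | empty => simp
    | insert p A _ ih =>
      rw [Finset.lcm_insert]
      apply Nat.Coprime.coprime_dvd_right (Nat.lcm_dvd_mul _ _)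
      apply Nat.Coprime.mul_right _ ih
      have h1 := ht p (Finset.mem_univ p)
      have h2 : Nat.Coprime ((c p : ZMod (e p)).val) (e p) := ZMod.val_coe_unit_coprime (c p)
      unfold Nat.Coprime at h2 ⊢
      rw [← h2]
      exact h1.gcd_eq
  obtain ⟨s, hs1, hs2⟩ := Pool.Agent.WBP.exists_coprime_lift hm0
    (Finset.lcm_dvd fun p _ => he p : Finset.univ.lcm e ∣ m) (hcop Finset.univ)
  refine ⟨ZMod.unitOfCoprime s hs1, fun p => ?_⟩
  have h1 : ZMod.unitsMap (he p) (ZMod.unitOfCoprime s hs1) = c p := by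
    ext
    rw [ZMod.unitsMap_val, ZMod.coe_unitOfCoprime]
    have h2 : s ≡ (c p : ZMod (e p)).val [MOD e p] :=
      (hs2.of_dvd (Finset.dvd_lcm (Finset.mem_univ p))).trans (ht p (Finset.mem_univ p))
    rw [← ZMod.natCast_eq_natCast_iff] at h2
    rw [ZMod.cast_natCast (he p), h2]
    simp
  rw [h1]
  exact hc p

/-- the trivial item -/
lemma exists_trivial {y : ZMod m → ℝ} (hy : IsMin y) :
    ∃ (e : ℕ) (_ : e ∣ m) (_ : NeZero e) (u w : (ZMod e)ˣ) (l : ℝ), 0 < l ∧ l ≤ 1 ∧ l = 1 ∧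
      (∀ x, y (inc e m x) = l * zf u x + (1 - l) * zf w x) := by
  refine ⟨1, one_dvd m, ⟨one_ne_zero⟩, 1, 1, 1, one_pos, le_rfl, rfl, fun x => ?_⟩
  have h1 : x = 0 := Subsingleton.elim _ _
  rw [h1, inc_zero, hy.zero]
  simp [zf]

/-- elements killed by a divisor have large values -/
lemma IsMin.weight {y : ZMod m → ℝ} (hy : IsMin y) {d : ℕ} (hd : d ∣ m) {x : ZMod m} (hx : x ≠ 0)
    {o W : ℕ} (ho : 0 < o) (hox : (o : ZMod m) * x = 0) (hW : W * o ≤ d) :
    (W : ℝ) ≤ d * y x := by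
  have hm0 : 0 < m := NeZero.pos m
  have hd0 : 0 < d := Nat.pos_of_dvd_of_pos hd hm0
  have h1 : m / d * d = m := Nat.div_mul_cancel hd
  have h2 : ((m / d * W : ℕ) : ℝ) ≤ m * y x := by
    apply hy.feas.weight hx ho hox
    calc m / d * W * o = m / d * (W * o) := by ring
      _ ≤ m / d * d := Nat.mul_le_mul_left _ hW
      _ = m := h1
  have h3 : (m : ℝ) = ((m / d : ℕ) : ℝ) * d := by exact_mod_cast h1.symm
  have h4 : (0 : ℝ) < ((m / d : ℕ) : ℝ) := by
    have : 0 < m / d := Nat.div_pos (Nat.le_of_dvd hm0 hd) hd0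
    exact_mod_cast this
  rw [Nat.cast_mul, h3, mul_assoc] at h2
  exact le_of_mul_le_mul_left h2 h4

/-- **Fractional packings for several factors with different moduli, general form.** -/
theorem frac_general {ι : Type} [Fintype ι] {J : ι → Type} [∀ i, Fintype (J i)]
    [DecidableEq (Σ i, J i)] (a : (Σ i, J i) → ZMod m) (ha : ∀ x, a x ≠ 0)
    (hsum : ∀ i, ∑ j, a ⟨i, j⟩ = 0) (d : ι → ℕ) (hd : ∀ i, d i ∣ m)
    (hda : ∀ x, (d x.1 : ZMod m) * a x = 0) (κ : ι → ℕ) (W : (Σ i, J i) → ℕ)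
    (hW : ∀ x, ∃ o : ℕ, 0 < o ∧ (o : ZMod m) * a x = 0 ∧ W x * o ≤ d x.1)
    (hN : ∀ i, d i * κ i < ∑ j, max 2 (W ⟨i, j⟩) ∨ d i * κ i ≤ ∑ j, W ⟨i, j⟩)
    (h3 : ∀ i i', (Even (d i) ∨ (d i + 1) * κ i < ∑ j, max 2 (W ⟨i, j⟩) ∨
        d i * κ i ≤ ∑ j, W ⟨i, j⟩) ∨
      (Even (d i') ∨ (d i' + 1) * κ i' < ∑ j, max 2 (W ⟨i', j⟩) ∨
        d i' * κ i' ≤ ∑ j, W ⟨i', j⟩) ∨ (3 ∣ d i ↔ 3 ∣ d i'))
    (hq : ∀ (u : (ZMod m)ˣ) i, m * κ i ≤ ∑ j, ((u : ZMod m) * a ⟨i, j⟩).val) :
    (∃ u : (ZMod m)ˣ, ∀ i, ∑ j, ((u : ZMod m) * a ⟨i, j⟩).val = m * κ i) ∨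
      ∃ D, 0 < D ∧ Splits (fun w : (Σ i, J i) × Fin D => a w.1) Finset.univ
        (D * ∑ i, κ i + 1) := by
  classical
  by_contra hcon
  push Not at hcon
  obtain ⟨hnu, hns⟩ := hcon
  have hm0 : 0 < m := NeZero.pos m
  have hdne : ∀ i, NeZero (d i) := fun i => ⟨(Nat.pos_of_dvd_of_pos (hd i) hm0).ne'⟩
  have hdR : ∀ i, (0 : ℝ) < d i := fun i => by exact_mod_cast NeZero.pos (d i)
  obtain ⟨y, hy, hyS⟩ := exists_isMin a (by
    rw [Fintype.sum_sigma]
    exact Finset.sum_eq_zero fun i _ => hsum i) (∑ i, κ i) hns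
  choose b hb using fun (i : ι) (j : J i) => exists_inc (hd i) (hda ⟨i, j⟩)
  have hval : ∀ (u : (ZMod m)ˣ) i, ∑ j, ((u : ZMod m) * a ⟨i, j⟩).val =
      m / d i * ∑ j, (((ZMod.unitsMap (hd i) u : (ZMod (d i))ˣ) : ZMod (d i)) * b i j).val := by
    intro u i
    rw [Finset.mul_sum]
    apply Finset.sum_congr rfl
    intro j _
    rw [← hb i j, inc_units (hd i), inc_val (hd i)]
  have hdm : ∀ i, 0 < m / d i := fun i =>
    Nat.div_pos (Nat.le_of_dvd hm0 (hd i)) (NeZero.pos (d i))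
  have hE : ∀ i, d i * κ i < ∑ j, max 2 (W ⟨i, j⟩) → Ext (b i) (κ i) (fun j => W ⟨i, j⟩) := by
    intro i hi
    refine ⟨fun j h0 => ha ⟨i, j⟩ ?_, fun j => ?_, hi, fun v => ?_⟩
    · rw [← hb i j, h0, inc_zero]
    · obtain ⟨o, ho, ho1, ho2⟩ := hW ⟨i, j⟩
      refine ⟨o, ho, inc_eq_zero (hd i) ?_, ho2⟩
      rw [inc_natCast_mul (hd i), hb i j, ho1]
    · obtain ⟨u, hu⟩ := ZMod.unitsMap_surjective (hd i) v
      have h1 := hq u i
      rw [hval u i, hu] at h1
      apply Nat.le_of_mul_le_mul_left _ (hdm i)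
      rw [← mul_assoc, Nat.div_mul_cancel (hd i)]
      exact h1
  have hmin : ∀ i, IsMin (fun x => y (inc (d i) m x)) := fun i => hy.inc (hd i)
  have hsvi : ∀ i, sv (b i) (fun x => y (inc (d i) m x)) = ∑ j, y (a ⟨i, j⟩) := by
    intro i
    unfold sv
    apply Finset.sum_congr rfl
    intro j _
    exact congrArg y (hb i j)
  have hwt : ∀ i j, (W ⟨i, j⟩ : ℝ) ≤ d i * y (a ⟨i, j⟩) := by
    intro i j
    obtain ⟨o, ho, ho1, ho2⟩ := hW ⟨i, j⟩
    exact hy.weight (hd i) (ha ⟨i, j⟩) ho ho1 ho2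
  have hge : ∀ i, (κ i : ℝ) ≤ ∑ j, y (a ⟨i, j⟩) := by
    intro i
    by_cases hB : d i * κ i ≤ ∑ j, W ⟨i, j⟩
    · have h1 : (d i : ℝ) * κ i ≤ d i * ∑ j, y (a ⟨i, j⟩) := by
        calc (d i : ℝ) * κ i = ((d i * κ i : ℕ) : ℝ) := by push_cast; ring
          _ ≤ ((∑ j, W ⟨i, j⟩ : ℕ) : ℝ) := by exact_mod_cast hB
          _ = ∑ j, (W ⟨i, j⟩ : ℝ) := by push_cast; rfl
          _ ≤ ∑ j, d i * y (a ⟨i, j⟩) := Finset.sum_le_sum fun j _ => hwt i j
          _ = d i * ∑ j, y (a ⟨i, j⟩) := by rw [Finset.mul_sum]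
      exact le_of_mul_le_mul_left h1 (hdR i)
    · rw [← hsvi i]
      exact (hE i ((hN i).resolve_right hB)).sv_ge (hmin i)
  have heq : ∀ i, ∑ j, y (a ⟨i, j⟩) = κ i := by
    have h1 : ∑ i, (κ i : ℝ) = ∑ i, ∑ j, y (a ⟨i, j⟩) := by
      apply le_antisymm (Finset.sum_le_sum fun i _ => hge i)
      unfold sv at hyS
      rw [Fintype.sum_sigma] at hyS
      push_cast at hyS
      exact hyS
    intro i
    exact ((Finset.sum_eq_sum_iff_of_le fun i _ => hge i).1 h1 i (Finset.mem_univ i)).symm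
  have hBeq : ∀ i, d i * κ i ≤ ∑ j, W ⟨i, j⟩ → (∀ j, (d i : ℝ) * y (a ⟨i, j⟩) = W ⟨i, j⟩) ∧
      ∑ j, W ⟨i, j⟩ = d i * κ i := by
    intro i hB
    have h1 : ∑ j, (W ⟨i, j⟩ : ℝ) = ∑ j, d i * y (a ⟨i, j⟩) := by
      apply le_antisymm (Finset.sum_le_sum fun j _ => hwt i j)
      rw [← Finset.mul_sum, heq i]
      exact_mod_cast hB
    refine ⟨fun j => ?_, ?_⟩
    · exact ((Finset.sum_eq_sum_iff_of_le fun j _ => hwt i j).1 h1 j (Finset.mem_univ j)).symm
    · rw [← Finset.mul_sum, heq i] at h1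
      exact_mod_cast h1
  -- the items
  have hitem : ∀ p : Σ i, Option (J i), ∃ (e : ℕ) (he : e ∣ m) (_ : NeZero e) (u w : (ZMod e)ˣ)
      (l : ℝ), 0 < l ∧ l ≤ 1 ∧ (∀ x, y (inc e m x) = l * zf u x + (1 - l) * zf w x) ∧
      (l = 1 ∨ ((w : ZMod e) = 2 * u ∧ Odd e)) ∧
      (l = 1 ∨ (¬ (Even (d p.1) ∨ (d p.1 + 1) * κ p.1 < ∑ j, max 2 (W ⟨p.1, j⟩) ∨
        d p.1 * κ p.1 ≤ ∑ j, W ⟨p.1, j⟩) ∧ (3 ∣ e ↔ 3 ∣ d p.1))) ∧
      ∀ v : (ZMod m)ˣ, (ZMod.unitsMap he v = u ∨ ZMod.unitsMap he v = w) →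
        (¬ d p.1 * κ p.1 ≤ ∑ j, W ⟨p.1, j⟩ → p.2 = none →
          ∑ j, ((v : ZMod m) * a ⟨p.1, j⟩).val = m * κ p.1) ∧
        (d p.1 * κ p.1 ≤ ∑ j, W ⟨p.1, j⟩ → ∀ j, p.2 = some j →
          d p.1 * ((v : ZMod m) * a ⟨p.1, j⟩).val = m * W ⟨p.1, j⟩) := by
    rintro ⟨i, o⟩
    by_cases hB : d i * κ i ≤ ∑ j, W ⟨i, j⟩
    · rcases o with _ | j
      · obtain ⟨e, he, hne, u, w, l, h0, h1, h2, h4⟩ := exists_trivial hy
        exact ⟨e, he, hne, u, w, l, h0, h1, h4, Or.inl h2, Or.inl h2, fun v _ =>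
          ⟨fun h => absurd hB h, fun _ j hj => by simp at hj⟩⟩
      · obtain ⟨o, ho, ho1, ho2⟩ := hW ⟨i, j⟩
        obtain ⟨e, he, hne, u, h4, h5⟩ := exists_item hy (ha ⟨i, j⟩) (hd i) ho ho1 ho2
          ((hBeq i hB).1 j)
        refine ⟨e, he, hne, u, u, 1, one_pos, le_rfl, fun x => ?_, Or.inl rfl, Or.inl rfl,
          fun v hv => ⟨fun h => absurd hB h, fun _ j' hj' => ?_⟩⟩
        · rw [h4]
          ring
        · have h6 : j = j' := by simpa using hj'
          subst h6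
          exact h5 v (or_self_iff.1 hv)
    · rcases o with _ | j
      · have hA := (hN i).resolve_right hB
        obtain ⟨u, w, l, h0, h1, hu, hw, hform, hcase⟩ :=
          (hE i hA).structure (hmin i) ((hsvi i).trans (heq i))
        refine ⟨d i, hd i, hdne i, u, w, l, h0, h1, hform, ?_, ?_, fun v hv =>
          ⟨fun _ _ => ?_, fun h => absurd h hB⟩⟩
        · rcases hcase with h | ⟨h4, h5, -⟩
          · exact Or.inl h
          · exact Or.inr ⟨h4, h5⟩
        · rcases hcase with h | ⟨-, h5, h6⟩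
          · exact Or.inl h
          · right
            refine ⟨?_, Iff.rfl⟩
            rintro (h | h | h)
            · exact (Nat.not_even_iff_odd.2 h5) h
            · exact absurd h6 (not_le.2 h)
            · exact hB h
        · change ∑ j, ((v : ZMod m) * a ⟨i, j⟩).val = m * κ i
          rw [hval v i]
          rcases hv with h | h
          · rw [h, (Ext.sv_zf_eq u).1 hu, ← mul_assoc, Nat.div_mul_cancel (hd i)]
          · rw [h, (Ext.sv_zf_eq w).1 hw, ← mul_assoc, Nat.div_mul_cancel (hd i)]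
      · obtain ⟨e, he, hne, u, w, l, h0, h1, h2, h4⟩ := exists_trivial hy
        exact ⟨e, he, hne, u, w, l, h0, h1, h4, Or.inl h2, Or.inl h2, fun v _ =>
          ⟨fun _ h => by simp at h, fun h => absurd h hB⟩⟩
  choose e he hne u w l hl0 hl1 hform hcase hS hprop using hitem
  obtain ⟨v, hv⟩ := glue e he u w l hl0 hl1 hform hcase (fun p q => by
    rcases hS p with h | ⟨h4, h5⟩
    · exact Or.inl h
    · rcases hS q with h | ⟨h6, h7⟩
      · exact Or.inr (Or.inl h)
      · right; right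
        rcases h3 p.1 q.1 with h | h | h
        · exact absurd h h4
        · exact absurd h h6
        · rw [h5, h7, h])
  obtain ⟨i, hi⟩ := hnu v
  apply hi
  by_cases hB : d i * κ i ≤ ∑ j, W ⟨i, j⟩
  · apply Nat.eq_of_mul_eq_mul_left (NeZero.pos (d i))
    rw [Finset.mul_sum]
    calc ∑ j, d i * ((v : ZMod m) * a ⟨i, j⟩).val = ∑ j, m * W ⟨i, j⟩ := by
          apply Finset.sum_congr rfl
          intro j _
          exact (hprop ⟨i, some j⟩ v (hv ⟨i, some j⟩)).2 hB j rfl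
      _ = m * (d i * κ i) := by rw [← Finset.mul_sum, (hBeq i hB).2]
      _ = d i * (m * κ i) := by ring
  · exact (hprop ⟨i, none⟩ v (hv ⟨i, none⟩)).1 hB rfl

end Pool.Agent.MPC
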