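import Pool.Agent.DCI57.Defs

/-!
# Zero-cycles on subvarieties of products of projective spaces: definitions

`k` is an algebraically closed field of characteristic `0`. We consider closed subsets of the product
of the projective spaces with the homogeneous coordinates indexed by `J i`, for `i : Fin r`. The
points of a smooth projective curve with function field `F` are the places of `F/k`
(`Pool.Agent.ZCyc.Place`). A morphism from this curve to the product of the projective spaces is given
by homogeneous coordinates `x i j` in `F`; its value at a point `v` is described by `IsValue`.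
-/

open scoped LinearAlgebra.Projectivization

namespace Pool.Agent.MPC

open Pool.Agent.ZCyc

universe u w

variable {k : Type u} [Field k] {r : ℕ} {J : Fin r → Type}

/-- `p` is the value at the point `v` of the morphism to the product of the projective spaces whose
`i`-th component has the homogeneous coordinates `x i j` (in the function field `F`). -/
def IsValue {F : Type*} [Field F] [Algebra k F] (v : Place k F) (x : ∀ i, J i → F)
    (p : ∀ i, ℙ k (J i → k)) : Prop :=
  ∀ i, DCI57.IsValue v (x i) (p i)

/-- The zero-cycles (with coefficients in `R`, a field of characteristic zero) on the closed subset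
`X` of the product of the projective spaces which are rationally equivalent to zero: the span of the
cycles `φ_* (π^* a - π^* b)`, for all finite Galois coverings `π : D → ℙ¹` of smooth projective
curves, given by extensions `F` of `k(X)`, all points `a` and `b` (`≠ ∞`) of `ℙ¹`, and all morphisms
`φ` from `D` to `X`. Here `π^* a` is the sum of the points `τ v`, for all `τ` in the Galois group,
where `v` is a point of `D` above `a`. -/
noncomputable def ratEquiv (R : Type w) [Field R] (X : Set (∀ i, ℙ k (J i → k))) :
    Submodule R ((∀ i, ℙ k (J i → k)) →₀ R) :=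
  Submodule.span R {z | ∃ (F : Type u) (_ : Field F) (_ : Algebra k F) (_ : Algebra (RatFunc k) F)
    (_ : IsScalarTower k (RatFunc k) F) (_ : FiniteDimensional (RatFunc k) F)
    (_ : IsGalois (RatFunc k) F) (x : ∀ i, J i → F) (φ : Place k F → ∀ i, ℙ k (J i → k))
    (_ : ∀ v, IsValue v x (φ v)) (_ : ∀ v, φ v ∈ X) (a b : k) (v w : Place k F)
    (_ : v.Vanishes (algebraMap (RatFunc k) F (RatFunc.X - RatFunc.C a)))
    (_ : w.Vanishes (algebraMap (RatFunc k) F (RatFunc.X - RatFunc.C b))),
    z = ∑ τ : F ≃ₐ[RatFunc k] F, (Finsupp.single (φ (v.map (τ.restrictScalars k))) 1 -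
      Finsupp.single (φ (w.map (τ.restrictScalars k))) 1)}

/-- The polynomial `f` in the variables `x i j` is multihomogeneous, of degree `δ i` in the variables
of the `i`-th group. -/
def IsMultihomogeneous [∀ i, Fintype (J i)] (f : MvPolynomial (Σ i, J i) k) (δ : Fin r → ℕ) :
    Prop :=
  ∀ n : (Σ i, J i) →₀ ℕ, f.coeff n ≠ 0 → ∀ i, ∑ j, n ⟨i, j⟩ = δ i

/-- The closed subset of the product of the projective spaces given by the equations
`f l (x i j ^ m) = 0`. -/
def Zeros (m : ℕ) {L : Type} (f : L → MvPolynomial (Σ i, J i) k) : Set (∀ i, ℙ k (J i → k)) :=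
  {p | ∀ l, MvPolynomial.eval (fun a => (p a.1).rep a.2 ^ m) (f l) = 0}

/-- The automorphism `[x i j] ↦ [ζ ^ (g i j) * x i j]` of the product of the projective spaces. -/
noncomputable def act {m : ℕ} (ζ : kˣ) (g : (Σ i, J i) → ZMod m) (p : ∀ i, ℙ k (J i → k)) :
    ∀ i, ℙ k (J i → k) :=
  fun i => DCI57.act ζ (fun j => g ⟨i, j⟩) (p i)

end Pool.Agent.MPC
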