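import Pool.Agent.MPC.Step

/-!
# The block criterion for products of projective spaces
-/

open Polynomial
open scoped LinearAlgebra.Projectivization

namespace Pool.Agent.MPC

open Pool.Agent.ZCyc

universe u w

/-- equal products have the same roots -/
lemma card_roots_eq {k : Type u} [Field k] [DecidableEq k] {Ω : Type} [DecidableEq Ω]
    {s t : Finset Ω} (hst : s.card = t.card) {ρ : Ω → k}
    (h : ∏ w ∈ s, (1 + C (ρ w) * X) = ∏ w ∈ t, (1 + C (ρ w) * X)) (v : k) :
    (s.filter fun w => ρ w = v).card = (t.filter fun w => ρ w = v).card := by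
  have key : ∀ F : Finset Ω, (∏ w ∈ F, ((X : k[X]) + C (ρ w) * 1)).roots =
      F.val.map fun w => -ρ w := by
    intro F
    have h1 : ∏ w ∈ F, ((X : k[X]) + C (ρ w) * 1) =
        ((F.val.map fun w => -ρ w).map fun a => X - C a).prod := by
      rw [Multiset.map_map]
      apply Finset.prod_congr rfl
      intro w _
      simp
    rw [h1, roots_multiset_prod_X_sub_C]
  have h2 : ∏ w ∈ s, ((X : k[X]) + C (ρ w) * 1) = ∏ w ∈ t, ((X : k[X]) + C (ρ w) * 1) := by
    have h3 := hmg_prod (s := s) (d := s.card) rfl (A := (1 : k[X])) (B := X) X_ne_zero 1 ρ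
    have h4 := hmg_prod (s := t) (d := s.card) hst.symm (A := (1 : k[X])) (B := X) X_ne_zero 1 ρ
    rw [h, h4] at h3
    simpa using h3.symm
  have h3 : (s.val.map fun w => -ρ w) = t.val.map fun w => -ρ w := by
    rw [← key, ← key, h2]
  have h4 : ∀ F : Finset Ω, (F.filter fun w => ρ w = v).card =
      Multiset.count (-v) (F.val.map fun w => -ρ w) := by
    intro F
    rw [Multiset.count_map]
    change Multiset.card _ = _
    congr 1
    apply Multiset.filter_congr
    intro w _
    rw [neg_inj, eq_comm]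
  rw [h4, h4, h3]

variable {k : Type u} [Field k] {r : ℕ} {J : Fin r → Type} [∀ i, Fintype (J i)]
  [∀ i, DecidableEq (J i)] {m : ℕ} [NeZero m] {L : Type} [Fintype L]

/-- The part of the Chow group of zero-cycles belonging to a character is zero if there is a pattern
with many blocks. -/
theorem vanish [IsAlgClosed k] [CharZero k] {R : Type w} [Field R] [CharZero R] {ζ : kˣ}
    (hζ : IsPrimitiveRoot (ζ : k) m) {f : L → MvPolynomial (Σ i, J i) k} {δ : L → Fin r → ℕ}
    (hf : ∀ l, IsMultihomogeneous (f l) (δ l)) {ω : R} (hω : IsPrimitiveRoot ω m)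
    {a : (Σ i, J i) → ZMod m} {ψ : AddChar ((Σ i, J i) → ZMod m) R}
    (hψ : ∀ t, ψ t = ω ^ (∑ x, a x * t x).val) (hsum : ∀ i, ∑ j, a ⟨i, j⟩ = 0)
    {p : ∀ i, ℙ k (J i → k)} (hp : p ∈ Zeros m f) (n : ℕ) :
    ∀ (Ω 𝔅 : Type) [Fintype Ω] [Fintype 𝔅] [DecidableEq Ω] [DecidableEq 𝔅]
      (s : Ω → Σ i, J i) (b : Ω → 𝔅) (d : Fin r → ℕ),
      Pattern a (fun i => ∑ l, δ l i) s b d → Fintype.card Ω = n →
      op ζ ψ (Finsupp.single p 1) ∈ ratEquiv R (Zeros m f) := by
  classical
  induction n using Nat.strong_induction_on with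
  | _ n ih =>
  intro Ω 𝔅 _ _ _ _ s b d h hn
  have hζ1 : ζ ^ m = 1 := by
    apply Units.ext
    push_cast
    exact hζ.pow_eq_one
  by_cases hpz : ∃ x, a x ≠ 0 ∧ (p x.1).rep x.2 = 0
  · obtain ⟨x, hx, hx0⟩ := hpz
    rw [op_zero_of_rep hζ1 hω hψ hx hx0]
    exact Submodule.zero_mem _
  push Not at hpz
  obtain ⟨w₀⟩ := h.nonempty
  obtain ⟨β, P, hPdeg, hP0, hP, hPf, hne⟩ := exists_curve hf (c := fun x => (p x.1).rep x.2 ^ m)
    hp h.slots w₀ b h.many
  by_cases hcon : ∃ (i : Fin r) (j j' : J i), a ⟨i, j⟩ ≠ 0 ∧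
      C ((p i).rep j' ^ m) * P ⟨i, j⟩ ≠ C ((p i).rep j ^ m) * P ⟨i, j'⟩
  · obtain ⟨i, j, j', hj, hjj⟩ := hcon
    exact step hζ hf hω hψ hsum hpz h hPdeg hP0 hP hPf hj hjj
  push Not at hcon
  -- the curve is constant
  have hβ : β ≠ 0 := by
    rintro rfl
    rcases hne with h1 | ⟨x, hx⟩
    · exact h1 rfl
    apply hx
    have hPa : ∀ x, a x ≠ 0 → P x = C ((p x.1).rep x.2 ^ m) := by
      intro x hx
      rw [hP x hx]
      simp
    by_cases hax : a x = 0
    · obtain ⟨i, j'⟩ := x
      by_cases hd : d i = 0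
      · have h2 := hPdeg ⟨i, j'⟩
        have h3 : (P ⟨i, j'⟩).natDegree = 0 := by
          have : d (⟨i, j'⟩ : Σ i, J i).1 = 0 := hd
          omega
        rw [eq_C_of_natDegree_eq_zero h3, hP0]
      · obtain ⟨j, hj⟩ := h.proper i hd
        have h2 := hcon i j j' hj
        rw [hPa _ hj] at h2
        have h3 : C ((p i).rep j ^ m) ≠ 0 := by
          rw [Ne, C_eq_zero]
          exact pow_ne_zero _ (hpz _ hj)
        apply mul_left_cancel₀ h3
        rw [← h2, mul_comm]
    · exact hPa x hax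
  obtain ⟨v, d', h', hlt⟩ := h.reduce hsum w₀ β hβ (by
    intro i j j' hj hj' v
    have h1 := hcon i j j' hj
    rw [hP _ hj, hP _ hj'] at h1
    have h2 : (∏ w with s w = ⟨i, j⟩, (1 + C (if w = w₀ then 0 else β (b w)) * X)) =
        ∏ w with s w = ⟨i, j'⟩, (1 + C (if w = w₀ then 0 else β (b w)) * X) := by
      have h3 : C ((p i).rep j ^ m) * C ((p i).rep j' ^ m) ≠ 0 := by
        rw [← C_mul, Ne, C_eq_zero]
        exact mul_ne_zero (pow_ne_zero _ (hpz _ hj)) (pow_ne_zero _ (hpz _ hj'))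
      apply mul_left_cancel₀ h3
      have h4 : C ((p i).rep j' ^ m) * (C ((p i).rep j ^ m) * ∏ w with s w = ⟨i, j⟩,
          (1 + C (if w = w₀ then 0 else β (b w)) * X)) = C ((p i).rep j ^ m) *
          (C ((p i).rep j' ^ m) * ∏ w with s w = ⟨i, j'⟩,
          (1 + C (if w = w₀ then 0 else β (b w)) * X)) := h1
      rw [mul_comm (C ((p i).rep j ^ m)), mul_assoc, h4]
      ring
    have h5 := card_roots_eq (s := Finset.univ.filter fun w => s w = ⟨i, j⟩)
      (t := Finset.univ.filter fun w => s w = ⟨i, j'⟩)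
      (by
        have e1 := h.slots ⟨i, j⟩
        have e2 := h.slots ⟨i, j'⟩
        rw [if_neg hj] at e1
        rw [if_neg hj'] at e2
        rw [e1, e2]) h2 v
    rw [Finset.filter_filter, Finset.filter_filter] at h5
    exact h5)
  exact ih _ (hn ▸ hlt) _ _ _ _ _ h' rfl

/-- the operator as a sum of direct images -/
lemma op_eq_sum {R : Type w} [Field R] (ζ : kˣ) (ψ : AddChar ((Σ i, J i) → ZMod m) R)
    (z : (∀ i, ℙ k (J i → k)) →₀ R) :
    op ζ ψ z = ∑ g : (Σ i, J i) → ZMod m, ψ g • z.mapDomain (act ζ g) := by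
  classical
  induction z using Finsupp.induction_linear with
  | zero => simp
  | add f g hf hg =>
    rw [map_add, hf, hg, ← Finset.sum_add_distrib]
    apply Finset.sum_congr rfl
    intro t _
    rw [Finsupp.mapDomain_add, smul_add]
  | single p a =>
    have h1 : Finsupp.single p a = a • Finsupp.single p (1 : R) := by simp
    rw [h1, map_smul, op_single, Finset.smul_sum]
    apply Finset.sum_congr rfl
    intro t _
    rw [Finsupp.mapDomain_smul, Finsupp.mapDomain_single]
    simp [mul_comm]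

/-- a class which belongs to a character with a pattern with many blocks is zero -/
theorem isotypic [IsAlgClosed k] [CharZero k] {R : Type w} [Field R] [CharZero R] {ζ : kˣ}
    (hζ : IsPrimitiveRoot (ζ : k) m) {f : L → MvPolynomial (Σ i, J i) k} {δ : L → Fin r → ℕ}
    (hf : ∀ l, IsMultihomogeneous (f l) (δ l)) {ω : R} (hω : IsPrimitiveRoot ω m)
    {a : (Σ i, J i) → ZMod m} {Ω 𝔅 : Type} [Fintype Ω] [Fintype 𝔅] [DecidableEq Ω]
    [DecidableEq 𝔅] {s : Ω → Σ i, J i} {b : Ω → 𝔅} {d : Fin r → ℕ}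
    (h : Pattern a (fun i => ∑ l, δ l i) s b d)
    (z : (∀ i, ℙ k (J i → k)) →₀ R) (hz : ∀ p ∈ z.support, p ∈ Zeros m f)
    (hchi : ∀ g : (Σ i, J i) → ZMod m, z.mapDomain (act ζ g) - ω ^ (∑ x, a x * g x).val • z ∈
      ratEquiv R (Zeros m f)) : z ∈ ratEquiv R (Zeros m f) := by
  classical
  by_cases hsum : ∀ i, ∑ j, a ⟨i, j⟩ = 0
  swap
  · push Not at hsum
    obtain ⟨i, hi⟩ := hsum
    have h1 := hchi (fun x => (Pi.single i 1 : Fin r → ZMod m) x.1)
    have h2 : z.mapDomain (act ζ (fun x => (Pi.single i 1 : Fin r → ZMod m) x.1)) = z := by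
      have : act ζ (fun x : (Σ i, J i) => (Pi.single i 1 : Fin r → ZMod m) x.1) = id :=
        funext fun p => act_const ζ _ p
      rw [this, Finsupp.mapDomain_id]
    have h3 : ∑ x : (Σ i, J i), a x * (Pi.single i 1 : Fin r → ZMod m) x.1 = ∑ j, a ⟨i, j⟩ := by
      rw [Fintype.sum_sigma, Finset.sum_eq_single i]
      · apply Finset.sum_congr rfl
        intro j _
        simp
      · intro i' _ hi'
        apply Finset.sum_eq_zero
        intro j _
        simp [Pi.single_eq_of_ne hi']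
      · simp
    rw [h2, h3] at h1
    have h4 : z - ω ^ (∑ j, a ⟨i, j⟩).val • z = (1 - ω ^ (∑ j, a ⟨i, j⟩).val) • z := by
      rw [sub_smul, one_smul]
    rw [h4] at h1
    refine (Submodule.smul_mem_iff _ ?_).1 h1
    rw [sub_ne_zero]
    intro h5
    have h6 := (hω.pow_eq_one_iff_dvd _).1 h5.symm
    have h7 := Nat.eq_zero_of_dvd_of_lt h6 (ZMod.val_lt _)
    exact hi ((ZMod.val_eq_zero _).1 h7)
  -- the inverse character
  have hpow : ∀ x y : ZMod m, ω ^ (x + y).val = ω ^ x.val * ω ^ y.val := by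
    intro x y
    rw [ZMod.val_add, ← pow_add]
    conv_rhs => rw [← Nat.mod_add_div (x.val + y.val) m, pow_add, pow_mul, hω.pow_eq_one, one_pow,
      mul_one]
  set ψ : AddChar ((Σ i, J i) → ZMod m) R :=
    { toFun := fun g => ω ^ (∑ j, (-a) j * g j).val
      map_zero_eq_one' := by simp
      map_add_eq_mul' := by
        intro x y
        rw [← hpow, ← Finset.sum_add_distrib]
        simp only [Pi.add_apply, mul_add] } with hψdef
  have hψ : ∀ t, ψ t = ω ^ (∑ j, (-a) j * t j).val := fun t => rfl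
  have hψ1 : ∀ t, ψ t * ω ^ (∑ j, a j * t j).val = 1 := by
    intro t
    rw [hψ, ← hpow, ← Finset.sum_add_distrib]
    simp
  have h' : Pattern (-a) (fun i => ∑ l, δ l i) s b d := by
    refine ⟨?_, ?_, h.surj, ?_, ?_⟩
    · intro x
      rw [h.slots x]
      simp
    · intro i hi
      obtain ⟨j, hj⟩ := h.proper i hi
      exact ⟨j, by simpa using hj⟩
    · intro B
      have := h.zero_sum B
      simp only [Pi.neg_apply, Finset.sum_neg_distrib, this, neg_zero]
    · simpa using h.many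
  have hv : ∀ p ∈ Zeros m f, op ζ ψ (Finsupp.single p 1) ∈ ratEquiv R (Zeros m f) := by
    intro p hp
    exact vanish hζ hf hω hψ (fun i => by simp [hsum i]) hp _ Ω 𝔅 s b d h' rfl
  have h1 : op ζ ψ z ∈ ratEquiv R (Zeros m f) := by
    have h2 : z = ∑ p ∈ z.support, z p • Finsupp.single p (1 : R) := by
      conv_lhs => rw [← z.sum_single]
      rw [Finsupp.sum]
      apply Finset.sum_congr rfl
      intro p _
      simp
    rw [h2, map_sum]
    apply Submodule.sum_mem
    intro p hp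
    rw [map_smul]
    exact Submodule.smul_mem _ _ (hv p (hz p hp))
  have h2 : op ζ ψ z - (Fintype.card ((Σ i, J i) → ZMod m) : R) • z ∈
      ratEquiv R (Zeros m f) := by
    have h3 : (Fintype.card ((Σ i, J i) → ZMod m) : R) • z =
        ∑ _g : (Σ i, J i) → ZMod m, z := by
      rw [Finset.sum_const, Finset.card_univ, Nat.cast_smul_eq_nsmul]
    rw [op_eq_sum, h3, ← Finset.sum_sub_distrib]
    apply Submodule.sum_mem
    intro g _
    have h4 : ψ g • z.mapDomain (act ζ g) - z =
        ψ g • (z.mapDomain (act ζ g) - ω ^ (∑ j, a j * g j).val • z) := by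
      rw [smul_sub, smul_smul, hψ1, one_smul]
    rw [h4]
    exact Submodule.smul_mem _ _ (hchi g)
  have h3 : (Fintype.card ((Σ i, J i) → ZMod m) : R) • z ∈ ratEquiv R (Zeros m f) := by
    have h4 := Submodule.sub_mem _ h1 h2
    rwa [sub_sub_cancel] at h4
  refine (Submodule.smul_mem_iff _ ?_).1 h3
  rw [Nat.cast_ne_zero]
  exact Fintype.card_ne_zero

end Pool.Agent.MPC
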