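import Mathlib

/-!
# Root patterns of constant curves decompose
-/

namespace Pool.Agent.MPC

universe u

variable {k : Type u} [Field k] {r : ℕ} {J : Fin r → Type} [∀ i, Fintype (J i)]
  [∀ i, DecidableEq (J i)] {m : ℕ}

/-- Root patterns: `Ω` is the set of the roots (with multiplicities), `s w` the coordinate to which
the root `w` belongs, `b w` its block, `d` the multidegree. -/
structure Pattern (a : (Σ i, J i) → ZMod m) (δ : Fin r → ℕ) {Ω 𝔅 : Type} [Fintype Ω] [Fintype 𝔅]
    [DecidableEq 𝔅] (s : Ω → Σ i, J i) (b : Ω → 𝔅) (d : Fin r → ℕ) : Prop where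
  /-- every coordinate with nonzero exponent has `d` roots -/
  slots : ∀ x, (Finset.univ.filter fun w => s w = x).card = if a x = 0 then 0 else d x.1
  /-- only factors on which the character is not trivial -/
  proper : ∀ i, d i ≠ 0 → ∃ j, a ⟨i, j⟩ ≠ 0
  /-- the blocks are not empty -/
  surj : Function.Surjective b
  /-- the blocks have sum zero -/
  zero_sum : ∀ B, ∑ w with b w = B, a (s w) = 0
  /-- there are many blocks -/
  many : ∑ i, d i * (δ i + (Finset.univ.filter fun j => a ⟨i, j⟩ ≠ 0).card) <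
      ∑ i, d i * Fintype.card (J i) + Fintype.card 𝔅

variable {a : (Σ i, J i) → ZMod m} {δ : Fin r → ℕ} {Ω 𝔅 : Type} [Fintype Ω] [Fintype 𝔅]
    [DecidableEq Ω] [DecidableEq 𝔅] {s : Ω → Σ i, J i} {b : Ω → 𝔅} {d : Fin r → ℕ}

omit [DecidableEq Ω] in
lemma Pattern.ne_zero (h : Pattern a δ s b d) (w : Ω) : a (s w) ≠ 0 := by
  intro h0
  have h1 := h.slots (s w)
  rw [if_pos h0, Finset.card_eq_zero] at h1
  exact Finset.notMem_empty w (h1 ▸ Finset.mem_filter.2 ⟨Finset.mem_univ w, rfl⟩)

omit [DecidableEq Ω] in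
lemma Pattern.nonempty (h : Pattern a δ s b d) : Nonempty Ω := by
  by_contra hcon
  rw [not_nonempty_iff] at hcon
  have hd : ∀ i, d i = 0 := by
    intro i
    by_contra hi
    obtain ⟨j, hj⟩ := h.proper i hi
    have h1 := h.slots ⟨i, j⟩
    rw [if_neg hj, Finset.univ_eq_empty, Finset.filter_empty, Finset.card_empty] at h1
    exact hi h1.symm
  have h2 : IsEmpty 𝔅 := by
    constructor
    intro B
    obtain ⟨w, -⟩ := h.surj B
    exact hcon.elim w
  have h3 := h.many
  simp [hd, Fintype.card_eq_zero] at h3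

omit [Fintype Ω] [DecidableEq Ω] in
/-- sums over a set of roots which contains the same number of roots of every coordinate -/
lemma sum_balanced (hsum : ∀ i, ∑ j, a ⟨i, j⟩ = 0) {E : Finset Ω}
    (h : ∀ i j j', a ⟨i, j⟩ ≠ 0 → a ⟨i, j'⟩ ≠ 0 → (E.filter fun w => s w = ⟨i, j⟩).card =
      (E.filter fun w => s w = ⟨i, j'⟩).card) : ∑ w ∈ E, a (s w) = 0 := by
  rw [← Finset.sum_fiberwise E s, Fintype.sum_sigma]
  apply Finset.sum_eq_zero
  intro i _
  have h1 : ∀ j, ∑ w ∈ E with s w = ⟨i, j⟩, a (s w) =
      ((E.filter fun w => s w = ⟨i, j⟩).card : ZMod m) * a ⟨i, j⟩ := by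
    intro j
    rw [Finset.sum_congr rfl (g := fun _ => a ⟨i, j⟩) (fun w hw => by
      rw [(Finset.mem_filter.1 hw).2]), Finset.sum_const, nsmul_eq_mul]
  rw [Finset.sum_congr rfl fun j _ => h1 j]
  by_cases hj : ∃ j, a ⟨i, j⟩ ≠ 0
  · obtain ⟨j₀, hj₀⟩ := hj
    have h2 : ∀ j, ((E.filter fun w => s w = ⟨i, j⟩).card : ZMod m) * a ⟨i, j⟩ =
        ((E.filter fun w => s w = ⟨i, j₀⟩).card : ZMod m) * a ⟨i, j⟩ := by
      intro j
      by_cases h3 : a ⟨i, j⟩ = 0
      · rw [h3, mul_zero, mul_zero]
      · rw [h i j j₀ h3 hj₀]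
    rw [Finset.sum_congr rfl fun j _ => h2 j, ← Finset.mul_sum, hsum i, mul_zero]
  · push Not at hj
    apply Finset.sum_eq_zero
    intro j _
    rw [hj j, mul_zero]

/-- If all the coordinates of a curve are proportional, then the roots with a suitable value form a
smaller pattern. -/
theorem Pattern.reduce [DecidableEq k] (h : Pattern a δ s b d) (hsum : ∀ i, ∑ j, a ⟨i, j⟩ = 0)
    (w₀ : Ω) (β : 𝔅 → k) (hβ : β ≠ 0)
    (hc : ∀ i j j', a ⟨i, j⟩ ≠ 0 → a ⟨i, j'⟩ ≠ 0 → ∀ v : k,
      (Finset.univ.filter fun w => s w = ⟨i, j⟩ ∧ (if w = w₀ then 0 else β (b w)) = v).card =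
      (Finset.univ.filter fun w => s w = ⟨i, j'⟩ ∧ (if w = w₀ then 0 else β (b w)) = v).card) :
    ∃ (v : k) (d' : Fin r → ℕ), Pattern a δ (fun w : {w // β (b w) = v} => s w.1)
      (fun w : {w // β (b w) = v} => (⟨b w.1, w.2⟩ : {B // β B = v})) d' ∧
      Fintype.card {w // β (b w) = v} < Fintype.card Ω := by
  classical
  -- the split root is not split
  have hw₀ : β (b w₀) = 0 := by
    by_contra h0
    have h1 : ∑ w with (if w = w₀ then 0 else β (b w)) = (0 : k), a (s w) = 0 := by
      apply sum_balanced hsum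
      intro i j j' hj hj'
      have := hc i j j' hj hj' 0
      rw [Finset.filter_filter, Finset.filter_filter]
      simpa only [and_comm] using this
    have h2 : (Finset.univ.filter fun w => (if w = w₀ then 0 else β (b w)) = (0 : k)) =
        insert w₀ (Finset.univ.filter fun w => β (b w) = 0) := by
      ext w
      simp only [Finset.mem_filter, Finset.mem_univ, true_and, Finset.mem_insert]
      by_cases hw : w = w₀
      · simp [hw]
      · simp [hw]
    have h3 : ∑ w with β (b w) = 0, a (s w) = 0 := by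
      rw [← Finset.sum_fiberwise _ b]
      apply Finset.sum_eq_zero
      intro B _
      rw [Finset.filter_filter]
      by_cases hB : β B = 0
      · rw [← h.zero_sum B]
        congr 1
        ext w
        simp only [Finset.mem_filter, Finset.mem_univ, true_and]
        constructor
        · exact fun h => h.2
        · exact fun h => ⟨by rw [h, hB], h⟩
      · apply Finset.sum_eq_zero
        intro w hw
        simp only [Finset.mem_filter, Finset.mem_univ, true_and] at hw
        rw [hw.2] at hw
        exact absurd hw.1 hB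
    rw [h2, Finset.sum_insert (by simp [h0]), h3, add_zero] at h1
    exact h.ne_zero w₀ h1
  have hρ : ∀ w, (if w = w₀ then 0 else β (b w)) = β (b w) := by
    intro w
    split_ifs with hw
    · rw [hw, hw₀]
    · rfl
  simp only [hρ] at hc
  -- the degrees
  let D : k → Fin r → ℕ := fun v i => if h : ∃ j, a ⟨i, j⟩ ≠ 0 then
    (Finset.univ.filter fun w => s w = ⟨i, h.choose⟩ ∧ β (b w) = v).card else 0
  have hD : ∀ v x, a x ≠ 0 →
      (Finset.univ.filter fun w => s w = x ∧ β (b w) = v).card = D v x.1 := by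
    rintro v ⟨i, j⟩ hx
    have h1 : ∃ j, a ⟨i, j⟩ ≠ 0 := ⟨j, hx⟩
    change _ = D v i
    simp only [D, dif_pos h1]
    exact hc i j _ hx h1.choose_spec v
  set V : Finset k := Finset.univ.image β with hV
  have hDsum : ∀ i, ∑ v ∈ V, D v i = d i := by
    intro i
    by_cases h1 : ∃ j, a ⟨i, j⟩ ≠ 0
    · obtain ⟨j, hj⟩ := h1
      have h2 := h.slots ⟨i, j⟩
      rw [if_neg hj] at h2
      rw [← h2, Finset.card_eq_sum_card_fiberwise (f := fun w => β (b w)) (t := V)
        (fun w _ => Finset.mem_image_of_mem _ (Finset.mem_univ _))]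
      apply Finset.sum_congr rfl
      intro v _
      rw [Finset.filter_filter, hD v ⟨i, j⟩ hj]
    · have h2 : d i = 0 := by
        by_contra h3
        exact h1 (h.proper i h3)
      rw [h2]
      apply Finset.sum_eq_zero
      intro v _
      simp only [D, dif_neg h1]
  have hBsum : ∑ v ∈ V, Fintype.card {B // β B = v} = Fintype.card 𝔅 := by
    rw [← Finset.card_univ, Finset.card_eq_sum_card_fiberwise (f := β) (t := V)
      (fun B _ => Finset.mem_image_of_mem _ (Finset.mem_univ _))]
    apply Finset.sum_congr rfl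
    intro v _
    rw [Fintype.card_subtype]
  have hmany : ∃ v ∈ V, ∑ i, D v i * (δ i + (Finset.univ.filter fun j => a ⟨i, j⟩ ≠ 0).card) <
      ∑ i, D v i * Fintype.card (J i) + Fintype.card {B // β B = v} := by
    apply Finset.exists_lt_of_sum_lt
    rw [Finset.sum_add_distrib, Finset.sum_comm, Finset.sum_comm (s := V), hBsum]
    simp only [← Finset.sum_mul, hDsum]
    exact h.many
  obtain ⟨v, -, hv⟩ := hmany
  refine ⟨v, D v, ⟨?_, ?_, ?_, ?_, hv⟩, ?_⟩
  · intro x
    have h1 : (Finset.univ.filter fun w : {w // β (b w) = v} => s w.1 = x).card =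
        (Finset.univ.filter fun w => s w = x ∧ β (b w) = v).card := by
      rw [← Finset.card_map (Function.Embedding.subtype _)]
      congr 1
      ext w
      simp only [Finset.mem_map, Finset.mem_filter, Finset.mem_univ, true_and,
        Function.Embedding.subtype_apply, Subtype.exists, exists_and_left, exists_prop,
        exists_eq_right_right]
    rw [h1]
    split_ifs with hx
    · rw [Finset.card_eq_zero, Finset.filter_eq_empty_iff]
      rintro w - ⟨hw, -⟩
      exact h.ne_zero w (by rw [hw, hx])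
    · exact hD v x hx
  · intro i hi
    by_contra h1
    apply hi
    simp only [D, dif_neg h1]
  · rintro ⟨B, hB⟩
    obtain ⟨w, rfl⟩ := h.surj B
    exact ⟨⟨w, hB⟩, rfl⟩
  · rintro ⟨B, hB⟩
    rw [← h.zero_sum B]
    refine Finset.sum_bij (fun w _ => w.1) ?_ ?_ ?_ ?_
    · intro w hw
      simp only [Finset.mem_filter, Finset.mem_univ, true_and, Subtype.mk.injEq] at hw ⊢
      exact hw
    · intro w _ w' _ hww
      exact Subtype.ext hww
    · intro w hw
      simp only [Finset.mem_filter, Finset.mem_univ, true_and] at hw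
      exact ⟨⟨w, by rw [hw, hB]⟩, by simp [hw], rfl⟩
    · intro w _
      rfl
  · rw [Fintype.card_subtype]
    apply Finset.card_lt_univ_of_notMem (x := if v = 0 then (h.surj (Function.ne_iff.1 hβ).choose).choose
      else w₀)
    rw [Finset.mem_filter, not_and]
    rintro -
    split_ifs with hv0
    · have h1 := (h.surj (Function.ne_iff.1 hβ).choose).choose_spec
      have h2 := (Function.ne_iff.1 hβ).choose_spec
      rw [h1, hv0]
      exact h2
    · rw [hw₀]
      exact fun h => hv0 h.symm

end Pool.Agent.MPC
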