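import Pool.Agent.MPC.Defs

/-!
# Descent of coefficients
-/

open scoped LinearAlgebra.Projectivization

namespace Pool.Agent.MPC

open Pool.Agent.ZCyc

universe u w

/-- A zero-cycle with rational coefficients which is rationally equivalent to zero with coefficients
in a field `R` of characteristic zero is rationally equivalent to zero with rational coefficients. -/
theorem descent {k : Type u} [Field k] {r : ℕ} {J : Fin r → Type}
    {X : Set (∀ i, ℙ k (J i → k))} {R : Type w} [Field R]
    [CharZero R] {z : (∀ i, ℙ k (J i → k)) →₀ ℚ}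
    (hz : z.mapRange (algebraMap ℚ R) (map_zero _) ∈ ratEquiv R X) : z ∈ ratEquiv ℚ X := by
  by_contra hcon
  obtain ⟨f, hfz, hfN⟩ := Submodule.exists_le_ker_of_notMem hcon
  set g : ((∀ i, ℙ k (J i → k)) →₀ R) →ₗ[R] R :=
    Finsupp.linearCombination R (fun p => algebraMap ℚ R (f (Finsupp.single p 1))) with hg
  have hgs : ∀ p, g (Finsupp.single p 1) = algebraMap ℚ R (f (Finsupp.single p 1)) := by
    intro p
    rw [hg, Finsupp.linearCombination_single, one_smul]
  have hgm : ∀ y : (∀ i, ℙ k (J i → k)) →₀ ℚ,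
      g (y.mapRange (algebraMap ℚ R) (map_zero _)) = algebraMap ℚ R (f y) := by
    intro y
    induction y using Finsupp.induction_linear with
    | zero => simp
    | add y₁ y₂ h₁ h₂ =>
      rw [Finsupp.mapRange_add (fun a b => map_add _ a b), map_add, h₁, h₂, map_add, map_add]
    | single p c =>
      rw [Finsupp.mapRange_single]
      have h1 : (Finsupp.single p c : (∀ i, ℙ k (J i → k)) →₀ ℚ) = c • Finsupp.single p 1 := by
        rw [Finsupp.smul_single, smul_eq_mul, mul_one]
      have h2 : (Finsupp.single p (algebraMap ℚ R c) : (∀ i, ℙ k (J i → k)) →₀ R) =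
          algebraMap ℚ R c • Finsupp.single p 1 := by
        rw [Finsupp.smul_single, smul_eq_mul, mul_one]
      rw [h1, h2, map_smul, map_smul, hgs, smul_eq_mul, smul_eq_mul, map_mul]
  have hker : ratEquiv R X ≤ LinearMap.ker g := by
    unfold ratEquiv
    rw [Submodule.span_le]
    rintro y ⟨F, i1, i2, i3, i4, i5, i6, x, φ, hφ, hX, a, b, v, w, hv, hw, rfl⟩
    have h1 : (∑ τ : F ≃ₐ[RatFunc k] F, (Finsupp.single (φ (v.map (τ.restrictScalars k))) 1 -
        Finsupp.single (φ (w.map (τ.restrictScalars k))) 1) : (∀ i, ℙ k (J i → k)) →₀ ℚ) ∈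
        ratEquiv ℚ X :=
      Submodule.subset_span ⟨F, i1, i2, i3, i4, i5, i6, x, φ, hφ, hX, a, b, v, w, hv, hw, rfl⟩
    have h2 := LinearMap.mem_ker.1 (hfN h1)
    rw [SetLike.mem_coe, LinearMap.mem_ker, map_sum]
    rw [map_sum] at h2
    have h3 := congrArg (algebraMap ℚ R) h2
    rw [map_sum, map_zero] at h3
    rw [← h3]
    apply Finset.sum_congr rfl
    intro τ _
    rw [map_sub, hgs, hgs, map_sub, map_sub]
  have h4 := LinearMap.mem_ker.1 (hker hz)
  rw [hgm] at h4
  exact hfz ((map_eq_zero _).1 h4)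

end Pool.Agent.MPC
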