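import Pool.Agent.MPC.Part
import Pool.Agent.MPC.Descent
import Pool.Agent.DCI57.Algebra

/-!
# The action of the group algebra on zero-cycles
-/

open scoped LinearAlgebra.Projectivization

namespace Pool.Agent.MPC

open Pool.Agent.ZCyc

universe u w

variable {k : Type u} [Field k] {r : ℕ} {J : Fin r → Type} [∀ i, Fintype (J i)]
  [∀ i, DecidableEq (J i)] {m : ℕ} [NeZero m] {L : Type} [Fintype L]

/-- the action of the group algebra, complex coefficients -/
theorem algebra_complex [IsAlgClosed k] [CharZero k]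
    {ζ : kˣ} (hζ : IsPrimitiveRoot (ζ : k) m) {f : L → MvPolynomial (Σ i, J i) k}
    {δ : L → Fin r → ℕ} (hf : ∀ l, IsMultihomogeneous (f l) (δ l))
    (hm : m ≤ 5 ∨ m = 7 ∨ ∀ i, (∑ l, δ l i) * m < 2 * Fintype.card (J i))
    (hm' : m ≤ 2 ∨ ∃ i₀, ∀ i, i ≠ i₀ → (∑ l, δ l i) * m < Fintype.card (J i) + m)
    (α : ((Σ i, J i) → ZMod m) → ℚ)
    (hα : ∀ I : Finset (Fin r), I.Nonempty → ∀ b : (Σ i, J i) → ℕ,
      (∀ x, x.1 ∈ I → 1 ≤ b x) → (∀ x, x.1 ∉ I → b x = 0) →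
      (∀ i ∈ I, ∑ j, b ⟨i, j⟩ = (∑ l with ∀ i' ∉ I, δ l i' = 0, δ l i) * m) →
      ∑ g, (α g : k) * (ζ : k) ^ (∑ x, (b x : ZMod m) * g x).val = 0)
    {p q : ∀ i, ℙ k (J i → k)} (hp : p ∈ Zeros m f) (hq : q ∈ Zeros m f) :
    ∑ g, (α g : ℂ) • (Finsupp.single (act ζ g p) (1 : ℂ) - Finsupp.single (act ζ g q) 1) ∈
      ratEquiv ℂ (Zeros m f) := by
  classical
  have hm0 : 0 < m := NeZero.pos m
  have hζ1 : ζ ^ m = 1 := by
    apply Units.ext
    push_cast
    exact hζ.pow_eq_one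
  have hJ : ∀ i, Nonempty (J i) := by
    intro i
    by_contra hcon
    rw [not_nonempty_iff] at hcon
    exact (p i).rep_nonzero (funext fun j => hcon.elim j)
  have hω := Complex.isPrimitiveRoot_exp m (NeZero.ne m)
  set ω : ℂ := Complex.exp (2 * Real.pi * Complex.I / m) with hωdef
  -- each character
  have key : ∀ ψ : AddChar ((Σ i, J i) → ZMod m) ℂ,
      (∑ h, (α h : ℂ) * ψ (-h)) • (op ζ ψ (Finsupp.single p 1) - op ζ ψ (Finsupp.single q 1)) ∈
        ratEquiv ℂ (Zeros m f) := by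
    intro ψ
    by_cases hψα : ∑ h, (α h : ℂ) * ψ (-h) = 0
    · rw [hψα, zero_smul]
      exact Submodule.zero_mem _
    apply Submodule.smul_mem
    obtain ⟨a, ha⟩ := DCI57.exists_exponents hω ψ
    refine part hζ hf hω hm hm' ha ?_ hp hq
    intro I hI u b hb0 hb1 hb2 hb3
    apply hψα
    have h1 := hα I hI b hb0 hb1 hb2
    -- the root of unity `ω ^ (-u⁻¹)`
    have h2 : IsPrimitiveRoot (ω ^ ((-u⁻¹ : (ZMod m)ˣ) : ZMod m).val) m :=
      hω.pow_of_coprime _ (ZMod.val_coe_unit_coprime _)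
    have h3 := DCI57.conj_relation hζ h2 α (fun g => (∑ x, (b x : ZMod m) * g x).val) h1
    rw [← h3]
    apply Finset.sum_congr rfl
    intro g _
    congr 1
    rw [ha, ← DCI57.pow_val_mul hω]
    congr 2
    simp only [hb3]
    rw [Finset.mul_sum]
    apply Finset.sum_congr rfl
    intro j _
    have h4 : ((-u⁻¹ : (ZMod m)ˣ) : ZMod m) * ((u : ZMod m) * a j * g j) =
        -(((u⁻¹ : (ZMod m)ˣ) : ZMod m) * (u : ZMod m)) * (a j * g j) := by
      push_cast
      ring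
    rw [h4, Units.inv_mul, Pi.neg_apply]
    ring
  -- summation over all characters
  have hsum : ∀ p : ∀ i, ℙ k (J i → k), ∑ ψ : AddChar ((Σ i, J i) → ZMod m) ℂ,
      (∑ h, (α h : ℂ) * ψ (-h)) • op ζ ψ (Finsupp.single p 1) =
      (Fintype.card ((Σ i, J i) → ZMod m) : ℂ) •
        ∑ g, (α g : ℂ) • Finsupp.single (act ζ g p) (1 : ℂ) := by
    intro p
    simp only [op_single, Finset.smul_sum]
    rw [Finset.sum_comm]
    apply Finset.sum_congr rfl
    intro g _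
    have h1 : ∀ ψ : AddChar ((Σ i, J i) → ZMod m) ℂ, (∑ h, (α h : ℂ) * ψ (-h)) •
        Finsupp.single (act ζ g p) (ψ g) =
        Finsupp.single (act ζ g p) (∑ h, (α h : ℂ) * ψ (g - h)) := by
      intro ψ
      rw [Finsupp.smul_single, smul_eq_mul, Finset.sum_mul]
      congr 1
      apply Finset.sum_congr rfl
      intro h _
      rw [sub_eq_add_neg, AddChar.map_add_eq_mul]
      ring
    rw [Finset.sum_congr rfl fun ψ _ => h1 ψ, ← Finsupp.single_finsetSum, Finset.sum_comm]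
    have h2 : ∀ h : (Σ i, J i) → ZMod m,
        ∑ ψ : AddChar ((Σ i, J i) → ZMod m) ℂ, (α h : ℂ) * ψ (g - h) =
        if h = g then (α h : ℂ) * (Fintype.card ((Σ i, J i) → ZMod m) : ℂ) else 0 := by
      intro h
      rw [← Finset.mul_sum, AddChar.sum_apply_eq_ite]
      by_cases hg : h = g
      · rw [if_pos hg, if_pos (sub_eq_zero.2 hg.symm)]
      · rw [if_neg hg, if_neg fun h' => hg (sub_eq_zero.1 h').symm, mul_zero]
    rw [Finset.sum_congr rfl fun h _ => h2 h, Finset.sum_ite_eq' Finset.univ g]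
    simp only [Finset.mem_univ, if_true]
    rw [Finsupp.smul_single, Finsupp.smul_single, smul_eq_mul, smul_eq_mul, mul_one, mul_comm]
  have hfin : (Fintype.card ((Σ i, J i) → ZMod m) : ℂ) •
      ∑ g, (α g : ℂ) • (Finsupp.single (act ζ g p) (1 : ℂ) - Finsupp.single (act ζ g q) 1) ∈
      ratEquiv ℂ (Zeros m f) := by
    simp only [smul_sub, Finset.sum_sub_distrib]
    rw [← hsum, ← hsum, ← Finset.sum_sub_distrib]
    simp only [← smul_sub]
    exact Submodule.sum_mem _ fun ψ _ => key ψ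
  exact (Submodule.smul_mem_iff _ (Nat.cast_ne_zero.2 Fintype.card_ne_zero)).1 hfin

/-- the action of the group algebra, rational coefficients -/
theorem algebra_rational [IsAlgClosed k] [CharZero k]
    {ζ : kˣ} (hζ : IsPrimitiveRoot (ζ : k) m) {f : L → MvPolynomial (Σ i, J i) k}
    {δ : L → Fin r → ℕ} (hf : ∀ l, IsMultihomogeneous (f l) (δ l))
    (hm : m ≤ 5 ∨ m = 7 ∨ ∀ i, (∑ l, δ l i) * m < 2 * Fintype.card (J i))
    (hm' : m ≤ 2 ∨ ∃ i₀, ∀ i, i ≠ i₀ → (∑ l, δ l i) * m < Fintype.card (J i) + m)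
    (α : ((Σ i, J i) → ZMod m) → ℚ)
    (hα : ∀ I : Finset (Fin r), I.Nonempty → ∀ b : (Σ i, J i) → ℕ,
      (∀ x, x.1 ∈ I → 1 ≤ b x) → (∀ x, x.1 ∉ I → b x = 0) →
      (∀ i ∈ I, ∑ j, b ⟨i, j⟩ = (∑ l with ∀ i' ∉ I, δ l i' = 0, δ l i) * m) →
      ∑ g, (α g : k) * (ζ : k) ^ (∑ x, (b x : ZMod m) * g x).val = 0)
    {p q : ∀ i, ℙ k (J i → k)} (hp : p ∈ Zeros m f) (hq : q ∈ Zeros m f) :
    ∑ g, α g • (Finsupp.single (act ζ g p) (1 : ℚ) - Finsupp.single (act ζ g q) 1) ∈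
      ratEquiv ℚ (Zeros m f) := by
  apply descent (R := ℂ)
  have h1 : Finsupp.mapRange (algebraMap ℚ ℂ) (map_zero _)
      (∑ g, α g • (Finsupp.single (act ζ g p) (1 : ℚ) - Finsupp.single (act ζ g q) 1)) =
      ∑ g, (α g : ℂ) • (Finsupp.single (act ζ g p) (1 : ℂ) - Finsupp.single (act ζ g q) 1) := by
    have h2 : ∀ z : (∀ i, ℙ k (J i → k)) →₀ ℚ, Finsupp.mapRange (algebraMap ℚ ℂ) (map_zero _) z =
        Finsupp.mapRange.addMonoidHom (algebraMap ℚ ℂ : ℚ →+* ℂ).toAddMonoidHom z := fun _ => rfl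
    rw [h2, map_sum]
    apply Finset.sum_congr rfl
    intro g _
    rw [smul_sub, smul_sub, map_sub]
    simp
  rw [h1]
  exact algebra_complex hζ hf hm hm' α hα hp hq

/-- the action of the group algebra on cycles of degree zero -/
theorem algebra_cycle [IsAlgClosed k] [CharZero k]
    {ζ : kˣ} (hζ : IsPrimitiveRoot (ζ : k) m) {f : L → MvPolynomial (Σ i, J i) k}
    {δ : L → Fin r → ℕ} (hf : ∀ l, IsMultihomogeneous (f l) (δ l))
    (hm : m ≤ 5 ∨ m = 7 ∨ ∀ i, (∑ l, δ l i) * m < 2 * Fintype.card (J i))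
    (hm' : m ≤ 2 ∨ ∃ i₀, ∀ i, i ≠ i₀ → (∑ l, δ l i) * m < Fintype.card (J i) + m)
    (α : ((Σ i, J i) → ZMod m) → ℚ)
    (hα : ∀ I : Finset (Fin r), I.Nonempty → ∀ b : (Σ i, J i) → ℕ,
      (∀ x, x.1 ∈ I → 1 ≤ b x) → (∀ x, x.1 ∉ I → b x = 0) →
      (∀ i ∈ I, ∑ j, b ⟨i, j⟩ = (∑ l with ∀ i' ∉ I, δ l i' = 0, δ l i) * m) →
      ∑ g, (α g : k) * (ζ : k) ^ (∑ x, (b x : ZMod m) * g x).val = 0)
    (z : (∀ i, ℙ k (J i → k)) →₀ ℚ) (hz : ∀ p ∈ z.support, p ∈ Zeros m f)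
    (hdeg : z.sum (fun _ n => n) = 0) :
    ∑ g, α g • z.mapDomain (act ζ g) ∈ ratEquiv ℚ (Zeros m f) := by
  classical
  rcases z.support.eq_empty_or_nonempty with h0 | ⟨q, hq⟩
  · rw [Finsupp.support_eq_empty] at h0
    rw [h0]
    simp
  have hdeg' : ∑ p ∈ z.support, z p = 0 := hdeg
  have h2 : z = ∑ p ∈ z.support, z p • Finsupp.single p (1 : ℚ) := by
    conv_lhs => rw [← z.sum_single]
    rw [Finsupp.sum]
    apply Finset.sum_congr rfl
    intro p _
    simp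
  have h3 : ∑ g, α g • z.mapDomain (act ζ g) = ∑ p ∈ z.support, z p • ∑ g,
      α g • (Finsupp.single (act ζ g p) (1 : ℚ) - Finsupp.single (act ζ g q) 1) := by
    have h4 : ∀ g : (Σ i, J i) → ZMod m, z.mapDomain (act ζ g) =
        ∑ p ∈ z.support, z p • Finsupp.single (act ζ g p) (1 : ℚ) := by
      intro g
      conv_lhs => rw [h2]
      rw [Finsupp.mapDomain_finsetSum]
      apply Finset.sum_congr rfl
      intro p _
      rw [Finsupp.mapDomain_smul, Finsupp.mapDomain_single]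
    have h5 : ∀ g : (Σ i, J i) → ZMod m,
        ∑ p ∈ z.support, z p • Finsupp.single (act ζ g q) (1 : ℚ) = 0 := by
      intro g
      rw [← Finset.sum_smul, hdeg', zero_smul]
    simp only [Finset.smul_sum]
    rw [Finset.sum_comm]
    apply Finset.sum_congr rfl
    intro g _
    have h6 : ∀ p : ∀ i, ℙ k (J i → k), z p • α g • (Finsupp.single (act ζ g p) (1 : ℚ) -
        Finsupp.single (act ζ g q) 1) = α g • (z p • Finsupp.single (act ζ g p) (1 : ℚ) -
        z p • Finsupp.single (act ζ g q) (1 : ℚ)) := by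
      intro p
      rw [← smul_sub, smul_comm]
    rw [Finset.sum_congr rfl fun p _ => h6 p, ← Finset.smul_sum, Finset.sum_sub_distrib, h5,
      sub_zero, h4]
  rw [h3]
  apply Submodule.sum_mem
  intro p hp
  exact Submodule.smul_mem _ _ (algebra_rational hζ hf hm hm' α hα (hz p hp)
    (hz q hq))

end Pool.Agent.MPC
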