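import Pool.Agent.MPC.Res

/-!
# Dropping equations

Let the character be trivial on the `i`-th factor of the group, and let the total degree of the
equations in the variables of this factor be smaller than the number of these variables. Then the
equations which depend on these variables can be dropped: a cycle of the form `op z` which is
rationally equivalent to zero on the larger variety is rationally equivalent to zero.
-/

open Polynomial
open scoped LinearAlgebra.Projectivization

namespace Pool.Agent.MPC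

open Pool.Agent.ZCyc

universe u w

variable {k : Type u} [Field k] {r : ℕ} {J : Fin r → Type} [∀ i, Fintype (J i)] {m : ℕ} {L : Type}
  [Fintype L] [NeZero m]

/-- points of the fibres -/
lemma exists_fibre [IsAlgClosed k] {f : L → MvPolynomial (Σ i, J i) k} {δ : L → Fin r → ℕ}
    (hf : ∀ l, IsMultihomogeneous (f l) (δ l)) (i : Fin r)
    (hcard : ∑ l, δ l i < Fintype.card (J i)) {w : ∀ i, ℙ k (J i → k)}
    (hw : ∀ l, δ l i = 0 → MvPolynomial.eval (fun a => (w a.1).rep a.2 ^ m) (f l) = 0) :
    ∃ q : ℙ k (J i → k), Function.update w i q ∈ Zeros m f := by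
  classical
  let E : {l // δ l i ≠ 0} → MvPolynomial (J i) k :=
    fun l => spec i (fun i' j => (w i').rep j ^ m) (f l)
  have hE : ∀ l, (E l).IsHomogeneous (δ l i) := fun l => spec_homogeneous i _ (hf l)
  have hE0 : ∀ l, MvPolynomial.eval 0 (E l) = 0 := fun l =>
    DCIG.eval_zero_of_homogeneous (hE l) l.2
  have hcard' : Fintype.card {l // δ l i ≠ 0} < Fintype.card (J i) := by
    refine lt_of_le_of_lt ?_ hcard
    rw [Fintype.card_subtype, Finset.card_eq_sum_ones]
    refine le_trans ?_ (Finset.sum_le_sum_of_subset (f := fun l => δ l i)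
      (Finset.filter_subset (fun l => δ l i ≠ 0) Finset.univ))
    apply Finset.sum_le_sum
    intro l hl
    exact Nat.one_le_iff_ne_zero.2 (Finset.mem_filter.1 hl).2
  obtain ⟨y, hy0, hy⟩ := DCIG.exists_common_zero E hcard' hE0
  have hz : ∀ j, ∃ z : k, z ^ m = y j := fun j =>
    IsAlgClosed.exists_pow_nat_eq _ (NeZero.pos m)
  choose z hz using hz
  have hz0 : z ≠ 0 := by
    rintro rfl
    apply hy0
    funext j
    rw [← hz j]
    simp [NeZero.ne m]
  refine ⟨Projectivization.mk k z hz0, (update_mem_iff i w _).2 fun l => ?_⟩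
  by_cases hl : δ l i = 0
  · rw [eval_spec, aeval_congr (hf l) hl (w := fun x : (Σ i, J i) => (w x.1).rep x.2 ^ m)
      (fun x hx => by rw [Function.update_of_ne hx])]
    exact hw l hl
  · obtain ⟨c, hc, h2⟩ := DCI57.mk_rep_exists hz0
    apply DCIG.eval_rep (hE ⟨l, hl⟩) (v := y) (a := c ^ m) _ (hy ⟨l, hl⟩)
    intro j
    rw [h2, mul_pow, hz]

variable [∀ i, DecidableEq (J i)] {R : Type w} [Field R] [CharZero R]

/-- **Equations which depend on the variables of a factor on which the character is trivial can be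
dropped.** -/
theorem drop [IsAlgClosed k] [CharZero k] {ζ : kˣ} (hζ : IsPrimitiveRoot (ζ : k) m)
    {f : L → MvPolynomial (Σ i, J i) k} {δ : L → Fin r → ℕ}
    (hf : ∀ l, IsMultihomogeneous (f l) (δ l)) (i : Fin r)
    (hcard : ∑ l, δ l i < Fintype.card (J i))
    {ψ : AddChar ((Σ i, J i) → ZMod m) R} (hψ : ∀ t, (∀ x, x.1 ≠ i → t x = 0) → ψ t = 1)
    {W : Set (∀ i, ℙ k (J i → k))} (hXW : Zeros m f ⊆ W)
    (hW : ∀ w ∈ W, ∀ l, δ l i = 0 → MvPolynomial.eval (fun a => (w a.1).rep a.2 ^ m) (f l) = 0)
    {z : (∀ i, ℙ k (J i → k)) →₀ R} (hz : ∀ p ∈ z.support, p ∈ Zeros m f)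
    (h : op ζ ψ z ∈ ratEquiv R W) : op ζ ψ z ∈ ratEquiv R (Zeros m f) := by
  classical
  have hζ1 : ζ ^ m = 1 := by
    apply Units.ext
    push_cast
    exact hζ.pow_eq_one
  -- points of the fibres
  have hfib : ∀ w, ∃ q : ∀ i, ℙ k (J i → k), w ∈ W → q ∈ Zeros m f ∧ ∀ i', i' ≠ i → q i' = w i' := by
    intro w
    by_cases hw : w ∈ W
    · obtain ⟨q, hq⟩ := exists_fibre hf i hcard (hW w hw)
      exact ⟨_, fun _ => ⟨hq, fun i' hi' => Function.update_of_ne hi' _ _⟩⟩
    · exact ⟨w, fun h => absurd h hw⟩
  choose lf hlf using hfib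
  set Λ : ((∀ i, ℙ k (J i → k)) →₀ R) →ₗ[R] ((∀ i, ℙ k (J i → k)) →₀ R) :=
    Finsupp.linearCombination R (fun w => op ζ ψ (Finsupp.single (lf w) 1)) with hΛ
  have hΛs : ∀ w, Λ (Finsupp.single w 1) = op ζ ψ (Finsupp.single (lf w) 1) := by
    intro w
    rw [hΛ, Finsupp.linearCombination_single, one_smul]
  have h1 : ∀ w ∈ W, ∀ p ∈ Zeros m f, (∀ i', i' ≠ i → p i' = w i') →
      op ζ ψ (Finsupp.single p 1) - Λ (Finsupp.single w 1) ∈ ratEquiv R (Zeros m f) := by
    intro w hw p hp hpw
    rw [hΛs]
    exact fiber hζ hf i hcard hp (hlf w hw).1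
      (fun i' hi' => by rw [hpw i' hi', (hlf w hw).2 i' hi']) hψ
  -- rational equivalence
  have h2 : ratEquiv R W ≤ (ratEquiv R (Zeros m f)).comap Λ := by
    conv_lhs => rw [ratEquiv]
    rw [Submodule.span_le]
    rintro _ ⟨F, _, _, _, _, _, _, x, φ, hφ, hφW, a, b, v, w, hv, hw, rfl⟩
    rw [SetLike.mem_coe, Submodule.mem_comap]
    obtain ⟨F', _, _, _, _, _, _, _, _, _, y, hy0, hy⟩ := exists_lift (NeZero.pos m) hf i hcard x
    have hfd : FiniteDimensional F F' := FiniteDimensional.right (RatFunc k) F F'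
    have hval : ∀ u : Place k F', ∃ q, DCI57.IsValue u y q := fun u => DCI57.exists_value u hy0
    choose χ hχ using hval
    have hφ' : ∀ u : Place k F', IsValue u (Function.update
        (fun i' j => algebraMap F F' (x i' j)) i y) (Function.update (φ (res u)) i (χ u)) :=
      fun u => IsValue.update (fun i' _ => isValue_res (hφ (res u) i')) (hχ u)
    have hφX : ∀ u : Place k F', Function.update (φ (res u)) i (χ u) ∈ Zeros m f := by
      intro u l
      by_cases hl : δ l i = 0
      · have h3 := hW _ (hφW (res u)) l hl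
        rw [← MvPolynomial.coe_aeval_eq_eval] at h3 ⊢
        refine Eq.trans ?_ h3
        exact aeval_congr (hf l) hl fun a ha => by rw [Function.update_of_ne ha]
      · exact (IsValue.mem_Zeros (L := Unit) (f := fun _ => f l) (δ := fun _ => δ l) (hφ' u)
          (fun _ => hf l) (fun _ => hy l hl)) ()
    obtain ⟨v', rfl⟩ := exists_res (F' := F') v
    obtain ⟨w', rfl⟩ := exists_res (F' := F') w
    have hv' : v'.Vanishes (algebraMap (RatFunc k) F' (RatFunc.X - RatFunc.C a)) := by
      rw [IsScalarTower.algebraMap_apply (RatFunc k) F F', ← vanishes_res]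
      exact hv
    have hw' : w'.Vanishes (algebraMap (RatFunc k) F' (RatFunc.X - RatFunc.C b)) := by
      rw [IsScalarTower.algebraMap_apply (RatFunc k) F F', ← vanishes_res]
      exact hw
    have hgen := op_mem (ζ := ζ) ψ (X := Zeros m f) (fun g p hp => act_mem hf hζ1 hp g)
      (gen_mem (R := R) hφ' hφX hv' hw')
    rw [map_sum] at hgen
    -- the images of the conjugate points
    have hres : ∀ (u : Place k F') (τ : F' ≃ₐ[RatFunc k] F'),
        res (u.map (τ.restrictScalars k)) =
          (res u : Place k F).map ((AlgEquiv.restrictNormalHom F τ).restrictScalars k) := by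
      intro u τ
      exact res_map _ _ fun c => AlgEquiv.restrictNormal_commutes τ F c
    have hconj : ∀ (u : Place k F') (τ : F' ≃ₐ[RatFunc k] F'),
        op ζ ψ (Finsupp.single (Function.update (φ (res (u.map (τ.restrictScalars k)))) i
          (χ (u.map (τ.restrictScalars k)))) 1) -
        Λ (Finsupp.single (φ ((res u : Place k F).map
          ((AlgEquiv.restrictNormalHom F τ).restrictScalars k))) 1) ∈ ratEquiv R (Zeros m f) := by
      intro u τ
      apply h1 _ (hφW _) _ (hφX _)
      intro i' hi'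
      rw [Function.update_of_ne hi', hres]
    set g : (F ≃ₐ[RatFunc k] F) → ((∀ i, ℙ k (J i → k)) →₀ R) := fun τ =>
      Λ (Finsupp.single (φ ((res v' : Place k F).map (τ.restrictScalars k))) 1) -
      Λ (Finsupp.single (φ ((res w' : Place k F).map (τ.restrictScalars k))) 1) with hg
    have hsum : ∑ τ : F' ≃ₐ[RatFunc k] F', g (AlgEquiv.restrictNormalHom F τ) ∈
        ratEquiv R (Zeros m f) := by
      have h3 : ∑ τ : F' ≃ₐ[RatFunc k] F', g (AlgEquiv.restrictNormalHom F τ) =
          ∑ τ : F' ≃ₐ[RatFunc k] F', op ζ ψ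
            (Finsupp.single (Function.update (φ (res (v'.map (τ.restrictScalars k)))) i
              (χ (v'.map (τ.restrictScalars k)))) 1 -
            Finsupp.single (Function.update (φ (res (w'.map (τ.restrictScalars k)))) i
              (χ (w'.map (τ.restrictScalars k)))) 1) -
          ∑ τ : F' ≃ₐ[RatFunc k] F',
            ((op ζ ψ (Finsupp.single (Function.update (φ (res (v'.map (τ.restrictScalars k)))) i
              (χ (v'.map (τ.restrictScalars k)))) 1) -
            Λ (Finsupp.single (φ ((res v' : Place k F).map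
              ((AlgEquiv.restrictNormalHom F τ).restrictScalars k))) 1)) -
            (op ζ ψ (Finsupp.single (Function.update (φ (res (w'.map (τ.restrictScalars k)))) i
              (χ (w'.map (τ.restrictScalars k)))) 1) -
            Λ (Finsupp.single (φ ((res w' : Place k F).map
              ((AlgEquiv.restrictNormalHom F τ).restrictScalars k))) 1))) := by
        rw [← Finset.sum_sub_distrib]
        apply Finset.sum_congr rfl
        intro τ _
        rw [hg, map_sub]
        abel_nf
      rw [h3]
      exact Submodule.sub_mem _ hgen (Submodule.sum_mem _ fun τ _ =>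
        Submodule.sub_mem _ (hconj v' τ) (hconj w' τ))
    have hsurj : Function.Surjective (AlgEquiv.restrictNormalHom F :
        (F' ≃ₐ[RatFunc k] F') →* (F ≃ₐ[RatFunc k] F)) :=
      AlgEquiv.restrictNormalHom_surjective F'
    have hcount : ∑ τ : F' ≃ₐ[RatFunc k] F', g (AlgEquiv.restrictNormalHom F τ) =
        ((Finset.univ.filter fun τ : F' ≃ₐ[RatFunc k] F' =>
          AlgEquiv.restrictNormalHom F τ = 1).card : R) • ∑ τ : F ≃ₐ[RatFunc k] F, g τ := by
      rw [← Finset.sum_fiberwise Finset.univ
        (fun τ : F' ≃ₐ[RatFunc k] F' => AlgEquiv.restrictNormalHom F τ), Finset.smul_sum]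
      apply Finset.sum_congr rfl
      intro σ _
      rw [Finset.sum_congr rfl (g := fun _ => g σ) (fun τ hτ => by
        rw [(Finset.mem_filter.1 hτ).2]), Finset.sum_const, ← Nat.cast_smul_eq_nsmul R]
      congr 2
      exact MonoidHom.card_fiber_eq_of_mem_range _ (hsurj σ) (hsurj 1)
    rw [hcount] at hsum
    have hne : ((Finset.univ.filter fun τ : F' ≃ₐ[RatFunc k] F' =>
        AlgEquiv.restrictNormalHom F τ = 1).card : R) ≠ 0 := by
      rw [Nat.cast_ne_zero, Finset.card_ne_zero]
      exact ⟨1, Finset.mem_filter.2 ⟨Finset.mem_univ _, map_one _⟩⟩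
    have h4 := (Submodule.smul_mem_iff _ hne).1 hsum
    rw [map_sum]
    simp only [map_sub]
    exact h4
  -- the image of `op z`
  have h3 : ∀ p ∈ Zeros m f, Λ (op ζ ψ (Finsupp.single p 1)) -
      (Fintype.card ((Σ i, J i) → ZMod m) : R) • op ζ ψ (Finsupp.single p 1) ∈
      ratEquiv R (Zeros m f) := by
    intro p hp
    have h4 : (Fintype.card ((Σ i, J i) → ZMod m) : R) • op ζ ψ (Finsupp.single p 1) =
        ∑ g : (Σ i, J i) → ZMod m, ψ g • op ζ ψ (Finsupp.single (act ζ g p) 1) := by
      rw [Finset.sum_congr rfl fun g _ => op_act hζ1 ψ g p, Finset.sum_const, Finset.card_univ,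
        Nat.cast_smul_eq_nsmul]
    rw [h4, op_single, map_sum, ← Finset.sum_sub_distrib]
    apply Submodule.sum_mem
    intro g _
    have h5 : Finsupp.single (act ζ g p) (ψ g) = ψ g • Finsupp.single (act ζ g p) (1 : R) := by
      simp
    rw [h5, map_smul, ← smul_sub]
    apply Submodule.smul_mem
    have h6 := act_mem hf hζ1 hp g
    rw [← neg_sub]
    exact Submodule.neg_mem _ (h1 _ (hXW h6) _ h6 fun _ _ => rfl)
  have h4 : Λ (op ζ ψ z) - (Fintype.card ((Σ i, J i) → ZMod m) : R) • op ζ ψ z ∈
      ratEquiv R (Zeros m f) := by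
    have h5 : z = ∑ p ∈ z.support, z p • Finsupp.single p (1 : R) := by
      conv_lhs => rw [← z.sum_single]
      rw [Finsupp.sum]
      apply Finset.sum_congr rfl
      intro p _
      simp
    rw [h5]
    simp only [map_sum, Finset.smul_sum]
    rw [← Finset.sum_sub_distrib]
    apply Submodule.sum_mem
    intro p hp
    rw [map_smul, map_smul, smul_comm, ← smul_sub]
    exact Submodule.smul_mem _ _ (h3 p (hz p hp))
  have h5 := h2 h
  rw [Submodule.mem_comap] at h5
  have h6 := Submodule.sub_mem _ h5 h4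
  rw [sub_sub_cancel] at h6
  exact (Submodule.smul_mem_iff _ (Nat.cast_ne_zero.2 Fintype.card_ne_zero)).1 h6

end Pool.Agent.MPC
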