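import Pool.Agent.MPC.Fiber

/-!
# Characters which are trivial on one factor

Let all equations depend on the variables of the `i`-th group, let their total degree in these
variables be smaller than the number of these variables, and let the character be trivial on the
`i`-th factor of the group. Then all points have the same image in the part of the Chow group which
belongs to the character: the line through the images of two points in the product of the other
projective spaces lifts, after a covering, to the variety.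
-/

open Polynomial
open scoped LinearAlgebra.Projectivization

namespace Pool.Agent.MPC

open Pool.Agent.ZCyc

universe u w

variable {k : Type u} [Field k] {r : ℕ} {J : Fin r → Type} [∀ i, Fintype (J i)] {m : ℕ} {L : Type}
  [Fintype L]

/-- lifting of a line -/
theorem exists_section [IsAlgClosed k] [CharZero k] (hm : 0 < m)
    {f : L → MvPolynomial (Σ i, J i) k} {δ : L → Fin r → ℕ}
    (hf : ∀ l, IsMultihomogeneous (f l) (δ l)) (i : Fin r) (hδ : ∀ l, δ l i ≠ 0)
    (hcard : ∑ l, δ l i < Fintype.card (J i)) (z z' : ∀ i, J i → k) :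
    ∃ (F : Type u) (_ : Field F) (_ : Algebra k F)
    (_ : Algebra (RatFunc k) F) (_ : IsScalarTower k (RatFunc k) F)
    (_ : FiniteDimensional (RatFunc k) F) (_ : IsGalois (RatFunc k) F) (y : J i → F),
    (∃ j, y j ≠ 0) ∧
    ∀ l, MvPolynomial.aeval (fun a : (Σ i, J i) => Function.update
      (fun i' j => (1 - algebraMap (RatFunc k) F RatFunc.X) * algebraMap k F (z i' j) +
        algebraMap (RatFunc k) F RatFunc.X * algebraMap k F (z' i' j)) i y a.1 a.2 ^ m) (f l) = 0 := by
  classical
  let Ω := AlgebraicClosure (RatFunc k)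
  have : IsScalarTower k (RatFunc k) Ω := inferInstance
  set s : Ω := algebraMap (RatFunc k) Ω RatFunc.X with hs
  let c : ∀ i, J i → Ω := fun i' j => (1 - s) * algebraMap k Ω (z i' j) +
    s * algebraMap k Ω (z' i' j)
  let E : L → MvPolynomial (J i) Ω := fun l => spec i (fun i' j => c i' j ^ m) (f l)
  have hE0 : ∀ l, MvPolynomial.eval 0 (E l) = 0 := fun l =>
    DCIG.eval_zero_of_homogeneous (spec_homogeneous i _ (hf l)) (hδ l)
  have hcard' : Fintype.card L < Fintype.card (J i) := by
    refine lt_of_le_of_lt ?_ hcard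
    rw [← Finset.card_univ, Finset.card_eq_sum_ones]
    exact Finset.sum_le_sum fun l _ => Nat.one_le_iff_ne_zero.2 (hδ l)
  obtain ⟨y, hy0, hy⟩ := DCIG.exists_common_zero E hcard' hE0
  have hx : ∀ j, ∃ x : Ω, x ^ m = y j := fun j => IsAlgClosed.exists_pow_nat_eq _ hm
  choose x hx using hx
  let S : Set Ω := Set.range x
  let L1 : IntermediateField (RatFunc k) Ω := IntermediateField.adjoin (RatFunc k) S
  have hfd : FiniteDimensional (RatFunc k) L1 := by
    have : Finite S := (Set.finite_range x).to_subtype
    exact IntermediateField.finiteDimensional_adjoin fun z _ =>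
      Algebra.IsIntegral.isIntegral z
  let F : IntermediateField (RatFunc k) Ω := IntermediateField.normalClosure (RatFunc k) L1 Ω
  have hLF : L1 ≤ F := IntermediateField.le_normalClosure L1
  have hxF : ∀ j, x j ∈ F := fun j =>
    hLF (IntermediateField.subset_adjoin (RatFunc k) S ⟨j, rfl⟩)
  have : Normal (RatFunc k) F := normalClosure.normal (RatFunc k) L1 Ω
  have : FiniteDimensional (RatFunc k) F := normalClosure.is_finiteDimensional (RatFunc k) L1 Ω
  have : IsGalois (RatFunc k) F := {}
  have htow : IsScalarTower k F Ω := IsScalarTower.of_algebraMap_eq fun _ => rfl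
  refine ⟨F, inferInstance, inferInstance, inferInstance, inferInstance, inferInstance,
    inferInstance, fun j => ⟨x j, hxF j⟩, ?_, fun l => ?_⟩
  · by_contra hcon
    push Not at hcon
    apply hy0
    funext j
    have h1 : x j = 0 := congrArg Subtype.val (hcon j)
    rw [← hx j, h1, zero_pow hm.ne']
    rfl
  · apply (algebraMap F Ω).injective
    have h1 := hy l
    simp only [E, eval_spec] at h1
    rw [map_zero, ← h1]
    have h2 := MvPolynomial.comp_aeval_apply (IsScalarTower.toAlgHom k F Ω)
      (f := fun a : (Σ i, J i) => Function.update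
      (fun i' j => (1 - algebraMap (RatFunc k) F RatFunc.X) * algebraMap k F (z i' j) +
        algebraMap (RatFunc k) F RatFunc.X * algebraMap k F (z' i' j)) i
        (fun j => (⟨x j, hxF j⟩ : F)) a.1 a.2 ^ m) (f l)
    refine h2.trans ?_
    congr 1
    congr 1
    funext a
    obtain ⟨i', j⟩ := a
    rw [map_pow]
    by_cases h : i' = i
    · subst h
      simp only [Function.update_self]
      exact hx j
    · simp only [Function.update_of_ne h]
      rfl

variable [∀ i, DecidableEq (J i)] [NeZero m] {R : Type w} [Field R] [CharZero R]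

/-- characters which are trivial on one factor -/
theorem factor [IsAlgClosed k] [CharZero k] {ζ : kˣ} (hζ : IsPrimitiveRoot (ζ : k) m)
    {f : L → MvPolynomial (Σ i, J i) k} {δ : L → Fin r → ℕ}
    (hf : ∀ l, IsMultihomogeneous (f l) (δ l)) (i : Fin r) (hδ : ∀ l, δ l i ≠ 0)
    (hcard : ∑ l, δ l i < Fintype.card (J i)) {p q : ∀ i, ℙ k (J i → k)}
    (hp : p ∈ Zeros m f) (hq : q ∈ Zeros m f)
    {ψ : AddChar ((Σ i, J i) → ZMod m) R} (hψ : ∀ t, (∀ x, x.1 ≠ i → t x = 0) → ψ t = 1) :
    op ζ ψ (Finsupp.single p 1) - op ζ ψ (Finsupp.single q 1) ∈ ratEquiv R (Zeros m f) := by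
  classical
  have hζ1 : ζ ^ m = 1 := by
    apply Units.ext
    push_cast
    exact hζ.pow_eq_one
  obtain ⟨F, _, _, _, _, _, _, y, hy0, hy⟩ := exists_section (NeZero.pos m) hf i hδ hcard
    (fun i j => (p i).rep j) (fun i j => (q i).rep j)
  set x : ∀ i, J i → F := Function.update
      (fun i' j => (1 - algebraMap (RatFunc k) F RatFunc.X) * algebraMap k F ((p i').rep j) +
        algebraMap (RatFunc k) F RatFunc.X * algebraMap k F ((q i').rep j)) i y with hx
  have hone : ∀ u : Place k F, u.At (1 : F) 1 := fun u => by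
    simpa using Place.at_const (v := u) (1 : k)
  have htr : Transcendental k (algebraMap (RatFunc k) F RatFunc.X) := by
    rw [transcendental_algebraMap_iff (algebraMap (RatFunc k) F).injective]
    exact RatFunc.transcendental_X
  -- values at the points above `0` and `1`
  have hval0 : ∀ u : Place k F, u.At (algebraMap (RatFunc k) F RatFunc.X) 0 →
      ∀ i', i' ≠ i → DCI57.IsValue u (x i') (p i') := by
    intro u hu i' hi
    refine DCI57.isValue_iff.2 ⟨1, fun j => ?_⟩
    have h1 := (((hone u).sub hu).mul (Place.at_const (v := u) ((p i').rep j))).add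
      (hu.mul (Place.at_const (v := u) ((q i').rep j)))
    rw [sub_zero, one_mul, zero_mul, add_zero] at h1
    rw [one_mul, hx, Function.update_of_ne hi]
    exact h1
  have hval1 : ∀ u : Place k F, u.At (algebraMap (RatFunc k) F RatFunc.X) 1 →
      ∀ i', i' ≠ i → DCI57.IsValue u (x i') (q i') := by
    intro u hu i' hi
    refine DCI57.isValue_iff.2 ⟨1, fun j => ?_⟩
    have h1 := (((hone u).sub hu).mul (Place.at_const (v := u) ((p i').rep j))).add
      (hu.mul (Place.at_const (v := u) ((q i').rep j)))
    rw [sub_self, one_mul, zero_mul, zero_add] at h1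
    rw [one_mul, hx, Function.update_of_ne hi]
    exact h1
  obtain ⟨v, hv⟩ := exists_place htr 0
  obtain ⟨w, hw⟩ := exists_place htr 1
  have hx0 : ∀ i', ∃ j, x i' j ≠ 0 := by
    intro i'
    by_cases hi : i' = i
    · subst hi
      obtain ⟨j, hj⟩ := hy0
      exact ⟨j, by rwa [hx, Function.update_self]⟩
    · by_contra hcon
      push Not at hcon
      obtain ⟨g, hg⟩ := DCI57.isValue_iff.1 (hval0 v hv i' hi)
      apply (p i').rep_nonzero
      funext j
      have h1 := hg j
      rw [hcon j, mul_zero] at h1
      exact h1.unique (by simpa using Place.at_const (v := v) (0 : k))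
  have hval : ∀ u : Place k F, ∃ p : ∀ i, ℙ k (J i → k), IsValue u x p := by
    intro u
    choose p hp using fun i => DCI57.exists_value u (hx0 i)
    exact ⟨p, hp⟩
  choose φ hφ using hval
  have hφX : ∀ u, φ u ∈ Zeros m f := fun u => (hφ u).mem_Zeros hf hy
  have hv' : v.Vanishes (algebraMap (RatFunc k) F (RatFunc.X - RatFunc.C 0)) := by
    rw [DCI57.algebraMap_sub_C]
    exact hv
  have hw' : w.Vanishes (algebraMap (RatFunc k) F (RatFunc.X - RatFunc.C 1)) := by
    rw [DCI57.algebraMap_sub_C]
    exact hw
  have hat : ∀ (u : Place k F) (c : k) (τ : F ≃ₐ[RatFunc k] F),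
      u.At (algebraMap (RatFunc k) F RatFunc.X) c →
      (u.map (τ.restrictScalars k)).At (algebraMap (RatFunc k) F RatFunc.X) c := by
    intro u c τ hu
    rw [Place.at_map]
    have : (τ.restrictScalars k).symm (algebraMap (RatFunc k) F RatFunc.X) =
        algebraMap (RatFunc k) F RatFunc.X := τ.symm.commutes _
    rw [this]
    exact hu
  have h0 : ∀ u : Place k F, u.At (algebraMap (RatFunc k) F RatFunc.X) 0 →
      op ζ ψ (Finsupp.single p 1) - op ζ ψ (Finsupp.single (φ u) 1) ∈
        ratEquiv R (Zeros m f) := by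
    intro u hu
    exact fiber hζ hf i hcard hp (hφX u)
      (fun i' hi => (hval0 u hu i' hi).unique (hφ u i')) hψ
  have h1 : ∀ u : Place k F, u.At (algebraMap (RatFunc k) F RatFunc.X) 1 →
      op ζ ψ (Finsupp.single q 1) - op ζ ψ (Finsupp.single (φ u) 1) ∈
        ratEquiv R (Zeros m f) := by
    intro u hu
    exact fiber hζ hf i hcard hq (hφX u)
      (fun i' hi => (hval1 u hu i' hi).unique (hφ u i')) hψ
  have hgen := op_mem (ζ := ζ) ψ (X := Zeros m f) (fun g p hp => act_mem hf hζ1 hp g)
    (gen_mem (R := R) hφ hφX hv' hw')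
  rw [map_sum] at hgen
  have hsum : ∑ τ : F ≃ₐ[RatFunc k] F, (op ζ ψ (Finsupp.single p 1) -
      op ζ ψ (Finsupp.single q 1)) ∈ ratEquiv R (Zeros m f) := by
    have h2 : ∑ τ : F ≃ₐ[RatFunc k] F, (op ζ ψ (Finsupp.single p 1) -
        op ζ ψ (Finsupp.single q 1)) =
        ∑ τ : F ≃ₐ[RatFunc k] F, (op ζ ψ (Finsupp.single (φ (v.map (τ.restrictScalars k))) 1 -
          Finsupp.single (φ (w.map (τ.restrictScalars k))) 1)) +
        ∑ τ : F ≃ₐ[RatFunc k] F, ((op ζ ψ (Finsupp.single p 1) -
          op ζ ψ (Finsupp.single (φ (v.map (τ.restrictScalars k))) 1)) -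
          (op ζ ψ (Finsupp.single q 1) -
          op ζ ψ (Finsupp.single (φ (w.map (τ.restrictScalars k))) 1))) := by
      rw [← Finset.sum_add_distrib]
      apply Finset.sum_congr rfl
      intro τ _
      rw [map_sub]
      abel
    rw [h2]
    refine Submodule.add_mem _ hgen (Submodule.sum_mem _ fun τ _ => ?_)
    exact Submodule.sub_mem _ (h0 _ (hat v 0 τ hv)) (h1 _ (hat w 1 τ hw))
  rw [Finset.sum_const, ← Nat.cast_smul_eq_nsmul R] at hsum
  have hcard : (((Finset.univ : Finset (F ≃ₐ[RatFunc k] F)).card : ℕ) : R) ≠ 0 := by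
    rw [Nat.cast_ne_zero, Finset.card_ne_zero]
    exact ⟨1, Finset.mem_univ _⟩
  exact (Submodule.smul_mem_iff _ hcard).1 hsum

end Pool.Agent.MPC
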