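import Pool.Agent.MPC.Frac2

/-!
# The fractional packing theorem
-/

open Finset

namespace Pool.Agent.MPC

open Pool.Agent.SavChen

variable {m : ℕ} [NeZero m]

/-- disjoint zero-sum sequences give a splitting -/
lemma splits_of_counts {J : Type} [DecidableEq J] (a : J → ZMod m)
    (F : Finset (Multiset (ZMod m))) (hF : ∀ T ∈ F, ZSeq T) (n : ℕ) :
    ∀ (S : Finset J) (l : Multiset (ZMod m) → ℕ), ∑ j ∈ S, a j = 0 →
      (∀ x, ∑ T ∈ F, l T * T.count x ≤ (S.filter fun j => a j = x).card) →
      ∑ T ∈ F, l T = n → Splits a S n := by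
  classical
  induction n with
  | zero =>
    intro S l hS _ _
    rcases S.eq_empty_or_nonempty with rfl | hne
    · exact ⟨0, fun _ => 0, le_rfl, by simp, by simp, by simp⟩
    · exact (splits_one hne hS).mono (Nat.zero_le _)
  | succ n ih =>
    intro S l hS hc hl
    obtain ⟨T, hT, hlT⟩ : ∃ T ∈ F, l T ≠ 0 := by
      by_contra hcon
      push Not at hcon
      rw [Finset.sum_eq_zero hcon] at hl
      omega
    have hTc : ∀ x, l T * T.count x ≤ (S.filter fun j => a j = x).card := fun x =>
      (Finset.single_le_sum (f := fun T => l T * T.count x) (fun _ _ => Nat.zero_le _) hT).trans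
        (hc x)
    have hTc1 : ∀ x, T.count x ≤ (S.filter fun j => a j = x).card := fun x =>
      (Nat.le_mul_of_pos_left _ (Nat.pos_of_ne_zero hlT)).trans (hTc x)
    choose A hA hAc using fun x => Finset.exists_subset_card_eq (hTc1 x)
    set B : Finset J := S.filter fun j => j ∈ A (a j) with hB
    have hAa : ∀ x, ∀ j ∈ A x, a j = x := fun x j hj => (Finset.mem_filter.1 (hA x hj)).2
    have hBx : ∀ x, (B.filter fun j => a j = x) = A x := by
      intro x
      ext j
      simp only [hB, Finset.mem_filter]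
      constructor
      · rintro ⟨⟨-, h1⟩, h2⟩
        rwa [h2] at h1
      · intro h
        have h1 := hAa x j h
        exact ⟨⟨(Finset.mem_filter.1 (hA x h)).1, by rwa [h1]⟩, h1⟩
    have hZ := hF T hT
    have hBs : ∑ j ∈ B, a j = 0 := by
      rw [← hZ.2.1, Finset.sum_multiset_count, ← Finset.sum_fiberwise_of_maps_to
        (s := B) (t := T.toFinset) (g := a)]
      · apply Finset.sum_congr rfl
        intro x _
        rw [hBx, Finset.sum_congr rfl (hAa x), Finset.sum_const, hAc]
      · intro j hj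
        have h1 : j ∈ A (a j) := (Finset.mem_filter.1 hj).2
        rw [Multiset.mem_toFinset]
        by_contra h2
        rw [← Multiset.count_eq_zero, ← hAc, Finset.card_eq_zero] at h2
        rw [h2] at h1
        exact Finset.notMem_empty j h1
    have hBne : B.Nonempty := by
      obtain ⟨x, hx⟩ := Multiset.exists_mem_of_ne_zero hZ.1
      have h1 : 0 < (A x).card := by
        rw [hAc]
        exact Multiset.count_pos.2 hx
      obtain ⟨j, hj⟩ := Finset.card_pos.1 h1
      refine ⟨j, ?_⟩
      rw [← hBx x] at hj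
      exact (Finset.mem_filter.1 hj).1
    have hBS : B ⊆ S := Finset.filter_subset _ _
    apply Splits.add hBS hBne hBs
    apply ih (S \ B) (fun T' => l T' - if T' = T then 1 else 0)
    · rw [Finset.sum_sdiff_eq_sub hBS, hS, hBs, sub_zero]
    · intro x
      have h1 : ((S \ B).filter fun j => a j = x).card =
          (S.filter fun j => a j = x).card - T.count x := by
        rw [← hAc x, ← Finset.card_sdiff_of_subset (hA x)]
        congr 1
        ext j
        simp only [Finset.mem_filter, Finset.mem_sdiff, hB]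
        constructor
        · rintro ⟨⟨h1, h2⟩, h3⟩
          subst h3
          exact ⟨⟨h1, rfl⟩, fun h4 => h2 ⟨h1, h4⟩⟩
        · rintro ⟨⟨h1, h2⟩, h3⟩
          subst h2
          exact ⟨⟨h1, fun h4 => h3 h4.2⟩, rfl⟩
      rw [h1]
      apply Nat.le_sub_of_add_le
      refine le_trans ?_ (hc x)
      rw [← Finset.sum_erase_add _ _ hT, ← Finset.sum_erase_add F (fun T => l T * T.count x) hT,
        add_assoc]
      apply Nat.add_le_add
      · apply Finset.sum_le_sum
        intro T' _
        exact Nat.mul_le_mul_right _ (Nat.sub_le _ _)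
      · simp only [if_true]
        obtain ⟨t, ht⟩ := Nat.exists_eq_succ_of_ne_zero hlT
        rw [ht, Nat.succ_sub_one, Nat.succ_mul]
    · rw [← Finset.sum_erase_add _ _ hT] at hl ⊢
      simp only [if_true]
      have h1 : ∑ T' ∈ F.erase T, (l T' - if T' = T then 1 else 0) = ∑ T' ∈ F.erase T, l T' := by
        apply Finset.sum_congr rfl
        intro T' hT'
        rw [if_neg (Finset.ne_of_mem_erase hT'), Nat.sub_zero]
      rw [h1]
      omega

/-- elements of small order have large values -/
lemma Feas.weight {y : ZMod m → ℝ} (hy : Feas y) {x : ZMod m} (hx : x ≠ 0) {o W : ℕ} (ho : 0 < o)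
    (hox : (o : ZMod m) * x = 0) (hW : W * o ≤ m) : (W : ℝ) ≤ m * y x := by
  have h1 : ZSeq (Multiset.replicate o x) := by
    refine ⟨?_, ?_, ?_⟩
    · intro h0
      have := congrArg Multiset.card h0
      rw [Multiset.card_replicate, Multiset.card_zero] at this
      omega
    · rw [Multiset.sum_replicate, nsmul_eq_mul, hox]
    · rw [Multiset.mem_replicate]
      rintro ⟨-, h0⟩
      exact hx h0.symm
  have h2 := hy.le h1
  have h3 : ev y (Multiset.replicate o x) = o * y x := by simp [ev]
  rw [h3] at h2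
  have h4 : (W : ℝ) * o ≤ m := by exact_mod_cast hW
  have h5 := hy.1 x
  have h6 : (0 : ℝ) ≤ W := Nat.cast_nonneg _
  nlinarith

/-- **Fractional packings, with weights.** -/
theorem frac_weights {J : Type} [Fintype J] [DecidableEq J] (a : J → ZMod m) (ha : ∀ j, a j ≠ 0)
    (hsum : ∑ j, a j = 0) (κ : ℕ) (W : J → ℕ)
    (hW : ∀ j, ∃ o : ℕ, 0 < o ∧ (o : ZMod m) * a j = 0 ∧ W j * o ≤ m)
    (hN : m * κ < ∑ j, max 2 (W j))
    (hq : ∀ u : (ZMod m)ˣ, m * (κ + 1) ≤ ∑ j, ((u : ZMod m) * a j).val) :
    ∃ D, 0 < D ∧ Splits (fun w : J × Fin D => a w.1) Finset.univ (D * κ + 1) := by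
  classical
  by_contra hcon
  push Not at hcon
  have hm0 : 0 < m := NeZero.pos m
  have hmR : (0 : ℝ) < m := by exact_mod_cast hm0
  set c : ZMod m → ℕ := fun x => (Finset.univ.filter fun j => a j = x).card with hc
  -- real packings of the sequence
  have h1 : ∀ l : Multiset (ZMod m) → ℝ, (∀ T, 0 ≤ l T) →
      (∀ x, ∑ T ∈ fam m, l T * T.count x ≤ c x) → ∑ T ∈ fam m, l T ≤ κ := by
    intro l hl0 hl
    by_contra hlt
    push Not at hlt
    obtain ⟨D, hD⟩ := exists_nat_gt (((fam m).card : ℝ) / (∑ T ∈ fam m, l T - κ))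
    rw [div_lt_iff₀ (by linarith)] at hD
    have hD0 : 0 < D := by
      rcases Nat.eq_zero_or_pos D with h | h
      · rw [h, Nat.cast_zero, zero_mul] at hD
        have : (0 : ℝ) ≤ ((fam m).card : ℝ) := Nat.cast_nonneg _
        linarith
      · exact h
    apply hcon D hD0
    have hDR : (0 : ℝ) < D := by exact_mod_cast hD0
    have h2 : D * κ + 1 ≤ ∑ T ∈ fam m, ⌊(D : ℝ) * l T⌋₊ := by
      have h3 : (D : ℝ) * κ < ∑ T ∈ fam m, (⌊(D : ℝ) * l T⌋₊ : ℝ) := by
        have h4 : ∑ T ∈ fam m, ((D : ℝ) * l T - 1) ≤ ∑ T ∈ fam m, (⌊(D : ℝ) * l T⌋₊ : ℝ) :=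
          Finset.sum_le_sum fun T _ => (Nat.sub_one_lt_floor _).le
        rw [Finset.sum_sub_distrib, ← Finset.mul_sum] at h4
        simp only [Finset.sum_const, nsmul_eq_mul, mul_one] at h4
        nlinarith
      exact_mod_cast h3
    refine (splits_of_counts (fun w : J × Fin D => a w.1) (fam m) (fun T hT => (mem_fam.1 hT).2)
      _ Finset.univ (fun T => ⌊(D : ℝ) * l T⌋₊) ?_ ?_ rfl).mono h2
    · rw [Fintype.sum_prod_type]
      simp only [Finset.sum_const, Finset.card_univ, Fintype.card_fin, nsmul_eq_mul]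
      rw [← Finset.mul_sum, hsum, mul_zero]
    · intro x
      have h3 : (Finset.univ.filter fun w : J × Fin D => a w.1 = x).card = c x * D := by
        have h4 : (Finset.univ.filter fun w : J × Fin D => a w.1 = x) =
            (Finset.univ.filter fun j => a j = x) ×ˢ (Finset.univ : Finset (Fin D)) := by
          ext w
          simp
        rw [h4, Finset.card_product, Finset.card_univ, Fintype.card_fin]
      rw [h3]
      have h4 : (∑ T ∈ fam m, (⌊(D : ℝ) * l T⌋₊ : ℝ) * T.count x) ≤ c x * D := by
        have h5 : ∑ T ∈ fam m, (⌊(D : ℝ) * l T⌋₊ : ℝ) * T.count x ≤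
            ∑ T ∈ fam m, (D : ℝ) * (l T * T.count x) := by
          apply Finset.sum_le_sum
          intro T _
          rw [← mul_assoc]
          exact mul_le_mul_of_nonneg_right (Nat.floor_le (mul_nonneg hDR.le (hl0 T)))
            (Nat.cast_nonneg _)
        rw [← Finset.mul_sum] at h5
        have h6 := mul_le_mul_of_nonneg_left (hl x) hDR.le
        linarith
      exact_mod_cast h4
  -- the weights
  set N : ℕ := ∑ j, max 2 (W j) with hNdef
  set g : ℝ := min 1 (N / m - κ) with hg
  have hg0 : 0 < g := by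
    apply lt_min one_pos
    rw [sub_pos, lt_div_iff₀ hmR, mul_comm]
    exact_mod_cast hN
  have hκm : (0 : ℝ) < κ + m := by positivity
  set η : ℝ := g / (2 * (κ + m)) with hη
  have hη0 : 0 < η := by positivity
  have hηg : η * (κ + m) = g / 2 := by
    rw [hη]
    field_simp
  set w : ZMod m → ℝ := fun x => c x + η with hw
  have hw0 : ∀ x, 0 < w x := fun x => by
    have : (0 : ℝ) ≤ c x := Nat.cast_nonneg _
    simp only [hw]
    linarith
  have h2 : ∀ l : Multiset (ZMod m) → ℝ, (∀ T, 0 ≤ l T) →
      (∀ x, ∑ T ∈ fam m, l T * T.count x ≤ w x) → ∑ T ∈ fam m, l T ≤ κ + g / 2 := by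
    intro l hl0 hl
    have h3 : ∑ T ∈ (fam m).filter (fun T => ∀ x ∈ T, c x ≠ 0), l T ≤ (1 + η) * κ := by
      have h4 := h1 (fun T => if (∀ x ∈ T, c x ≠ 0) then l T / (1 + η) else 0) (fun T => by
        split_ifs
        · exact div_nonneg (hl0 T) (by linarith)
        · exact le_rfl) (fun x => by
        by_cases hx : c x = 0
        · rw [Finset.sum_eq_zero, hx, Nat.cast_zero]
          intro T _
          split_ifs with hT
          · have : x ∉ T := fun h => hT x h hx
            rw [Multiset.count_eq_zero_of_notMem this, Nat.cast_zero, mul_zero]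
          · rw [zero_mul]
        · have h5 : ∑ T ∈ fam m, (if (∀ x ∈ T, c x ≠ 0) then l T / (1 + η) else 0) *
              (T.count x : ℝ) ≤ ∑ T ∈ fam m, (1 / (1 + η)) * (l T * T.count x) := by
            apply Finset.sum_le_sum
            intro T _
            split_ifs with hT
            · apply le_of_eq
              ring
            · rw [zero_mul]
              have := hl0 T
              positivity
          rw [← Finset.mul_sum] at h5
          refine h5.trans ?_
          rw [div_mul_eq_mul_div, one_mul, div_le_iff₀ (by linarith)]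
          refine (hl x).trans ?_
          have h6 : (1 : ℝ) ≤ c x := by exact_mod_cast Nat.one_le_iff_ne_zero.2 hx
          simp only [hw]
          nlinarith)
      rw [← Finset.sum_filter, ← Finset.sum_div, div_le_iff₀ (by linarith)] at h4
      linarith
    have h4 : ∑ T ∈ (fam m).filter (fun T => ¬ ∀ x ∈ T, c x ≠ 0), l T ≤ η * m := by
      have h5 : ∑ T ∈ (fam m).filter (fun T => ¬ ∀ x ∈ T, c x ≠ 0), l T ≤
          ∑ T ∈ fam m, ∑ x with c x = 0, l T * T.count x := by
        rw [Finset.sum_filter]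
        apply Finset.sum_le_sum
        intro T _
        by_cases hT : ∀ x ∈ T, c x ≠ 0
        · rw [if_neg (not_not.2 hT)]
          exact Finset.sum_nonneg fun x _ => mul_nonneg (hl0 T) (Nat.cast_nonneg _)
        · rw [if_pos hT]
          push Not at hT
          obtain ⟨x, hx, hcx⟩ := hT
          have h6 : l T * T.count x ≤ ∑ x with c x = 0, l T * T.count x :=
            Finset.single_le_sum (f := fun x => l T * (T.count x : ℝ))
              (fun x _ => mul_nonneg (hl0 T) (Nat.cast_nonneg _)) (by simp [hcx])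
          have h7 : (1 : ℝ) ≤ T.count x := by exact_mod_cast Multiset.count_pos.2 hx
          have := hl0 T
          nlinarith
      rw [Finset.sum_comm] at h5
      have h6 : ∑ x with c x = 0, ∑ T ∈ fam m, l T * T.count x ≤ ∑ x with c x = 0, η := by
        apply Finset.sum_le_sum
        intro x hx
        rw [Finset.mem_filter] at hx
        have := hl x
        simp only [hw, hx.2, Nat.cast_zero, zero_add] at this
        exact this
      have h7 : ∑ x : ZMod m with c x = 0, η ≤ η * m := by
        rw [Finset.sum_const, nsmul_eq_mul, mul_comm]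
        apply mul_le_mul_of_nonneg_left _ hη0.le
        have : (Finset.univ.filter fun x : ZMod m => c x = 0).card ≤ m := by
          refine (Finset.card_le_univ _).trans ?_
          rw [ZMod.card]
        exact_mod_cast this
      linarith
    rw [← Finset.sum_filter_add_sum_filter_not (fam m) (fun T => ∀ x ∈ T, c x ≠ 0)]
    have h5 : (1 + η) * κ + η * m = κ + g / 2 := by rw [← hηg]; ring
    linarith
  obtain ⟨y₀, hy₀, hy₀c⟩ := duality hw0 (by positivity) h2
  obtain ⟨y, hy, hmin⟩ := exists_optimal hw0 hy₀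
  have hyc : ∑ x, w x * y x ≤ κ + g / 2 := (hmin y₀ hy₀).trans hy₀c
  -- sums over the sequence
  have hS : ∀ z : ZMod m → ℝ, (∀ x, 0 ≤ z x) → ∑ j, z (a j) ≤ ∑ x, w x * z x := by
    intro z hz
    rw [← Finset.sum_fiberwise Finset.univ a (fun j => z (a j))]
    apply Finset.sum_le_sum
    intro x _
    rw [Finset.sum_congr rfl (g := fun _ => z x) (fun j hj => by
      rw [(Finset.mem_filter.1 hj).2]), Finset.sum_const, nsmul_eq_mul]
    apply mul_le_mul_of_nonneg_right _ (hz x)
    simp only [hw]
    have : (((Finset.univ.filter fun j => a j = x).card : ℕ) : ℝ) = c x := rfl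
    linarith
  have hex : ∃ j, (m : ℝ) * y (a j) < 2 := by
    by_contra hcon
    push Not at hcon
    have h3 := hS y hy.1
    have h4 : (N : ℝ) ≤ m * ∑ j, y (a j) := by
      rw [Finset.mul_sum, hNdef]
      push_cast
      apply Finset.sum_le_sum
      intro j _
      apply max_le (hcon j)
      obtain ⟨o, ho, ho1, ho2⟩ := hW j
      exact hy.weight (ha j) ho ho1 ho2
    have h5 : g ≤ N / m - κ := min_le_right _ _
    have h6 : (N : ℝ) / m ≤ ∑ j, y (a j) := by
      rw [div_le_iff₀ hmR]
      linarith
    linarith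
  obtain ⟨j, hj⟩ := hex
  have hunit : IsUnit (a j) := by
    by_contra h
    exact absurd (hy.two_le (ha j) h) (not_le.2 hj)
  obtain ⟨v, hv⟩ := hunit
  have h3 := optimal hw0 hy hmin v⁻¹ (by rw [inv_inv, hv]; exact hj)
  have h4 := hS (zf v⁻¹) (fun x => by unfold zf; positivity)
  have h5 : (κ : ℝ) + 1 ≤ ∑ j, zf v⁻¹ (a j) := by
    unfold zf
    rw [← Finset.sum_div, le_div_iff₀ hmR, mul_comm]
    exact_mod_cast hq v⁻¹
  have h6 : g ≤ 1 := min_le_left _ _
  linarith

/-- **Fractional packings.** -/
theorem frac {J : Type} [Fintype J] [DecidableEq J] (a : J → ZMod m) (ha : ∀ j, a j ≠ 0)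
    (hsum : ∑ j, a j = 0) (κ : ℕ) (hN : m * κ < 2 * Fintype.card J)
    (hq : ∀ u : (ZMod m)ˣ, m * (κ + 1) ≤ ∑ j, ((u : ZMod m) * a j).val) :
    ∃ D, 0 < D ∧ Splits (fun w : J × Fin D => a w.1) Finset.univ (D * κ + 1) := by
  apply frac_weights a ha hsum κ (fun _ => 1) (fun j => ⟨m, NeZero.pos m, by simp, by simp⟩) _ hq
  simpa [mul_comm] using hN

/-- **Fractional packings for several factors.** If all the sums of the factors are at least the
numbers `m * κ i`, for all units, then some unit gives equality for all factors, or the whole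
sequence, repeated, splits into more than the expected number of blocks. -/
theorem frac_factors {ι : Type} [Fintype ι] [Nonempty ι] {J : ι → Type} [∀ i, Fintype (J i)]
    [DecidableEq (Σ i, J i)] (a : (Σ i, J i) → ZMod m) (ha : ∀ x, a x ≠ 0)
    (hsum : ∀ i, ∑ j, a ⟨i, j⟩ = 0) (κ : ι → ℕ) (W : (Σ i, J i) → ℕ)
    (hW : ∀ x, ∃ o : ℕ, 0 < o ∧ (o : ZMod m) * a x = 0 ∧ W x * o ≤ m)
    (hN : ∀ i, m * κ i < ∑ j, max 2 (W ⟨i, j⟩))
    (hq : ∀ (u : (ZMod m)ˣ) i, m * κ i ≤ ∑ j, ((u : ZMod m) * a ⟨i, j⟩).val) :
    (∃ u : (ZMod m)ˣ, ∀ i, ∑ j, ((u : ZMod m) * a ⟨i, j⟩).val = m * κ i) ∨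
      ∃ D, 0 < D ∧ Splits (fun w : (Σ i, J i) × Fin D => a w.1) Finset.univ
        (D * ∑ i, κ i + 1) := by
  classical
  by_cases h : ∃ u : (ZMod m)ˣ, ∀ i, ∑ j, ((u : ZMod m) * a ⟨i, j⟩).val = m * κ i
  · exact Or.inl h
  · refine Or.inr ?_
    push Not at h
    have hm0 : 0 < m := NeZero.pos m
    convert frac_weights a ha ?_ (∑ i, κ i) W hW ?_ ?_ using 1
    · rw [Fintype.sum_sigma]
      exact Finset.sum_eq_zero fun i _ => hsum i
    · rw [Fintype.sum_sigma, Finset.mul_sum]
      exact Finset.sum_lt_sum_of_nonempty Finset.univ_nonempty fun i _ => hN i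
    · intro u
      obtain ⟨i₀, hi₀⟩ := h u
      have h1 : m * (κ i₀ + 1) ≤ ∑ j, ((u : ZMod m) * a ⟨i₀, j⟩).val := by
        have h2 : m ∣ ∑ j, ((u : ZMod m) * a ⟨i₀, j⟩).val := by
          rw [← ZMod.natCast_eq_zero_iff]
          push_cast
          simp only [ZMod.natCast_val, ZMod.cast_id', id_eq]
          rw [← Finset.mul_sum, hsum, mul_zero]
        obtain ⟨c, hc⟩ := h2
        have h3 := hq u i₀
        rw [hc] at h3 hi₀ ⊢
        have h4 := Nat.le_of_mul_le_mul_left h3 hm0
        apply Nat.mul_le_mul_left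
        rcases h4.eq_or_lt with h5 | h5
        · exact absurd (by rw [h5]) hi₀
        · exact h5
      have h2 : m * (∑ i, κ i + 1) = ∑ i, m * (κ i + if i = i₀ then 1 else 0) := by
        rw [← Finset.mul_sum, Finset.sum_add_distrib]
        simp
      rw [h2, Fintype.sum_sigma]
      apply Finset.sum_le_sum
      intro i _
      by_cases hi : i = i₀
      · subst hi
        simpa using h1
      · rw [if_neg hi, add_zero]
        exact hq u i

end Pool.Agent.MPC
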