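import Pool.Agent.MPC.Pattern
import Pool.Agent.MPC.Frac3
import Pool.Agent.DCI57.Split

/-!
# The numerical condition

If no conjugate of the character occurs in the space of holomorphic forms then there is a pattern
with many blocks.
-/

namespace Pool.Agent.MPC

open Pool.Agent.SavChen

variable {r : ℕ} {J : Fin r → Type} [∀ i, Fintype (J i)] [∀ i, DecidableEq (J i)] {m : ℕ}

/-- the slots: `d` copies of every coordinate on which the character is not trivial -/
abbrev Slot (a : (Σ i, J i) → ZMod m) (d : Fin r → ℕ) : Type :=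
  Σ x : {x // a x ≠ 0}, Fin (d x.1.1)

omit [∀ i, DecidableEq (J i)] in
lemma sum_slot (a : (Σ i, J i) → ZMod m) (d : Fin r → ℕ) (g : (Σ i, J i) → ℕ)
    (hg : ∀ x, a x = 0 → g x = 0) :
    ∑ w : Slot a d, g w.1.1 = ∑ i, d i * ∑ j, g ⟨i, j⟩ := by
  rw [Fintype.sum_sigma]
  simp only [Finset.sum_const, Finset.card_univ, Fintype.card_fin, smul_eq_mul]
  rw [← Finset.sum_subtype (Finset.univ.filter fun x => a x ≠ 0) (by simp)
    fun x => d x.1 * g x, Finset.sum_filter, Fintype.sum_sigma]
  apply Finset.sum_congr rfl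
  intro i _
  rw [Finset.mul_sum]
  apply Finset.sum_congr rfl
  intro j _
  split_ifs with h
  · rfl
  · push Not at h
    rw [hg _ h, mul_zero]

/-- the number of the coordinates in the `i`-th group on which the character is not trivial -/
def supp (a : (Σ i, J i) → ZMod m) (i : Fin r) : ℕ :=
  (Finset.univ.filter fun j => a ⟨i, j⟩ ≠ 0).card

omit [∀ i, DecidableEq (J i)] in
lemma card_slot (a : (Σ i, J i) → ZMod m) (d : Fin r → ℕ) :
    Fintype.card (Slot a d) = ∑ i, d i * supp a i := by
  have h1 := sum_slot a d (fun x => if a x ≠ 0 then 1 else 0) (fun x hx => by simp [hx])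
  have h2 : ∑ w : Slot a d, (if a w.1.1 ≠ 0 then 1 else 0) = Fintype.card (Slot a d) := by
    rw [← Finset.card_univ, Finset.card_eq_sum_ones]
    apply Finset.sum_congr rfl
    intro w _
    rw [if_pos w.1.2]
  rw [← h2, h1]
  apply Finset.sum_congr rfl
  intro i _
  rw [supp, Finset.card_filter]

lemma slots_slot (a : (Σ i, J i) → ZMod m) (d : Fin r → ℕ) (x : Σ i, J i) :
    (Finset.univ.filter fun w : Slot a d => w.1.1 = x).card = if a x = 0 then 0 else d x.1 := by
  split_ifs with hx
  · rw [Finset.card_eq_zero, Finset.filter_eq_empty_iff]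
    rintro ⟨⟨y, hy⟩, c⟩ - h0
    exact hy ((congrArg a (show y = x from h0)).trans hx)
  · have h5 : (Finset.univ.filter fun w : Slot a d => w.1.1 = x) =
        (Finset.univ : Finset (Fin (d x.1))).map
          ⟨fun c => (⟨⟨x, hx⟩, c⟩ : Slot a d), fun c c' h => by simpa using h⟩ := by
      ext ⟨⟨y, hy⟩, c⟩
      simp only [Finset.mem_filter, Finset.mem_univ, true_and, Finset.mem_map,
        Function.Embedding.coeFn_mk]
      constructor
      · intro h0
        subst h0
        exact ⟨c, rfl⟩
      · rintro ⟨c', h0⟩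
        have h6 := congrArg (fun w : Slot a d => w.1.1) h0
        exact h6.symm
    rw [h5, Finset.card_map, Finset.card_univ, Fintype.card_fin]

/-- a splitting of the slots is a pattern -/
theorem build {a : (Σ i, J i) → ZMod m} {δ d : Fin r → ℕ} (hd : ∀ i, d i ≠ 0 → ∃ j, a ⟨i, j⟩ ≠ 0)
    {Ω : Type} [Fintype Ω] [DecidableEq Ω] {s : Ω → Σ i, J i}
    (hs : ∀ x, (Finset.univ.filter fun w => s w = x).card = if a x = 0 then 0 else d x.1)
    {q : ℕ} (hq : 1 + ∑ i, d i * (δ i + supp a i) ≤ ∑ i, d i * Fintype.card (J i) + q)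
    (h : Splits (fun w => a (s w)) Finset.univ q) :
    ∃ (e : ℕ) (b : Ω → Fin e), Pattern a δ s b d := by
  obtain ⟨e, b, h1, h2, h3, h4⟩ := h
  refine ⟨e, fun w => ⟨b w, h2 w (Finset.mem_univ w)⟩, hs, hd, ?_, ?_, ?_⟩
  · intro B
    obtain ⟨w, -, hw⟩ := h3 B.1 B.2
    exact ⟨w, Fin.ext hw⟩
  · intro B
    refine Eq.trans (Finset.sum_congr ?_ fun _ _ => rfl) (h4 B.1 B.2)
    ext w
    simp only [Finset.mem_filter, Finset.mem_univ, true_and]
    exact ⟨fun h => congrArg Fin.val h, fun h => Fin.ext h⟩
  · rw [Fintype.card_fin]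
    change ∑ i, d i * (δ i + supp a i) < _
    omega

section

/-- the sum of the representatives -/
def tot (a : (Σ i, J i) → ZMod m) (u : (ZMod m)ˣ) (i : Fin r) : ℕ :=
  ∑ j, ((u : ZMod m) * a ⟨i, j⟩).val

omit [∀ i, DecidableEq (J i)] in
lemma supp_le_card (a : (Σ i, J i) → ZMod m) (i : Fin r) : supp a i ≤ Fintype.card (J i) :=
  Finset.card_le_univ _

omit [∀ i, DecidableEq (J i)] in
lemma supp_le_tot (a : (Σ i, J i) → ZMod m) (u : (ZMod m)ˣ) (i : Fin r) :
    supp a i ≤ tot a u i := by
  rw [supp, Finset.card_filter, tot]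
  apply Finset.sum_le_sum
  intro j _
  split_ifs with h
  · apply Nat.one_le_iff_ne_zero.2
    intro h0
    exact h ((Units.mul_right_eq_zero u).1 ((ZMod.val_eq_zero _).1 h0))
  · exact Nat.zero_le _

variable [NeZero m]

omit [∀ i, DecidableEq (J i)] in
lemma dvd_tot {a : (Σ i, J i) → ZMod m} (hsum : ∀ i, ∑ j, a ⟨i, j⟩ = 0) (u : (ZMod m)ˣ)
    (i : Fin r) : m ∣ tot a u i := by
  rw [← ZMod.natCast_eq_zero_iff, tot]
  push_cast
  simp only [ZMod.natCast_val, ZMod.cast_id', id_eq]
  rw [← Finset.mul_sum, hsum, mul_zero]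

/-- If the conjugate `u * a` of the character does not occur, then one of the numbers is positive. -/
lemma exists_pos {δ : Fin r → ℕ} {a : (Σ i, J i) → ZMod m} (hJ : ∀ i, Nonempty (J i))
    {I : Finset (Fin r)} (hI : ∀ x, x.1 ∉ I → a x = 0)
    (ha : ∀ u : (ZMod m)ˣ, ∀ b : (Σ i, J i) → ℕ, (∀ x, x.1 ∈ I → 1 ≤ b x) →
      (∀ x, x.1 ∉ I → b x = 0) →
      (∀ i ∈ I, ∑ j, b ⟨i, j⟩ = δ i * m) → ¬ ∀ x, (b x : ZMod m) = u * a x)
    {u : (ZMod m)ˣ} {B : Fin r → ℕ} (hB : ∀ i, tot a u i = m * B i) :
    ∃ i ∈ I, δ i + supp a i < B i + Fintype.card (J i) := by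
  by_contra hcon
  push Not at hcon
  have hm0 : 0 < m := NeZero.pos m
  apply ha u (fun x => if x.1 ∈ I then (if a x ≠ 0 then ((u : ZMod m) * a x).val else m) +
    if x.2 = (hJ x.1).some then m * (δ x.1 + supp a x.1 - (B x.1 + Fintype.card (J x.1))) else 0
    else 0)
  · intro x hx
    simp only [if_pos hx]
    refine le_trans ?_ (Nat.le_add_right _ _)
    split_ifs with h
    · apply Nat.one_le_iff_ne_zero.2
      intro h0
      exact h ((Units.mul_right_eq_zero u).1 ((ZMod.val_eq_zero _).1 h0))
    · exact hm0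
  · intro x hx
    simp only [if_neg hx]
  · intro i hi
    simp only [if_pos hi]
    rw [Finset.sum_add_distrib]
    have h1 : ∑ j, (if j = (hJ i).some then
        m * (δ i + supp a i - (B i + Fintype.card (J i))) else 0) =
        m * (δ i + supp a i - (B i + Fintype.card (J i))) := by
      rw [Finset.sum_ite_eq' Finset.univ]
      simp
    have h2 : ∑ j, (if a ⟨i, j⟩ ≠ 0 then ((u : ZMod m) * a ⟨i, j⟩).val else m) =
        m * B i + m * (Fintype.card (J i) - supp a i) := by
      rw [Finset.sum_ite]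
      congr 1
      · rw [← hB i, tot, Finset.sum_filter]
        apply Finset.sum_congr rfl
        intro j _
        split_ifs with h
        · rfl
        · push Not at h
          simp [h]
      · rw [Finset.sum_const, smul_eq_mul, mul_comm, supp]
        congr 1
        rw [Finset.filter_not, Finset.card_sdiff_of_subset (Finset.filter_subset _ _),
          Finset.card_univ]
    change (∑ j, (if a ⟨i, j⟩ ≠ 0 then ((u : ZMod m) * a ⟨i, j⟩).val else m)) +
      ∑ j, (if j = (hJ i).some then
        m * (δ i + supp a i - (B i + Fintype.card (J i))) else 0) = _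
    rw [h1, h2, ← mul_add, ← mul_add, mul_comm]
    congr 1
    have h3 := hcon i hi
    have h4 := supp_le_card a i
    omega
  · rintro ⟨i, j⟩
    by_cases hi : i ∈ I
    · simp only [if_pos hi]
      push_cast
      by_cases h : a ⟨i, j⟩ = 0
      · simp [h]
      · simp [h]
    · simp only [if_neg hi]
      rw [hI ⟨i, j⟩ hi]
      simp

end

section

variable {δ s N : Fin r → ℕ} {U : Type} {B : U → Fin r → ℕ}

omit J in
/-- weights, if all numbers except those of one index are nonnegative -/
lemma weights_one (hm : 0 < m) (i₀ : Fin r) (hs : ∀ i, s i ≤ N i) (hB : ∀ u i, s i ≤ m * B u i)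
    (hpos : ∀ u, ∃ i, s i ≠ 0 ∧ δ i + s i < B u i + N i)
    (hN : ∀ i, i ≠ i₀ → δ i * m < N i + m) :
    ∃ d : Fin r → ℕ, (∀ i, d i ≠ 0 → s i ≠ 0) ∧
      ∀ u, 1 + ∑ i, d i * (δ i + s i) ≤ ∑ i, d i * (B u i + N i) := by
  classical
  refine ⟨fun i => if s i = 0 then 0 else if i = i₀ then 1 else δ i₀ + 1, fun i hi h0 => hi (by
    simp [h0]), fun u => ?_⟩
  set d : Fin r → ℕ := fun i => if s i = 0 then 0 else if i = i₀ then 1 else δ i₀ + 1 with hd
  set t : Fin r → ℤ := fun i => (d i : ℤ) * ((B u i : ℤ) + N i - (δ i + s i)) with ht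
  have hv : ∀ i, i ≠ i₀ → 0 ≤ (B u i : ℤ) + N i - (δ i + s i) := by
    intro i hi
    have h1 := hN i hi
    have h2 := hs i
    have h3 := hB u i
    by_contra hcon
    have h4 : B u i + N i + 1 ≤ δ i + s i := by omega
    obtain ⟨y, hy⟩ := Nat.exists_eq_add_of_le h2
    have h5 : B u i + y + 1 ≤ δ i := by omega
    have h6 : m * B u i + m * y + m ≤ δ i * m := by
      have := Nat.mul_le_mul_left m h5
      rw [mul_add, mul_add, mul_one] at this
      rw [mul_comm (δ i)]
      exact this
    have h7 : y ≤ m * y := Nat.le_mul_of_pos_left y hm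
    omega
  have ht0 : ∀ i, i ≠ i₀ → 0 ≤ t i := fun i hi => mul_nonneg (Int.natCast_nonneg _) (hv i hi)
  have hti₀ : -(δ i₀ : ℤ) ≤ t i₀ := by
    simp only [ht, hd, if_true]
    split_ifs with h
    · simp
    · have := hs i₀
      push_cast
      omega
  have key : 1 ≤ ∑ i, t i := by
    obtain ⟨i, hsi, hi⟩ := hpos u
    rw [← Finset.add_sum_erase Finset.univ t (Finset.mem_univ i₀)]
    have hrest : 0 ≤ ∑ i ∈ Finset.univ.erase i₀, t i :=
      Finset.sum_nonneg fun i hi => ht0 i (Finset.ne_of_mem_erase hi)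
    by_cases h : i = i₀
    · subst h
      have h1 : 1 ≤ t i := by
        simp only [ht, hd, if_neg hsi, if_true]
        push_cast
        omega
      omega
    · have h1 : (δ i₀ : ℤ) + 1 ≤ t i := by
        simp only [ht, hd, if_neg hsi, if_neg h]
        push_cast
        have h2 : (1 : ℤ) ≤ (B u i : ℤ) + N i - (δ i + s i) := by omega
        nlinarith
      have h2 : t i ≤ ∑ i ∈ Finset.univ.erase i₀, t i :=
        Finset.single_le_sum (f := t) (fun i hi => ht0 i (Finset.ne_of_mem_erase hi))
          (Finset.mem_erase.2 ⟨h, Finset.mem_univ i⟩)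
      omega
  have h1 : ∑ i, t i = ((∑ i, d i * (B u i + N i) : ℕ) : ℤ) - ((∑ i, d i * (δ i + s i) : ℕ) : ℤ) := by
    push_cast
    rw [← Finset.sum_sub_distrib]
    apply Finset.sum_congr rfl
    intro i _
    simp only [ht]
    ring
  rw [h1] at key
  change 1 + ∑ i, d i * (δ i + s i) ≤ ∑ i, d i * (B u i + N i)
  omega

omit J in
/-- weights, for the curves which move only one component -/
lemma weights_single [Subsingleton U] [Nonempty U]
    (hpos : ∀ u, ∃ i, s i ≠ 0 ∧ δ i + s i < B u i + N i) :
    ∃ d : Fin r → ℕ, (∀ i, d i ≠ 0 → s i ≠ 0) ∧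
      ∀ u, 1 + ∑ i, d i * (δ i + s i) ≤ ∑ i, d i * (B u i + N i) := by
  classical
  obtain ⟨u₀⟩ := ‹Nonempty U›
  obtain ⟨i, hsi, hi⟩ := hpos u₀
  refine ⟨Pi.single i 1, fun i' hi' => ?_, fun u => ?_⟩
  · by_cases h : i' = i
    · rwa [h]
    · rw [Pi.single_eq_of_ne h] at hi'
      exact absurd rfl hi'
  · rw [Subsingleton.elim u u₀]
    have h1 : ∀ g : Fin r → ℕ, ∑ i', (Pi.single i 1 : Fin r → ℕ) i' * g i' = g i := by
      intro g
      rw [Finset.sum_eq_single i]
      · simp
      · intro i' _ hi'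
        rw [Pi.single_eq_of_ne hi', zero_mul]
      · simp
    rw [h1, h1]
    omega

end

/-- **The numerical condition.** -/
theorem exists_pattern [NeZero m] {δ : Fin r → ℕ} {a : (Σ i, J i) → ZMod m}
    (hJ : ∀ i, Nonempty (J i))
    (hm : m ≤ 5 ∨ m = 7 ∨ ∀ i, δ i * m < 2 * Fintype.card (J i))
    (hδ : m ≤ 2 ∨ ∃ i₀, ∀ i, i ≠ i₀ → δ i * m < Fintype.card (J i) + m)
    {I : Finset (Fin r)} (hI : ∀ x, x.1 ∉ I → a x = 0)
    (ha : ∀ u : (ZMod m)ˣ, ∀ b : (Σ i, J i) → ℕ, (∀ x, x.1 ∈ I → 1 ≤ b x) →
      (∀ x, x.1 ∉ I → b x = 0) →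
      (∀ i ∈ I, ∑ j, b ⟨i, j⟩ = δ i * m) → ¬ ∀ x, (b x : ZMod m) = u * a x)
    (hsum : ∀ i, ∑ j, a ⟨i, j⟩ = 0)
    (h0 : ∀ i ∈ I, (∀ j, a ⟨i, j⟩ = 0) → Fintype.card (J i) ≤ δ i) :
    ∃ (Ω : Type) (_ : Fintype Ω) (_ : DecidableEq Ω) (s : Ω → Σ i, J i) (d : Fin r → ℕ) (e : ℕ)
      (b : Ω → Fin e), Pattern a δ s b d := by
  classical
  have hm0 : 0 < m := NeZero.pos m
  choose B hB using fun u : (ZMod m)ˣ => fun i => dvd_tot hsum u i
  have hsupp : ∀ i, supp a i = 0 → ∀ j, a ⟨i, j⟩ = 0 := by
    intro i hi j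
    rw [supp, Finset.card_eq_zero, Finset.filter_eq_empty_iff] at hi
    have := hi (Finset.mem_univ j)
    simpa using this
  have hpos : ∀ u, ∃ i, supp a i ≠ 0 ∧ δ i + supp a i < B u i + Fintype.card (J i) := by
    intro u
    obtain ⟨i, hiI, hi⟩ := exists_pos hJ hI ha (hB u)
    refine ⟨i, fun h => ?_, hi⟩
    have h1 := h0 i hiI (hsupp i h)
    have h2 : tot a u i = 0 := by
      rw [tot]
      apply Finset.sum_eq_zero
      intro j _
      rw [hsupp i h j, mul_zero, ZMod.val_zero]
    have h3 : B u i = 0 := by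
      have := hB u i
      rw [h2] at this
      rcases Nat.mul_eq_zero.1 this.symm with h4 | h4
      · omega
      · exact h4
    omega
  have hle : ∀ u i, supp a i ≤ m * B u i := fun u i => by
    rw [← hB u i]
    exact supp_le_tot a u i
  have hm1 : m ≠ 1 := by
    rintro rfl
    obtain ⟨i, hi, -⟩ := hpos 1
    apply hi
    rw [supp, Finset.card_eq_zero, Finset.filter_eq_empty_iff]
    intro j _ h
    exact h (Subsingleton.elim _ _)
  obtain ⟨d, hd1, hd2⟩ : ∃ d : Fin r → ℕ, (∀ i, d i ≠ 0 → supp a i ≠ 0) ∧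
      ∀ u, 1 + ∑ i, d i * (δ i + supp a i) ≤ ∑ i, d i * (B u i + Fintype.card (J i)) := by
    rcases hδ with h2 | ⟨i₀, hi₀⟩
    · have : Subsingleton (ZMod m)ˣ := by
        constructor
        intro u v
        apply Units.ext
        rcases (show m = 1 ∨ m = 2 by omega) with h3 | h3
        · subst h3
          exact Subsingleton.elim _ _
        · subst h3
          have h4 : ∀ w : (ZMod 2)ˣ, (w : ZMod 2) = 1 := by decide
          rw [h4, h4]
      exact weights_single hpos
    · exact weights_one hm0 i₀ (fun i => supp_le_card a i) hle hpos hi₀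
  have hd' : ∀ i, d i ≠ 0 → ∃ j, a ⟨i, j⟩ ≠ 0 := by
    intro i hi
    by_contra hcon
    push Not at hcon
    apply hd1 i hi
    rw [supp, Finset.card_eq_zero, Finset.filter_eq_empty_iff]
    intro j _
    simp [hcon j]
  -- the sums over the slots
  have hq : ∀ u : (ZMod m)ˣ, ∑ w : Slot a d, ((u : ZMod m) * a w.1.1).val =
      m * ∑ i, d i * B u i := by
    intro u
    rw [sum_slot a d (fun x => ((u : ZMod m) * a x).val) (fun x hx => by simp [hx]),
      Finset.mul_sum]
    apply Finset.sum_congr rfl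
    intro i _
    have := hB u i
    rw [tot] at this
    rw [this]
    ring
  have hq2 : ∀ u : (ZMod m)ˣ, 1 + ∑ i, d i * (δ i + supp a i) ≤
      ∑ i, d i * B u i + ∑ i, d i * Fintype.card (J i) := by
    intro u
    have := hd2 u
    simp only [mul_add, Finset.sum_add_distrib] at this ⊢
    omega
  have hsumslot : ∑ w : Slot a d, a w.1.1 = 0 := by
    rw [Fintype.sum_sigma]
    simp only [Finset.sum_const, Finset.card_univ, Fintype.card_fin, nsmul_eq_mul]
    rw [← Finset.sum_subtype (Finset.univ.filter fun x => a x ≠ 0) (by simp)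
      fun x => (d x.1 : ZMod m) * a x, Finset.sum_filter, Fintype.sum_sigma]
    apply Finset.sum_eq_zero
    intro i _
    have h1 : ∀ j, (if a ⟨i, j⟩ ≠ 0 then (d i : ZMod m) * a ⟨i, j⟩ else 0) =
        (d i : ZMod m) * a ⟨i, j⟩ := by
      intro j
      split_ifs with h
      · rfl
      · push Not at h
        rw [h, mul_zero]
    rw [Finset.sum_congr rfl fun j _ => h1 j, ← Finset.mul_sum, hsum i, mul_zero]
  by_cases hm57 : m ≤ 5 ∨ m = 7
  · obtain ⟨e, b, h⟩ := build (δ := δ) hd' (slots_slot a d)
      (q := 1 + ∑ i, d i * (δ i + supp a i) - ∑ i, d i * Fintype.card (J i)) (by omega)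
      (DCI57.exists_split (by omega) (fun w : Slot a d => a w.1.1) Finset.univ
        (fun w _ => w.1.2) hsumslot _ (fun u => by
          rw [hq u]
          apply Nat.mul_le_mul_left
          have := hq2 u
          omega))
    exact ⟨Slot a d, inferInstance, inferInstance, _, d, e, b, h⟩
  · have hm2 : ∀ i, δ i * m < 2 * Fintype.card (J i) := by
      rcases hm with hm | hm | hm
      · exact absurd (Or.inl hm) hm57
      · exact absurd (Or.inr hm) hm57
      · exact hm
    have hdpos : 0 < ∑ i, d i := by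
      by_contra hcon
      have h1 : ∀ i, d i = 0 := by
        intro i
        have := Finset.single_le_sum (f := d) (fun i _ => Nat.zero_le _) (Finset.mem_univ i)
        omega
      have h2 := hd2 1
      simp only [h1, zero_mul, Finset.sum_const_zero] at h2
      omega
    have hne : (Finset.univ : Finset (Slot a d)).Nonempty := by
      have h1 : 0 < Fintype.card (Slot a d) := by
        rw [card_slot]
        by_contra hcon
        have h2 : ∑ i, d i * supp a i = 0 := by omega
        rw [Finset.sum_eq_zero_iff] at h2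
        have h3 : ∑ i, d i = 0 := by
          apply Finset.sum_eq_zero
          intro i hi
          by_contra h4
          rcases Nat.mul_eq_zero.1 (h2 i hi) with h5 | h5
          · exact h4 h5
          · exact hd1 i h4 h5
        omega
      have : Nonempty (Slot a d) := Fintype.card_pos_iff.1 h1
      exact Finset.univ_nonempty
    rcases Nat.lt_or_ge (∑ i, d i * Fintype.card (J i)) (∑ i, d i * (δ i + supp a i)) with
      hlt | hge
    · obtain ⟨κ, hκ⟩ := Nat.exists_eq_add_of_lt hlt
      -- `κ + 1` is the number of blocks to be exceeded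
      have hN : m * (κ + 1) < 2 * Fintype.card (Slot a d) := by
        rw [card_slot]
        have hterm : ∀ i, d i * (m * (δ i + supp a i) + 1) ≤
            d i * (m * Fintype.card (J i) + 2 * supp a i) := by
          intro i
          apply Nat.mul_le_mul_left
          have h1 := hm2 i
          obtain ⟨y, hy⟩ := Nat.exists_eq_add_of_le (supp_le_card a i)
          have h2 : 2 * y ≤ m * y := Nat.mul_le_mul_right y (by omega)
          rw [hy] at h1 ⊢
          rw [mul_comm (δ i)] at h1
          rw [mul_add, mul_add]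
          omega
        have hsum2 := Finset.sum_le_sum fun i (_ : i ∈ Finset.univ) => hterm i
        have h1 : ∑ i, d i * (m * (δ i + supp a i) + 1) =
            m * ∑ i, d i * (δ i + supp a i) + ∑ i, d i := by
          rw [Finset.mul_sum, ← Finset.sum_add_distrib]
          apply Finset.sum_congr rfl
          intro i _
          ring
        have h2 : ∑ i, d i * (m * Fintype.card (J i) + 2 * supp a i) =
            m * ∑ i, d i * Fintype.card (J i) + 2 * ∑ i, d i * supp a i := by
          rw [Finset.mul_sum, Finset.mul_sum, ← Finset.sum_add_distrib]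
          apply Finset.sum_congr rfl
          intro i _
          ring
        rw [h1, h2, hκ, add_assoc, mul_add] at hsum2
        omega
      obtain ⟨D, hD, hsplit⟩ := frac (fun w : Slot a d => a w.1.1) (fun w => w.1.2) hsumslot
        (κ + 1) hN (fun u => by
          rw [hq u]
          apply Nat.mul_le_mul_left
          have := hq2 u
          omega)
      obtain ⟨e, b, h⟩ := build (δ := δ) (a := a) (d := fun i => D * d i)
        (fun i hi => hd' i fun h => hi (by simp [h])) (Ω := Slot a d × Fin D)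
        (s := fun w => w.1.1.1) (fun x => by
          have h1 : (Finset.univ.filter fun w : Slot a d × Fin D => w.1.1.1 = x) =
              (Finset.univ.filter fun w : Slot a d => w.1.1 = x) ×ˢ
                (Finset.univ : Finset (Fin D)) := by
            ext w
            simp
          rw [h1, Finset.card_product, slots_slot, Finset.card_univ, Fintype.card_fin]
          split_ifs
          · rw [zero_mul]
          · rw [mul_comm]) (q := D * (κ + 1) + 1) (by
          have h1 : ∀ g : Fin r → ℕ, ∑ i, D * d i * g i = D * ∑ i, d i * g i := by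
            intro g
            rw [Finset.mul_sum]
            apply Finset.sum_congr rfl
            intro i _
            ring
          rw [h1, h1, hκ, add_assoc, mul_add]
          omega) hsplit
      exact ⟨_, inferInstance, inferInstance, _, _, e, b, h⟩
    · obtain ⟨e, b, h⟩ := build (δ := δ) hd' (slots_slot a d) (q := 1) (by omega)
        (splits_one hne hsumslot)
      exact ⟨Slot a d, inferInstance, inferInstance, _, d, e, b, h⟩

end Pool.Agent.MPC
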