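import Pool.Agent.MPC.Main
import Pool.Agent.MPC.Factor
import Pool.Agent.MPC.Drop
import Pool.Agent.MPC.Numeric

/-!
# The parts of the Chow group which belong to characters

If no conjugate of a character occurs in the spaces of the forms attached to the nonempty sets of
factors, then all points have the same image in the part of the Chow group which belongs to the
character.
-/

open scoped LinearAlgebra.Projectivization

namespace Pool.Agent.MPC

open Pool.Agent.ZCyc

universe u w

variable {k : Type u} [Field k] {r : ℕ} {J : Fin r → Type} {m : ℕ} {L : Type}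

lemma ratEquiv_mono {R : Type w} [Field R] {X Y : Set (∀ i, ℙ k (J i → k))} (h : X ⊆ Y) :
    ratEquiv R X ≤ ratEquiv R Y := by
  conv_lhs => rw [ratEquiv]
  rw [Submodule.span_le]
  rintro _ ⟨F, _, _, _, _, _, _, x, φ, h1, h2, a, b, v, w, hv, hw, rfl⟩
  exact gen_mem (R := R) h1 (fun v => h (h2 v)) hv hw

/-- the equations which do not depend on the variables of the groups in `D` -/
noncomputable def eqs (f : L → MvPolynomial (Σ i, J i) k) (δ : L → Fin r → ℕ)
    (D : Finset (Fin r)) (l : L) : MvPolynomial (Σ i, J i) k :=
  open Classical in if ∀ i ∈ D, δ l i = 0 then f l else 0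

/-- their degrees -/
noncomputable def degs (δ : L → Fin r → ℕ) (D : Finset (Fin r)) (l : L) (i : Fin r) : ℕ :=
  open Classical in if ∀ i ∈ D, δ l i = 0 then δ l i else 0

variable [∀ i, Fintype (J i)] {f : L → MvPolynomial (Σ i, J i) k} {δ : L → Fin r → ℕ}

lemma eqs_hom (hf : ∀ l, IsMultihomogeneous (f l) (δ l)) (D : Finset (Fin r)) (l : L) :
    IsMultihomogeneous (eqs f δ D l) (degs δ D l) := by
  intro n hn i
  by_cases h : ∀ i ∈ D, δ l i = 0
  · rw [eqs, if_pos h] at hn
    rw [degs, if_pos h]
    exact hf l n hn i
  · rw [eqs, if_neg h] at hn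
    simp at hn

omit [∀ i, Fintype (J i)] in
lemma mem_eqs {D : Finset (Fin r)} {w : ∀ i, ℙ k (J i → k)} :
    w ∈ Zeros m (eqs f δ D) ↔ ∀ l, (∀ i ∈ D, δ l i = 0) →
      MvPolynomial.eval (fun a => (w a.1).rep a.2 ^ m) (f l) = 0 := by
  constructor
  · intro h l hl
    have := h l
    rwa [eqs, if_pos hl] at this
  · intro h l
    rw [eqs]
    split_ifs with hl
    · exact h l hl
    · rw [map_zero]

variable [∀ i, DecidableEq (J i)] [NeZero m] [Fintype L]

lemma degs_le (D : Finset (Fin r)) (i : Fin r) : ∑ l, degs δ D l i ≤ ∑ l, δ l i := by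
  apply Finset.sum_le_sum
  intro l _
  rw [degs]
  split_ifs
  · exact le_rfl
  · exact Nat.zero_le _

/-- **The parts of the Chow group.** -/
theorem part [IsAlgClosed k] [CharZero k] {R : Type w} [Field R] [CharZero R] {ζ : kˣ}
    (hζ : IsPrimitiveRoot (ζ : k) m) (hf : ∀ l, IsMultihomogeneous (f l) (δ l)) {ω : R}
    (hω : IsPrimitiveRoot ω m)
    (hm : m ≤ 5 ∨ m = 7 ∨ ∀ i, (∑ l, δ l i) * m < 2 * Fintype.card (J i))
    (hm' : m ≤ 2 ∨ ∃ i₀, ∀ i, i ≠ i₀ → (∑ l, δ l i) * m < Fintype.card (J i) + m)
    {a : (Σ i, J i) → ZMod m} {ψ : AddChar ((Σ i, J i) → ZMod m) R}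
    (hψ : ∀ t, ψ t = ω ^ (∑ x, a x * t x).val)
    (ha : ∀ I : Finset (Fin r), I.Nonempty → ∀ u : (ZMod m)ˣ, ∀ b : (Σ i, J i) → ℕ,
      (∀ x, x.1 ∈ I → 1 ≤ b x) → (∀ x, x.1 ∉ I → b x = 0) →
      (∀ i ∈ I, ∑ j, b ⟨i, j⟩ = (∑ l with ∀ i' ∉ I, δ l i' = 0, δ l i) * m) →
      ¬ ∀ x, (b x : ZMod m) = u * a x)
    {p q : ∀ i, ℙ k (J i → k)} (hp : p ∈ Zeros m f) (hq : q ∈ Zeros m f) :
    op ζ ψ (Finsupp.single p 1) - op ζ ψ (Finsupp.single q 1) ∈ ratEquiv R (Zeros m f) := by
  classical
  have hζ1 : ζ ^ m = 1 := by
    apply Units.ext
    push_cast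
    exact hζ.pow_eq_one
  have hJ : ∀ i, Nonempty (J i) := by
    intro i
    by_contra hcon
    rw [not_nonempty_iff] at hcon
    exact (p i).rep_nonzero (funext fun j => hcon.elim j)
  have hsub : ∀ D : Finset (Fin r), Zeros m f ⊆ Zeros m (eqs f δ D) := by
    intro D w hw
    exact mem_eqs.2 fun l _ => hw l
  have htriv : ∀ i, (∀ j, a ⟨i, j⟩ = 0) → ∀ t : (Σ i, J i) → ZMod m, (∀ x, x.1 ≠ i → t x = 0) →
      ψ t = 1 := by
    intro i hi t ht
    rw [hψ, Finset.sum_eq_zero, ZMod.val_zero, pow_zero]
    rintro ⟨i', j⟩ -
    by_cases h : i' = i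
    · subst h
      rw [hi j, zero_mul]
    · rw [ht ⟨i', j⟩ h, mul_zero]
  have key : ∀ n, ∀ D : Finset (Fin r), Dᶜ.card = n → (∀ i ∈ D, ∀ j, a ⟨i, j⟩ = 0) →
      op ζ ψ (Finsupp.single p 1) - op ζ ψ (Finsupp.single q 1) ∈
        ratEquiv R (Zeros m (eqs f δ D)) := by
    intro n
    induction n with
    | zero =>
      intro D hD ha0
      rw [Finset.card_eq_zero, Finset.compl_eq_empty_iff] at hD
      subst hD
      rcases Nat.eq_zero_or_pos r with hr | hr
      · subst hr
        have hpq : p = q := funext fun i => i.elim0
        rw [hpq, sub_self]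
        exact Submodule.zero_mem _
      · let i : Fin r := ⟨0, hr⟩
        have h1 := factor (L := Empty) (R := R) hζ (f := fun l => l.elim) (δ := fun l => l.elim)
          (fun l => l.elim) i (fun l => l.elim) (by
            rw [Finset.univ_eq_empty, Finset.sum_empty]
            exact Fintype.card_pos_iff.2 (hJ i)) (p := p) (q := q) (fun l => l.elim)
            (fun l => l.elim) (ψ := ψ) (htriv i (ha0 i (Finset.mem_univ i)))
        apply ratEquiv_mono _ h1
        intro w _
        rw [mem_eqs]
        intro l hl
        -- constant polynomials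
        have h2 : (f l).IsHomogeneous 0 := by
          intro n hn
          rw [Finsupp.weight_apply, Finsupp.sum]
          apply Finset.sum_eq_zero
          rintro ⟨i', j⟩ _
          have h3 := hf l n hn i'
          rw [hl i' (Finset.mem_univ i'), Finset.sum_eq_zero_iff] at h3
          simp [h3 j (Finset.mem_univ j)]
        have h3 := hp l
        have h4 := MvPolynomial.totalDegree_eq_zero_iff_eq_C.1
          ((MvPolynomial.totalDegree_zero_iff_isHomogeneous _).2 h2)
        rw [h4, MvPolynomial.eval_C] at h3 ⊢
        exact h3
    | succ n ih =>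
      intro D hD ha0
      by_cases hex : ∃ i ∉ D, (∀ j, a ⟨i, j⟩ = 0) ∧ ∑ l, degs δ D l i < Fintype.card (J i)
      · obtain ⟨i, hiD, hi, hcard⟩ := hex
        have h1 := ih (insert i D) (by
          rw [Finset.compl_insert, Finset.card_erase_of_mem (Finset.mem_compl.2 hiD), hD]
          rfl) (by
          intro i' hi'
          rcases Finset.mem_insert.1 hi' with rfl | hi'
          · exact hi
          · exact ha0 i' hi')
        have h2 := drop hζ (eqs_hom hf D) i hcard (htriv i hi)
          (W := Zeros m (eqs f δ (insert i D))) (by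
            intro w hw
            rw [mem_eqs] at hw ⊢
            intro l hl
            exact hw l fun i' hi' => hl i' (Finset.mem_insert_of_mem hi')) (by
            intro w hw l hl
            by_cases h : ∀ i ∈ D, δ l i = 0
            · rw [degs, if_pos h] at hl
              rw [eqs, if_pos h]
              apply mem_eqs.1 hw l
              intro i' hi'
              rcases Finset.mem_insert.1 hi' with rfl | hi'
              · exact hl
              · exact h i' hi'
            · rw [eqs, if_neg h, map_zero])
          (z := Finsupp.single p 1 - Finsupp.single q 1) (by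
            intro w hw
            have h3 := Finsupp.support_sub hw
            rw [Finset.mem_union] at h3
            rcases h3 with h3 | h3
            · have := Finsupp.support_single_subset h3
              rw [Finset.mem_singleton] at this
              rw [this]
              exact hsub D hp
            · have := Finsupp.support_single_subset h3
              rw [Finset.mem_singleton] at this
              rw [this]
              exact hsub D hq) (by rwa [map_sub])
        rwa [map_sub] at h2
      · push Not at hex
        by_cases hsum : ∀ i, ∑ j, a ⟨i, j⟩ = 0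
        · have hne : Dᶜ.Nonempty := by
            rw [← Finset.card_pos, hD]
            exact Nat.succ_pos n
          obtain ⟨Ω, _, _, s, d, e, b, hpat⟩ := exists_pattern
            (δ := fun i => ∑ l, degs δ D l i) (a := a) hJ
            (by
              rcases hm with h | h | h
              · exact Or.inl h
              · exact Or.inr (Or.inl h)
              · exact Or.inr (Or.inr fun i => lt_of_le_of_lt
                  (Nat.mul_le_mul_right m (degs_le D i)) (h i)))
            (by
              rcases hm' with h | ⟨i₀, h⟩
              · exact Or.inl h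
              · exact Or.inr ⟨i₀, fun i hi => lt_of_le_of_lt
                  (Nat.mul_le_mul_right m (degs_le D i)) (h i hi)⟩)
            (I := Dᶜ) (by
              rintro ⟨i, j⟩ hi
              rw [Finset.mem_compl, not_not] at hi
              exact ha0 i hi j)
            (by
              intro u b h1 h2 h3
              apply ha Dᶜ hne u b h1 h2
              intro i hi
              rw [h3 i hi]
              congr 1
              rw [Finset.sum_filter]
              apply Finset.sum_congr rfl
              intro l _
              rw [degs]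
              simp only [Finset.mem_compl, not_not])
            hsum (by
              intro i hi hai
              rw [Finset.mem_compl] at hi
              exact hex i hi hai)
          exact Submodule.sub_mem _
            (vanish hζ (eqs_hom hf D) hω hψ hsum (hsub D hp) _ _ _ _ _ _ hpat rfl)
            (vanish hζ (eqs_hom hf D) hω hψ hsum (hsub D hq) _ _ _ _ _ _ hpat rfl)
        · push Not at hsum
          obtain ⟨i, hi⟩ := hsum
          have h1 : ψ (fun x => (Pi.single i 1 : Fin r → ZMod m) x.1) ≠ 1 := by
            rw [hψ]
            intro h2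
            rw [hω.pow_eq_one_iff_dvd] at h2
            apply hi
            have h3 := (ZMod.val_eq_zero _).1 (Nat.eq_zero_of_dvd_of_lt h2 (ZMod.val_lt _))
            rw [← h3, Fintype.sum_sigma, Finset.sum_eq_single i]
            · apply Finset.sum_congr rfl
              intro j _
              simp
            · intro i' _ hi'
              apply Finset.sum_eq_zero
              intro j _
              simp [Pi.single_eq_of_ne hi']
            · simp
          rw [op_eq_zero hζ1 ψ (act_const ζ _ p) h1, op_eq_zero hζ1 ψ (act_const ζ _ q) h1,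
            sub_zero]
          exact Submodule.zero_mem _
  have h1 := key _ ∅ rfl (fun i hi => absurd hi (Finset.notMem_empty i))
  have h2 : eqs f δ ∅ = f := by
    funext l
    rw [eqs, if_pos fun i hi => absurd hi (Finset.notMem_empty i)]
  rwa [h2] at h1

end Pool.Agent.MPC
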