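import Pool.Agent.MPC.Defs
import Pool.Agent.DCIG.Act

/-!
# The diagonal group acts; values of morphisms; the operator attached to a character
-/

open scoped LinearAlgebra.Projectivization

namespace Pool.Agent.MPC

open Pool.Agent.ZCyc

universe u w

variable {k : Type u} [Field k] {r : ℕ} {J : Fin r → Type} [∀ i, Fintype (J i)] {m : ℕ} {L : Type}

/-- multihomogeneous polynomials are multihomogeneous functions -/
lemma aeval_mul {A : Type*} [CommRing A] [Algebra k A] {f : MvPolynomial (Σ i, J i) k}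
    {δ : Fin r → ℕ} (hf : IsMultihomogeneous f δ) (c : Fin r → A) (w : (Σ i, J i) → A) :
    MvPolynomial.aeval (fun x => c x.1 * w x) f = (∏ i, c i ^ δ i) * MvPolynomial.aeval w f := by
  classical
  rw [MvPolynomial.aeval_def, MvPolynomial.aeval_def, MvPolynomial.eval₂_eq',
    MvPolynomial.eval₂_eq', Finset.mul_sum]
  apply Finset.sum_congr rfl
  intro n hn
  have h1 := hf n (MvPolynomial.mem_support_iff.1 hn)
  have h2 : ∏ x : (Σ i, J i), (c x.1 * w x) ^ n x =
      (∏ i, c i ^ δ i) * ∏ x : (Σ i, J i), w x ^ n x := by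
    simp only [mul_pow]
    rw [Finset.prod_mul_distrib]
    congr 1
    rw [Fintype.prod_sigma]
    apply Finset.prod_congr rfl
    intro i _
    change ∏ y, c i ^ n ⟨i, y⟩ = c i ^ δ i
    rw [Finset.prod_pow_eq_pow_sum, h1 i]
  rw [h2]
  ring

lemma eval_mul {f : MvPolynomial (Σ i, J i) k} {δ : Fin r → ℕ} (hf : IsMultihomogeneous f δ)
    (c : Fin r → k) (w : (Σ i, J i) → k) :
    MvPolynomial.eval (fun x => c x.1 * w x) f = (∏ i, c i ^ δ i) * MvPolynomial.eval w f := by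
  rw [DCIG.eval_eq_aeval, DCIG.eval_eq_aeval]
  exact aeval_mul hf c w

lemma eval_rep {f : MvPolynomial (Σ i, J i) k} {δ : Fin r → ℕ} (hf : IsMultihomogeneous f δ)
    {v w : (Σ i, J i) → k} {a : Fin r → k}
    (h : ∀ x, w x = a x.1 * v x) (hv : MvPolynomial.eval v f = 0) :
    MvPolynomial.eval w f = 0 := by
  have h1 : w = fun x => a x.1 * v x := funext h
  rw [h1, eval_mul hf, hv, mul_zero]

variable {f : L → MvPolynomial (Σ i, J i) k} {δ : L → Fin r → ℕ}

omit [∀ i, Fintype (J i)] in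
lemma act_act [NeZero m] {ζ : kˣ} (hζ : ζ ^ m = 1) (g h : (Σ i, J i) → ZMod m)
    (p : ∀ i, ℙ k (J i → k)) : act ζ g (act ζ h p) = act ζ (g + h) p := by
  funext i
  exact DCI57.act_act hζ _ _ (p i)

omit [∀ i, Fintype (J i)] in
/-- twists supported where the point vanishes act trivially -/
lemma act_of_zero [NeZero m] (ζ : kˣ) {g : (Σ i, J i) → ZMod m} {p : ∀ i, ℙ k (J i → k)}
    (h : ∀ x, g x ≠ 0 → (p x.1).rep x.2 = 0) : act ζ g p = p := by
  funext i
  exact DCI57.act_of_zero ζ fun j hj => h ⟨i, j⟩ hj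

omit [∀ i, Fintype (J i)] in
/-- twists which are constant on each factor act trivially -/
lemma act_const (ζ : kˣ) (t : Fin r → ZMod m) (p : ∀ i, ℙ k (J i → k)) :
    act ζ (fun x => t x.1) p = p := by
  funext i
  exact DCI57.act_const ζ (t i) (p i)

lemma act_mem [NeZero m] (hf : ∀ l, IsMultihomogeneous (f l) (δ l)) {ζ : kˣ} (hζ : ζ ^ m = 1)
    {p : ∀ i, ℙ k (J i → k)} (hp : p ∈ Zeros m f) (g : (Σ i, J i) → ZMod m) :
    act ζ g p ∈ Zeros m f := by
  intro l
  have h0 : ∀ i, ∃ a : k, ∀ j, (act ζ g p i).rep j ^ m = a * (p i).rep j ^ m := by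
    intro i
    obtain ⟨a, ha, h1⟩ := DCI57.act_rep ζ (fun j => g ⟨i, j⟩) (p i)
    refine ⟨a ^ m, fun j => ?_⟩
    have h2 : (act ζ g p i).rep j = _ := h1 j
    rw [h2, mul_pow, mul_pow]
    have : (((ζ ^ (g ⟨i, j⟩).val : kˣ) : k)) ^ m = 1 := by
      rw [← Units.val_pow_eq_pow_val, ← pow_mul, mul_comm, pow_mul, hζ, one_pow, Units.val_one]
    rw [this, one_mul]
  choose a ha using h0
  exact eval_rep (hf l) (v := fun x => (p x.1).rep x.2 ^ m) (a := a) (fun x => ha x.1 x.2) (hp l)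

section

variable {F : Type*} [Field F] [Algebra k F] {v : Place k F} {x : ∀ i, J i → F}
  {p q : ∀ i, ℙ k (J i → k)}

omit [∀ i, Fintype (J i)] in
lemma IsValue.unique (h : IsValue v x p) (h' : IsValue v x q) : p = q :=
  funext fun i => (h i).unique (h' i)

omit [∀ i, Fintype (J i)] in
lemma IsValue.act (h : IsValue v x p) (ζ : kˣ) (g : (Σ i, J i) → ZMod m) :
    IsValue v (fun i j => algebraMap k F ((ζ ^ (g ⟨i, j⟩).val : kˣ) : k) * x i j)
      (MPC.act ζ g p) :=
  fun i => (h i).act ζ fun j => g ⟨i, j⟩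

omit [∀ i, Fintype (J i)] in
/-- values at conjugate points -/
lemma IsValue.map (h : IsValue v x p) (τ : F ≃ₐ[k] F) {ζ : kˣ} {g : (Σ i, J i) → ZMod m}
    (hτ : ∀ i j, τ.symm (x i j) = algebraMap k F ((ζ ^ (g ⟨i, j⟩).val : kˣ) : k) * x i j) :
    IsValue (v.map τ) x (MPC.act ζ g p) :=
  fun i => (h i).map τ (g := fun j => g ⟨i, j⟩) (hτ i)

lemma IsValue.mem_Zeros (h : IsValue v x p) (hf : ∀ l, IsMultihomogeneous (f l) (δ l))
    (hx : ∀ l, MvPolynomial.aeval (fun a : (Σ i, J i) => x a.1 a.2 ^ m) (f l) = 0) :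
    p ∈ Zeros m f := by
  intro l
  choose g hg using fun i => DCI57.isValue_iff.1 (h i)
  have h1 := DCIG.at_aeval (fun a : (Σ i, J i) => (hg a.1 a.2).pow m) (f l)
  have h2 : (fun a : (Σ i, J i) => (g a.1 * x a.1 a.2) ^ m) =
      fun a => g a.1 ^ m * x a.1 a.2 ^ m := funext fun a => mul_pow _ _ _
  rw [h2, aeval_mul (hf l) (fun i => g i ^ m), hx l, mul_zero] at h1
  exact h1.unique (by simpa using Place.at_const (v := v) (0 : k))

omit [∀ i, Fintype (J i)] in
/-- the value is determined by the values of the `m`-th powers, up to a twist -/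
lemma IsValue.eq_act [NeZero m] [IsAlgClosed k] {ζ : kˣ} (hζ : IsPrimitiveRoot (ζ : k) m)
    (h : IsValue v x q) {d : Fin r → k} (hd : ∀ i, d i ≠ 0)
    (hx : ∀ i j, v.At (x i j ^ m) (d i * (p i).rep j ^ m)) :
    ∃ g : (Σ i, J i) → ZMod m, q = MPC.act ζ g p := by
  choose g hg using fun i => (h i).eq_act hζ (hd i) (hx i)
  exact ⟨fun a => g a.1 a.2, funext hg⟩

end

variable [∀ i, DecidableEq (J i)] [NeZero m] {R : Type w} [Field R]

/-- the operator `p ↦ ∑ g, ψ g • (act ζ g p)` -/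
noncomputable def op (ζ : kˣ) (ψ : AddChar ((Σ i, J i) → ZMod m) R) :
    ((∀ i, ℙ k (J i → k)) →₀ R) →ₗ[R] ((∀ i, ℙ k (J i → k)) →₀ R) :=
  Finsupp.linearCombination R fun p => ∑ g : (Σ i, J i) → ZMod m,
    Finsupp.single (act ζ g p) (ψ g)

lemma op_single (ζ : kˣ) (ψ : AddChar ((Σ i, J i) → ZMod m) R) (p : ∀ i, ℙ k (J i → k)) :
    op ζ ψ (Finsupp.single p 1) =
      ∑ g : (Σ i, J i) → ZMod m, Finsupp.single (act ζ g p) (ψ g) := by
  rw [op, Finsupp.linearCombination_single, one_smul]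

/-- the operator on a twisted point -/
lemma op_act {ζ : kˣ} (hζ : ζ ^ m = 1) (ψ : AddChar ((Σ i, J i) → ZMod m) R)
    (h : (Σ i, J i) → ZMod m) (p : ∀ i, ℙ k (J i → k)) :
    ψ h • op ζ ψ (Finsupp.single (act ζ h p) 1) = op ζ ψ (Finsupp.single p 1) := by
  rw [op_single, op_single, Finset.smul_sum]
  rw [← Equiv.sum_comp (Equiv.addRight h) fun g => Finsupp.single (act ζ g p) (ψ g)]
  apply Finset.sum_congr rfl
  intro g _
  rw [act_act hζ, Equiv.coe_addRight, Finsupp.smul_single, smul_eq_mul, AddChar.map_add_eq_mul,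
    mul_comm]

/-- points fixed by an element on which the character is nontrivial -/
lemma op_eq_zero {ζ : kˣ} (hζ : ζ ^ m = 1) (ψ : AddChar ((Σ i, J i) → ZMod m) R)
    {h : (Σ i, J i) → ZMod m} {p : ∀ i, ℙ k (J i → k)} (hp : act ζ h p = p) (hψ : ψ h ≠ 1) :
    op ζ ψ (Finsupp.single p 1) = 0 := by
  have h1 := op_act hζ ψ h p
  rw [hp] at h1
  have h2 : (ψ h - 1) • op ζ ψ (Finsupp.single p 1) = 0 := by
    rw [sub_smul, one_smul, h1, sub_self]
  rcases smul_eq_zero.1 h2 with h3 | h3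
  · exact absurd (sub_eq_zero.1 h3) hψ
  · exact h3

omit [∀ i, Fintype (J i)] [∀ i, DecidableEq (J i)] in
/-- the standard generators of the group of cycles which are rationally equivalent to zero -/
lemma gen_mem {X : Set (∀ i, ℙ k (J i → k))} {F : Type u} [Field F] [Algebra k F]
    [Algebra (RatFunc k) F] [IsScalarTower k (RatFunc k) F] [FiniteDimensional (RatFunc k) F]
    [IsGalois (RatFunc k) F] {x : ∀ i, J i → F} {φ : Place k F → ∀ i, ℙ k (J i → k)}
    (h1 : ∀ v, IsValue v x (φ v)) (h2 : ∀ v, φ v ∈ X) {a b : k} {v w : Place k F}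
    (hv : v.Vanishes (algebraMap (RatFunc k) F (RatFunc.X - RatFunc.C a)))
    (hw : w.Vanishes (algebraMap (RatFunc k) F (RatFunc.X - RatFunc.C b))) :
    ∑ τ : F ≃ₐ[RatFunc k] F, (Finsupp.single (φ (v.map (τ.restrictScalars k))) 1 -
      Finsupp.single (φ (w.map (τ.restrictScalars k))) 1) ∈ ratEquiv R X :=
  Submodule.subset_span ⟨F, _, _, _, inferInstance, inferInstance, inferInstance, x, φ, h1, h2, a,
    b, v, w, hv, hw, rfl⟩

/-- the operator preserves rational equivalence -/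
lemma op_mem {ζ : kˣ} (ψ : AddChar ((Σ i, J i) → ZMod m) R) {X : Set (∀ i, ℙ k (J i → k))}
    (hX : ∀ g : (Σ i, J i) → ZMod m, ∀ p ∈ X, act ζ g p ∈ X) {z : (∀ i, ℙ k (J i → k)) →₀ R}
    (hz : z ∈ ratEquiv R X) : op ζ ψ z ∈ ratEquiv R X := by
  have hle : ratEquiv R X ≤ (ratEquiv R X).comap (op ζ ψ) := by
    conv_lhs => rw [ratEquiv]
    rw [Submodule.span_le]
    rintro _ ⟨F, _, _, _, _, _, _, x, φ, h1, h2, a, b, v, w, hv, hw, rfl⟩
    rw [SetLike.mem_coe, Submodule.mem_comap, map_sum]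
    have h3 : ∀ τ : F ≃ₐ[RatFunc k] F,
        op ζ ψ (Finsupp.single (φ (v.map (τ.restrictScalars k))) 1 -
          Finsupp.single (φ (w.map (τ.restrictScalars k))) 1) =
        ∑ g : (Σ i, J i) → ZMod m,
          ψ g • (Finsupp.single (act ζ g (φ (v.map (τ.restrictScalars k)))) 1 -
          Finsupp.single (act ζ g (φ (w.map (τ.restrictScalars k)))) 1) := by
      intro τ
      rw [map_sub, op_single, op_single, ← Finset.sum_sub_distrib]
      apply Finset.sum_congr rfl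
      intro g _
      rw [smul_sub, Finsupp.smul_single, Finsupp.smul_single, smul_eq_mul, mul_one]
    rw [Finset.sum_congr rfl fun τ _ => h3 τ, Finset.sum_comm]
    apply Submodule.sum_mem
    intro g _
    rw [← Finset.smul_sum]
    apply Submodule.smul_mem
    exact gen_mem (x := fun i j => algebraMap k F ((ζ ^ (g ⟨i, j⟩).val : kˣ) : k) * x i j)
      (φ := fun v => act ζ g (φ v)) (fun v => (h1 v).act ζ g) (fun v => hX g _ (h2 v)) hv hw
  exact hle hz

end Pool.Agent.MPC
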