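import Pool.Agent.SavChen.Split

/-!
# Fractional packings of zero-sum sequences

Let `a j` be nonzero elements of `ℤ/m` with sum zero (`j` in a set with `n` elements), and let
`κ` be a natural number such that `m * κ < 2 * n` and `∑ j, ⟨u * a j / m⟩ > κ` for all units `u`.
Then for some `D` the sequence which contains every `a j` `D` times can be divided into more than
`D * κ` zero-sum sequences.

Proof. Otherwise, by linear programming duality, there is a function `y ≥ 0` on `ℤ/m` such that the
sum of `y` over every zero-sum sequence is at least `1` and `∑ j, y (a j) ≤ κ` (more or less). So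
`y (a j) < 2 / m` for some `j`. Then `a j` is a unit, and every zero-sum sequence with sum `1` is also
a zero-sum sequence with the same property for the function `⟨x / (m * a j)⟩`. So if `y` is optimal
then this function is also optimal, a contradiction.
-/

open Finset

namespace Pool.Agent.MPC

variable {m : ℕ} [NeZero m]

/-- the zero-sum sequences -/
def ZSeq (T : Multiset (ZMod m)) : Prop := T ≠ 0 ∧ T.sum = 0 ∧ (0 : ZMod m) ∉ T

/-- the sum of the values of a function -/
def ev (y : ZMod m → ℝ) (T : Multiset (ZMod m)) : ℝ := (T.map y).sum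

omit [NeZero m] in
lemma ev_add (y : ZMod m → ℝ) (S T : Multiset (ZMod m)) : ev y (S + T) = ev y S + ev y T := by
  simp [ev]

omit [NeZero m] in
lemma ev_nonneg {y : ZMod m → ℝ} (hy : ∀ x, 0 ≤ y x) (T : Multiset (ZMod m)) : 0 ≤ ev y T := by
  apply Multiset.sum_nonneg
  intro z hz
  obtain ⟨x, -, rfl⟩ := Multiset.mem_map.1 hz
  exact hy x

omit [NeZero m] in
lemma ev_eq_sum [Fintype (ZMod m)] (y : ZMod m → ℝ) (T : Multiset (ZMod m)) :
    ev y T = ∑ x, (T.count x : ℝ) * y x := by
  classical
  rw [ev, Finset.sum_multiset_map_count]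
  simp only [nsmul_eq_mul]
  apply Finset.sum_subset (Finset.subset_univ _)
  intro x _ hx
  rw [Multiset.mem_toFinset] at hx
  rw [Multiset.count_eq_zero_of_notMem hx]
  simp

/-- the finitely many zero-sum sequences without large multiplicities -/
noncomputable def fam (m : ℕ) [NeZero m] : Finset (Multiset (ZMod m)) := by
  classical
  exact ((m • (Finset.univ : Finset (ZMod m)).val).powerset.toFinset).filter fun T => ZSeq T

lemma mem_fam {T : Multiset (ZMod m)} : T ∈ fam m ↔ (∀ x, T.count x ≤ m) ∧ ZSeq T := by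
  classical
  unfold fam
  rw [Finset.mem_filter, Multiset.mem_toFinset, Multiset.mem_powerset, Multiset.le_iff_count]
  simp

/-- the feasible functions -/
def Feas (y : ZMod m → ℝ) : Prop := (∀ x, 0 ≤ y x) ∧ ∀ T ∈ fam m, 1 ≤ ev y T

/-- all zero-sum sequences -/
lemma Feas.le {y : ZMod m → ℝ} (hy : Feas y) {T : Multiset (ZMod m)} (hT : ZSeq T) :
    1 ≤ ev y T := by
  classical
  by_cases h : ∀ x, T.count x ≤ m
  · exact hy.2 T (mem_fam.2 ⟨h, hT⟩)
  · push Not at h
    obtain ⟨x, hx⟩ := h
    have hle : Multiset.replicate m x ≤ T := Multiset.le_count_iff_replicate_le.1 hx.le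
    obtain ⟨U, rfl⟩ := Multiset.le_iff_exists_add.1 hle
    have hx0 : x ≠ 0 := by
      rintro rfl
      apply hT.2.2
      rw [Multiset.mem_add]
      left
      rw [Multiset.mem_replicate]
      exact ⟨NeZero.ne m, rfl⟩
    have h1 : Multiset.replicate m x ∈ fam m := by
      rw [mem_fam]
      refine ⟨fun z => ?_, ?_, ?_, ?_⟩
      · rw [Multiset.count_replicate]
        split_ifs
        · exact le_rfl
        · exact Nat.zero_le _
      · intro h0
        have := congrArg Multiset.card h0
        rw [Multiset.card_replicate, Multiset.card_zero] at this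
        exact NeZero.ne m this
      · rw [Multiset.sum_replicate]
        simp
      · rw [Multiset.mem_replicate]
        rintro ⟨-, h0⟩
        exact hx0 h0.symm
    have h2 := hy.2 _ h1
    rw [ev_add]
    have := ev_nonneg hy.1 U
    linarith

lemma Feas.pair {y : ZMod m → ℝ} (hy : Feas y) {x : ZMod m} (hx : x ≠ 0) :
    1 ≤ y x + y (-x) := by
  have h1 : ZSeq ({x, -x} : Multiset (ZMod m)) := by
    refine ⟨by simp, by simp, ?_⟩
    simp only [Multiset.insert_eq_cons, Multiset.mem_cons, Multiset.mem_singleton, not_or]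
    exact ⟨fun h => hx h.symm, fun h => hx (by simpa using h.symm)⟩
  have h2 := hy.le h1
  simpa [ev] using h2

/-- the minimal functions are subadditive -/
lemma subadditive {w y : ZMod m → ℝ} (hw : ∀ x, 0 < w x) (hy : Feas y)
    (hmin : ∀ y', Feas y' → ∑ x, w x * y x ≤ ∑ x, w x * y' x) {U : Multiset (ZMod m)}
    (hU0 : U ≠ 0) (hU : (0 : ZMod m) ∉ U) : y U.sum ≤ ev y U := by
  classical
  by_contra hcon
  push Not at hcon
  set s := U.sum with hs
  have hsU : s ∉ U := by
    intro h
    obtain ⟨V, hV⟩ := Multiset.exists_cons_of_mem h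
    have h1 : ev y U = y s + ev y V := by
      rw [hV]
      simp [ev]
    have := ev_nonneg hy.1 V
    linarith
  set y' : ZMod m → ℝ := Function.update y s (ev y U) with hy'
  have hy's : y' s = ev y U := by simp [hy']
  have hy'o : ∀ x, x ≠ s → y' x = y x := fun x hx => by simp [hy', Function.update_of_ne hx]
  have hfeas : Feas y' := by
    refine ⟨fun x => ?_, fun T hT => ?_⟩
    · by_cases hx : x = s
      · rw [hx, hy's]
        exact ev_nonneg hy.1 U
      · rw [hy'o x hx]
        exact hy.1 x
    · rw [mem_fam] at hT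
      obtain ⟨-, hT0, hTs, hT⟩ := hT
      set g : ZMod m → Multiset (ZMod m) := fun x => if x = s then U else {x} with hg
      have h1 : ev y' T = ev y (T.bind g) := by
        unfold ev
        rw [Multiset.map_bind, Multiset.sum_bind]
        congr 1
        apply Multiset.map_congr rfl
        intro x hx
        by_cases hxs : x = s
        · subst hxs
          simp only [hg, if_true]
          exact hy's
        · simp only [hg, if_neg hxs]
          rw [hy'o x hxs]
          simp
      rw [h1]
      apply hy.le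
      refine ⟨?_, ?_, ?_⟩
      · intro h0
        obtain ⟨x, hx⟩ := Multiset.exists_mem_of_ne_zero hT0
        have h2 : g x ≤ T.bind g := Multiset.le_bind _ hx
        rw [h0] at h2
        have h3 : g x = 0 := Multiset.le_zero.1 h2
        simp only [hg] at h3
        split_ifs at h3 with h4
        · exact hU0 h3
        · simp at h3
      · rw [Multiset.sum_bind]
        have h2 : T.map (fun x => (g x).sum) = T := by
          conv_rhs => rw [← Multiset.map_id T]
          apply Multiset.map_congr rfl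
          intro x _
          simp only [hg]
          split_ifs with h4
          · rw [h4]
            rfl
          · simp
        rw [h2, hTs]
      · rw [Multiset.mem_bind]
        rintro ⟨x, hx, h0⟩
        simp only [hg] at h0
        split_ifs at h0 with h4
        · exact hU h0
        · rw [Multiset.mem_singleton] at h0
          exact hT (h0 ▸ hx)
  have h2 := hmin y' hfeas
  have h3 : ∑ x, w x * y' x < ∑ x, w x * y x := by
    apply Finset.sum_lt_sum
    · intro x _
      by_cases hx : x = s
      · rw [hx, hy's]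
        exact mul_le_mul_of_nonneg_left hcon.le (hw s).le
      · rw [hy'o x hx]
    · refine ⟨s, Finset.mem_univ s, ?_⟩
      rw [hy's]
      exact mul_lt_mul_of_pos_left hcon (hw s)
  linarith

/-- the sum of the representatives -/
def rsum (u : (ZMod m)ˣ) (T : Multiset (ZMod m)) : ℕ :=
  (T.map fun x => ((u : ZMod m) * x).val).sum

omit [NeZero m] in
lemma rsum_add (u : (ZMod m)ˣ) (S T : Multiset (ZMod m)) :
    rsum u (S + T) = rsum u S + rsum u T := by
  simp [rsum]

lemma rsum_cast (u : (ZMod m)ˣ) (T : Multiset (ZMod m)) : (rsum u T : ZMod m) = u * T.sum := by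
  induction T using Multiset.induction_on with
  | empty => simp [rsum]
  | cons x T ih =>
    have h1 : rsum u (x ::ₘ T) = ((u : ZMod m) * x).val + rsum u T := by simp [rsum]
    rw [h1, Nat.cast_add, ih, Multiset.sum_cons, mul_add]
    simp

lemma sum_eq_rsum (u : (ZMod m)ˣ) (T : Multiset (ZMod m)) :
    T.sum = (rsum u T : ZMod m) * ((u⁻¹ : (ZMod m)ˣ) : ZMod m) := by
  rw [rsum_cast, mul_comm, ← mul_assoc, Units.inv_mul, one_mul]

omit [NeZero m] in
lemma rsum_pos (u : (ZMod m)ˣ) {T : Multiset (ZMod m)} (hT0 : T ≠ 0) (hT : (0 : ZMod m) ∉ T) :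
    0 < rsum u T := by
  obtain ⟨x, hx⟩ := Multiset.exists_mem_of_ne_zero hT0
  obtain ⟨V, hV⟩ := Multiset.exists_cons_of_mem hx
  have h1 : rsum u T = ((u : ZMod m) * x).val + rsum u V := by
    rw [hV]
    simp [rsum]
  have hx0 : (u : ZMod m) * x ≠ 0 := by
    intro h0
    exact hT (((Units.mul_right_eq_zero u).1 h0) ▸ hx)
  have h2 : ((u : ZMod m) * x).val ≠ 0 := fun h => hx0 ((ZMod.val_eq_zero _).1 h)
  omega

section

variable {w y : ZMod m → ℝ} (hw : ∀ x, 0 < w x) (hy : Feas y)
    (hmin : ∀ y', Feas y' → ∑ x, w x * y x ≤ ∑ x, w x * y' x) (u : (ZMod m)ˣ)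

include hw hy hmin

lemma le_mul {n : ℕ} (hn : 0 < n) (hnm : n < m) :
    y ((n : ZMod m) * ((u⁻¹ : (ZMod m)ˣ) : ZMod m)) ≤ n * y ((u⁻¹ : (ZMod m)ˣ) : ZMod m) := by
  have : Fact (1 < m) := ⟨by omega⟩
  have h1 := subadditive hw hy hmin
    (U := Multiset.replicate n ((u⁻¹ : (ZMod m)ˣ) : ZMod m)) (by
      intro h0
      have := congrArg Multiset.card h0
      rw [Multiset.card_replicate, Multiset.card_zero] at this
      omega) (by
      rw [Multiset.mem_replicate]
      rintro ⟨-, h0⟩
      exact (u⁻¹ : (ZMod m)ˣ).ne_zero h0.symm)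
  rw [Multiset.sum_replicate, nsmul_eq_mul] at h1
  refine h1.trans (le_of_eq ?_)
  simp [ev]

lemma ge_mul {n : ℕ} (hn : 0 < n) (hnm : n < m) :
    1 - ((m : ℝ) - n) * y ((u⁻¹ : (ZMod m)ˣ) : ZMod m) ≤
      y ((n : ZMod m) * ((u⁻¹ : (ZMod m)ˣ) : ZMod m)) := by
  have h1 := le_mul hw hy hmin u (n := m - n) (by omega) (by omega)
  have h2 : (((m - n : ℕ) : ZMod m)) = -(n : ZMod m) := by
    rw [Nat.cast_sub hnm.le]
    simp
  rw [h2, neg_mul, Nat.cast_sub hnm.le] at h1
  have h3 := hy.pair (x := (n : ZMod m) * ((u⁻¹ : (ZMod m)ˣ) : ZMod m)) (by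
    intro h0
    have h4 := (Units.mul_left_eq_zero (u⁻¹ : (ZMod m)ˣ)).1 h0
    rw [ZMod.natCast_eq_zero_iff] at h4
    exact absurd (Nat.le_of_dvd hn h4) (by omega))
  linarith

/-- tight zero-sum sequences have sum one -/
lemma tight (hε : (m : ℝ) * y ((u⁻¹ : (ZMod m)ˣ) : ZMod m) < 2) {T : Multiset (ZMod m)}
    (hT : ZSeq T) (hT1 : ev y T = 1) : rsum u T = m := by
  classical
  set ε := y ((u⁻¹ : (ZMod m)ˣ) : ZMod m) with hεdef
  obtain ⟨hT0, hTs, hTz⟩ := hT
  have hpos := rsum_pos u hT0 hTz
  have hdvd : m ∣ rsum u T := by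
    rw [← ZMod.natCast_eq_zero_iff, rsum_cast, hTs, mul_zero]
  by_contra hne
  have h2m : 2 * m ≤ rsum u T := by
    obtain ⟨q, hq⟩ := hdvd
    rw [hq] at hpos hne ⊢
    have hq0 : q ≠ 0 := by
      rintro rfl
      simp at hpos
    have hq1 : q ≠ 1 := by
      rintro rfl
      simp at hne
    rw [mul_comm]
    exact Nat.mul_le_mul_left m (by omega)
  have hm0 : 0 < m := NeZero.pos m
  -- a maximal part with small sum
  obtain ⟨T₁, hT₁, hmax⟩ := Finset.exists_max_image
    (T.powerset.toFinset.filter fun T' => rsum u T' < m) Multiset.card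
    ⟨0, by simp [rsum, hm0]⟩
  rw [Finset.mem_filter, Multiset.mem_toFinset, Multiset.mem_powerset] at hT₁
  obtain ⟨hT₁le, hT₁lt⟩ := hT₁
  obtain ⟨V, hV⟩ := Multiset.le_iff_exists_add.1 hT₁le
  have hV0 : V ≠ 0 := by
    rintro rfl
    rw [add_zero] at hV
    rw [hV] at h2m
    omega
  obtain ⟨x, hx⟩ := Multiset.exists_mem_of_ne_zero hV0
  obtain ⟨T₂, hT₂⟩ := Multiset.exists_cons_of_mem hx
  have hTeq : T = T₁ + {x} + T₂ := by
    rw [hV, hT₂, ← Multiset.singleton_add, add_assoc]
  have hge : m ≤ rsum u (T₁ + {x}) := by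
    by_contra hcon
    push Not at hcon
    have h1 := hmax (T₁ + {x}) (by
      rw [Finset.mem_filter, Multiset.mem_toFinset, Multiset.mem_powerset]
      exact ⟨by rw [hTeq]; exact Multiset.le_add_right _ _, hcon⟩)
    rw [Multiset.card_add, Multiset.card_singleton] at h1
    omega
  have hz1 : (0 : ZMod m) ∉ T₁ := fun h => hTz (Multiset.mem_of_le hT₁le h)
  have hzx : x ≠ 0 := by
    rintro rfl
    apply hTz
    rw [hTeq]
    simp
  have hz2 : (0 : ZMod m) ∉ T₂ := by
    intro h
    apply hTz
    rw [hTeq]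
    simp [h]
  have hrx : rsum u {x} = ((u : ZMod m) * x).val := by simp [rsum]
  have hrxlt : rsum u {x} < m := by
    rw [hrx]
    exact ZMod.val_lt _
  have hrxpos : 0 < rsum u {x} := rsum_pos u (by simp) (by simpa using fun h => hzx h.symm)
  have hr2 : rsum u T = rsum u T₁ + rsum u {x} + rsum u T₂ := by
    rw [hTeq, rsum_add, rsum_add]
  rw [rsum_add] at hge
  have hev : ev y T = ev y T₁ + y x + ev y T₂ := by
    rw [hTeq, ev_add, ev_add]
    simp [ev]
  by_cases hB : rsum u T₁ + rsum u {x} = m
  · -- two zero-sum sequences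
    have h1 : ZSeq (T₁ + {x}) := by
      refine ⟨by simp, ?_, ?_⟩
      · rw [sum_eq_rsum u, rsum_add, hB]
        simp
      · rw [Multiset.mem_add, not_or]
        exact ⟨hz1, by simpa using fun h => hzx h.symm⟩
    have h2 : ZSeq T₂ := by
      refine ⟨?_, ?_, hz2⟩
      · rintro rfl
        simp [rsum] at hr2
        simp only [rsum, Multiset.map_singleton, Multiset.sum_singleton] at hB
        simp only [rsum] at hr2 h2m
        omega
      · have h3 := hTs
        rw [hTeq, Multiset.sum_add, h1.2.1, zero_add] at h3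
        exact h3
    have h3 := hy.le h1
    have h4 := hy.le h2
    have h5 : ev y (T₁ + {x}) = ev y T₁ + y x := by
      rw [ev_add]
      simp [ev]
    linarith
  · set A := rsum u T₁ with hA
    obtain ⟨B, hB'⟩ := Nat.exists_eq_add_of_le hge
    have hB0 : 0 < B := by
      rcases Nat.eq_zero_or_pos B with h | h
      · rw [h] at hB'
        exact absurd (by omega) hB
      · exact h
    have hBm : B < m := by omega
    have hA0 : 0 < A := by omega
    have hT₁0 : T₁ ≠ 0 := by
      rintro rfl
      simp [hA, rsum] at hA0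
    -- the first part
    have h1 := subadditive hw hy hmin hT₁0 hz1
    rw [sum_eq_rsum u T₁, ← hA] at h1
    have h2 := ge_mul hw hy hmin u hA0 hT₁lt
    -- the middle
    have h3 := ge_mul hw hy hmin u hrxpos hrxlt
    have h4 : (rsum u {x} : ZMod m) * ((u⁻¹ : (ZMod m)ˣ) : ZMod m) = x := by
      rw [← sum_eq_rsum u {x}]
      simp
    rw [h4] at h3
    -- the last part
    have h5 := le_mul hw hy hmin u hB0 hBm
    have h6 : ZSeq (T₂ + {(B : ZMod m) * ((u⁻¹ : (ZMod m)ˣ) : ZMod m)}) := by
      refine ⟨by simp, ?_, ?_⟩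
      · have h7 : (B : ZMod m) = ((A + rsum u {x} : ℕ) : ZMod m) := by
          rw [hB']
          simp
        rw [Multiset.sum_add, Multiset.sum_singleton, h7, hA, ← rsum_add, ← sum_eq_rsum, add_comm,
          ← Multiset.sum_add, ← hTeq, hTs]
      · rw [Multiset.mem_add, not_or]
        refine ⟨hz2, ?_⟩
        rw [Multiset.mem_singleton]
        intro h0
        have h8 := (Units.mul_left_eq_zero (u⁻¹ : (ZMod m)ˣ)).1 h0.symm
        rw [ZMod.natCast_eq_zero_iff] at h8
        exact absurd (Nat.le_of_dvd hB0 h8) (by omega)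
    have h7 := hy.le h6
    have h8 : ev y (T₂ + {(B : ZMod m) * ((u⁻¹ : (ZMod m)ˣ) : ZMod m)}) =
        ev y T₂ + y ((B : ZMod m) * ((u⁻¹ : (ZMod m)ˣ) : ZMod m)) := by
      rw [ev_add]
      simp [ev]
    rw [h8] at h7
    have h9 : (A : ℝ) + (rsum u {x} : ℕ) = m + B := by exact_mod_cast hB'
    rw [← hεdef] at h2 h3 h5
    have h10 : (A : ℝ) * ε + (rsum u {x} : ℕ) * ε = m * ε + B * ε := by
      rw [← add_mul, h9, add_mul]
    nlinarith

end

end Pool.Agent.MPC
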