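import Pool.Agent.MPC.Frac

/-!
# Optimal functions on zero-sum sequences; linear programming duality
-/

open Finset Filter Topology

namespace Pool.Agent.MPC

variable {m : ℕ} [NeZero m]

/-- the function given by a unit -/
noncomputable def zf (u : (ZMod m)ˣ) (x : ZMod m) : ℝ := (((u : ZMod m) * x).val : ℝ) / m

omit [NeZero m] in
lemma ev_zf (u : (ZMod m)ˣ) (T : Multiset (ZMod m)) : ev (zf u) T = (rsum u T : ℝ) / m := by
  induction T using Multiset.induction_on with
  | empty => simp [ev, rsum]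
  | cons x T ih =>
    have h1 : ev (zf u) (x ::ₘ T) = zf u x + ev (zf u) T := by simp [ev]
    have h2 : rsum u (x ::ₘ T) = ((u : ZMod m) * x).val + rsum u T := by simp [rsum]
    rw [h1, ih, h2, zf]
    push_cast
    ring

lemma Feas.pos {y : ZMod m → ℝ} (hy : Feas y) {x : ZMod m} (hx : x ≠ 0) :
    1 ≤ m * y x := by
  have h1 : ZSeq (Multiset.replicate m x) := by
    refine ⟨?_, ?_, ?_⟩
    · intro h0
      have := congrArg Multiset.card h0
      rw [Multiset.card_replicate, Multiset.card_zero] at this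
      exact NeZero.ne m this
    · rw [Multiset.sum_replicate]
      simp
    · rw [Multiset.mem_replicate]
      rintro ⟨-, h0⟩
      exact hx h0.symm
  have h2 := hy.le h1
  simpa [ev] using h2

/-- nonunits have large values -/
lemma Feas.two_le {y : ZMod m → ℝ} (hy : Feas y) {x : ZMod m} (hx : x ≠ 0) (hu : ¬ IsUnit x) :
    2 ≤ m * y x := by
  have hm0 : 0 < m := NeZero.pos m
  set o := addOrderOf x with ho
  have hodvd : o ∣ m := by
    rw [ho]
    apply addOrderOf_dvd_of_nsmul_eq_zero
    simp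
  have hopos : 0 < o := Nat.pos_of_dvd_of_pos hodvd hm0
  have hom : o ≠ m := by
    intro h
    apply hu
    have h1 : (x.val : ZMod m) = x := by simp
    have h2 : Nat.Coprime x.val m := by
      have h3 := ZMod.addOrderOf_coe' (n := m) (a := x.val) (by
        intro h4
        exact hx ((ZMod.val_eq_zero _).1 h4))
      rw [h1, ← ho, h] at h3
      have h4 : Nat.gcd m x.val ∣ m := Nat.gcd_dvd_left _ _
      have h5 : m / Nat.gcd m x.val * Nat.gcd m x.val = m := Nat.div_mul_cancel h4
      rw [← h3] at h5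
      have h6 : Nat.gcd m x.val = 1 := by
        have : m * Nat.gcd m x.val = m * 1 := by rw [h5, mul_one]
        exact Nat.eq_of_mul_eq_mul_left hm0 this
      rw [Nat.coprime_comm]
      exact h6
    rw [← h1]
    exact (ZMod.isUnit_iff_coprime _ _).2 h2
  have h2o : 2 * o ≤ m := by
    obtain ⟨c, hc⟩ := hodvd
    have hc0 : c ≠ 0 := by
      rintro rfl
      omega
    have hc1 : c ≠ 1 := by
      rintro rfl
      omega
    rw [hc, mul_comm]
    exact Nat.mul_le_mul_left o (by omega)
  have h1 : ZSeq (Multiset.replicate o x) := by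
    refine ⟨?_, ?_, ?_⟩
    · intro h0
      have := congrArg Multiset.card h0
      rw [Multiset.card_replicate, Multiset.card_zero] at this
      omega
    · rw [Multiset.sum_replicate, ho, addOrderOf_nsmul_eq_zero]
    · rw [Multiset.mem_replicate]
      rintro ⟨-, h0⟩
      exact hx h0.symm
  have h2 := hy.le h1
  have h3 : ev y (Multiset.replicate o x) = o * y x := by simp [ev]
  rw [h3] at h2
  have h4 : (2 : ℝ) * o ≤ m := by exact_mod_cast h2o
  have h5 := hy.1 x
  nlinarith

/-- if the optimal function is small at a unit then the function given by the unit is optimal -/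
lemma optimal {w y : ZMod m → ℝ} (hw : ∀ x, 0 < w x) (hy : Feas y)
    (hmin : ∀ y', Feas y' → ∑ x, w x * y x ≤ ∑ x, w x * y' x) (u : (ZMod m)ˣ)
    (hε : (m : ℝ) * y ((u⁻¹ : (ZMod m)ˣ) : ZMod m) < 2) :
    ∑ x, w x * zf u x ≤ ∑ x, w x * y x := by
  have hm0 : (0 : ℝ) < m := by exact_mod_cast NeZero.pos m
  -- small perturbations
  have h1 : ∀ x, ∀ᶠ t in 𝓝[>] (0 : ℝ), 0 ≤ (1 + t) * y x - t * zf u x := by
    intro x
    by_cases hx : x = 0
    · filter_upwards [self_mem_nhdsWithin] with t ht
      have h2 : zf u x = 0 := by simp [zf, hx]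
      rw [h2, mul_zero, sub_zero]
      exact mul_nonneg (by linarith [show (0 : ℝ) < t from ht]) (hy.1 x)
    · have h2 := hy.pos hx
      have h3 : 0 < y x := by
        by_contra hcon
        push Not at hcon
        nlinarith
      have h4 : ContinuousAt (fun t : ℝ => (1 + t) * y x - t * zf u x) 0 := by fun_prop
      have h5 : ∀ᶠ t in 𝓝 (0 : ℝ), 0 < (1 + t) * y x - t * zf u x :=
        (continuousAt_const (y := (0 : ℝ))).eventually_lt h4 (by simpa using h3)
      exact (h5.filter_mono nhdsWithin_le_nhds).mono fun t ht => ht.le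
  have h2 : ∀ T ∈ fam m, ∀ᶠ t in 𝓝[>] (0 : ℝ), 1 ≤ (1 + t) * ev y T - t * ev (zf u) T := by
    intro T hT
    have hZ := (mem_fam.1 hT).2
    rcases (hy.le hZ).eq_or_lt with h3 | h3
    · have h4 := tight hw hy hmin u hε hZ h3.symm
      apply Eventually.of_forall
      intro t
      rw [← h3, ev_zf, h4, div_self hm0.ne']
      linarith
    · have h4 : ContinuousAt (fun t : ℝ => (1 + t) * ev y T - t * ev (zf u) T) 0 := by fun_prop
      have h5 : ∀ᶠ t in 𝓝 (0 : ℝ), 1 < (1 + t) * ev y T - t * ev (zf u) T :=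
        (continuousAt_const (y := (1 : ℝ))).eventually_lt h4 (by simpa using h3)
      exact (h5.filter_mono nhdsWithin_le_nhds).mono fun t ht => ht.le
  obtain ⟨t, ⟨h3, h4⟩, ht⟩ := (((eventually_all.2 h1).and
    ((Finset.eventually_all (fam m)).2 h2)).and self_mem_nhdsWithin).exists
  have ht0 : (0 : ℝ) < t := ht
  have h5 := hmin (fun x => (1 + t) * y x - t * zf u x) ⟨h3, fun T hT => by
    have h6 : ev (fun x => (1 + t) * y x - t * zf u x) T =
        (1 + t) * ev y T - t * ev (zf u) T := by
      rw [ev_eq_sum, ev_eq_sum, ev_eq_sum, Finset.mul_sum, Finset.mul_sum,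
        ← Finset.sum_sub_distrib]
      apply Finset.sum_congr rfl
      intro x _
      ring
    rw [h6]
    exact h4 T hT⟩
  have h6 : ∑ x, w x * ((1 + t) * y x - t * zf u x) =
      (1 + t) * ∑ x, w x * y x - t * ∑ x, w x * zf u x := by
    rw [Finset.mul_sum, Finset.mul_sum, ← Finset.sum_sub_distrib]
    apply Finset.sum_congr rfl
    intro x _
    ring
  rw [h6] at h5
  have h7 : t * ∑ x, w x * zf u x ≤ t * ∑ x, w x * y x := by linarith
  exact le_of_mul_le_mul_left h7 ht0

/-- an optimal function exists -/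
lemma exists_optimal {w : ZMod m → ℝ} (hw : ∀ x, 0 < w x) {y₀ : ZMod m → ℝ} (hy₀ : Feas y₀) :
    ∃ y, Feas y ∧ ∀ y', Feas y' → ∑ x, w x * y x ≤ ∑ x, w x * y' x := by
  set c := ∑ x, w x * y₀ x with hc
  set K : Set (ZMod m → ℝ) := {y | Feas y ∧ ∑ x, w x * y x ≤ c} with hK
  have hcont : Continuous fun y : ZMod m → ℝ => ∑ x, w x * y x := by fun_prop
  have hsub : K ⊆ Set.Icc 0 (fun x => c / w x) := by
    rintro y ⟨hy, hyc⟩
    refine ⟨fun x => hy.1 x, fun x => ?_⟩
    rw [le_div_iff₀ (hw x), mul_comm]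
    exact (Finset.single_le_sum (f := fun x => w x * y x)
      (fun x _ => mul_nonneg (hw x).le (hy.1 x)) (Finset.mem_univ x)).trans hyc
  have hclosed : IsClosed K := by
    have h1 : K = (⋂ x, {y : ZMod m → ℝ | 0 ≤ y x}) ∩
        (⋂ T ∈ fam m, {y : ZMod m → ℝ | 1 ≤ ∑ x, (T.count x : ℝ) * y x}) ∩
        {y : ZMod m → ℝ | ∑ x, w x * y x ≤ c} := by
      ext y
      simp only [hK, Feas, ev_eq_sum, Set.mem_ofPred_eq, Set.mem_inter_iff, Set.mem_iInter]
    rw [h1]
    refine IsClosed.inter (IsClosed.inter (isClosed_iInter fun x =>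
      isClosed_le continuous_const (continuous_apply x)) (isClosed_biInter fun T _ =>
      isClosed_le continuous_const (by fun_prop))) (isClosed_le hcont continuous_const)
  have hcomp : IsCompact K := isCompact_Icc.of_isClosed_subset hclosed hsub
  obtain ⟨y, hyK, hymin⟩ := hcomp.exists_isMinOn ⟨y₀, hy₀, le_rfl⟩ hcont.continuousOn
  refine ⟨y, hyK.1, fun y' hy' => ?_⟩
  by_cases h : ∑ x, w x * y' x ≤ c
  · exact hymin ⟨hy', h⟩
  · push Not at h
    exact hyK.2.trans h.le

/-- linear programming duality -/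
lemma duality {w : ZMod m → ℝ} (hw : ∀ x, 0 < w x) {c : ℝ} (hc : 0 < c)
    (h : ∀ l : Multiset (ZMod m) → ℝ, (∀ T, 0 ≤ l T) →
      (∀ x, ∑ T ∈ fam m, l T * T.count x ≤ w x) → ∑ T ∈ fam m, l T ≤ c) :
    ∃ y, Feas y ∧ ∑ x, w x * y x ≤ c := by
  classical
  rcases (fam m).eq_empty_or_nonempty with hfam | ⟨T₀, hT₀⟩
  · refine ⟨0, ⟨fun _ => le_rfl, fun T hT => ?_⟩, by simpa using hc.le⟩
    rw [hfam] at hT
    exact absurd hT (Finset.notMem_empty T)
  set C : Set (ZMod m → ℝ) := {v | ∃ l : Multiset (ZMod m) → ℝ, (∀ T, 0 ≤ l T) ∧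
    c < ∑ T ∈ fam m, l T ∧ ∀ x, ∑ T ∈ fam m, l T * T.count x < v x} with hC
  have hconv : Convex ℝ C := by
    rintro v ⟨l, hl0, hlc, hlv⟩ v' ⟨l', hl'0, hl'c, hl'v⟩ a b ha hb hab
    refine ⟨fun T => a * l T + b * l' T, fun T => add_nonneg (mul_nonneg ha (hl0 T))
      (mul_nonneg hb (hl'0 T)), ?_, fun x => ?_⟩
    · rw [Finset.sum_add_distrib, ← Finset.mul_sum, ← Finset.mul_sum]
      rcases ha.eq_or_lt with ha0 | ha0
      · rw [← ha0] at hab ⊢
        have : b = 1 := by linarith
        rw [this]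
        linarith
      · have h1 : a * c < a * ∑ T ∈ fam m, l T := mul_lt_mul_of_pos_left hlc ha0
        have h2 : b * c ≤ b * ∑ T ∈ fam m, l' T := mul_le_mul_of_nonneg_left hl'c.le hb
        have h3 : a * c + b * c = c := by rw [← add_mul, hab, one_mul]
        linarith
    · have h0 : ∑ T ∈ fam m, (a * l T + b * l' T) * (T.count x : ℝ) =
          a * ∑ T ∈ fam m, l T * T.count x + b * ∑ T ∈ fam m, l' T * T.count x := by
        rw [Finset.mul_sum, Finset.mul_sum, ← Finset.sum_add_distrib]
        apply Finset.sum_congr rfl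
        intro T _
        ring
      rw [h0]
      change _ < a * v x + b * v' x
      rcases ha.eq_or_lt with ha0 | ha0
      · rw [← ha0] at hab ⊢
        have : b = 1 := by linarith
        rw [this]
        have := hl'v x
        linarith
      · have h1 := mul_lt_mul_of_pos_left (hlv x) ha0
        have h2 := mul_le_mul_of_nonneg_left (hl'v x).le hb
        linarith
  have hopen : IsOpen C := by
    have h1 : C = ⋃ l ∈ {l : Multiset (ZMod m) → ℝ | (∀ T, 0 ≤ l T) ∧ c < ∑ T ∈ fam m, l T},
        ⋂ x, {v : ZMod m → ℝ | ∑ T ∈ fam m, l T * T.count x < v x} := by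
      ext v
      simp only [hC, Set.mem_ofPred_eq, Set.mem_iUnion, Set.mem_iInter, exists_prop, and_assoc]
    rw [h1]
    exact isOpen_biUnion fun l _ => isOpen_iInter_of_finite fun x =>
      isOpen_lt continuous_const (continuous_apply x)
  have hwC : w ∉ C := by
    rintro ⟨l, hl0, hlc, hlw⟩
    exact absurd (h l hl0 fun x => (hlw x).le) (not_le.2 hlc)
  obtain ⟨f, hf⟩ := geometric_hahn_banach_open_point hconv hopen hwC
  set y : ZMod m → ℝ := fun x => -f (Pi.single x 1) with hy
  have hfy : ∀ v, f v = -∑ x, v x * y x := by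
    intro v
    have h1 : v = ∑ x, v x • (Pi.single x (1 : ℝ) : ZMod m → ℝ) := by
      funext z
      rw [Finset.sum_apply, Finset.sum_eq_single z]
      · simp
      · intro x _ hx
        simp [Pi.single_eq_of_ne hx.symm]
      · simp
    conv_lhs => rw [h1]
    rw [map_sum, ← Finset.sum_neg_distrib]
    apply Finset.sum_congr rfl
    intro x _
    rw [map_smul, hy, smul_eq_mul]
    ring
  have hlt : ∀ v ∈ C, ∑ x, w x * y x < ∑ x, v x * y x := by
    intro v hv
    have := hf v hv
    rw [hfy, hfy] at this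
    linarith
  -- elements of the cone
  have hel : ∀ T ∈ fam m, ∀ t : ℝ, 0 < t → (fun x => (c + t) * T.count x + t) ∈ C := by
    intro T hT t ht
    refine ⟨fun T' => if T' = T then c + t else 0, fun T' => ?_, ?_, fun x => ?_⟩
    · change 0 ≤ if T' = T then c + t else 0
      split_ifs
      · linarith
      · exact le_rfl
    · rw [Finset.sum_ite_eq' (fam m) T, if_pos hT]
      linarith
    · simp only [ite_mul, zero_mul]
      rw [Finset.sum_ite_eq' (fam m) T, if_pos hT]
      linarith
  have hv₀ := hel T₀ hT₀ 1 one_pos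
  set v₀ : ZMod m → ℝ := fun x => (c + 1) * T₀.count x + 1 with hv₀def
  have hy0 : ∀ x, 0 ≤ y x := by
    intro x
    by_contra hcon
    push Not at hcon
    set t : ℝ := (∑ x, v₀ x * y x - ∑ x, w x * y x) / (-y x) with ht
    have ht0 : 0 < t := div_pos (by linarith [hlt v₀ hv₀]) (by linarith)
    have h1 : v₀ + t • (Pi.single x (1 : ℝ) : ZMod m → ℝ) ∈ C := by
      obtain ⟨l, hl0, hlc, hlv⟩ := hv₀
      refine ⟨l, hl0, hlc, fun z => (hlv z).trans_le ?_⟩
      change v₀ z ≤ v₀ z + t * (Pi.single x (1 : ℝ) : ZMod m → ℝ) z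
      have : 0 ≤ (Pi.single x (1 : ℝ) : ZMod m → ℝ) z := by
        by_cases hz : z = x
        · subst hz
          simp
        · simp [Pi.single_eq_of_ne hz]
      nlinarith
    have h2 := hlt _ h1
    have h3 : ∑ z, (v₀ + t • (Pi.single x (1 : ℝ) : ZMod m → ℝ)) z * y z =
        ∑ z, v₀ z * y z + t * y x := by
      have h4 : ∀ z, (v₀ + t • (Pi.single x (1 : ℝ) : ZMod m → ℝ)) z * y z =
          v₀ z * y z + (if z = x then t * y z else 0) := by
        intro z
        change (v₀ z + t * (Pi.single x (1 : ℝ) : ZMod m → ℝ) z) * y z = _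
        by_cases hz : z = x
        · subst hz
          simp
          ring
        · simp [hz]
      rw [Finset.sum_congr rfl fun z _ => h4 z, Finset.sum_add_distrib,
        Finset.sum_ite_eq' Finset.univ x]
      simp
    rw [h3] at h2
    have h4 : t * y x = -(∑ x, v₀ x * y x - ∑ x, w x * y x) := by
      rw [ht, div_mul_eq_mul_div, div_eq_iff (by linarith)]
      ring
    linarith
  have hpos : 0 < ∑ x, w x * y x := by
    have h1 : 0 ≤ ∑ x, w x * y x := Finset.sum_nonneg fun x _ => mul_nonneg (hw x).le (hy0 x)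
    rcases h1.eq_or_lt with h2 | h2
    · exfalso
      have h3 := (Finset.sum_eq_zero_iff_of_nonneg fun x _ => mul_nonneg (hw x).le (hy0 x)).1
        h2.symm
      have h4 := hlt v₀ hv₀
      rw [← h2, Finset.sum_eq_zero] at h4
      · exact lt_irrefl _ h4
      · intro x hx
        rcases mul_eq_zero.1 (h3 x hx) with h5 | h5
        · exact absurd h5 (hw x).ne'
        · rw [h5, mul_zero]
    · exact h2
  have hT : ∀ T ∈ fam m, ∑ x, w x * y x ≤ c * ev y T := by
    intro T hT
    apply le_of_forall_pos_lt_add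
    intro ε hε
    have hY : 0 ≤ ∑ x, y x := Finset.sum_nonneg fun x _ => hy0 x
    have hE : 0 ≤ ev y T := ev_nonneg hy0 T
    set t : ℝ := ε / (ev y T + ∑ x, y x + 1) with ht
    have ht0 : 0 < t := div_pos hε (by linarith)
    have h1 := hlt _ (hel T hT t ht0)
    have h2 : ∑ x, ((c + t) * (T.count x : ℝ) + t) * y x = (c + t) * ev y T + t * ∑ x, y x := by
      rw [ev_eq_sum, Finset.mul_sum, Finset.mul_sum, ← Finset.sum_add_distrib]
      apply Finset.sum_congr rfl
      intro x _
      ring
    rw [h2] at h1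
    have h3 : t * (ev y T + ∑ x, y x + 1) = ε := by
      rw [ht, div_mul_cancel₀]
      linarith
    nlinarith
  refine ⟨fun x => c / (∑ x, w x * y x) * y x, ⟨fun x => mul_nonneg (div_pos hc hpos).le (hy0 x),
    fun T hTT => ?_⟩, ?_⟩
  · have h1 : ev (fun x => c / (∑ x, w x * y x) * y x) T = c / (∑ x, w x * y x) * ev y T := by
      rw [ev_eq_sum, ev_eq_sum, Finset.mul_sum]
      apply Finset.sum_congr rfl
      intro x _
      ring
    rw [h1, div_mul_eq_mul_div, le_div_iff₀ hpos, one_mul]
    exact hT T hTT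
  · have h1 : ∑ x, w x * (c / (∑ x, w x * y x) * y x) = c := by
      have h2 : ∀ x, w x * (c / (∑ x, w x * y x) * y x) = c / (∑ x, w x * y x) * (w x * y x) := by
        intro x
        ring
      rw [Finset.sum_congr rfl fun x _ => h2 x, ← Finset.mul_sum, div_mul_cancel₀ _ hpos.ne']
    exact h1.le

end Pool.Agent.MPC
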