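import Pool.Agent.MPC.FracS

/-!
# A minimal function for a sequence which does not split
-/

open Finset Filter Topology

namespace Pool.Agent.MPC

open Pool.Agent.SavChen

variable {m : ℕ} [NeZero m]

section

variable {w y : ZMod m → ℝ} (hw : ∀ x, 0 < w x) (hy : Feas y)
    (hmin : ∀ y', Feas y' → ∑ x, w x * y x ≤ ∑ x, w x * y' x)

include hw hy hmin

lemma optimal_zero : y 0 = 0 := by
  classical
  have h1 : Feas (fun x => if x = 0 then 0 else y x) := by
    refine ⟨fun x => ?_, fun T hT => ?_⟩
    · change 0 ≤ if x = 0 then 0 else y x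
      split_ifs
      · exact le_rfl
      · exact hy.1 x
    · have h2 : ev (fun x => if x = 0 then 0 else y x) T = ev y T := by
        unfold ev
        congr 1
        apply Multiset.map_congr rfl
        intro x hx
        have hx0 : x ≠ 0 := by
          rintro rfl
          exact (mem_fam.1 hT).2.2.2 hx
        rw [if_neg hx0]
      rw [h2]
      exact hy.2 T hT
  have h2 := hmin _ h1
  have h3 : ∑ x, w x * (if x = 0 then 0 else y x) = ∑ x, w x * y x - w 0 * y 0 := by
    have h4 : ∀ x, w x * (if x = 0 then 0 else y x) = w x * y x - (if x = 0 then w x * y x else 0) := by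
      intro x
      split_ifs <;> ring
    rw [Finset.sum_congr rfl fun x _ => h4 x, Finset.sum_sub_distrib,
      Finset.sum_ite_eq' Finset.univ 0]
    simp
  rw [h3] at h2
  have h4 := hw 0
  have h5 := hy.1 0
  nlinarith

lemma exists_tight {x : ZMod m} (hx : x ≠ 0) : ∃ T, ZSeq T ∧ x ∈ T ∧ ev y T = 1 := by
  classical
  by_contra hcon
  push Not at hcon
  have hm0 : (0 : ℝ) < m := by exact_mod_cast NeZero.pos m
  have h1 : ∀ z, ∀ᶠ t in 𝓝[>] (0 : ℝ), 0 ≤ y z - t * (if z = x then 1 else 0) := by
    intro z
    by_cases hz : z = x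
    · subst hz
      have h2 := hy.pos hx
      have h3 : 0 < y z := by
        by_contra hcon
        push Not at hcon
        nlinarith
      have h4 : ContinuousAt (fun t : ℝ => y z - t * (if z = z then 1 else 0)) 0 := by fun_prop
      have h5 : ∀ᶠ t in 𝓝 (0 : ℝ), 0 < y z - t * (if z = z then 1 else 0) :=
        (continuousAt_const (y := (0 : ℝ))).eventually_lt h4 (by simpa using h3)
      exact (h5.filter_mono nhdsWithin_le_nhds).mono fun t ht => ht.le
    · apply Eventually.of_forall
      intro t
      rw [if_neg hz, mul_zero, sub_zero]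
      exact hy.1 z
  have h2 : ∀ T ∈ fam m, ∀ᶠ t in 𝓝[>] (0 : ℝ), 1 ≤ ev y T - t * (T.count x : ℝ) := by
    intro T hT
    have hZ := (mem_fam.1 hT).2
    by_cases hxT : x ∈ T
    · have h3 := lt_of_le_of_ne (hy.le hZ) (hcon T hZ hxT).symm
      have h4 : ContinuousAt (fun t : ℝ => ev y T - t * (T.count x : ℝ)) 0 := by fun_prop
      have h5 : ∀ᶠ t in 𝓝 (0 : ℝ), 1 < ev y T - t * (T.count x : ℝ) :=
        (continuousAt_const (y := (1 : ℝ))).eventually_lt h4 (by simpa using h3)
      exact (h5.filter_mono nhdsWithin_le_nhds).mono fun t ht => ht.le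
    · apply Eventually.of_forall
      intro t
      rw [Multiset.count_eq_zero_of_notMem hxT, Nat.cast_zero, mul_zero, sub_zero]
      exact hy.le hZ
  obtain ⟨t, ⟨h3, h4⟩, ht⟩ := (((eventually_all.2 h1).and
    ((Finset.eventually_all (fam m)).2 h2)).and self_mem_nhdsWithin).exists
  have ht0 : (0 : ℝ) < t := ht
  have h5 := hmin (fun z => y z - t * (if z = x then 1 else 0)) ⟨h3, fun T hT => by
    have h6 : ev (fun z => y z - t * (if z = x then 1 else 0)) T = ev y T - t * (T.count x : ℝ) := by
      rw [ev_eq_sum, ev_eq_sum]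
      have h7 : ∀ z, (T.count z : ℝ) * (y z - t * (if z = x then 1 else 0)) =
          (T.count z : ℝ) * y z - (if z = x then t * (T.count z : ℝ) else 0) := by
        intro z
        split_ifs <;> ring
      rw [Finset.sum_congr rfl fun z _ => h7 z, Finset.sum_sub_distrib,
        Finset.sum_ite_eq' Finset.univ x]
      simp
    rw [h6]
    exact h4 T hT⟩
  have h6 : ∑ z, w z * (y z - t * (if z = x then 1 else 0)) = ∑ z, w z * y z - t * w x := by
    have h7 : ∀ z, w z * (y z - t * (if z = x then 1 else 0)) =
        w z * y z - (if z = x then t * w z else 0) := by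
      intro z
      split_ifs <;> ring
    rw [Finset.sum_congr rfl fun z _ => h7 z, Finset.sum_sub_distrib,
      Finset.sum_ite_eq' Finset.univ x]
    simp
  rw [h6] at h5
  have h7 := mul_pos ht0 (hw x)
  linarith

/-- the optimal functions are minimal functions -/
lemma optimal_isMin : IsMin y := by
  have h0 := optimal_zero hw hy hmin
  refine ⟨h0, hy.1, fun x hx => ?_, fun a b => ?_⟩
  · obtain ⟨T, ⟨hT0, hTs, hTz⟩, hxT, hT1⟩ := exists_tight hw hy hmin hx
    obtain ⟨V, hV⟩ := Multiset.exists_cons_of_mem hxT
    have h1 : V.sum = -x := by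
      rw [hV, Multiset.sum_cons] at hTs
      exact (neg_eq_of_add_eq_zero_right hTs).symm
    have h2 : ev y T = y x + ev y V := by
      rw [hV]
      simp [ev]
    have h3 := subadditive hw hy hmin (U := V) (by
      rintro rfl
      rw [Multiset.sum_zero] at h1
      exact hx (by simpa using h1.symm)) (fun h => hTz (by
        rw [hV]
        exact Multiset.mem_cons_of_mem h))
    rw [h1] at h3
    have h4 := hy.pair hx
    linarith
  · by_cases ha : a = 0
    · rw [ha, zero_add, h0, zero_add]
    by_cases hb : b = 0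
    · rw [hb, add_zero, h0, add_zero]
    have h3 := subadditive hw hy hmin (U := {a, b}) (by simp) (by
      simp only [Multiset.insert_eq_cons, Multiset.mem_cons, Multiset.mem_singleton, not_or]
      exact ⟨fun h => ha h.symm, fun h => hb h.symm⟩)
    simpa [ev] using h3

end

/-- a sequence without large splittings has a minimal function with small sum, up to `g` -/
lemma exists_isMin_of_not_splits {J : Type} [Fintype J] [DecidableEq J] (a : J → ZMod m)
    (hsum : ∑ j, a j = 0) (κ : ℕ)
    (hcon : ∀ D, 0 < D → ¬ Splits (fun w : J × Fin D => a w.1) Finset.univ (D * κ + 1))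
    {g : ℝ} (hg0 : 0 < g) : ∃ y : ZMod m → ℝ, IsMin y ∧ sv a y ≤ κ + g := by
  classical
  have hm0 : 0 < m := NeZero.pos m
  have hmR : (0 : ℝ) < m := by exact_mod_cast hm0
  set c : ZMod m → ℕ := fun x => (Finset.univ.filter fun j => a j = x).card with hc
  -- real packings of the sequence
  have h1 : ∀ l : Multiset (ZMod m) → ℝ, (∀ T, 0 ≤ l T) →
      (∀ x, ∑ T ∈ fam m, l T * T.count x ≤ c x) → ∑ T ∈ fam m, l T ≤ κ := by
    intro l hl0 hl
    by_contra hlt
    push Not at hlt
    obtain ⟨D, hD⟩ := exists_nat_gt (((fam m).card : ℝ) / (∑ T ∈ fam m, l T - κ))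
    rw [div_lt_iff₀ (by linarith)] at hD
    have hD0 : 0 < D := by
      rcases Nat.eq_zero_or_pos D with h | h
      · rw [h, Nat.cast_zero, zero_mul] at hD
        have : (0 : ℝ) ≤ ((fam m).card : ℝ) := Nat.cast_nonneg _
        linarith
      · exact h
    apply hcon D hD0
    have hDR : (0 : ℝ) < D := by exact_mod_cast hD0
    have h2 : D * κ + 1 ≤ ∑ T ∈ fam m, ⌊(D : ℝ) * l T⌋₊ := by
      have h3 : (D : ℝ) * κ < ∑ T ∈ fam m, (⌊(D : ℝ) * l T⌋₊ : ℝ) := by
        have h4 : ∑ T ∈ fam m, ((D : ℝ) * l T - 1) ≤ ∑ T ∈ fam m, (⌊(D : ℝ) * l T⌋₊ : ℝ) :=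
          Finset.sum_le_sum fun T _ => (Nat.sub_one_lt_floor _).le
        rw [Finset.sum_sub_distrib, ← Finset.mul_sum] at h4
        simp only [Finset.sum_const, nsmul_eq_mul, mul_one] at h4
        nlinarith
      exact_mod_cast h3
    refine (splits_of_counts (fun w : J × Fin D => a w.1) (fam m) (fun T hT => (mem_fam.1 hT).2)
      _ Finset.univ (fun T => ⌊(D : ℝ) * l T⌋₊) ?_ ?_ rfl).mono h2
    · rw [Fintype.sum_prod_type]
      simp only [Finset.sum_const, Finset.card_univ, Fintype.card_fin, nsmul_eq_mul]
      rw [← Finset.mul_sum, hsum, mul_zero]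
    · intro x
      have h3 : (Finset.univ.filter fun w : J × Fin D => a w.1 = x).card = c x * D := by
        have h4 : (Finset.univ.filter fun w : J × Fin D => a w.1 = x) =
            (Finset.univ.filter fun j => a j = x) ×ˢ (Finset.univ : Finset (Fin D)) := by
          ext w
          simp
        rw [h4, Finset.card_product, Finset.card_univ, Fintype.card_fin]
      rw [h3]
      have h4 : (∑ T ∈ fam m, (⌊(D : ℝ) * l T⌋₊ : ℝ) * T.count x) ≤ c x * D := by
        have h5 : ∑ T ∈ fam m, (⌊(D : ℝ) * l T⌋₊ : ℝ) * T.count x ≤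
            ∑ T ∈ fam m, (D : ℝ) * (l T * T.count x) := by
          apply Finset.sum_le_sum
          intro T _
          rw [← mul_assoc]
          exact mul_le_mul_of_nonneg_right (Nat.floor_le (mul_nonneg hDR.le (hl0 T)))
            (Nat.cast_nonneg _)
        rw [← Finset.mul_sum] at h5
        have h6 := mul_le_mul_of_nonneg_left (hl x) hDR.le
        linarith
      exact_mod_cast h4
  have hκm : (0 : ℝ) < κ + m := by positivity
  set η : ℝ := g / (κ + m) with hη
  have hη0 : 0 < η := by positivity
  have hηg : η * (κ + m) = g := by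
    rw [hη]
    field_simp
  set w : ZMod m → ℝ := fun x => c x + η with hw
  have hw0 : ∀ x, 0 < w x := fun x => by
    have : (0 : ℝ) ≤ c x := Nat.cast_nonneg _
    simp only [hw]
    linarith
  have h2 : ∀ l : Multiset (ZMod m) → ℝ, (∀ T, 0 ≤ l T) →
      (∀ x, ∑ T ∈ fam m, l T * T.count x ≤ w x) → ∑ T ∈ fam m, l T ≤ κ + g := by
    intro l hl0 hl
    have h3 : ∑ T ∈ (fam m).filter (fun T => ∀ x ∈ T, c x ≠ 0), l T ≤ (1 + η) * κ := by
      have h4 := h1 (fun T => if (∀ x ∈ T, c x ≠ 0) then l T / (1 + η) else 0) (fun T => by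
        split_ifs
        · exact div_nonneg (hl0 T) (by linarith)
        · exact le_rfl) (fun x => by
        by_cases hx : c x = 0
        · rw [Finset.sum_eq_zero, hx, Nat.cast_zero]
          intro T _
          split_ifs with hT
          · have : x ∉ T := fun h => hT x h hx
            rw [Multiset.count_eq_zero_of_notMem this, Nat.cast_zero, mul_zero]
          · rw [zero_mul]
        · have h5 : ∑ T ∈ fam m, (if (∀ x ∈ T, c x ≠ 0) then l T / (1 + η) else 0) *
              (T.count x : ℝ) ≤ ∑ T ∈ fam m, (1 / (1 + η)) * (l T * T.count x) := by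
            apply Finset.sum_le_sum
            intro T _
            split_ifs with hT
            · apply le_of_eq
              ring
            · rw [zero_mul]
              have := hl0 T
              positivity
          rw [← Finset.mul_sum] at h5
          refine h5.trans ?_
          rw [div_mul_eq_mul_div, one_mul, div_le_iff₀ (by linarith)]
          refine (hl x).trans ?_
          have h6 : (1 : ℝ) ≤ c x := by exact_mod_cast Nat.one_le_iff_ne_zero.2 hx
          simp only [hw]
          nlinarith)
      rw [← Finset.sum_filter, ← Finset.sum_div, div_le_iff₀ (by linarith)] at h4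
      linarith
    have h4 : ∑ T ∈ (fam m).filter (fun T => ¬ ∀ x ∈ T, c x ≠ 0), l T ≤ η * m := by
      have h5 : ∑ T ∈ (fam m).filter (fun T => ¬ ∀ x ∈ T, c x ≠ 0), l T ≤
          ∑ T ∈ fam m, ∑ x with c x = 0, l T * T.count x := by
        rw [Finset.sum_filter]
        apply Finset.sum_le_sum
        intro T _
        by_cases hT : ∀ x ∈ T, c x ≠ 0
        · rw [if_neg (not_not.2 hT)]
          exact Finset.sum_nonneg fun x _ => mul_nonneg (hl0 T) (Nat.cast_nonneg _)
        · rw [if_pos hT]
          push Not at hT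
          obtain ⟨x, hx, hcx⟩ := hT
          have h6 : l T * T.count x ≤ ∑ x with c x = 0, l T * T.count x :=
            Finset.single_le_sum (f := fun x => l T * (T.count x : ℝ))
              (fun x _ => mul_nonneg (hl0 T) (Nat.cast_nonneg _)) (by simp [hcx])
          have h7 : (1 : ℝ) ≤ T.count x := by exact_mod_cast Multiset.count_pos.2 hx
          have := hl0 T
          nlinarith
      rw [Finset.sum_comm] at h5
      have h6 : ∑ x with c x = 0, ∑ T ∈ fam m, l T * T.count x ≤ ∑ x with c x = 0, η := by
        apply Finset.sum_le_sum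
        intro x hx
        rw [Finset.mem_filter] at hx
        have := hl x
        simp only [hw, hx.2, Nat.cast_zero, zero_add] at this
        exact this
      have h7 : ∑ x : ZMod m with c x = 0, η ≤ η * m := by
        rw [Finset.sum_const, nsmul_eq_mul, mul_comm]
        apply mul_le_mul_of_nonneg_left _ hη0.le
        have : (Finset.univ.filter fun x : ZMod m => c x = 0).card ≤ m := by
          refine (Finset.card_le_univ _).trans ?_
          rw [ZMod.card]
        exact_mod_cast this
      linarith
    rw [← Finset.sum_filter_add_sum_filter_not (fam m) (fun T => ∀ x ∈ T, c x ≠ 0)]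
    have h5 : (1 + η) * κ + η * m = κ + g := by rw [← hηg]; ring
    linarith
  obtain ⟨y₀, hy₀, hy₀c⟩ := duality hw0 (by positivity) h2
  obtain ⟨y, hy, hmin⟩ := exists_optimal hw0 hy₀
  have hyc : ∑ x, w x * y x ≤ κ + g := (hmin y₀ hy₀).trans hy₀c
  refine ⟨y, optimal_isMin hw0 hy hmin, ?_⟩
  have hS : sv a y ≤ ∑ x, w x * y x := by
    unfold sv
    rw [← Finset.sum_fiberwise Finset.univ a (fun j => y (a j))]
    apply Finset.sum_le_sum
    intro x _
    rw [Finset.sum_congr rfl (g := fun _ => y x) (fun j hj => by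
      rw [(Finset.mem_filter.1 hj).2]), Finset.sum_const, nsmul_eq_mul]
    apply mul_le_mul_of_nonneg_right _ (hy.1 x)
    simp only [hw]
    have : (((Finset.univ.filter fun j => a j = x).card : ℕ) : ℝ) = c x := rfl
    linarith
  exact hS.trans hyc

/-- **a sequence without large splittings has a minimal function with small sum** -/
theorem exists_isMin {J : Type} [Fintype J] [DecidableEq J] (a : J → ZMod m)
    (hsum : ∑ j, a j = 0) (κ : ℕ)
    (hcon : ∀ D, 0 < D → ¬ Splits (fun w : J × Fin D => a w.1) Finset.univ (D * κ + 1)) :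
    ∃ y : ZMod m → ℝ, IsMin y ∧ sv a y ≤ κ := by
  obtain ⟨z, hz, hmin⟩ := (isMin_compact (m := m)).exists_isMinOn ⟨zf 1, zf_isMin 1⟩
    (sv_continuous a).continuousOn
  refine ⟨z, hz, ?_⟩
  apply le_of_forall_pos_le_add
  intro ε hε
  obtain ⟨y, hy, hy1⟩ := exists_isMin_of_not_splits a hsum κ hcon hε
  exact (hmin hy).trans hy1

end Pool.Agent.MPC
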