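import Pool.Agent.MPC.FracE
import Pool.Agent.WBP.Crt

/-!
# Fractional packings for several factors with different moduli
-/

open Finset Filter Topology

namespace Pool.Agent.MPC

open Pool.Agent.SavChen

section inc

variable {d m : ℕ} [NeZero d] [NeZero m]

/-- the inclusion of `ZMod d` in `ZMod m` for `d ∣ m` -/
def inc (d m : ℕ) (x : ZMod d) : ZMod m := ((m / d * x.val : ℕ) : ZMod m)

omit [NeZero d] [NeZero m] in
lemma inc_natCast (h : d ∣ m) (k : ℕ) : inc d m (k : ZMod d) = ((m / d * k : ℕ) : ZMod m) := by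
  unfold inc
  rw [ZMod.val_natCast, ZMod.natCast_eq_natCast_iff]
  obtain ⟨q, hq⟩ := h
  rcases Nat.eq_zero_or_pos d with hd | hd
  · subst hd
    simp [hq, Nat.ModEq]
  have h3 : m / d = q := by
    rw [hq, Nat.mul_div_cancel_left _ hd]
  have h4 : m = q * d := by rw [hq, mul_comm]
  rw [h3, h4]
  unfold Nat.ModEq
  rw [Nat.mul_mod_mul_left, Nat.mul_mod_mul_left, Nat.mod_mod]

omit [NeZero m] in
lemma inc_add (h : d ∣ m) (a b : ZMod d) : inc d m (a + b) = inc d m a + inc d m b := by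
  have h1 : a + b = ((a.val + b.val : ℕ) : ZMod d) := by simp
  rw [h1, inc_natCast h]
  unfold inc
  push_cast
  ring

omit [NeZero d] [NeZero m] in
lemma inc_zero : inc d m 0 = 0 := by
  simp [inc]

omit [NeZero m] in
lemma inc_neg (h : d ∣ m) (a : ZMod d) : inc d m (-a) = -inc d m a := by
  apply eq_neg_of_add_eq_zero_left
  rw [← inc_add h, neg_add_cancel, inc_zero]

lemma inc_val (h : d ∣ m) (x : ZMod d) : (inc d m x).val = m / d * x.val := by
  unfold inc
  rw [ZMod.val_natCast, Nat.mod_eq_of_lt]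
  calc m / d * x.val < m / d * d := Nat.mul_lt_mul_of_pos_left (ZMod.val_lt x)
        (Nat.div_pos (Nat.le_of_dvd (NeZero.pos m) h) (NeZero.pos d))
    _ = m := Nat.div_mul_cancel h

lemma inc_eq_zero (h : d ∣ m) {x : ZMod d} (hx : inc d m x = 0) : x = 0 := by
  have h1 := inc_val h x
  rw [hx, ZMod.val_zero] at h1
  have h2 : 0 < m / d := Nat.div_pos (Nat.le_of_dvd (NeZero.pos m) h) (NeZero.pos d)
  have h3 : x.val = 0 := by
    rcases Nat.mul_eq_zero.1 h1.symm with h4 | h4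
    · omega
    · exact h4
  exact (ZMod.val_eq_zero x).1 h3

omit [NeZero m] in
lemma inc_natCast_mul (h : d ∣ m) (o : ℕ) (x : ZMod d) :
    inc d m (o * x) = o * inc d m x := by
  have h1 : (o : ZMod d) * x = ((o * x.val : ℕ) : ZMod d) := by simp
  rw [h1, inc_natCast h]
  unfold inc
  push_cast
  ring

lemma inc_units (h : d ∣ m) (u : (ZMod m)ˣ) (x : ZMod d) :
    (u : ZMod m) * inc d m x = inc d m ((ZMod.unitsMap h u : (ZMod d)ˣ) * x) := by
  have h1 : ((ZMod.unitsMap h u : (ZMod d)ˣ) : ZMod d) = (((u : ZMod m).val : ℕ) : ZMod d) := by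
    rw [ZMod.unitsMap_val, ZMod.cast_eq_val]
  rw [h1, inc_natCast_mul h]
  simp

lemma exists_inc (h : d ∣ m) {a : ZMod m} (ha : (d : ZMod m) * a = 0) : ∃ x, inc d m x = a := by
  have h1 : ((d * a.val : ℕ) : ZMod m) = 0 := by
    push_cast
    rw [ZMod.natCast_val, ZMod.cast_id', id_eq, ha]
  rw [ZMod.natCast_eq_zero_iff] at h1
  obtain ⟨q, hq⟩ := h
  have hd : 0 < d := NeZero.pos d
  have h2 : q ∣ a.val := by
    have h3 : d * q ∣ d * a.val := hq ▸ h1
    exact Nat.dvd_of_mul_dvd_mul_left hd h3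
  obtain ⟨k, hk⟩ := h2
  refine ⟨(k : ZMod d), ?_⟩
  rw [inc_natCast ⟨q, hq⟩]
  have h3 : m / d = q := by
    rw [hq, Nat.mul_div_cancel_left _ hd]
  rw [h3, ← hk]
  simp

omit [NeZero m] in
lemma inc_inc {g : ℕ} [NeZero g] (h : d ∣ m) (hg : g ∣ d) (x : ZMod g) :
    inc d m (inc g d x) = inc g m x := by
  have h1 : inc g d x = ((d / g * x.val : ℕ) : ZMod d) := rfl
  rw [h1, inc_natCast h]
  unfold inc
  rw [← mul_assoc, Nat.div_mul_div_comm h hg, mul_comm m d, Nat.mul_div_mul_left _ _ (NeZero.pos d)]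

lemma IsMin.inc {y : ZMod m → ℝ} (hy : IsMin y) (h : d ∣ m) : IsMin (fun x => y (inc d m x)) := by
  refine ⟨?_, fun x => hy.nonneg _, fun x hx => ?_, fun a b => ?_⟩
  · rw [inc_zero, hy.zero]
  · rw [inc_neg h]
    exact hy.symm _ fun h1 => hx (inc_eq_zero h h1)
  · rw [inc_add h]
    exact hy.sub _ _

lemma zf_inc (h : d ∣ m) (u : (ZMod m)ˣ) (x : ZMod d) :
    zf u (inc d m x) = zf (ZMod.unitsMap h u) x := by
  unfold zf
  rw [inc_units h, inc_val h, Nat.cast_mul]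
  have h1 : ((m / d : ℕ) : ℝ) * d = m := by exact_mod_cast Nat.div_mul_cancel h
  have h2 : (d : ℝ) ≠ 0 := by exact_mod_cast NeZero.ne d
  have h3 : (m : ℝ) ≠ 0 := by exact_mod_cast NeZero.ne m
  rw [div_eq_div_iff h3 h2, ← h1]
  ring

end inc

section unique

variable {g : ℕ} [NeZero g]

omit [NeZero g] in
lemma small_val (hg : Odd g) {l : ℝ} (h0 : 0 ≤ l) (h1 : l ≤ 1) {k : ℕ} (hk : 0 < k) (hkg : k < g)
    (h : l * k + (1 - l) * ((2 * k % g : ℕ) : ℝ) < 2) : k = 1 ∨ 2 * k = g + 1 := by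
  by_contra hcon
  push Not at hcon
  obtain ⟨h2, h3⟩ := hcon
  have h4 : (2 : ℝ) ≤ k := by
    have : 2 ≤ k := by omega
    exact_mod_cast this
  have h5 : (2 : ℝ) ≤ ((2 * k % g : ℕ) : ℝ) := by
    have : 2 ≤ 2 * k % g := by
      obtain ⟨c, hc⟩ := hg
      rcases Nat.lt_or_ge (2 * k) g with h6 | h6
      · rw [Nat.mod_eq_of_lt h6]
        omega
      · rw [Nat.mod_eq_sub_mod h6, Nat.mod_eq_of_lt (by omega)]
        omega
    exact_mod_cast this
  nlinarith

lemma half_step [Fact (1 < g)] (hg : Odd g) {u u' : (ZMod g)ˣ} {l l' : ℝ} (h0 : 0 < l) (h0' : 0 < l')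
    (h1' : l' ≤ 1)
    (h : ∀ x, l * zf u x + (1 - l) * (((2 * (u : ZMod g) * x).val : ℝ) / g) =
      l' * zf u' x + (1 - l') * (((2 * (u' : ZMod g) * x).val : ℝ) / g)) :
    (u' : ZMod g) = u ∨ 2 * (u' : ZMod g) = u := by
  have hg1 : 1 < g := Fact.out
  have hg2 : 2 < g := by
    obtain ⟨c, hc⟩ := hg
    omega
  have hgR : (0 : ℝ) < g := by exact_mod_cast NeZero.pos g
  set k : ℕ := ((u' : ZMod g) * ((u⁻¹ : (ZMod g)ˣ) : ZMod g)).val with hk
  have h2 := h ((u⁻¹ : (ZMod g)ˣ) : ZMod g)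
  have h3 : zf u ((u⁻¹ : (ZMod g)ˣ) : ZMod g) = 1 / g := by
    unfold zf
    rw [Units.mul_inv, ZMod.val_one, Nat.cast_one]
  have h4 : (2 * (u : ZMod g) * ((u⁻¹ : (ZMod g)ˣ) : ZMod g)).val = 2 := by
    rw [mul_assoc, Units.mul_inv, mul_one]
    have : (2 : ZMod g) = ((2 : ℕ) : ZMod g) := rfl
    rw [this, ZMod.val_natCast, Nat.mod_eq_of_lt hg2]
  have h5 : zf u' ((u⁻¹ : (ZMod g)ˣ) : ZMod g) = k / g := rfl
  have h6 : (2 * (u' : ZMod g) * ((u⁻¹ : (ZMod g)ˣ) : ZMod g)).val = 2 * k % g := by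
    have h7 : 2 * (u' : ZMod g) * ((u⁻¹ : (ZMod g)ˣ) : ZMod g) = ((2 * k : ℕ) : ZMod g) := by
      rw [hk]
      push_cast
      rw [ZMod.natCast_val, ZMod.cast_id', id_eq, mul_assoc]
    rw [h7, ZMod.val_natCast]
  rw [h3, h4, h5, h6] at h2
  have h7 : l' * k + (1 - l') * ((2 * k % g : ℕ) : ℝ) = 2 - l := by
    have h8 : l' * k + (1 - l') * ((2 * k % g : ℕ) : ℝ) =
        g * (l' * (k / g) + (1 - l') * (((2 * k % g : ℕ) : ℝ) / g)) := by
      field_simp
    rw [h8, ← h2]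
    field_simp
    push_cast
    ring
  have hk0 : 0 < k := val_mul_inv_pos u' u
  have hkg : k < g := ZMod.val_lt _
  have hu : ∀ n : ℕ, k = n → (u' : ZMod g) = n * u := by
    intro n hn
    rw [← hn, hk, ZMod.natCast_val, ZMod.cast_id', id_eq, mul_assoc, Units.inv_mul, mul_one]
  rcases small_val hg h0'.le h1' hk0 hkg (by rw [h7]; linarith) with h8 | h8
  · left
    rw [hu 1 h8, Nat.cast_one, one_mul]
  · right
    rw [hu k rfl]
    have h9 : (2 : ZMod g) * ((k : ZMod g) * u) = ((2 * k : ℕ) : ZMod g) * u := by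
      push_cast
      ring
    rw [h9, h8]
    simp

/-- the function determines the unit -/
lemma unique_unit {u u' w w' : (ZMod g)ˣ} {l l' : ℝ} (h0 : 0 < l) (h1 : l ≤ 1) (h0' : 0 < l')
    (h1' : l' ≤ 1) (h : ∀ x, l * zf u x + (1 - l) * zf w x = l' * zf u' x + (1 - l') * zf w' x)
    (hl : l = 1 ∨ ((w : ZMod g) = 2 * u ∧ Odd g ∧ g ≠ 3))
    (hl' : l' = 1 ∨ ((w' : ZMod g) = 2 * u' ∧ Odd g ∧ g ≠ 3)) : u = u' := by
  rcases Nat.lt_or_ge 1 g with hg1 | hg1
  swap
  · have : g = 1 := le_antisymm hg1 (NeZero.pos g)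
    subst this
    exact Subsingleton.elim _ _
  have : Fact (1 < g) := ⟨hg1⟩
  have hgR : (g : ℝ) ≠ 0 := by exact_mod_cast NeZero.ne g
  by_cases hcase : l = 1 ∧ l' = 1
  · obtain ⟨rfl, rfl⟩ := hcase
    have h2 := h 1
    unfold zf at h2
    simp only [mul_one, one_mul, sub_self, zero_mul, add_zero] at h2
    rw [div_left_inj' hgR] at h2
    have h3 : (u : ZMod g).val = (u' : ZMod g).val := by exact_mod_cast h2
    ext
    exact ZMod.val_injective g h3
  · have h2 : Odd g ∧ g ≠ 3 := by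
      rcases hl with hl | ⟨-, hl⟩
      · rcases hl' with hl' | ⟨-, hl'⟩
        · exact absurd ⟨hl, hl'⟩ hcase
        · exact hl'
      · exact hl
    obtain ⟨hodd, h3⟩ := h2
    have h4 : ∀ x, l * zf u x + (1 - l) * (((2 * (u : ZMod g) * x).val : ℝ) / g) =
        l' * zf u' x + (1 - l') * (((2 * (u' : ZMod g) * x).val : ℝ) / g) := by
      intro x
      have h5 : (1 - l) * zf w x = (1 - l) * (((2 * (u : ZMod g) * x).val : ℝ) / g) := by
        rcases hl with hl | ⟨hl, -⟩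
        · rw [hl, sub_self, zero_mul, zero_mul]
        · unfold zf
          rw [hl]
      have h6 : (1 - l') * zf w' x = (1 - l') * (((2 * (u' : ZMod g) * x).val : ℝ) / g) := by
        rcases hl' with hl' | ⟨hl', -⟩
        · rw [hl', sub_self, zero_mul, zero_mul]
        · unfold zf
          rw [hl']
      rw [← h5, ← h6]
      exact h x
    rcases half_step hodd h0 h0' h1' h4 with h5 | h5
    · ext
      exact h5.symm
    rcases half_step hodd h0' h0 h1 (fun x => (h4 x).symm) with h6 | h6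
    · ext
      exact h6
    exfalso
    have h7 : (3 : ZMod g) * (u' : ZMod g) = 0 := by
      have : (4 : ZMod g) * (u' : ZMod g) = u' := by
        calc (4 : ZMod g) * (u' : ZMod g) = 2 * (2 * (u' : ZMod g)) := by ring
          _ = u' := by rw [h5, h6]
      calc (3 : ZMod g) * (u' : ZMod g) = 4 * u' - u' := by ring
        _ = 0 := by rw [this, sub_self]
    have h8 : ((3 : ℕ) : ZMod g) = 0 := by
      have := (Units.mul_left_eq_zero u').1 h7
      exact_mod_cast this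
    rw [ZMod.natCast_eq_zero_iff] at h8
    have h9 : g = 3 := ((Nat.dvd_prime Nat.prime_three).1 h8).resolve_left hg1.ne'
    exact h3 h9

/-- a proper mixture is not the function of a unit -/
lemma no_mixture [Fact (1 < g)] (hg : Odd g) {u w u' w' : (ZMod g)ˣ} {l : ℝ} (h0 : 0 < l)
    (h1 : l ≤ 1) (hw : (w : ZMod g) = 2 * u)
    (h : ∀ x, l * zf u x + (1 - l) * zf w x = 1 * zf u' x + (1 - 1) * zf w' x) : l = 1 := by
  have hg1 : 1 < g := Fact.out
  have hg2 : 2 < g := by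
    obtain ⟨c, hc⟩ := hg
    omega
  have hgR : (0 : ℝ) < g := by exact_mod_cast NeZero.pos g
  have h2 := h ((u⁻¹ : (ZMod g)ˣ) : ZMod g)
  have h3 : zf u ((u⁻¹ : (ZMod g)ˣ) : ZMod g) = 1 / g := by
    unfold zf
    rw [Units.mul_inv, ZMod.val_one, Nat.cast_one]
  have h4 : zf w ((u⁻¹ : (ZMod g)ˣ) : ZMod g) = 2 / g := by
    unfold zf
    have h5 : (w : ZMod g) * ((u⁻¹ : (ZMod g)ˣ) : ZMod g) = ((2 : ℕ) : ZMod g) := by
      rw [hw, mul_assoc, Units.mul_inv, mul_one]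
      rfl
    rw [h5, ZMod.val_natCast, Nat.mod_eq_of_lt hg2]
    rfl
  set k : ℕ := ((u' : ZMod g) * ((u⁻¹ : (ZMod g)ˣ) : ZMod g)).val with hk
  have h5 : zf u' ((u⁻¹ : (ZMod g)ˣ) : ZMod g) = k / g := rfl
  rw [h3, h4, h5, one_mul, sub_self, zero_mul, add_zero] at h2
  have h6 : (k : ℝ) = 2 - l := by
    field_simp at h2
    linarith
  have h7 : k < 2 := by
    have : (k : ℝ) < 2 := by linarith
    exact_mod_cast this
  have h8 : 1 ≤ k := by
    have : (1 : ℝ) ≤ k := by linarith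
    exact_mod_cast this
  have h9 : k = 1 := by omega
  rw [h9] at h6
  push_cast at h6
  linarith

end unique

variable {m : ℕ} [NeZero m]

/-- **Fractional packings for several factors and several moduli.** -/
theorem frac_moduli {ι : Type} [Fintype ι] {J : ι → Type} [∀ i, Fintype (J i)]
    [DecidableEq (Σ i, J i)] (a : (Σ i, J i) → ZMod m) (ha : ∀ x, a x ≠ 0)
    (hsum : ∀ i, ∑ j, a ⟨i, j⟩ = 0) (d : ι → ℕ) (hd : ∀ i, d i ∣ m)
    (hda : ∀ x, (d x.1 : ZMod m) * a x = 0) (κ : ι → ℕ) (W : (Σ i, J i) → ℕ)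
    (hW : ∀ x, ∃ o : ℕ, 0 < o ∧ (o : ZMod m) * a x = 0 ∧ W x * o ≤ d x.1)
    (hN : ∀ i, d i * κ i < ∑ j, max 2 (W ⟨i, j⟩))
    (h3 : ∀ i, Even (d i) ∨ ¬ 3 ∣ d i ∨ (d i + 1) * κ i < ∑ j, max 2 (W ⟨i, j⟩))
    (hq : ∀ (u : (ZMod m)ˣ) i, m * κ i ≤ ∑ j, ((u : ZMod m) * a ⟨i, j⟩).val) :
    (∃ u : (ZMod m)ˣ, ∀ i, ∑ j, ((u : ZMod m) * a ⟨i, j⟩).val = m * κ i) ∨
      ∃ D, 0 < D ∧ Splits (fun w : (Σ i, J i) × Fin D => a w.1) Finset.univ
        (D * ∑ i, κ i + 1) := by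
  classical
  by_contra hcon
  push Not at hcon
  obtain ⟨hnu, hns⟩ := hcon
  have hm0 : 0 < m := NeZero.pos m
  have hdne : ∀ i, NeZero (d i) := fun i => ⟨(Nat.pos_of_dvd_of_pos (hd i) hm0).ne'⟩
  obtain ⟨y, hy, hyS⟩ := exists_isMin a (by
    rw [Fintype.sum_sigma]
    exact Finset.sum_eq_zero fun i _ => hsum i) (∑ i, κ i) hns
  choose b hb using fun (i : ι) (j : J i) => exists_inc (hd i) (hda ⟨i, j⟩)
  have hval : ∀ (u : (ZMod m)ˣ) i, ∑ j, ((u : ZMod m) * a ⟨i, j⟩).val =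
      m / d i * ∑ j, (((ZMod.unitsMap (hd i) u : (ZMod (d i))ˣ) : ZMod (d i)) * b i j).val := by
    intro u i
    rw [Finset.mul_sum]
    apply Finset.sum_congr rfl
    intro j _
    rw [← hb i j, inc_units (hd i), inc_val (hd i)]
  have hdm : ∀ i, 0 < m / d i := fun i =>
    Nat.div_pos (Nat.le_of_dvd hm0 (hd i)) (NeZero.pos (d i))
  have hE : ∀ i, Ext (b i) (κ i) (fun j => W ⟨i, j⟩) := by
    intro i
    refine ⟨fun j h0 => ha ⟨i, j⟩ ?_, fun j => ?_, hN i, fun v => ?_⟩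
    · rw [← hb i j, h0, inc_zero]
    · obtain ⟨o, ho, ho1, ho2⟩ := hW ⟨i, j⟩
      refine ⟨o, ho, inc_eq_zero (hd i) ?_, ho2⟩
      rw [inc_natCast_mul (hd i), hb i j, ho1]
    · obtain ⟨u, hu⟩ := ZMod.unitsMap_surjective (hd i) v
      have h1 := hq u i
      rw [hval u i, hu] at h1
      apply Nat.le_of_mul_le_mul_left _ (hdm i)
      rw [← mul_assoc, Nat.div_mul_cancel (hd i)]
      exact h1
  have hmin : ∀ i, IsMin (fun x => y (inc (d i) m x)) := fun i => hy.inc (hd i)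
  have hge : ∀ i, (κ i : ℝ) ≤ sv (b i) (fun x => y (inc (d i) m x)) := fun i =>
    (hE i).sv_ge (hmin i)
  have hsv : sv a y = ∑ i, sv (b i) (fun x => y (inc (d i) m x)) := by
    unfold sv
    rw [Fintype.sum_sigma]
    apply Finset.sum_congr rfl
    intro i _
    apply Finset.sum_congr rfl
    intro j _
    exact congrArg y (hb i j).symm
  have heq : ∀ i, sv (b i) (fun x => y (inc (d i) m x)) = κ i := by
    have h1 : ∑ i, (κ i : ℝ) = ∑ i, sv (b i) (fun x => y (inc (d i) m x)) := by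
      apply le_antisymm (Finset.sum_le_sum fun i _ => hge i)
      rw [← hsv]
      push_cast at hyS
      exact hyS
    intro i
    exact ((Finset.sum_eq_sum_iff_of_le fun i _ => hge i).1 h1 i (Finset.mem_univ i)).symm
  choose u w l hl0 hl1 hu _ hform hcase using fun i => (hE i).structure (hmin i) (heq i)
  -- pairwise congruences
  have hpair : ∀ i i', ((u i : ZMod (d i)).val) ≡ ((u i' : ZMod (d i')).val)
      [MOD Nat.gcd (d i) (d i')] := by
    intro i i'
    have hg0 : 0 < Nat.gcd (d i) (d i') := Nat.gcd_pos_of_pos_left _ (NeZero.pos (d i))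
    have : NeZero (Nat.gcd (d i) (d i')) := ⟨hg0.ne'⟩
    have hg1 : Nat.gcd (d i) (d i') ∣ d i := Nat.gcd_dvd_left _ _
    have hg2 : Nat.gcd (d i) (d i') ∣ d i' := Nat.gcd_dvd_right _ _
    have hside : ∀ i₀ (hg : Nat.gcd (d i) (d i') ∣ d i₀), l i₀ = 1 ∨
        (((ZMod.unitsMap hg (w i₀) : (ZMod (Nat.gcd (d i) (d i')))ˣ) :
          ZMod (Nat.gcd (d i) (d i'))) = 2 * (ZMod.unitsMap hg (u i₀) :
          (ZMod (Nat.gcd (d i) (d i')))ˣ) ∧ Odd (Nat.gcd (d i) (d i')) ∧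
          Nat.gcd (d i) (d i') ≠ 3) := by
      intro i₀ hg
      rcases hcase i₀ with h1 | ⟨h1, h2, h4⟩
      · exact Or.inl h1
      · right
        refine ⟨?_, ?_, ?_⟩
        · rw [ZMod.unitsMap_val, ZMod.unitsMap_val, h1]
          have h5 := map_mul (ZMod.castHom hg (ZMod (Nat.gcd (d i) (d i')))) 2 (u i₀ : ZMod (d i₀))
          rw [map_ofNat] at h5
          simpa using h5
        · exact Odd.of_dvd_nat h2 hg
        · intro h5
          rcases h3 i₀ with h6 | h6 | h6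
          · exact (Nat.not_even_iff_odd.2 h2) h6
          · exact h6 (h5 ▸ hg)
          · exact absurd h4 (not_le.2 h6)
    have h1 := unique_unit (hl0 i) (hl1 i) (hl0 i') (hl1 i')
      (u := ZMod.unitsMap hg1 (u i)) (w := ZMod.unitsMap hg1 (w i))
      (u' := ZMod.unitsMap hg2 (u i')) (w' := ZMod.unitsMap hg2 (w i')) (fun x => by
        rw [← zf_inc hg1, ← zf_inc hg1, ← zf_inc hg2, ← zf_inc hg2, ← hform i, ← hform i',
          inc_inc (hd i) hg1, inc_inc (hd i') hg2]) (hside i hg1) (hside i' hg2)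
    have h2 := congrArg (fun v : (ZMod (Nat.gcd (d i) (d i')))ˣ =>
      (v : ZMod (Nat.gcd (d i) (d i')))) h1
    simp only [ZMod.unitsMap_val] at h2
    rw [ZMod.cast_eq_val, ZMod.cast_eq_val, ZMod.natCast_eq_natCast_iff] at h2
    exact h2
  obtain ⟨t, ht⟩ := Pool.Agent.WBP.exists_crt Finset.univ d
    (fun i => (u i : ZMod (d i)).val) (fun i _ i' _ => hpair i i')
  have hcop : ∀ A : Finset ι, Nat.Coprime t (A.lcm d) := by
    intro A
    induction A using Finset.induction_on with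
    | empty => simp
    | insert i A _ ih =>
      rw [Finset.lcm_insert]
      apply Nat.Coprime.coprime_dvd_right (Nat.lcm_dvd_mul _ _)
      apply Nat.Coprime.mul_right _ ih
      have h1 := ht i (Finset.mem_univ i)
      have h2 : Nat.Coprime ((u i : ZMod (d i)).val) (d i) := ZMod.val_coe_unit_coprime (u i)
      unfold Nat.Coprime at h2 ⊢
      rw [← h2]
      exact h1.gcd_eq
  obtain ⟨s, hs1, hs2⟩ := Pool.Agent.WBP.exists_coprime_lift hm0
    (Finset.lcm_dvd fun i _ => hd i : Finset.univ.lcm d ∣ m) (hcop Finset.univ)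
  obtain ⟨i, hi⟩ := hnu (ZMod.unitOfCoprime s hs1)
  apply hi
  have h1 : ZMod.unitsMap (hd i) (ZMod.unitOfCoprime s hs1) = u i := by
    ext
    rw [ZMod.unitsMap_val, ZMod.coe_unitOfCoprime]
    have h2 : s ≡ (u i : ZMod (d i)).val [MOD d i] :=
      (hs2.of_dvd (Finset.dvd_lcm (Finset.mem_univ i))).trans (ht i (Finset.mem_univ i))
    rw [← ZMod.natCast_eq_natCast_iff] at h2
    rw [ZMod.cast_natCast (hd i), h2]
    simp
  rw [hval, h1, (Ext.sv_zf_eq (u i)).1 (hu i), ← mul_assoc, Nat.div_mul_cancel (hd i)]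

end Pool.Agent.MPC
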