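import Pool.Agent.MPC.Frac3

/-!
# Minimal functions on cyclic groups

The functions `y` on `ZMod m` which are subadditive and satisfy `y x + y (-x) = 1` for `x ≠ 0`. Such a
function with `m * y v < 2` for a unit `v` can be moved away from the function `zf v⁻¹`.
-/

open Finset Filter Topology

namespace Pool.Agent.MPC

open Pool.Agent.SavChen

variable {m : ℕ} [NeZero m]

/-- symmetric subadditive functions -/
structure IsMin (y : ZMod m → ℝ) : Prop where
  zero : y 0 = 0
  nonneg : ∀ x, 0 ≤ y x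
  symm : ∀ x, x ≠ 0 → y x + y (-x) = 1
  sub : ∀ a b, y (a + b) ≤ y a + y b

omit [NeZero m] in
lemma IsMin.sum_le {y : ZMod m → ℝ} (hy : IsMin y) (T : Multiset (ZMod m)) :
    y T.sum ≤ ev y T := by
  induction T using Multiset.induction_on with
  | empty => simp [ev, hy.zero]
  | cons x T ih =>
    rw [Multiset.sum_cons]
    have h1 : ev y (x ::ₘ T) = y x + ev y T := by simp [ev]
    rw [h1]
    have := hy.sub x T.sum
    linarith

omit [NeZero m] in
lemma IsMin.nat_mul_le {y : ZMod m → ℝ} (hy : IsMin y) (n : ℕ) (x : ZMod m) :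
    y (n * x) ≤ n * y x := by
  induction n with
  | zero => simp [hy.zero]
  | succ n ih =>
    have h1 := hy.sub (n * x) x
    have h2 : ((n + 1 : ℕ) : ZMod m) * x = n * x + x := by
      push_cast
      ring
    rw [h2]
    push_cast
    linarith

lemma IsMin.feas {y : ZMod m → ℝ} (hy : IsMin y) : Feas y := by
  refine ⟨hy.nonneg, fun T hT => ?_⟩
  obtain ⟨-, hT0, hTs, hTz⟩ := mem_fam.1 hT
  obtain ⟨x, hx⟩ := Multiset.exists_mem_of_ne_zero hT0
  obtain ⟨V, hV⟩ := Multiset.exists_cons_of_mem hx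
  have hx0 : x ≠ 0 := by
    rintro rfl
    exact hTz hx
  have h1 : V.sum = -x := by
    rw [hV, Multiset.sum_cons] at hTs
    exact (neg_eq_of_add_eq_zero_right hTs).symm
  have h2 := hy.sum_le V
  rw [h1] at h2
  have h3 : ev y T = y x + ev y V := by
    rw [hV]
    simp [ev]
  have h4 := hy.symm x hx0
  rw [h3]
  linarith

omit [NeZero m] in
lemma IsMin.le_one {y : ZMod m → ℝ} (hy : IsMin y) (x : ZMod m) : y x ≤ 1 := by
  by_cases hx : x = 0
  · rw [hx, hy.zero]
    exact zero_le_one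
  · have h1 := hy.symm x hx
    have h2 := hy.nonneg (-x)
    linarith

lemma IsMin.le_val {y : ZMod m → ℝ} (hy : IsMin y) (u : (ZMod m)ˣ) (x : ZMod m) :
    y x ≤ ((u : ZMod m) * x).val * y ((u⁻¹ : (ZMod m)ˣ) : ZMod m) := by
  have h1 := hy.nat_mul_le ((u : ZMod m) * x).val ((u⁻¹ : (ZMod m)ˣ) : ZMod m)
  have h2 : ((((u : ZMod m) * x).val : ℕ) : ZMod m) * ((u⁻¹ : (ZMod m)ˣ) : ZMod m) = x := by
    rw [ZMod.natCast_val, ZMod.cast_id', id_eq, mul_comm, ← mul_assoc, Units.inv_mul, one_mul]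
  rwa [h2] at h1

lemma zf_isMin (u : (ZMod m)ˣ) : IsMin (zf u) := by
  have hm0 : (0 : ℝ) < m := by exact_mod_cast NeZero.pos m
  refine ⟨by simp [zf], fun x => by unfold zf; positivity, fun x hx => ?_, fun a b => ?_⟩
  · unfold zf
    have h1 : (u : ZMod m) * x ≠ 0 := by
      intro h
      exact hx ((Units.mul_right_eq_zero u).1 h)
    rw [mul_neg, ZMod.neg_val, if_neg h1, Nat.cast_sub (ZMod.val_lt _).le]
    field_simp
    ring
  · unfold zf
    rw [mul_add, ← add_div]
    apply div_le_div_of_nonneg_right _ hm0.le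
    exact_mod_cast ZMod.val_add_le _ _

/-- equality in the subadditivity, at a function which is small at a unit -/
lemma IsMin.tight {y : ZMod m → ℝ} (hy : IsMin y) (u : (ZMod m)ˣ)
    (hε : (m : ℝ) * y ((u⁻¹ : (ZMod m)ˣ) : ZMod m) < 2) {a b : ZMod m}
    (hab : y (a + b) = y a + y b) : zf u (a + b) = zf u a + zf u b := by
  have hm0 : (0 : ℝ) < m := by exact_mod_cast NeZero.pos m
  by_cases ha : a = 0
  · rw [ha, zero_add, (zf_isMin u).zero, zero_add]
  by_cases hb : b = 0
  · rw [hb, add_zero, (zf_isMin u).zero, add_zero]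
  have h1 : ((u : ZMod m) * (a + b)).val = (((u : ZMod m) * a).val + ((u : ZMod m) * b).val) % m := by
    rw [mul_add, ZMod.val_add]
  have hA := ZMod.val_lt ((u : ZMod m) * a)
  have hB := ZMod.val_lt ((u : ZMod m) * b)
  rcases lt_or_ge (((u : ZMod m) * a).val + ((u : ZMod m) * b).val) m with h | h
  · rw [Nat.mod_eq_of_lt h] at h1
    unfold zf
    rw [h1, Nat.cast_add, add_div]
  · exfalso
    have h2 : ((u : ZMod m) * (a + b)).val + m = ((u : ZMod m) * a).val + ((u : ZMod m) * b).val := by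
      rw [h1, Nat.mod_eq_sub_mod h, Nat.mod_eq_of_lt (by omega)]
      omega
    have hna : (u : ZMod m) * a ≠ 0 := fun h => ha ((Units.mul_right_eq_zero u).1 h)
    have hnb : (u : ZMod m) * b ≠ 0 := fun h => hb ((Units.mul_right_eq_zero u).1 h)
    have h3 := hy.le_val u (-a)
    have h4 := hy.le_val u (-b)
    have h5 := hy.le_val u (a + b)
    rw [mul_neg, ZMod.neg_val, if_neg hna, Nat.cast_sub hA.le] at h3
    rw [mul_neg, ZMod.neg_val, if_neg hnb, Nat.cast_sub hB.le] at h4
    have h6 := hy.symm a ha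
    have h7 := hy.symm b hb
    have h8 : (((u : ZMod m) * (a + b)).val : ℝ) + m =
        ((u : ZMod m) * a).val + ((u : ZMod m) * b).val := by exact_mod_cast h2
    have h9 : ((m : ℝ) - ((u : ZMod m) * a).val) * y ((u⁻¹ : (ZMod m)ˣ) : ZMod m) +
        ((m : ℝ) - ((u : ZMod m) * b).val) * y ((u⁻¹ : (ZMod m)ˣ) : ZMod m) +
        ((u : ZMod m) * (a + b)).val * y ((u⁻¹ : (ZMod m)ˣ) : ZMod m) =
        m * y ((u⁻¹ : (ZMod m)ˣ) : ZMod m) := by
      rw [← add_mul, ← add_mul]
      congr 1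
      linarith
    linarith

/-- moving away from the function of a unit -/
lemma IsMin.perturb {y : ZMod m → ℝ} (hy : IsMin y) (u : (ZMod m)ˣ)
    (hε : (m : ℝ) * y ((u⁻¹ : (ZMod m)ˣ) : ZMod m) < 2) :
    ∃ t : ℝ, 0 < t ∧ IsMin (fun x => (1 + t) * y x - t * zf u x) := by
  have hm0 : (0 : ℝ) < m := by exact_mod_cast NeZero.pos m
  have h1 : ∀ x, ∀ᶠ t in 𝓝[>] (0 : ℝ), 0 ≤ (1 + t) * y x - t * zf u x := by
    intro x
    by_cases hx : x = 0
    · apply Eventually.of_forall
      intro t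
      rw [hx, hy.zero, (zf_isMin u).zero, mul_zero, mul_zero, sub_zero]
    · have h2 := hy.feas.pos hx
      have h3 : 0 < y x := by
        by_contra hcon
        push Not at hcon
        nlinarith
      have h4 : ContinuousAt (fun t : ℝ => (1 + t) * y x - t * zf u x) 0 := by fun_prop
      have h5 : ∀ᶠ t in 𝓝 (0 : ℝ), 0 < (1 + t) * y x - t * zf u x :=
        (continuousAt_const (y := (0 : ℝ))).eventually_lt h4 (by simpa using h3)
      exact (h5.filter_mono nhdsWithin_le_nhds).mono fun t ht => ht.le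
  have h2 : ∀ p : ZMod m × ZMod m, ∀ᶠ t in 𝓝[>] (0 : ℝ),
      (1 + t) * y (p.1 + p.2) - t * zf u (p.1 + p.2) ≤
        ((1 + t) * y p.1 - t * zf u p.1) + ((1 + t) * y p.2 - t * zf u p.2) := by
    rintro ⟨a, b⟩
    rcases (hy.sub a b).eq_or_lt with h3 | h3
    · apply Eventually.of_forall
      intro t
      have h4 := hy.tight u hε h3
      change (1 + t) * y (a + b) - t * zf u (a + b) ≤
        ((1 + t) * y a - t * zf u a) + ((1 + t) * y b - t * zf u b)
      rw [h3, h4]
      apply le_of_eq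
      ring
    · have h4 : ContinuousAt (fun t : ℝ => ((1 + t) * y a - t * zf u a) +
          ((1 + t) * y b - t * zf u b)) 0 := by fun_prop
      have h6 : ContinuousAt (fun t : ℝ => (1 + t) * y (a + b) - t * zf u (a + b)) 0 := by fun_prop
      have h5 : ∀ᶠ t in 𝓝 (0 : ℝ), (1 + t) * y (a + b) - t * zf u (a + b) <
          ((1 + t) * y a - t * zf u a) + ((1 + t) * y b - t * zf u b) :=
        h6.eventually_lt h4 (by simpa using h3)
      exact (h5.filter_mono nhdsWithin_le_nhds).mono fun t ht => ht.le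
  obtain ⟨t, ⟨h3, h4⟩, ht⟩ := (((eventually_all.2 h1).and (eventually_all.2 h2)).and
    self_mem_nhdsWithin).exists
  refine ⟨t, ht, by simp [hy.zero, (zf_isMin u).zero], h3, fun x hx => ?_, fun a b => h4 (a, b)⟩
  have h5 := hy.symm x hx
  have h6 := (zf_isMin u).symm x hx
  have h7 : (1 + t) * y x - t * zf u x + ((1 + t) * y (-x) - t * zf u (-x)) =
      (1 + t) * (y x + y (-x)) - t * (zf u x + zf u (-x)) := by ring
  rw [h7, h5, h6]
  ring

omit [NeZero m] in
lemma isMin_closed : IsClosed {y : ZMod m → ℝ | IsMin y} := by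
  have h1 : {y : ZMod m → ℝ | IsMin y} = {y : ZMod m → ℝ | y 0 = 0} ∩ (⋂ x, {y | 0 ≤ y x}) ∩
      (⋂ x, ⋂ (_ : x ≠ 0), {y : ZMod m → ℝ | y x + y (-x) = 1}) ∩
      (⋂ a, ⋂ b, {y : ZMod m → ℝ | y (a + b) ≤ y a + y b}) := by
    ext y
    simp only [Set.mem_ofPred_eq, Set.mem_inter_iff, Set.mem_iInter]
    constructor
    · intro h
      exact ⟨⟨⟨h.zero, h.nonneg⟩, h.symm⟩, h.sub⟩
    · rintro ⟨⟨⟨h1, h2⟩, h3⟩, h4⟩
      exact ⟨h1, h2, h3, h4⟩
  rw [h1]
  refine IsClosed.inter (IsClosed.inter (IsClosed.inter ?_ ?_) ?_) ?_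
  · exact isClosed_eq (continuous_apply 0) continuous_const
  · exact isClosed_iInter fun x => isClosed_le continuous_const (continuous_apply x)
  · exact isClosed_iInter fun x => isClosed_iInter fun _ =>
      isClosed_eq (by fun_prop) continuous_const
  · exact isClosed_iInter fun a => isClosed_iInter fun b => isClosed_le (by fun_prop) (by fun_prop)

lemma isMin_compact : IsCompact {y : ZMod m → ℝ | IsMin y} := by
  have hsub : {y : ZMod m → ℝ | IsMin y} ⊆ Set.Icc 0 1 := fun y hy =>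
    ⟨fun x => hy.nonneg x, fun x => hy.le_one x⟩
  exact isCompact_Icc.of_isClosed_subset isMin_closed hsub

end Pool.Agent.MPC
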