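import Pool.Agent.MPC.FracQ

/-!
# The optimal minimal functions of a sequence

For a sequence `a` of nonzero elements of `ZMod m` with `m * κ < ∑ j, max 2 (W j)` and all sums
`∑ j, (u * a j).val` at least `m * κ`, the minimal functions with sum `κ` are `zf u`, or
`l * zf u + (1 - l) * zf (2 * u)`.
-/

open Finset Filter Topology

namespace Pool.Agent.MPC

open Pool.Agent.SavChen

variable {m : ℕ} [NeZero m]

omit [NeZero m] in
lemma IsMin.conv {y z : ZMod m → ℝ} (hy : IsMin y) (hz : IsMin z) {l : ℝ} (h0 : 0 ≤ l)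
    (h1 : l ≤ 1) : IsMin (fun x => l * y x + (1 - l) * z x) := by
  have h2 : 0 ≤ 1 - l := by linarith
  refine ⟨by simp [hy.zero, hz.zero], fun x => ?_, fun x hx => ?_, fun a b => ?_⟩
  · exact add_nonneg (mul_nonneg h0 (hy.nonneg x)) (mul_nonneg h2 (hz.nonneg x))
  · have h3 := hy.symm x hx
    have h4 := hz.symm x hx
    have h5 : l * y x + (1 - l) * z x + (l * y (-x) + (1 - l) * z (-x)) =
        l * (y x + y (-x)) + (1 - l) * (z x + z (-x)) := by ring
    rw [h5, h3, h4]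
    ring
  · have h3 := mul_le_mul_of_nonneg_left (hy.sub a b) h0
    have h4 := mul_le_mul_of_nonneg_left (hz.sub a b) h2
    change l * y (a + b) + (1 - l) * z (a + b) ≤
      (l * y a + (1 - l) * z a) + (l * y b + (1 - l) * z b)
    nlinarith

section

variable {J : Type} [Fintype J]

/-- the sum over a sequence -/
def sv (a : J → ZMod m) (y : ZMod m → ℝ) : ℝ := ∑ j, y (a j)

omit [NeZero m] in
lemma sv_continuous (a : J → ZMod m) : Continuous (sv a) := by
  unfold sv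
  fun_prop

omit [NeZero m] in
lemma sv_aff (a : J → ZMod m) (t : ℝ) (y z : ZMod m → ℝ) :
    sv a (fun x => (1 + t) * y x - t * z x) = (1 + t) * sv a y - t * sv a z := by
  unfold sv
  rw [Finset.sum_sub_distrib, ← Finset.mul_sum, ← Finset.mul_sum]

omit [NeZero m] in
lemma sv_conv (a : J → ZMod m) (l : ℝ) (y z : ZMod m → ℝ) :
    sv a (fun x => l * y x + (1 - l) * z x) = l * sv a y + (1 - l) * sv a z := by
  unfold sv
  rw [Finset.sum_add_distrib, ← Finset.mul_sum, ← Finset.mul_sum]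

omit [NeZero m] in
lemma sv_zf (a : J → ZMod m) (u : (ZMod m)ˣ) :
    sv a (zf u) = ((∑ j, ((u : ZMod m) * a j).val : ℕ) : ℝ) / m := by
  unfold sv zf
  rw [← Finset.sum_div]
  push_cast
  rfl

/-- the hypotheses on a sequence -/
structure Ext (a : J → ZMod m) (κ : ℕ) (W : J → ℕ) : Prop where
  ne : ∀ j, a j ≠ 0
  wt : ∀ j, ∃ o : ℕ, 0 < o ∧ (o : ZMod m) * a j = 0 ∧ W j * o ≤ m
  lt : m * κ < ∑ j, max 2 (W j)
  le : ∀ u : (ZMod m)ˣ, m * κ ≤ ∑ j, ((u : ZMod m) * a j).val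

variable {a : J → ZMod m} {κ : ℕ} {W : J → ℕ}

lemma Ext.zf_ge (h : Ext a κ W) (u : (ZMod m)ˣ) : (κ : ℝ) ≤ sv a (zf u) := by
  have hm0 : (0 : ℝ) < m := by exact_mod_cast NeZero.pos m
  rw [sv_zf, le_div_iff₀ hm0, mul_comm]
  exact_mod_cast h.le u

lemma Ext.sv_zf_eq (u : (ZMod m)ˣ) :
    sv a (zf u) = κ ↔ ∑ j, ((u : ZMod m) * a j).val = m * κ := by
  have hm0 : (m : ℝ) ≠ 0 := by exact_mod_cast NeZero.ne m
  rw [sv_zf, div_eq_iff hm0, mul_comm]
  exact_mod_cast Iff.rfl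

lemma Ext.exists_small (h : Ext a κ W) {y : ZMod m → ℝ} (hy : IsMin y) (hS : sv a y ≤ κ) :
    ∃ u : (ZMod m)ˣ, (m : ℝ) * y ((u⁻¹ : (ZMod m)ˣ) : ZMod m) < 2 := by
  have hm0 : (0 : ℝ) < m := by exact_mod_cast NeZero.pos m
  have hex : ∃ j, (m : ℝ) * y (a j) < 2 := by
    by_contra hcon
    push Not at hcon
    have h4 : ((∑ j, max 2 (W j) : ℕ) : ℝ) ≤ m * sv a y := by
      unfold sv
      rw [Finset.mul_sum]
      push_cast
      apply Finset.sum_le_sum
      intro j _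
      apply max_le (hcon j)
      obtain ⟨o, ho, ho1, ho2⟩ := h.wt j
      exact hy.feas.weight (h.ne j) ho ho1 ho2
    have h5 : ((m * κ : ℕ) : ℝ) < ((∑ j, max 2 (W j) : ℕ) : ℝ) := by exact_mod_cast h.lt
    rw [Nat.cast_mul] at h5
    nlinarith
  obtain ⟨j, hj⟩ := hex
  have hunit : IsUnit (a j) := by
    by_contra h6
    exact absurd (hy.feas.two_le (h.ne j) h6) (not_le.2 hj)
  obtain ⟨v, hv⟩ := hunit
  refine ⟨v⁻¹, ?_⟩
  rw [inv_inv, hv]
  exact hj

/-- the sums are at least `κ` -/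
lemma Ext.sv_ge (h : Ext a κ W) {y : ZMod m → ℝ} (hy : IsMin y) : (κ : ℝ) ≤ sv a y := by
  obtain ⟨z, hz, hmin⟩ := isMin_compact.exists_isMinOn ⟨y, hy⟩ (sv_continuous a).continuousOn
  have h1 : sv a z ≤ sv a y := hmin hy
  by_contra hcon
  push Not at hcon
  obtain ⟨u, hu⟩ := h.exists_small hz (by linarith)
  obtain ⟨t, ht, ht1⟩ := IsMin.perturb hz u hu
  have h2 : sv a z ≤ sv a (fun x => (1 + t) * z x - t * zf u x) := hmin ht1
  rw [sv_aff] at h2
  have h3 := h.zf_ge u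
  nlinarith

/-- the functionals which are nonnegative at the optimal functions of units are nonnegative at
all optimal functions -/
lemma Ext.affine_nonneg (h : Ext a κ W) (Φ : (ZMod m → ℝ) → ℝ) (hcont : Continuous Φ)
    (haff : ∀ (t : ℝ) (y z : ZMod m → ℝ),
      Φ (fun x => (1 + t) * y x - t * z x) = (1 + t) * Φ y - t * Φ z)
    (hU : ∀ u : (ZMod m)ˣ, sv a (zf u) = κ → 0 ≤ Φ (zf u)) {y : ZMod m → ℝ} (hy : IsMin y)
    (hS : sv a y = κ) : 0 ≤ Φ y := by
  have hK : IsCompact {y : ZMod m → ℝ | IsMin y ∧ sv a y = κ} :=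
    isMin_compact.inter_right (isClosed_eq (sv_continuous a) continuous_const)
  obtain ⟨z, ⟨hz, hz1⟩, hmin⟩ := hK.exists_isMinOn ⟨y, hy, hS⟩ hcont.continuousOn
  have h1 : Φ z ≤ Φ y := hmin ⟨hy, hS⟩
  by_contra hcon
  push Not at hcon
  obtain ⟨u, hu⟩ := h.exists_small hz hz1.le
  obtain ⟨t, ht, ht1⟩ := IsMin.perturb hz u hu
  have h2 := h.sv_ge ht1
  rw [sv_aff, hz1] at h2
  have h3 := h.zf_ge u
  have h4 : sv a (zf u) = κ := by nlinarith
  have h5 : Φ z ≤ Φ (fun x => (1 + t) * z x - t * zf u x) := hmin ⟨ht1, by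
    rw [sv_aff, hz1, h4]
    ring⟩
  rw [haff] at h5
  have h6 := hU u h4
  nlinarith

omit [NeZero m] in
lemma val_mul_inv_pos [Fact (1 < m)] (u v : (ZMod m)ˣ) :
    0 < ((u : ZMod m) * ((v⁻¹ : (ZMod m)ˣ) : ZMod m)).val := by
  have h1 : (u : ZMod m) * ((v⁻¹ : (ZMod m)ˣ) : ZMod m) ≠ 0 := by
    rw [← Units.val_mul]
    exact Units.ne_zero _
  exact ZMod.val_pos.2 h1

/-- two optimal units -/
lemma Ext.pair (h : Ext a κ W) {u w : (ZMod m)ˣ} (hu : sv a (zf u) = κ) (hw : sv a (zf w) = κ)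
    (huw : u ≠ w) : (w : ZMod m) = 2 * u ∨ (u : ZMod m) = 2 * w := by
  have hm0 : (0 : ℝ) < m := by exact_mod_cast NeZero.pos m
  have hm1 : 1 < m := by
    rcases Nat.lt_or_ge 1 m with h | h
    · exact h
    · exfalso
      have : m = 1 := le_antisymm h (NeZero.pos m)
      subst this
      exact huw (Subsingleton.elim _ _)
  have : Fact (1 < m) := ⟨hm1⟩
  obtain ⟨v, hv⟩ := h.exists_small ((zf_isMin u).conv (zf_isMin w) (l := 1 / 2) (by norm_num)
    (by norm_num)) (by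
      rw [sv_conv, hu, hw]
      apply le_of_eq
      ring)
  have h1 : (m : ℝ) * (1 / 2 * zf u ((v⁻¹ : (ZMod m)ˣ) : ZMod m) +
      (1 - 1 / 2) * zf w ((v⁻¹ : (ZMod m)ˣ) : ZMod m)) =
      (((u : ZMod m) * ((v⁻¹ : (ZMod m)ˣ) : ZMod m)).val +
        ((w : ZMod m) * ((v⁻¹ : (ZMod m)ˣ) : ZMod m)).val : ℝ) / 2 := by
    unfold zf
    field_simp
    ring
  rw [h1] at hv
  have h2 : ((u : ZMod m) * ((v⁻¹ : (ZMod m)ˣ) : ZMod m)).val +
      ((w : ZMod m) * ((v⁻¹ : (ZMod m)ˣ) : ZMod m)).val < 4 := by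
    have h3 : (((u : ZMod m) * ((v⁻¹ : (ZMod m)ˣ) : ZMod m)).val +
        ((w : ZMod m) * ((v⁻¹ : (ZMod m)ˣ) : ZMod m)).val : ℝ) < 4 := by linarith
    exact_mod_cast h3
  have h3 := val_mul_inv_pos u v
  have h4 := val_mul_inv_pos w v
  have hval : ∀ (z : (ZMod m)ˣ) (n : ℕ), ((z : ZMod m) * ((v⁻¹ : (ZMod m)ˣ) : ZMod m)).val = n →
      (z : ZMod m) = n * v := by
    intro z n hn
    rw [← hn, ZMod.natCast_val, ZMod.cast_id', id_eq, mul_assoc, Units.inv_mul, mul_one]
  have hne : ((u : ZMod m) * ((v⁻¹ : (ZMod m)ˣ) : ZMod m)).val ≠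
      ((w : ZMod m) * ((v⁻¹ : (ZMod m)ˣ) : ZMod m)).val := by
    intro h5
    apply huw
    ext
    exact (hval u _ h5).trans (hval w _ rfl).symm
  have h5 : (((u : ZMod m) * ((v⁻¹ : (ZMod m)ˣ) : ZMod m)).val = 1 ∧
      ((w : ZMod m) * ((v⁻¹ : (ZMod m)ˣ) : ZMod m)).val = 2) ∨
      (((u : ZMod m) * ((v⁻¹ : (ZMod m)ˣ) : ZMod m)).val = 2 ∧
      ((w : ZMod m) * ((v⁻¹ : (ZMod m)ˣ) : ZMod m)).val = 1) := by omega
  rcases h5 with ⟨h6, h7⟩ | ⟨h6, h7⟩
  · left
    rw [hval w 2 h7, hval u 1 h6]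
    push_cast
    ring
  · right
    rw [hval w 1 h7, hval u 2 h6]
    push_cast
    ring

/-- there are at most two optimal units -/
lemma Ext.triple (h : Ext a κ W) {u w z : (ZMod m)ˣ} (hu : sv a (zf u) = κ)
    (hw : sv a (zf w) = κ) (hz : sv a (zf z) = κ) (huw : u ≠ w) : z = u ∨ z = w := by
  have hm0 : (0 : ℝ) < m := by exact_mod_cast NeZero.pos m
  have hm1 : 1 < m := by
    rcases Nat.lt_or_ge 1 m with h | h
    · exact h
    · exfalso
      have : m = 1 := le_antisymm h (NeZero.pos m)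
      subst this
      exact huw (Subsingleton.elim _ _)
  have : Fact (1 < m) := ⟨hm1⟩
  obtain ⟨v, hv⟩ := h.exists_small (((zf_isMin u).conv (zf_isMin w) (l := 1 / 2) (by norm_num)
    (by norm_num)).conv (zf_isMin z) (l := 2 / 3) (by norm_num) (by norm_num)) (by
      rw [sv_conv, sv_conv, hu, hw, hz]
      apply le_of_eq
      ring)
  have h1 : (m : ℝ) * (2 / 3 * (1 / 2 * zf u ((v⁻¹ : (ZMod m)ˣ) : ZMod m) +
      (1 - 1 / 2) * zf w ((v⁻¹ : (ZMod m)ˣ) : ZMod m)) +
      (1 - 2 / 3) * zf z ((v⁻¹ : (ZMod m)ˣ) : ZMod m)) =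
      (((u : ZMod m) * ((v⁻¹ : (ZMod m)ˣ) : ZMod m)).val +
        ((w : ZMod m) * ((v⁻¹ : (ZMod m)ˣ) : ZMod m)).val +
        ((z : ZMod m) * ((v⁻¹ : (ZMod m)ˣ) : ZMod m)).val : ℝ) / 3 := by
    unfold zf
    field_simp
    ring
  rw [h1] at hv
  have h2 : ((u : ZMod m) * ((v⁻¹ : (ZMod m)ˣ) : ZMod m)).val +
      ((w : ZMod m) * ((v⁻¹ : (ZMod m)ˣ) : ZMod m)).val +
      ((z : ZMod m) * ((v⁻¹ : (ZMod m)ˣ) : ZMod m)).val < 6 := by
    have h3 : (((u : ZMod m) * ((v⁻¹ : (ZMod m)ˣ) : ZMod m)).val +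
        ((w : ZMod m) * ((v⁻¹ : (ZMod m)ˣ) : ZMod m)).val +
        ((z : ZMod m) * ((v⁻¹ : (ZMod m)ˣ) : ZMod m)).val : ℝ) < 6 := by linarith
    exact_mod_cast h3
  have h3 := val_mul_inv_pos u v
  have h4 := val_mul_inv_pos w v
  have h5 := val_mul_inv_pos z v
  have hval : ∀ (z : (ZMod m)ˣ) (n : ℕ), ((z : ZMod m) * ((v⁻¹ : (ZMod m)ˣ) : ZMod m)).val = n →
      (z : ZMod m) = n * v := by
    intro z n hn
    rw [← hn, ZMod.natCast_val, ZMod.cast_id', id_eq, mul_assoc, Units.inv_mul, mul_one]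
  have hne : ∀ p q : (ZMod m)ˣ, p ≠ q → ((p : ZMod m) * ((v⁻¹ : (ZMod m)ˣ) : ZMod m)).val ≠
      ((q : ZMod m) * ((v⁻¹ : (ZMod m)ˣ) : ZMod m)).val := by
    intro p q hpq h5
    apply hpq
    ext
    exact (hval p _ h5).trans (hval q _ rfl).symm
  by_contra hcon
  push Not at hcon
  have h6 := hne u w huw
  have h7 := hne z u hcon.1
  have h8 := hne z w hcon.2
  omega

/-- the number of elements for two optimal units -/
lemma Ext.count (h : Ext a κ W) {u w : (ZMod m)ˣ} (hu : sv a (zf u) = κ) (hw : sv a (zf w) = κ)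
    (huw : (w : ZMod m) = 2 * u) : ∑ j, max 2 (W j) ≤ (m + 1) * κ := by
  have hm0 : 0 < m := NeZero.pos m
  have hmR : (0 : ℝ) < m := by exact_mod_cast hm0
  rw [Ext.sv_zf_eq] at hu hw
  set β : J → ℕ := fun j => if m ≤ 2 * ((u : ZMod m) * a j).val then 1 else 0 with hβ
  have h1 : ∀ j, ((w : ZMod m) * a j).val + m * β j = 2 * ((u : ZMod m) * a j).val := by
    intro j
    have h2 := ZMod.val_lt ((u : ZMod m) * a j)
    have h3 : (w : ZMod m) * a j = (u : ZMod m) * a j + (u : ZMod m) * a j := by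
      rw [huw]
      ring
    rw [h3, ZMod.val_add, hβ]
    by_cases h4 : m ≤ 2 * ((u : ZMod m) * a j).val
    · simp only [if_pos h4]
      rw [Nat.mod_eq_sub_mod (by omega), Nat.mod_eq_of_lt (by omega)]
      omega
    · simp only [if_neg h4]
      rw [Nat.mod_eq_of_lt (by omega)]
      omega
  have h2 : ∑ j, ((w : ZMod m) * a j).val + m * ∑ j, β j = 2 * ∑ j, ((u : ZMod m) * a j).val := by
    rw [Finset.mul_sum, Finset.mul_sum, ← Finset.sum_add_distrib]
    exact Finset.sum_congr rfl fun j _ => h1 j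
  rw [hu, hw] at h2
  have h3 : ∑ j, β j = κ := by
    apply Nat.eq_of_mul_eq_mul_left hm0
    linarith
  have h4 : ∀ j, max 2 (W j) ≤ ((w : ZMod m) * a j).val + β j := by
    intro j
    obtain ⟨o, ho, ho1, ho2⟩ := h.wt j
    have h5 := (zf_isMin w).feas.weight (h.ne j) ho ho1 ho2
    have h6 : (m : ℝ) * zf w (a j) = ((w : ZMod m) * a j).val := by
      unfold zf
      field_simp
    rw [h6] at h5
    have h7 : W j ≤ ((w : ZMod m) * a j).val := by exact_mod_cast h5
    have h8 : 0 < ((w : ZMod m) * a j).val := by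
      apply ZMod.val_pos.2
      intro h9
      exact h.ne j ((Units.mul_right_eq_zero w).1 h9)
    have h9 := h1 j
    have h10 : β j ≤ 1 := by
      simp only [hβ]
      split_ifs <;> omega
    rcases Nat.lt_or_ge 1 ((w : ZMod m) * a j).val with h11 | h11
    · exact (max_le h11 h7).trans (Nat.le_add_right _ _)
    · have h12 : β j ≠ 0 := by
        intro h13
        rw [h13] at h9
        omega
      apply max_le <;> omega
  calc ∑ j, max 2 (W j) ≤ ∑ j, (((w : ZMod m) * a j).val + β j) := Finset.sum_le_sum fun j _ => h4 j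
    _ = m * κ + κ := by rw [Finset.sum_add_distrib, hw, h3]
    _ = (m + 1) * κ := by ring

lemma odd_of_two {u w : (ZMod m)ˣ} (huw : (w : ZMod m) = 2 * u) : Odd m := by
  have h1 : IsUnit (2 : ZMod m) := by
    have h2 : (2 : ZMod m) * (u : ZMod m) * ((w⁻¹ : (ZMod m)ˣ) : ZMod m) = 1 := by
      rw [← huw, Units.mul_inv]
    rw [mul_assoc] at h2
    exact IsUnit.of_mul_eq_one _ h2
  have h2 : IsUnit ((2 : ℕ) : ZMod m) := by exact_mod_cast h1
  rw [ZMod.isUnit_iff_coprime, Nat.coprime_two_left] at h2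
  exact h2

/-- **The optimal minimal functions.** -/
theorem Ext.structure (h : Ext a κ W) {y : ZMod m → ℝ} (hy : IsMin y) (hS : sv a y = κ) :
    ∃ (u w : (ZMod m)ˣ) (l : ℝ), 0 < l ∧ l ≤ 1 ∧ sv a (zf u) = κ ∧ sv a (zf w) = κ ∧
      (∀ x, y x = l * zf u x + (1 - l) * zf w x) ∧
      (l = 1 ∨ ((w : ZMod m) = 2 * u ∧ Odd m ∧ ∑ j, max 2 (W j) ≤ (m + 1) * κ)) := by
  have hm0 : (0 : ℝ) < m := by exact_mod_cast NeZero.pos m
  have hne : ∃ u : (ZMod m)ˣ, sv a (zf u) = κ := by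
    by_contra hcon
    push Not at hcon
    have h1 := h.affine_nonneg (fun _ => (-1 : ℝ)) continuous_const (fun t y z => by ring)
      (fun u hu => absurd hu (hcon u)) hy hS
    linarith
  obtain ⟨u₀, hu₀⟩ := hne
  by_cases h1 : ∀ u : (ZMod m)ˣ, sv a (zf u) = κ → u = u₀
  · refine ⟨u₀, u₀, 1, one_pos, le_rfl, hu₀, hu₀, fun x => ?_, Or.inl rfl⟩
    have h2 := h.affine_nonneg (fun y => y x - zf u₀ x) (by fun_prop) (fun t y z => by ring)
      (fun u hu => by rw [h1 u hu, sub_self]) hy hS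
    have h3 := h.affine_nonneg (fun y => zf u₀ x - y x) (by fun_prop) (fun t y z => by ring)
      (fun u hu => by rw [h1 u hu, sub_self]) hy hS
    linarith
  · push Not at h1
    obtain ⟨w₀, hw₀, hne⟩ := h1
    have h2 : ∃ u w : (ZMod m)ˣ, sv a (zf u) = κ ∧ sv a (zf w) = κ ∧ u ≠ w ∧
        (w : ZMod m) = 2 * u := by
      rcases h.pair hu₀ hw₀ hne.symm with h3 | h3
      · exact ⟨u₀, w₀, hu₀, hw₀, hne.symm, h3⟩
      · exact ⟨w₀, u₀, hw₀, hu₀, hne, h3⟩
    obtain ⟨u, w, hu, hw, huw, h2⟩ := h2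
    have hodd := odd_of_two h2
    have hcount := h.count hu hw h2
    have hm3 : 2 < m := by
      rcases Nat.lt_or_ge 2 m with h3 | h3
      · exact h3
      · exfalso
        have hm0' : 0 < m := NeZero.pos m
        have h4 : m = 1 := by
          obtain ⟨k, hk⟩ := hodd
          omega
        subst h4
        exact huw (Subsingleton.elim _ _)
    have : Fact (1 < m) := ⟨by omega⟩
    have hU : ∀ z : (ZMod m)ˣ, sv a (zf z) = κ → z = u ∨ z = w := fun z hz =>
      h.triple hu hw hz huw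
    -- the coefficient
    have hu1 : zf u ((u⁻¹ : (ZMod m)ˣ) : ZMod m) = 1 / m := by
      unfold zf
      rw [Units.mul_inv, ZMod.val_one, Nat.cast_one]
    have hw1 : zf w ((u⁻¹ : (ZMod m)ˣ) : ZMod m) = 2 / m := by
      unfold zf
      have h3 : (w : ZMod m) * ((u⁻¹ : (ZMod m)ˣ) : ZMod m) = ((2 : ℕ) : ZMod m) := by
        rw [h2, mul_assoc, Units.mul_inv, mul_one]
        rfl
      rw [h3, ZMod.val_natCast, Nat.mod_eq_of_lt hm3]
      rfl
    set v : ZMod m := ((u⁻¹ : (ZMod m)ˣ) : ZMod m) with hv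
    have hl0 := h.affine_nonneg (fun y => 2 - m * y v) (by fun_prop) (fun t y z => by ring)
      (fun z hz => by
        rcases hU z hz with rfl | rfl
        · rw [hu1]
          field_simp
          norm_num
        · rw [hw1]
          field_simp
          norm_num) hy hS
    have hl1 := h.affine_nonneg (fun y => m * y v - 1) (by fun_prop) (fun t y z => by ring)
      (fun z hz => by
        rcases hU z hz with rfl | rfl
        · rw [hu1]
          field_simp
          norm_num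
        · rw [hw1]
          field_simp
          norm_num) hy hS
    have hform : ∀ x, y x = (2 - m * y v) * zf u x + (1 - (2 - m * y v)) * zf w x := by
      intro x
      have h3 := h.affine_nonneg (fun y => y x - ((2 - m * y v) * zf u x +
        (1 - (2 - m * y v)) * zf w x)) (by fun_prop) (fun t y z => by ring) (fun z hz => by
          apply le_of_eq
          rcases hU z hz with rfl | rfl
          · rw [hu1]
            field_simp
            ring
          · rw [hw1]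
            field_simp
            ring) hy hS
      have h4 := h.affine_nonneg (fun y => ((2 - m * y v) * zf u x +
        (1 - (2 - m * y v)) * zf w x) - y x) (by fun_prop) (fun t y z => by ring) (fun z hz => by
          apply le_of_eq
          rcases hU z hz with rfl | rfl
          · rw [hu1]
            field_simp
            ring
          · rw [hw1]
            field_simp
            ring) hy hS
      linarith
    rcases hl0.eq_or_lt with h3 | h3
    · refine ⟨w, w, 1, one_pos, le_rfl, hw, hw, fun x => ?_, Or.inl rfl⟩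
      rw [hform x, ← h3]
      ring
    · exact ⟨u, w, 2 - m * y v, h3, by linarith, hu, hw, hform, Or.inr ⟨h2, hodd, hcount⟩⟩

end

end Pool.Agent.MPC
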