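import Pool.Agent.MPC.Act

/-!
# Substitution of a rational function into the coordinates of a rational curve
-/

open Polynomial

namespace Pool.Agent.MPC

universe u

variable {k : Type u} [Field k]

/-- `B ^ d * X (A / B)` -/
noncomputable def hmg (d : ℕ) (A B P : k[X]) : k[X] :=
  ∑ n ∈ Finset.range (d + 1), C (P.coeff n) * A ^ n * B ^ (d - n)

lemma algebraMap_C' (c : k) : algebraMap k[X] (RatFunc k) (C c) = algebraMap k (RatFunc k) c :=
  (IsScalarTower.algebraMap_apply k k[X] (RatFunc k) c).symm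

lemma algebraMap_hmg {d : ℕ} {A B P : k[X]} (hB : B ≠ 0) (hP : P.natDegree ≤ d) :
    algebraMap k[X] (RatFunc k) (hmg d A B P) = algebraMap k[X] (RatFunc k) B ^ d *
      aeval (algebraMap k[X] (RatFunc k) A / algebraMap k[X] (RatFunc k) B) P := by
  have hB' : algebraMap k[X] (RatFunc k) B ≠ 0 := by
    rw [Ne, map_eq_zero_iff _ (RatFunc.algebraMap_injective k)]
    exact hB
  rw [hmg, map_sum, aeval_eq_sum_range' (Nat.lt_succ_of_le hP), Finset.mul_sum]
  apply Finset.sum_congr rfl
  intro n hn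
  have hn' : n ≤ d := Nat.lt_succ_iff.1 (Finset.mem_range.1 hn)
  rw [map_mul, map_mul, map_pow, map_pow, algebraMap_C', Algebra.smul_def, div_pow]
  have h1 : algebraMap k[X] (RatFunc k) B ^ d =
      algebraMap k[X] (RatFunc k) B ^ (d - n) * algebraMap k[X] (RatFunc k) B ^ n := by
    rw [← pow_add, Nat.sub_add_cancel hn']
  rw [h1]
  field_simp

lemma hmg_prod {Ω : Type*} {s : Finset Ω} {d : ℕ} (hs : s.card = d) {A B : k[X]} (hB : B ≠ 0)
    (c : k) (ρ : Ω → k) : hmg d A B (C c * ∏ w ∈ s, (1 + C (ρ w) * X)) =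
      C c * ∏ w ∈ s, (B + C (ρ w) * A) := by
  have hB' : algebraMap k[X] (RatFunc k) B ≠ 0 := by
    rw [Ne, map_eq_zero_iff _ (RatFunc.algebraMap_injective k)]
    exact hB
  have hdeg : (C c * ∏ w ∈ s, (1 + C (ρ w) * X)).natDegree ≤ d := by
    refine (natDegree_C_mul_le _ _).trans ((natDegree_prod_le _ _).trans ?_)
    rw [← hs]
    refine (Finset.sum_le_card_nsmul _ _ 1 fun w _ => ?_).trans (by simp)
    compute_degree
  apply RatFunc.algebraMap_injective k
  rw [algebraMap_hmg hB hdeg, map_mul, map_mul, map_prod, map_prod, aeval_C, algebraMap_C', ← hs,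
    ← mul_assoc, mul_comm (_ ^ _), mul_assoc, ← Finset.prod_const, ← Finset.prod_mul_distrib]
  congr 1
  apply Finset.prod_congr rfl
  intro w _
  rw [map_add, map_mul, map_one, aeval_X, aeval_C, map_add, map_mul, algebraMap_C']
  field_simp

lemma natDegree_hmg_le {d m : ℕ} {A B P : k[X]} (hA : A.natDegree ≤ m) (hB : B.natDegree ≤ m) :
    (hmg d A B P).natDegree ≤ m * d := by
  refine natDegree_sum_le_of_forall_le _ _ fun n hn => ?_
  have hn' : n ≤ d := Nat.lt_succ_iff.1 (Finset.mem_range.1 hn)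
  have h1 : (A ^ n).natDegree ≤ n * m := natDegree_pow_le.trans (Nat.mul_le_mul_left _ hA)
  have h2 : (B ^ (d - n)).natDegree ≤ (d - n) * m :=
    natDegree_pow_le.trans (Nat.mul_le_mul_left _ hB)
  have h3 : (C (P.coeff n) * A ^ n * B ^ (d - n)).natDegree ≤ n * m + (d - n) * m :=
    natDegree_mul_le_of_le ((natDegree_C_mul_le _ _).trans h1) h2
  refine h3.trans ?_
  rw [← Nat.add_mul, Nat.add_sub_cancel' hn', mul_comm]

lemma eval_hmg {d : ℕ} {A B P : k[X]} (hA : A.eval 0 = 0) (hB : B.eval 0 = 1) :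
    (hmg d A B P).eval 0 = P.coeff 0 := by
  rw [hmg, eval_finsetSum, Finset.sum_eq_single 0]
  · simp [hB]
  · intro n _ hn
    simp [hA, hn]
  · simp

lemma hmg_sub (d : ℕ) (A B P Q : k[X]) : hmg d A B (P - Q) = hmg d A B P - hmg d A B Q := by
  rw [hmg, hmg, hmg, ← Finset.sum_sub_distrib]
  apply Finset.sum_congr rfl
  intro n _
  rw [coeff_sub, map_sub]
  ring

lemma hmg_C_mul (d : ℕ) (A B P : k[X]) (c : k) : hmg d A B (C c * P) = C c * hmg d A B P := by
  rw [hmg, hmg, Finset.mul_sum]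
  apply Finset.sum_congr rfl
  intro n _
  rw [coeff_C_mul, map_mul]
  ring

lemma hmg_injective [IsAlgClosed k] {d : ℕ} {A B P : k[X]} (hA0 : A.eval 0 = 0)
    (hB0 : B.eval 0 = 1) (hA : A ≠ 0) (hP : P.natDegree ≤ d) (h : hmg d A B P = 0) : P = 0 := by
  have hB : B ≠ 0 := by
    rintro rfl
    simp at hB0
  have hB' : algebraMap k[X] (RatFunc k) B ≠ 0 := by
    rw [Ne, map_eq_zero_iff _ (RatFunc.algebraMap_injective k)]
    exact hB
  have h1 := algebraMap_hmg (A := A) hB hP
  rw [h, map_zero] at h1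
  have h2 := (mul_eq_zero.1 h1.symm).resolve_left (pow_ne_zero _ hB')
  by_contra hP0
  set t := algebraMap k[X] (RatFunc k) A / algebraMap k[X] (RatFunc k) B with ht
  have halg : IsAlgebraic k t := ⟨P, hP0, h2⟩
  obtain ⟨c, hc⟩ := minpoly.mem_range_of_degree_eq_one k t
    (IsAlgClosed.degree_eq_one_of_irreducible k (minpoly.irreducible halg.isIntegral))
  have h3 : A = C c * B := by
    apply RatFunc.algebraMap_injective k
    rw [map_mul, algebraMap_C']
    have h4 : (algebraMap k (RatFunc k)) c = t := hc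
    rw [h4, ht, div_mul_cancel₀ _ hB']
  have h4 : c = 0 := by
    have := congrArg (eval 0) h3
    rw [hA0, Polynomial.eval_mul, eval_C, hB0, mul_one] at this
    exact this.symm
  rw [h4, C_0, zero_mul] at h3
  exact hA h3

lemma algebraMap_aeval {σ : Type*} (Q : σ → k[X]) (f : MvPolynomial σ k) :
    algebraMap k[X] (RatFunc k) (MvPolynomial.aeval Q f) =
      MvPolynomial.aeval (fun x => algebraMap k[X] (RatFunc k) (Q x)) f := by
  have := MvPolynomial.comp_aeval_apply (IsScalarTower.toAlgHom k k[X] (RatFunc k)) (f := Q) f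
  exact this

lemma aeval_hmg_eq_zero {r : ℕ} {J : Fin r → Type} [∀ i, Fintype (J i)]
    {f : MvPolynomial (Σ i, J i) k} {δ : Fin r → ℕ} (hf : IsMultihomogeneous f δ) {d : Fin r → ℕ}
    {A B : k[X]} (hB : B ≠ 0) {P : (Σ i, J i) → k[X]} (hP : ∀ x, (P x).natDegree ≤ d x.1)
    (h : MvPolynomial.aeval P f = 0) :
    MvPolynomial.aeval (fun x => hmg (d x.1) A B (P x)) f = 0 := by
  apply RatFunc.algebraMap_injective k
  rw [map_zero]
  have h1 := algebraMap_aeval (fun x => hmg (d x.1) A B (P x)) f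
  set t := algebraMap k[X] (RatFunc k) A / algebraMap k[X] (RatFunc k) B with ht
  have h2 : (fun x : (Σ i, J i) => algebraMap k[X] (RatFunc k) (hmg (d x.1) A B (P x))) =
      fun x => (fun i => algebraMap k[X] (RatFunc k) B ^ d i) x.1 * (aeval t) (P x) := by
    funext x
    exact algebraMap_hmg hB (hP x)
  have h3 := aeval_mul hf (fun i => algebraMap k[X] (RatFunc k) B ^ d i)
    (fun x => (aeval t) (P x))
  have h4 := MvPolynomial.comp_aeval_apply (aeval t : k[X] →ₐ[k] RatFunc k) (f := P) f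
  rw [h, map_zero] at h4
  rw [h1, h2]
  refine h3.trans ?_
  rw [← h4, mul_zero]

/-- A rational function of degree `m` which is totally ramified above two given points, and such that
none of finitely many given points lies below infinity. -/
theorem exists_template [IsAlgClosed k] {m : ℕ} (hm : 0 < m) (s : Finset k) (β : k) :
    ∃ A B M N : k[X], A.natDegree ≤ m ∧ B.natDegree ≤ m ∧ A.eval 0 = 0 ∧ B.eval 0 = 1 ∧ A ≠ 0 ∧
      B = N ^ m ∧ B + C β * A = M ^ m ∧ ∀ ρ ∈ s, (B + C ρ * A).coeff m ≠ 0 := by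
  classical
  have : Infinite k := IsAlgClosed.instInfinite
  -- the leading coefficient of `A`
  obtain ⟨w, hw⟩ := Infinite.exists_notMem_finset (insert 0 (s.image fun ρ => -ρ⁻¹))
  rw [Finset.mem_insert, Finset.mem_image, not_or] at hw
  obtain ⟨hw0, hw1⟩ := hw
  have hws : ∀ ρ ∈ s, 1 + ρ * w ≠ 0 := by
    intro ρ hρ h0
    apply hw1
    refine ⟨ρ, hρ, ?_⟩
    have hρ0 : ρ ≠ 0 := by
      rintro rfl
      simp at h0
    field_simp
    linear_combination -h0
  have hpow : ∀ v : k, ((1 + C v * X : k[X]) ^ m).natDegree ≤ m := by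
    intro v
    refine natDegree_pow_le.trans ?_
    have : (1 + C v * X : k[X]).natDegree ≤ 1 := by compute_degree
    calc m * (1 + C v * X : k[X]).natDegree ≤ m * 1 := Nat.mul_le_mul_left _ this
      _ = m := mul_one m
  have hcoeff : ∀ v : k, ((1 + C v * X : k[X]) ^ m).coeff m = v ^ m := by
    intro v
    have : (1 + C v * X : k[X]).natDegree ≤ 1 := by compute_degree
    have h1 := coeff_pow_of_natDegree_le (m := m) this
    rw [mul_one] at h1
    rw [h1]
    simp [coeff_one]
  by_cases hβ : β = 0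
  · refine ⟨C w * X ^ m, (1 + X) ^ m, 1 + X, 1 + X, ?_, ?_, ?_, ?_, ?_, rfl, ?_, ?_⟩
    · exact (natDegree_C_mul_le _ _).trans (by simp)
    · have := hpow 1
      simpa using this
    · simp [hm.ne']
    · simp
    · simp [hw0]
    · rw [hβ]
      simp
    · intro ρ hρ
      have := hcoeff 1
      rw [C_1, one_mul, one_pow] at this
      rw [coeff_add, this]
      simp only [coeff_C_mul, coeff_X_pow, if_true, mul_one]
      exact hws ρ hρ
  · obtain ⟨v, hv⟩ := IsAlgClosed.exists_pow_nat_eq (1 + β * w) hm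
    have hAc : (C β⁻¹ * ((1 + C v * X) ^ m - (1 + X : k[X]) ^ m)).coeff m = w := by
      have h1 := hcoeff 1
      rw [C_1, one_mul, one_pow] at h1
      rw [coeff_C_mul, coeff_sub, hcoeff, h1, hv]
      field_simp
      ring
    refine ⟨C β⁻¹ * ((1 + C v * X) ^ m - (1 + X) ^ m), (1 + X) ^ m, 1 + C v * X, 1 + X, ?_, ?_, ?_,
      ?_, ?_, rfl, ?_, ?_⟩
    · refine (natDegree_C_mul_le _ _).trans ?_
      have h1 := hpow 1
      rw [C_1, one_mul] at h1
      have h2 := natDegree_sub_le_of_le (hpow v) h1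
      rwa [max_self] at h2
    · have := hpow 1
      simpa using this
    · simp
    · simp
    · intro h0
      rw [h0, coeff_zero] at hAc
      exact hw0 hAc.symm
    · rw [← mul_assoc, ← C_mul, mul_inv_cancel₀ hβ, C_1, one_mul]
      ring
    · intro ρ hρ
      have := hcoeff 1
      rw [C_1, one_mul, one_pow] at this
      rw [coeff_add, this, coeff_C_mul, hAc]
      exact hws ρ hρ

end Pool.Agent.MPC
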