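import Pool.Agent.MPC.Act

/-!
# The relation given by a rational curve in the quotient
-/

open Polynomial
open scoped LinearAlgebra.Projectivization

namespace Pool.Agent.MPC

open Pool.Agent.ZCyc

universe u w

variable {k : Type u} [Field k] {r : ℕ} {J : Fin r → Type} [∀ i, Fintype (J i)]
  [∀ i, DecidableEq (J i)] {m : ℕ} [NeZero m] {L : Type} {R : Type w} [Field R] [CharZero R]

omit [∀ i, Fintype (J i)] [∀ i, DecidableEq (J i)] in
/-- a point of the product of the projective spaces with given `m`-th powers -/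
lemma exists_rep [IsAlgClosed k] {v : (Σ i, J i) → k} (hv : ∀ i, ∃ j, v ⟨i, j⟩ ≠ 0) :
    ∃ q : ∀ i, ℙ k (J i → k), ∃ e : Fin r → k, (∀ i, e i ≠ 0) ∧
      ∀ i j, v ⟨i, j⟩ = e i * (q i).rep j ^ m := by
  have h0 : ∀ i, ∃ q : ℙ k (J i → k), ∃ e : k, e ≠ 0 ∧ ∀ j, v ⟨i, j⟩ = e * q.rep j ^ m := by
    intro i
    have h1 : ∀ j, ∃ y : k, y ^ m = v ⟨i, j⟩ := fun j =>
      IsAlgClosed.exists_pow_nat_eq _ (NeZero.pos m)
    choose y hy using h1
    have hy0 : y ≠ 0 := by
      rintro rfl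
      obtain ⟨j, hj⟩ := hv i
      apply hj
      rw [← hy j]
      simp [NeZero.ne m]
    obtain ⟨a, ha, h2⟩ := DCI57.mk_rep_exists hy0
    have h3 : ∀ j, (Projectivization.mk k y hy0).rep j ^ m = a ^ m * v ⟨i, j⟩ := by
      intro j
      rw [h2 j, mul_pow, hy]
    refine ⟨Projectivization.mk k y hy0, (a ^ m)⁻¹, inv_ne_zero (pow_ne_zero _ ha), fun j => ?_⟩
    rw [h3, inv_mul_cancel_left₀ (pow_ne_zero _ ha)]
  choose q e he h using h0
  exact ⟨q, e, he, h⟩

/-- The relation between the points `p` and `q` given by a rational curve in the quotient, on the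
normalisation of whose inverse image the character is trivial. -/
theorem relation [IsAlgClosed k] [CharZero k] {ζ : kˣ} (hζ : IsPrimitiveRoot (ζ : k) m)
    {f : L → MvPolynomial (Σ i, J i) k} {δ : L → Fin r → ℕ}
    (hf : ∀ l, IsMultihomogeneous (f l) (δ l))
    {P : (Σ i, J i) → k[X]} (hP : ∀ l, MvPolynomial.aeval P (f l) = 0) {a b : k}
    {p q : ∀ i, ℙ k (J i → k)} {d e : Fin r → k} (hd : ∀ i, d i ≠ 0) (he : ∀ i, e i ≠ 0)
    (hp : ∀ x, (P x).eval a = d x.1 * (p x.1).rep x.2 ^ m)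
    (hq : ∀ x, (P x).eval b = e x.1 * (q x.1).rep x.2 ^ m)
    (ψ : AddChar ((Σ i, J i) → ZMod m) R)
    (hψ : ∀ {F : Type u} [Field F] [Algebra k F] [Algebra (RatFunc k) F]
      [IsScalarTower k (RatFunc k) F] (x : (Σ i, J i) → F),
      (∀ j, x j ^ m = algebraMap (RatFunc k) F (algebraMap k[X] (RatFunc k) (P j))) →
      ∀ (τ : F ≃ₐ[RatFunc k] F) (t : (Σ i, J i) → ZMod m),
      (∀ j, τ (x j) = algebraMap k F ((ζ ^ (t j).val : kˣ) : k) * x j) → ψ t = 1) :
    ∃ g h : (Σ i, J i) → ZMod m, op ζ ψ (Finsupp.single (act ζ g p) 1) -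
      op ζ ψ (Finsupp.single (act ζ h q) 1) ∈ ratEquiv R (Zeros m f) := by
  classical
  have hζ1 : ζ ^ m = 1 := by
    apply Units.ext
    push_cast
    exact hζ.pow_eq_one
  obtain ⟨F, _, _, _, _, _, _, x, hx⟩ := DCI57.exists_cover (NeZero.pos m) P
  -- the morphism
  have hX0 : ∀ i, ∃ j, x ⟨i, j⟩ ≠ 0 := by
    intro i
    have h1 : ∃ j, (p i).rep j ≠ 0 := by
      by_contra hcon
      push Not at hcon
      exact (p i).rep_nonzero (funext hcon)
    obtain ⟨j, hj⟩ := h1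
    refine ⟨j, fun h0 => ?_⟩
    have h2 := hx ⟨i, j⟩
    rw [h0, zero_pow (NeZero.ne m)] at h2
    have h3 : P ⟨i, j⟩ = 0 := by
      have h4 := (map_eq_zero _).1 h2.symm
      exact (map_eq_zero_iff _ (RatFunc.algebraMap_injective k)).1 h4
    have h5 := hp ⟨i, j⟩
    rw [h3, eval_zero] at h5
    exact mul_ne_zero (hd i) (pow_ne_zero _ hj) h5.symm
  have hval : ∀ v : Place k F, ∃ p : ∀ i, ℙ k (J i → k), IsValue v (fun i j => x ⟨i, j⟩) p := by
    intro v
    choose p hp using fun i => DCI57.exists_value v (hX0 i)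
    exact ⟨p, hp⟩
  choose φ hφ using hval
  have hsum : ∀ l, MvPolynomial.aeval (fun a : (Σ i, J i) => x ⟨a.1, a.2⟩ ^ m) (f l) = 0 := by
    intro l
    have h1 : (fun a : (Σ i, J i) => x ⟨a.1, a.2⟩ ^ m) =
        fun j => ((IsScalarTower.toAlgHom k (RatFunc k) F).comp
          (IsScalarTower.toAlgHom k k[X] (RatFunc k))) (P j) := by
      funext j
      exact hx j
    rw [h1, ← MvPolynomial.comp_aeval_apply, hP l, map_zero]
  have hφX : ∀ v, φ v ∈ Zeros m f := fun v => (hφ v).mem_Zeros hf hsum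
  -- the points above `a` and `b`
  have htr : Transcendental k (algebraMap (RatFunc k) F RatFunc.X) := by
    rw [transcendental_algebraMap_iff (algebraMap (RatFunc k) F).injective]
    exact RatFunc.transcendental_X
  obtain ⟨v, hv⟩ := exists_place htr a
  obtain ⟨w, hw⟩ := exists_place htr b
  have hv' : v.Vanishes (algebraMap (RatFunc k) F (RatFunc.X - RatFunc.C a)) := by
    rw [DCI57.algebraMap_sub_C]
    exact hv
  have hw' : w.Vanishes (algebraMap (RatFunc k) F (RatFunc.X - RatFunc.C b)) := by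
    rw [DCI57.algebraMap_sub_C]
    exact hw
  obtain ⟨g, hg⟩ := (hφ v).eq_act hζ hd (p := p) (fun i j => by
    rw [hx ⟨i, j⟩, ← hp ⟨i, j⟩]
    exact DCI57.at_poly hv' (P ⟨i, j⟩))
  obtain ⟨h, hh⟩ := (hφ w).eq_act hζ he (p := q) (fun i j => by
    rw [hx ⟨i, j⟩, ← hq ⟨i, j⟩]
    exact DCI57.at_poly hw' (P ⟨i, j⟩))
  -- conjugate points
  have hconj : ∀ (u : Place k F) (τ : F ≃ₐ[RatFunc k] F),
      op ζ ψ (Finsupp.single (φ (u.map (τ.restrictScalars k))) 1) =
        op ζ ψ (Finsupp.single (φ u) 1) := by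
    intro u τ
    obtain ⟨t, ht⟩ := DCI57.exists_twist hζ (x := x) (τ := τ.symm) (fun j => by
      rw [← map_pow, hx j, AlgEquiv.commutes])
    have h1 := (hφ u).map (τ.restrictScalars k) (g := t) (fun i j => ht ⟨i, j⟩)
    rw [(hφ _).unique h1, ← op_act hζ1 ψ t (φ u), hψ x hx τ.symm t ht, one_smul]
  have hgen := op_mem (ζ := ζ) ψ (X := Zeros m f) (fun g p hp => act_mem hf hζ1 hp g)
    (gen_mem (R := R) hφ hφX hv' hw')
  rw [map_sum] at hgen
  have h1 : ∀ τ : F ≃ₐ[RatFunc k] F,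
      op ζ ψ (Finsupp.single (φ (v.map (τ.restrictScalars k))) 1 -
        Finsupp.single (φ (w.map (τ.restrictScalars k))) 1) =
      op ζ ψ (Finsupp.single (φ v) 1) - op ζ ψ (Finsupp.single (φ w) 1) := by
    intro τ
    rw [map_sub, hconj, hconj]
  rw [Finset.sum_congr rfl fun τ _ => h1 τ, Finset.sum_const, ← Nat.cast_smul_eq_nsmul R] at hgen
  have hcard : (((Finset.univ : Finset (F ≃ₐ[RatFunc k] F)).card : ℕ) : R) ≠ 0 := by
    rw [Nat.cast_ne_zero, Finset.card_ne_zero]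
    exact ⟨1, Finset.mem_univ _⟩
  refine ⟨g, h, ?_⟩
  rw [← hg, ← hh]
  exact (Submodule.smul_mem_iff _ hcard).1 hgen

end Pool.Agent.MPC
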