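import Pool.Agent.MPC.Fiber

/-!
# Coverings of curves: images of points, lifting of morphisms
-/

open Polynomial
open scoped LinearAlgebra.Projectivization

namespace Pool.Agent.MPC

open Pool.Agent.ZCyc

universe u w

section

variable {k F F' : Type*} [Field k] [Field F] [Field F'] [Algebra k F] [Algebra k F']
  [Algebra F F'] [IsScalarTower k F F'] [Algebra.IsAlgebraic F F']

/-- the image of a point under a covering of curves -/
def res (v : Place k F') : Place k F where
  ring := v.ring.comap (algebraMap F F')
  const_mem := by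
    intro c
    rw [ValuationSubring.mem_comap, ← IsScalarTower.algebraMap_apply]
    exact v.const_mem c
  ne_top := by
    intro h
    apply v.ne_top
    rw [eq_top_iff]
    intro z _
    have hK : ∀ c : F, algebraMap F F' c ∈ v.ring := by
      intro c
      have : c ∈ v.ring.comap (algebraMap F F') := by
        rw [h]
        exact ValuationSubring.mem_top c
      exact this
    have h1 : IsIntegral F z := (Algebra.IsAlgebraic.isAlgebraic z).isIntegral
    obtain ⟨p, hp, hpz⟩ := h1
    let g : F →+* v.ring := (algebraMap F F').codRestrict v.ring.toSubring hK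
    have h2 : IsIntegral v.ring z := by
      refine ⟨p.map g, hp.map g, ?_⟩
      rw [eval₂_map]
      exact hpz
    obtain ⟨y, hy⟩ := IsIntegrallyClosed.isIntegral_iff.1 h2
    rw [← hy]
    exact y.2

lemma mem_res (v : Place k F') (x : F) :
    x ∈ (res v : Place k F).ring ↔ algebraMap F F' x ∈ v.ring := ValuationSubring.mem_comap

lemma vanishes_res (v : Place k F') (x : F) :
    (res v : Place k F).Vanishes x ↔ v.Vanishes (algebraMap F F' x) := by
  rw [Place.vanishes_iff_or, Place.vanishes_iff_or, mem_res, map_inv₀]
  simp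

/-- coverings of curves are surjective -/
lemma exists_res (v : Place k F) : ∃ v' : Place k F', res v' = v := by
  obtain ⟨B, h, hloc⟩ := IsLocalRing.exists_factor_valuationRing
    ((algebraMap F F').comp v.ring.subtype)
  have h1 : ∀ x : F, x ∈ v.ring → algebraMap F F' x ∈ B := fun x hx => h ⟨x, hx⟩
  have h2 : ∀ x : F, algebraMap F F' x ∈ B → x ∈ v.ring := by
    intro x hx
    by_contra hcon
    have hx0 : x ≠ 0 := by
      rintro rfl
      exact hcon (zero_mem _)
    have hinv : x⁻¹ ∈ v.ring := (v.ring.mem_or_inv_mem x).resolve_left hcon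
    have hmul : algebraMap F F' x * algebraMap F F' x⁻¹ = 1 := by
      rw [← map_mul, mul_inv_cancel₀ hx0, map_one]
    have hu : IsUnit (((algebraMap F F').comp v.ring.subtype).codRestrict B.toSubring h
        ⟨x⁻¹, hinv⟩) := by
      refine IsUnit.of_mul_eq_one ⟨algebraMap F F' x, hx⟩ ?_
      apply Subtype.ext
      change algebraMap F F' x⁻¹ * algebraMap F F' x = 1
      rw [mul_comm, hmul]
    have h3 := hloc.map_nonunit _ hu
    obtain ⟨w, hw⟩ := h3.exists_right_inv
    have h4 : x⁻¹ * (w : F) = 1 := congrArg Subtype.val hw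
    apply hcon
    have h5 : (w : F) = x := by
      have h6 := congrArg (fun z => x * z) h4
      simp only [← mul_assoc, mul_inv_cancel₀ hx0, one_mul, mul_one] at h6
      exact h6
    rw [← h5]
    exact w.2
  refine ⟨⟨B, fun c => ?_, fun htop => ?_⟩, ?_⟩
  · rw [IsScalarTower.algebraMap_apply k F F']
    exact h1 _ (v.const_mem c)
  · apply v.ne_top
    rw [eq_top_iff]
    intro x _
    apply h2
    rw [htop]
    exact ValuationSubring.mem_top _
  · apply Place.ext
    ext x
    rw [mem_res]
    exact ⟨h2 x, h1 x⟩

/-- values of morphisms -/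
lemma isValue_res {J : Type} {v : Place k F'} {x : J → F} {p : ℙ k (J → k)} :
    DCI57.IsValue (res v) x p → DCI57.IsValue v (fun j => algebraMap F F' (x j)) p := by
  rintro ⟨g, hg⟩
  refine ⟨algebraMap F F' g, fun j => ?_⟩
  have h1 := (vanishes_res v _).1 (hg j)
  rwa [map_sub, map_mul, ← IsScalarTower.algebraMap_apply] at h1

/-- images of conjugate points -/
lemma res_map {v : Place k F'} (e' : F' ≃ₐ[k] F') (e : F ≃ₐ[k] F)
    (h : ∀ x, algebraMap F F' (e x) = e' (algebraMap F F' x)) :
    res (v.map e') = (res v : Place k F).map e := by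
  apply Place.ext
  ext x
  rw [mem_res, Place.mem_map, Place.mem_map, mem_res]
  have h1 : e'.symm (algebraMap F F' x) = algebraMap F F' (e.symm x) := by
    rw [AlgEquiv.symm_apply_eq, ← h, AlgEquiv.apply_symm_apply]
  rw [h1]

end

variable {k : Type u} [Field k] {r : ℕ} {J : Fin r → Type} [∀ i, Fintype (J i)] {m : ℕ} {L : Type}
  [Fintype L]

/-- After a covering of the curve, a morphism to the product of the projective spaces can be changed
in the `i`-th component such that the equations which depend on the variables of the `i`-th group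
hold. -/
theorem exists_lift [IsAlgClosed k] [CharZero k] (hm : 0 < m)
    {f : L → MvPolynomial (Σ i, J i) k} {δ : L → Fin r → ℕ}
    (hf : ∀ l, IsMultihomogeneous (f l) (δ l)) (i : Fin r)
    (hcard : ∑ l, δ l i < Fintype.card (J i)) {F : Type u} [Field F] [Algebra k F]
    [Algebra (RatFunc k) F] [IsScalarTower k (RatFunc k) F] [FiniteDimensional (RatFunc k) F]
    (x : ∀ i, J i → F) :
    ∃ (F' : Type u) (_ : Field F') (_ : Algebra k F')
    (_ : Algebra (RatFunc k) F') (_ : IsScalarTower k (RatFunc k) F')
    (_ : FiniteDimensional (RatFunc k) F') (_ : IsGalois (RatFunc k) F') (_ : Algebra F F')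
    (_ : IsScalarTower (RatFunc k) F F') (_ : IsScalarTower k F F') (y : J i → F'),
    (∃ j, y j ≠ 0) ∧
    ∀ l, δ l i ≠ 0 → MvPolynomial.aeval (fun a : (Σ i, J i) => Function.update
      (fun i' j => algebraMap F F' (x i' j)) i y a.1 a.2 ^ m) (f l) = 0 := by
  classical
  let Ω := AlgebraicClosure (RatFunc k)
  have : IsScalarTower k (RatFunc k) Ω := inferInstance
  let ι : F →ₐ[RatFunc k] Ω := IsAlgClosed.lift
  have hιk : ∀ c : k, ι (algebraMap k F c) = algebraMap k Ω c := by
    intro c
    rw [IsScalarTower.algebraMap_apply k (RatFunc k) F, ι.commutes,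
      ← IsScalarTower.algebraMap_apply]
  let E : {l // δ l i ≠ 0} → MvPolynomial (J i) Ω :=
    fun l => spec i (fun i' j => ι (x i' j) ^ m) (f l)
  have hE0 : ∀ l, MvPolynomial.eval 0 (E l) = 0 := fun l =>
    DCIG.eval_zero_of_homogeneous (spec_homogeneous i _ (hf l)) l.2
  have hcard' : Fintype.card {l // δ l i ≠ 0} < Fintype.card (J i) := by
    refine lt_of_le_of_lt ?_ hcard
    rw [Fintype.card_subtype, Finset.card_eq_sum_ones]
    refine le_trans ?_ (Finset.sum_le_sum_of_subset (f := fun l => δ l i)
      (Finset.filter_subset (fun l => δ l i ≠ 0) Finset.univ))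
    apply Finset.sum_le_sum
    intro l hl
    exact Nat.one_le_iff_ne_zero.2 (Finset.mem_filter.1 hl).2
  obtain ⟨y, hy0, hy⟩ := DCIG.exists_common_zero E hcard' hE0
  have hz : ∀ j, ∃ z : Ω, z ^ m = y j := fun j => IsAlgClosed.exists_pow_nat_eq _ hm
  choose z hz using hz
  let L1 : IntermediateField (RatFunc k) Ω := IntermediateField.adjoin (RatFunc k) (Set.range z)
  have hfd1 : FiniteDimensional (RatFunc k) L1 := by
    have : Finite (Set.range z) := (Set.finite_range z).to_subtype
    exact IntermediateField.finiteDimensional_adjoin fun z _ =>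
      Algebra.IsIntegral.isIntegral z
  let L2 : IntermediateField (RatFunc k) Ω := ι.fieldRange
  have hfd2 : FiniteDimensional (RatFunc k) L2 :=
    LinearEquiv.finiteDimensional (AlgEquiv.ofInjectiveField ι).toLinearEquiv
  let L3 : IntermediateField (RatFunc k) Ω := L1 ⊔ L2
  have hfd3 : FiniteDimensional (RatFunc k) L3 := IntermediateField.finiteDimensional_sup L1 L2
  let F' : IntermediateField (RatFunc k) Ω := IntermediateField.normalClosure (RatFunc k) L3 Ω
  have hLF : L3 ≤ F' := IntermediateField.le_normalClosure L3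
  have hzF : ∀ j, z j ∈ F' := fun j =>
    hLF ((le_sup_left : L1 ≤ L3)
      (IntermediateField.subset_adjoin (RatFunc k) (Set.range z) ⟨j, rfl⟩))
  have hιF : ∀ c, ι c ∈ F' := fun c => hLF ((le_sup_right : L2 ≤ L3) ⟨c, rfl⟩)
  have : Normal (RatFunc k) F' := normalClosure.normal (RatFunc k) L3 Ω
  have : FiniteDimensional (RatFunc k) F' := normalClosure.is_finiteDimensional (RatFunc k) L3 Ω
  have : IsGalois (RatFunc k) F' := {}
  have htow : IsScalarTower k F' Ω := IsScalarTower.of_algebraMap_eq fun _ => rfl
  let ι' : F →+* F' := (ι : F →+* Ω).codRestrict F' hιF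
  letI : Algebra F F' := ι'.toAlgebra
  have hι' : ∀ c : F, ((algebraMap F F' c : F') : Ω) = ι c := fun _ => rfl
  have htow1 : IsScalarTower (RatFunc k) F F' := IsScalarTower.of_algebraMap_eq fun c => by
    apply Subtype.ext
    rw [hι', ι.commutes]
    rfl
  have htow2 : IsScalarTower k F F' := IsScalarTower.of_algebraMap_eq fun c => by
    apply Subtype.ext
    rw [hι', hιk]
    rfl
  refine ⟨F', inferInstance, inferInstance, inferInstance, inferInstance, inferInstance,
    inferInstance, inferInstance, htow1, htow2, fun j => ⟨z j, hzF j⟩, ?_, fun l hl => ?_⟩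
  · by_contra hcon
    push Not at hcon
    apply hy0
    funext j
    have h1 : z j = 0 := congrArg Subtype.val (hcon j)
    rw [← hz j, h1, zero_pow hm.ne']
    rfl
  · apply (algebraMap F' Ω).injective
    have h1 := hy ⟨l, hl⟩
    simp only [E, eval_spec] at h1
    rw [map_zero, ← h1]
    have h2 := MvPolynomial.comp_aeval_apply (IsScalarTower.toAlgHom k F' Ω)
      (f := fun a : (Σ i, J i) => Function.update
      (fun i' j => algebraMap F F' (x i' j)) i (fun j => (⟨z j, hzF j⟩ : F')) a.1 a.2 ^ m) (f l)
    refine h2.trans ?_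
    congr 1
    congr 1
    funext a
    obtain ⟨i', j⟩ := a
    rw [map_pow]
    by_cases h : i' = i
    · subst h
      simp only [Function.update_self]
      exact hz j
    · simp only [Function.update_of_ne h]
      rfl

end Pool.Agent.MPC
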