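import Pool.Agent.MPC.Hom

/-!
# Existence of rational curves with prescribed root pattern
-/

open Polynomial

namespace Pool.Agent.MPC

universe u

variable {k : Type u} [Field k] {r : ℕ} {J : Fin r → Type} [∀ i, Fintype (J i)]
  [∀ i, DecidableEq (J i)] {m : ℕ}

omit [∀ i, DecidableEq (J i)] in
lemma natDegree_aeval_le {A : Type*} [CommRing A] [Algebra k A]
    {f : MvPolynomial (Σ i, J i) k} {δ : Fin r → ℕ} (hf : IsMultihomogeneous f δ)
    {d : Fin r → ℕ} {P : (Σ i, J i) → A[X]} (hP : ∀ x, (P x).natDegree ≤ d x.1) :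
    (MvPolynomial.aeval P f).natDegree ≤ ∑ i, δ i * d i := by
  classical
  rw [MvPolynomial.aeval_def, MvPolynomial.eval₂_eq']
  refine natDegree_sum_le_of_forall_le _ _ fun n hn => ?_
  have h1 := hf n (MvPolynomial.mem_support_iff.1 hn)
  have h2 : (algebraMap k A[X] (MvPolynomial.coeff n f)).natDegree ≤ 0 := by
    rw [IsScalarTower.algebraMap_apply k A A[X]]
    exact (natDegree_C _).le
  have h3 : (∏ x : (Σ i, J i), P x ^ n x).natDegree ≤ ∑ i, δ i * d i := by
    refine (natDegree_prod_le _ _).trans ?_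
    rw [Fintype.sum_sigma]
    apply Finset.sum_le_sum
    intro i _
    rw [← h1 i, Finset.sum_mul]
    apply Finset.sum_le_sum
    intro j _
    exact natDegree_pow_le.trans (Nat.mul_le_mul_left _ (hP ⟨i, j⟩))
  exact (natDegree_mul_le_of_le h2 h3).trans (by omega)

/-- the unknowns -/
abbrev Unk (𝔅 : Type) (a : (Σ i, J i) → ZMod m) (d : Fin r → ℕ) : Type :=
  𝔅 ⊕ (Σ x : {x : (Σ i, J i) // a x = 0}, Fin (d x.1.1))

variable {Ω 𝔅 : Type} [Fintype Ω] [DecidableEq Ω]

/-- the coordinates of the curve -/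
noncomputable def crv {A : Type*} [CommRing A] [Algebra k A] (s : Ω → Σ i, J i) (b : Ω → 𝔅)
    (w₀ : Ω) (c : (Σ i, J i) → k) (a : (Σ i, J i) → ZMod m) (d : Fin r → ℕ)
    (u : Unk 𝔅 a d → A) (x : Σ i, J i) : A[X] :=
  if h : a x = 0 then
    C (algebraMap k A (c x)) + ∑ n : Fin (d x.1), C (u (Sum.inr ⟨⟨x, h⟩, n⟩)) * X ^ (n.1 + 1)
  else
    C (algebraMap k A (c x)) *
      ∏ w with s w = x, (1 + C (if w = w₀ then 0 else u (Sum.inl (b w))) * X)

variable {s : Ω → Σ i, J i} {b : Ω → 𝔅} {w₀ : Ω} {c : (Σ i, J i) → k} {a : (Σ i, J i) → ZMod m}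
  {d : Fin r → ℕ}

omit [∀ i, Fintype (J i)] in
lemma crv_map {A B : Type*} [CommRing A] [Algebra k A] [CommRing B] [Algebra k B] (g : A →ₐ[k] B)
    (u : Unk 𝔅 a d → A) (x : Σ i, J i) :
    Polynomial.mapAlgHom g (crv s b w₀ c a d u x) = crv s b w₀ c a d (fun y => g (u y)) x := by
  unfold crv
  split_ifs with h
  · simp [Polynomial.map_sum]
  · simp only [coe_mapAlgHom, Polynomial.map_mul, map_C, Polynomial.map_prod, Polynomial.map_add,
      Polynomial.map_one, map_X]
    congr 1
    · simp
    · apply Finset.prod_congr rfl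
      intro w _
      by_cases hw : w = w₀
      · simp [hw]
      · simp [hw]

omit [∀ i, Fintype (J i)] in
lemma crv_natDegree {A : Type*} [CommRing A] [Algebra k A]
    (hs : ∀ x, (Finset.univ.filter fun w => s w = x).card = if a x = 0 then 0 else d x.1)
    (u : Unk 𝔅 a d → A) (x : Σ i, J i) : (crv s b w₀ c a d u x).natDegree ≤ d x.1 := by
  unfold crv
  split_ifs with h
  · refine natDegree_add_le_of_degree_le (by simp) ?_
    refine natDegree_sum_le_of_forall_le _ _ fun n _ => ?_
    exact (natDegree_C_mul_le _ _).trans ((natDegree_X_pow_le _).trans n.2)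
  · refine (natDegree_C_mul_le _ _).trans ((natDegree_prod_le _ _).trans ?_)
    have h1 := hs x
    rw [if_neg h] at h1
    refine (Finset.sum_le_card_nsmul _ _ 1 fun w _ => ?_).trans (by rw [h1]; simp)
    compute_degree

omit [∀ i, Fintype (J i)] in
lemma crv_coeff_zero {A : Type*} [CommRing A] [Algebra k A]
    (u : Unk 𝔅 a d → A) (x : Σ i, J i) :
    (crv s b w₀ c a d u x).coeff 0 = algebraMap k A (c x) := by
  unfold crv
  split_ifs with h
  · simp [coeff_zero_eq_eval_zero, eval_finsetSum]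
  · simp [coeff_zero_eq_eval_zero, eval_prod]

omit [∀ i, Fintype (J i)] in
lemma crv_zero {A : Type*} [CommRing A] [Algebra k A] (x : Σ i, J i) :
    crv s b w₀ c a d (0 : Unk 𝔅 a d → A) x = C (algebraMap k A (c x)) := by
  unfold crv
  split_ifs with h
  · simp
  · simp

/-- **Existence of curves.** -/
theorem exists_curve [IsAlgClosed k] [Fintype 𝔅] {L : Type} [Fintype L]
    {f : L → MvPolynomial (Σ i, J i) k} {δ : L → Fin r → ℕ}
    (hf : ∀ l, IsMultihomogeneous (f l) (δ l)) (hc : ∀ l, MvPolynomial.eval c (f l) = 0)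
    (hs : ∀ x, (Finset.univ.filter fun w => s w = x).card = if a x = 0 then 0 else d x.1)
    (w₀ : Ω) (b : Ω → 𝔅)
    (hcard : ∑ i, d i * (∑ l, δ l i + (Finset.univ.filter fun j => a ⟨i, j⟩ ≠ 0).card) <
      ∑ i, d i * Fintype.card (J i) + Fintype.card 𝔅) :
    ∃ (β : 𝔅 → k) (P : (Σ i, J i) → k[X]), (∀ x, (P x).natDegree ≤ d x.1) ∧
      (∀ x, (P x).coeff 0 = c x) ∧
      (∀ x, a x ≠ 0 → P x =
        C (c x) * ∏ w with s w = x, (1 + C (if w = w₀ then 0 else β (b w)) * X)) ∧
      (∀ l, MvPolynomial.aeval P (f l) = 0) ∧ (β ≠ 0 ∨ ∃ x, P x ≠ C (c x)) := by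
  classical
  let U := Unk 𝔅 a d
  let A := MvPolynomial U k
  let F : (Σ l : L, Fin (∑ i, δ l i * d i)) → A := fun y =>
    (MvPolynomial.aeval (crv s b w₀ c a d (fun u => (MvPolynomial.X u : A))) (f y.1)).coeff
      (y.2.1 + 1)
  have hmap : ∀ (u : U → k) (l : L) (n : ℕ), MvPolynomial.eval u ((MvPolynomial.aeval
      (crv s b w₀ c a d (fun u => (MvPolynomial.X u : A))) (f l)).coeff n) =
      (MvPolynomial.aeval (crv s b w₀ c a d u) (f l)).coeff n := by
    intro u l n
    have h1 := MvPolynomial.comp_aeval_apply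
      (Polynomial.mapAlgHom (MvPolynomial.aeval u : A →ₐ[k] k))
      (f := crv s b w₀ c a d (fun u => (MvPolynomial.X u : A))) (f l)
    have h2 : (fun x => Polynomial.mapAlgHom (MvPolynomial.aeval u : A →ₐ[k] k)
        (crv s b w₀ c a d (fun u => (MvPolynomial.X u : A)) x)) = crv s b w₀ c a d u := by
      funext x
      rw [crv_map]
      congr 1
      funext y
      exact MvPolynomial.aeval_X u y
    rw [h2] at h1
    rw [← h1, coe_mapAlgHom, coeff_map, DCIG.eval_eq_aeval]
    rfl
  have hcardS : ∀ i, (Finset.univ.filter fun j => a ⟨i, j⟩ = 0).card +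
      (Finset.univ.filter fun j => a ⟨i, j⟩ ≠ 0).card = Fintype.card (J i) := by
    intro i
    rw [Finset.card_filter_add_card_filter_not]
    rfl
  have hU : Fintype.card U = Fintype.card 𝔅 +
      ∑ i, d i * (Finset.univ.filter fun j => a ⟨i, j⟩ = 0).card := by
    rw [Fintype.card_sum, Fintype.card_sigma]
    congr 1
    simp only [Fintype.card_fin]
    refine (Finset.sum_subtype (Finset.univ.filter fun x : (Σ i, J i) => a x = 0) (by simp)
      (fun x => d x.1)).symm.trans ?_
    rw [Finset.sum_filter, Fintype.sum_sigma]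
    apply Finset.sum_congr rfl
    intro i _
    rw [← Finset.sum_filter]
    change ∑ j with a ⟨i, j⟩ = 0, d i = _
    rw [Finset.sum_const, smul_eq_mul, mul_comm]
  have hlt : Fintype.card (Σ l : L, Fin (∑ i, δ l i * d i)) < Fintype.card U := by
    rw [hU, Fintype.card_sigma]
    simp only [Fintype.card_fin]
    rw [Finset.sum_comm]
    have h1 : ∑ i, d i * Fintype.card (J i) =
        ∑ i, d i * (Finset.univ.filter fun j => a ⟨i, j⟩ = 0).card +
        ∑ i, d i * (Finset.univ.filter fun j => a ⟨i, j⟩ ≠ 0).card := by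
      rw [← Finset.sum_add_distrib]
      apply Finset.sum_congr rfl
      intro i _
      rw [← hcardS i, mul_add]
    have h2 : ∑ i, d i * (∑ l, δ l i + (Finset.univ.filter fun j => a ⟨i, j⟩ ≠ 0).card) =
        ∑ i, ∑ l, δ l i * d i +
        ∑ i, d i * (Finset.univ.filter fun j => a ⟨i, j⟩ ≠ 0).card := by
      rw [← Finset.sum_add_distrib]
      apply Finset.sum_congr rfl
      intro i _
      rw [mul_add, Finset.mul_sum]
      congr 1
      apply Finset.sum_congr rfl
      intro l _
      ring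
    rw [h1, h2] at hcard
    omega
  obtain ⟨u, hu0, hu⟩ := DCIG.exists_common_zero F hlt (by
    rintro ⟨l, n⟩
    have h1 := hmap 0 l (n.1 + 1)
    have h2 : crv s b w₀ c a d (0 : U → k) = fun x => C (c x) := by
      funext x
      rw [crv_zero]
      rfl
    rw [h2] at h1
    have h3 : MvPolynomial.aeval (fun x => (C (c x) : k[X])) (f l) =
        C (MvPolynomial.eval c (f l)) := by
      rw [DCIG.eval_eq_aeval]
      exact (MvPolynomial.comp_aeval_apply (Algebra.ofId k k[X]) (f := c) (f l)).symm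
    rw [h3, hc l, C_0, coeff_zero] at h1
    exact h1)
  refine ⟨fun B => u (Sum.inl B), crv s b w₀ c a d u, crv_natDegree hs u,
    fun x => crv_coeff_zero u x, ?_, ?_, ?_⟩
  · intro x hx
    unfold crv
    rw [dif_neg hx]
    rfl
  · intro l
    ext n
    rw [coeff_zero]
    rcases Nat.eq_zero_or_pos n with rfl | hn
    · have h5 := MvPolynomial.comp_aeval_apply (Polynomial.aeval (0 : k))
        (f := crv s b w₀ c a d u) (f l)
      rw [coeff_zero_eq_eval_zero]
      have h6 : eval 0 (MvPolynomial.aeval (crv s b w₀ c a d u) (f l)) =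
          (Polynomial.aeval (0 : k)) (MvPolynomial.aeval (crv s b w₀ c a d u) (f l)) := by
        rw [Polynomial.coe_aeval_eq_eval]
      rw [h6, h5]
      refine Eq.trans ?_ (hc l)
      rw [DCIG.eval_eq_aeval]
      refine congrArg (fun w => MvPolynomial.aeval w (f l)) (funext fun x => ?_)
      rw [Polynomial.coe_aeval_eq_eval, ← coeff_zero_eq_eval_zero, crv_coeff_zero]
      rfl
    · rcases Nat.lt_or_ge (∑ i, δ l i * d i) n with h1 | h1
      · exact coeff_eq_zero_of_natDegree_lt
          (lt_of_le_of_lt (natDegree_aeval_le (hf l) (crv_natDegree hs u)) h1)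
      · have h2 := hu ⟨l, ⟨n - 1, by omega⟩⟩
        rw [← hmap u l n]
        have h3 : n - 1 + 1 = n := by omega
        have h4 : F ⟨l, ⟨n - 1, by omega⟩⟩ = (MvPolynomial.aeval
          (crv s b w₀ c a d (fun u => (MvPolynomial.X u : A))) (f l)).coeff n := by
          change (MvPolynomial.aeval (crv s b w₀ c a d (fun u => (MvPolynomial.X u : A)))
            (f l)).coeff (n - 1 + 1) = _
          rw [h3]
        rw [← h4]
        exact h2
  · by_contra hcon
    push Not at hcon
    obtain ⟨h1, h2⟩ := hcon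
    apply hu0
    funext y
    rcases y with B | ⟨⟨x, hx⟩, n⟩
    · exact congrFun h1 B
    · have h3 := congrArg (fun P => P.coeff (n.1 + 1)) (h2 x)
      have h4 : (∑ n' : Fin (d x.1), C (u (Sum.inr ⟨⟨x, hx⟩, n'⟩)) * X ^ (n'.1 + 1)).coeff
          (n.1 + 1) = u (Sum.inr ⟨⟨x, hx⟩, n⟩) := by
        rw [finsetSum_coeff, Finset.sum_eq_single n]
        · simp
        · intro n' _ hn'
          rw [coeff_C_mul, coeff_X_pow, if_neg, mul_zero]
          intro h
          apply hn'
          ext
          omega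
        · simp
      unfold crv at h3
      rw [dif_pos hx] at h3
      simp only [coeff_add] at h3
      rw [h4, coeff_C_succ, coeff_C_succ, zero_add] at h3
      exact h3

end Pool.Agent.MPC
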