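import Pool.Agent.MPC.Solve
import Pool.Agent.MPC.Relation
import Pool.Agent.MPC.Pattern
import Pool.Agent.DCI57.Vanish

/-!
# One step: either the class vanishes or the curve is constant
-/

open Polynomial
open scoped LinearAlgebra.Projectivization

namespace Pool.Agent.MPC

open Pool.Agent.ZCyc

universe u w

section

variable {k : Type u} [Field k]

/-- division of the coordinates of a curve by their common factor at a point -/
lemma exists_order {J : Type} [Fintype J] (Q : J → k[X]) (s₁ : k) (h : ∃ j, Q j ≠ 0) :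
    ∃ (μ : ℕ) (P : J → k[X]), (∀ j, Q j = (X - C s₁) ^ μ * P j) ∧ (∃ j, (P j).eval s₁ ≠ 0) ∧
      ∀ j j', Q j' ≠ 0 → rootMultiplicity s₁ (Q j') < rootMultiplicity s₁ (Q j) →
        (P j).eval s₁ = 0 := by
  classical
  obtain ⟨j₀, hj₀, hmin⟩ := Finset.exists_min_image (Finset.univ.filter fun j => Q j ≠ 0)
    (fun j => rootMultiplicity s₁ (Q j)) (by
      obtain ⟨j, hj⟩ := h
      exact ⟨j, by simp [hj]⟩)
  simp only [Finset.mem_filter, Finset.mem_univ, true_and] at hj₀ hmin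
  set μ := rootMultiplicity s₁ (Q j₀) with hμ
  have hdvd : ∀ j, (X - C s₁) ^ μ ∣ Q j := by
    intro j
    by_cases hj : Q j = 0
    · rw [hj]
      exact dvd_zero _
    · exact (le_rootMultiplicity_iff hj).1 (hmin j hj)
  choose P hP using hdvd
  have hX : (X - C s₁ : k[X]) ^ μ ≠ 0 := pow_ne_zero _ (X_sub_C_ne_zero s₁)
  refine ⟨μ, P, hP, ⟨j₀, fun h0 => ?_⟩, fun j j' hj' hlt => ?_⟩
  · have h1 : (X - C s₁) ^ (μ + 1) ∣ Q j₀ := by
      rw [pow_succ, hP j₀]
      exact mul_dvd_mul_left _ (dvd_iff_isRoot.2 h0)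
    have h2 := (le_rootMultiplicity_iff hj₀).2 h1
    omega
  · by_cases hj : Q j = 0
    · have h1 := hP j
      rw [hj] at h1
      rw [(mul_eq_zero.1 h1.symm).resolve_left hX, eval_zero]
    · have h1 : μ + 1 ≤ rootMultiplicity s₁ (Q j) := lt_of_le_of_lt (hmin j' hj') hlt
      have h2 := (le_rootMultiplicity_iff hj).1 h1
      rw [pow_succ, hP j] at h2
      exact dvd_iff_isRoot.1 ((mul_dvd_mul_iff_left hX).1 h2)

/-- if no zero of `P` has larger multiplicity than as a zero of `Q`, then `P` divides `Q` -/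
lemma exists_root_of_not_dvd [IsAlgClosed k] {P Q : k[X]} (hP : P ≠ 0) (h : ¬ P ∣ Q) :
    Q ≠ 0 ∧ ∃ s₁, rootMultiplicity s₁ Q < rootMultiplicity s₁ P := by
  classical
  have hQ : Q ≠ 0 := by
    rintro rfl
    exact h (dvd_zero _)
  refine ⟨hQ, ?_⟩
  by_contra hcon
  push Not at hcon
  apply h
  have h1 : P.roots ≤ Q.roots := by
    rw [Multiset.le_iff_count]
    intro a
    rw [count_roots, count_roots]
    exact hcon a
  have h2 := (IsAlgClosed.splits P).eq_prod_roots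
  have h3 : (P.roots.map fun a => X - C a).prod ∣ Q :=
    (Multiset.prod_dvd_prod_of_le (Multiset.map_le_map h1)).trans (prod_multiset_X_sub_C_dvd Q)
  rw [h2]
  obtain ⟨T, hT⟩ := h3
  refine ⟨C (P.leadingCoeff)⁻¹ * T, ?_⟩
  have h4 : C P.leadingCoeff * C (P.leadingCoeff)⁻¹ = (1 : k[X]) := by
    rw [← C_mul, mul_inv_cancel₀ (leadingCoeff_ne_zero.2 hP), C_1]
  linear_combination hT - (P.roots.map fun a => X - C a).prod * T * h4

variable {r : ℕ} {J : Fin r → Type} [∀ i, Fintype (J i)] [∀ i, DecidableEq (J i)] {m : ℕ}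
  [NeZero m] {a : (Σ i, J i) → ZMod m} {δ : Fin r → ℕ} {Ω 𝔅 : Type} [Fintype Ω] [Fintype 𝔅]
  [DecidableEq Ω] [DecidableEq 𝔅] {s : Ω → Σ i, J i} {b : Ω → 𝔅} {d : Fin r → ℕ}

/-- the product over all roots is an `m`-th power -/
lemma Pattern.exists_pow (h : Pattern a δ s b d) {w₀ : Ω} {β : 𝔅 → k} {A B M N : k[X]}
    (hN : B = N ^ m) (hM : B + C (β (b w₀)) * A = M ^ m) :
    ∃ T, ∏ w, (B + C (if w = w₀ then 0 else β (b w)) * A) ^ (a (s w)).val = T ^ m := by
  rw [← Finset.prod_fiberwise Finset.univ b]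
  apply DCI57.exists_pow_prod
  intro B' _
  by_cases hB : B' = b w₀
  · apply DCI57.exists_pow_prod
    intro w hw
    rw [Finset.mem_filter] at hw
    by_cases hww : w = w₀
    · refine ⟨N ^ (a (s w)).val, ?_⟩
      rw [if_pos hww, C_0, zero_mul, add_zero, hN, ← pow_mul, ← pow_mul, mul_comm]
    · refine ⟨M ^ (a (s w)).val, ?_⟩
      rw [if_neg hww, hw.2, hB, hM, ← pow_mul, ← pow_mul, mul_comm]
  · have h1 : ∀ w ∈ Finset.univ.filter (fun w => b w = B'),
        (B + C (if w = w₀ then 0 else β (b w)) * A) ^ (a (s w)).val =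
          (B + C (β B') * A) ^ (a (s w)).val := by
      intro w hw
      rw [Finset.mem_filter] at hw
      have hww : w ≠ w₀ := by
        rintro rfl
        exact hB hw.2.symm
      rw [if_neg hww, hw.2]
    rw [Finset.prod_congr rfl h1, Finset.prod_pow_eq_pow_sum]
    have h2 : m ∣ ∑ w with b w = B', (a (s w)).val := by
      rw [← ZMod.natCast_eq_zero_iff]
      push_cast
      simp only [ZMod.natCast_val, ZMod.cast_id', id_eq]
      exact h.zero_sum B'
    obtain ⟨n, hn⟩ := h2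
    refine ⟨(B + C (β B') * A) ^ n, ?_⟩
    rw [hn, ← pow_mul, mul_comm m n]

/-- the product of the coordinates is an `m`-th power -/
lemma Pattern.exists_pow' (h : Pattern a δ s b d) {w₀ : Ω} {β : 𝔅 → k} {A B M N : k[X]}
    (hN : B = N ^ m) (hM : B + C (β (b w₀)) * A = M ^ m) {S : Finset (Σ i, J i)}
    (hS : ∀ x, x ∈ S ↔ a x ≠ 0) {c y : (Σ i, J i) → k} (hy : ∀ x, c x = y x ^ m)
    {Q : (Σ i, J i) → k[X]} (hQ : ∀ x, a x ≠ 0 → Q x =
      C (c x) * ∏ w with s w = x, (B + C (if w = w₀ then 0 else β (b w)) * A)) :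
    ∃ T, ∏ x ∈ S, Q x ^ (a x).val = T ^ m := by
  obtain ⟨T, hT⟩ := h.exists_pow (δ := δ) hN hM
  refine ⟨(∏ x ∈ S, C (y x) ^ (a x).val) * T, ?_⟩
  rw [mul_pow, ← hT, ← Finset.prod_pow]
  rw [← Finset.prod_fiberwise_of_maps_to (s := Finset.univ) (t := S) (g := s)
    (fun w _ => (hS _).2 (h.ne_zero w)), ← Finset.prod_mul_distrib]
  apply Finset.prod_congr rfl
  intro x hx
  rw [hQ x ((hS x).1 hx), hy, mul_pow, C_pow, ← pow_mul, ← pow_mul, mul_comm m]
  congr 1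
  rw [← Finset.prod_pow]
  apply Finset.prod_congr rfl
  intro w hw
  rw [(Finset.mem_filter.1 hw).2]

omit [∀ i, DecidableEq (J i)] in
/-- division by the common factors -/
lemma exists_pow_div {S : Finset (Σ i, J i)} (hS : ∀ x, x ∈ S ↔ a x ≠ 0)
    (hsum : ∀ i, ∑ j, a ⟨i, j⟩ = 0) {s₁ : k} {μ : Fin r → ℕ} {Q P : (Σ i, J i) → k[X]}
    (hQ : ∀ x, Q x = (X - C s₁) ^ μ x.1 * P x) {T : k[X]}
    (hT : ∏ x ∈ S, Q x ^ (a x).val = T ^ m) : ∃ T', ∏ x ∈ S, P x ^ (a x).val = T' ^ m := by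
  have h1 : m ∣ ∑ x ∈ S, μ x.1 * (a x).val := by
    have h2 : ∑ x ∈ S, μ x.1 * (a x).val = ∑ x : (Σ i, J i), μ x.1 * (a x).val := by
      apply Finset.sum_subset (Finset.subset_univ _)
      intro x _ hx
      rw [hS, not_not] at hx
      rw [hx, ZMod.val_zero, mul_zero]
    rw [h2, Fintype.sum_sigma]
    apply Finset.dvd_sum
    intro i _
    change m ∣ ∑ j, μ i * (a ⟨i, j⟩).val
    rw [← Finset.mul_sum]
    apply Dvd.dvd.mul_left
    rw [← ZMod.natCast_eq_zero_iff]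
    push_cast
    simp only [ZMod.natCast_val, ZMod.cast_id', id_eq]
    exact hsum i
  obtain ⟨n, hn⟩ := h1
  have h2 : ∏ x ∈ S, Q x ^ (a x).val = ((X - C s₁) ^ n) ^ m * ∏ x ∈ S, P x ^ (a x).val := by
    rw [← pow_mul, mul_comm n m, ← hn, ← Finset.prod_pow_eq_pow_sum, ← Finset.prod_mul_distrib]
    apply Finset.prod_congr rfl
    intro x _
    rw [hQ x, mul_pow, ← pow_mul]
  have h3 : (X - C s₁) ^ n ∣ T := by
    rw [← UniqueFactorizationMonoid.pow_dvd_pow_iff_dvd (NeZero.ne m), ← hT, h2]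
    exact dvd_mul_right _ _
  obtain ⟨T', hT'⟩ := h3
  refine ⟨T', ?_⟩
  rw [hT', mul_pow, h2] at hT
  exact mul_left_cancel₀ (pow_ne_zero _ (pow_ne_zero _ (X_sub_C_ne_zero s₁))) hT

end

variable {k : Type u} [Field k] {r : ℕ} {J : Fin r → Type} [∀ i, Fintype (J i)]
  [∀ i, DecidableEq (J i)] {m : ℕ} [NeZero m] {L : Type}

/-- points with a vanishing coordinate -/
lemma op_zero_of_rep {R : Type w} [Field R] {ζ : kˣ} (hζ1 : ζ ^ m = 1) {ω : R}
    (hω : IsPrimitiveRoot ω m) {a : (Σ i, J i) → ZMod m}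
    {ψ : AddChar ((Σ i, J i) → ZMod m) R} (hψ : ∀ t, ψ t = ω ^ (∑ x, a x * t x).val)
    {q : ∀ i, ℙ k (J i → k)} {x : Σ i, J i} (hx : a x ≠ 0) (hq : (q x.1).rep x.2 = 0) :
    op ζ ψ (Finsupp.single q 1) = 0 := by
  apply op_eq_zero hζ1 ψ (h := Pi.single x 1)
  · apply act_of_zero
    intro y hy
    by_cases hxy : y = x
    · rw [hxy, hq]
    · exact absurd (Pi.single_eq_of_ne hxy _) hy
  · have h1 : ψ (Pi.single x 1) = ω ^ (a x).val := by
      rw [hψ]
      congr 2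
      rw [Finset.sum_eq_single x]
      · simp
      · intro i _ hij
        simp [Pi.single_eq_of_ne hij]
      · simp
    rw [h1]
    intro h2
    have h3 := (hω.pow_eq_one_iff_dvd _).1 h2
    have h4 : (a x).val = 0 := Nat.eq_zero_of_dvd_of_lt h3 (ZMod.val_lt _)
    exact hx ((ZMod.val_eq_zero _).1 h4)

/-- **One step.** -/
theorem step [IsAlgClosed k] [CharZero k] {R : Type w} [Field R] [CharZero R] {ζ : kˣ}
    (hζ : IsPrimitiveRoot (ζ : k) m) {f : L → MvPolynomial (Σ i, J i) k} {δ : L → Fin r → ℕ}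
    (hf : ∀ l, IsMultihomogeneous (f l) (δ l)) {ω : R} (hω : IsPrimitiveRoot ω m)
    {a : (Σ i, J i) → ZMod m} {ψ : AddChar ((Σ i, J i) → ZMod m) R}
    (hψ : ∀ t, ψ t = ω ^ (∑ x, a x * t x).val) (hsum : ∀ i, ∑ j, a ⟨i, j⟩ = 0)
    {p : ∀ i, ℙ k (J i → k)} (hpz : ∀ x, a x ≠ 0 → (p x.1).rep x.2 ≠ 0)
    {Ω 𝔅 : Type} [Fintype Ω] [Fintype 𝔅] [DecidableEq Ω] [DecidableEq 𝔅] {δ' : Fin r → ℕ}
    {s : Ω → Σ i, J i} {b : Ω → 𝔅} {d : Fin r → ℕ} (h : Pattern a δ' s b d) {w₀ : Ω}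
    {β : 𝔅 → k} {P : (Σ i, J i) → k[X]} (hPdeg : ∀ x, (P x).natDegree ≤ d x.1)
    (hP0 : ∀ x, (P x).coeff 0 = (p x.1).rep x.2 ^ m)
    (hP : ∀ x, a x ≠ 0 → P x = C ((p x.1).rep x.2 ^ m) *
      ∏ w with s w = x, (1 + C (if w = w₀ then 0 else β (b w)) * X))
    (hPf : ∀ l, MvPolynomial.aeval P (f l) = 0) {i : Fin r} {j j' : J i} (hj : a ⟨i, j⟩ ≠ 0)
    (hne : C ((p i).rep j' ^ m) * P ⟨i, j⟩ ≠ C ((p i).rep j ^ m) * P ⟨i, j'⟩) :
    op ζ ψ (Finsupp.single p 1) ∈ ratEquiv R (Zeros m f) := by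
  classical
  have hζ1 : ζ ^ m = 1 := by
    apply Units.ext
    push_cast
    exact hζ.pow_eq_one
  have hm : 0 < m := NeZero.pos m
  obtain ⟨A, B, M, N, hA, hB, hA0, hB0, hAne, hN, hM, hρ⟩ := exists_template hm
    (Finset.univ.image fun w => if w = w₀ then 0 else β (b w)) (β (b w₀))
  have hBne : B ≠ 0 := by
    rintro rfl
    simp at hB0
  set Q : (Σ i, J i) → k[X] := fun x => hmg (d x.1) A B (P x) with hQdef
  have hQf : ∀ l, MvPolynomial.aeval Q (f l) = 0 := fun l => aeval_hmg_eq_zero (hf l) hBne hPdeg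
    (hPf l)
  have hQ0 : ∀ x, (Q x).eval 0 = (p x.1).rep x.2 ^ m := fun x => by
    rw [hQdef, ← hP0 x]
    exact eval_hmg hA0 hB0
  have hslot : ∀ x, a x ≠ 0 → (Finset.univ.filter fun w => s w = x).card = d x.1 := by
    intro x hx
    have := h.slots x
    rwa [if_neg hx] at this
  have hQ : ∀ x, a x ≠ 0 → Q x = C ((p x.1).rep x.2 ^ m) *
      ∏ w with s w = x, (B + C (if w = w₀ then 0 else β (b w)) * A) := by
    intro x hx
    change hmg (d x.1) A B (P x) = _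
    rw [hP x hx, hmg_prod (hslot x hx) hBne]
  -- degrees
  have hfac : ∀ w, (B + C (if w = w₀ then 0 else β (b w)) * A).natDegree = m := by
    intro w
    apply le_antisymm
    · refine natDegree_add_le_of_degree_le hB ?_
      exact (natDegree_C_mul_le _ _).trans hA
    · exact le_natDegree_of_ne_zero (hρ _ (Finset.mem_image_of_mem _ (Finset.mem_univ w)))
  have hfac0 : ∀ w, B + C (if w = w₀ then 0 else β (b w)) * A ≠ 0 := by
    intro w h0
    have := hfac w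
    rw [h0, natDegree_zero] at this
    exact hm.ne this
  have hQne : ∀ x, a x ≠ 0 → Q x ≠ 0 := by
    intro x hx
    rw [hQ x hx]
    refine mul_ne_zero ?_ (Finset.prod_ne_zero_iff.2 fun w _ => hfac0 w)
    rw [Ne, C_eq_zero]
    exact pow_ne_zero _ (hpz x hx)
  have hQdeg : ∀ x, a x ≠ 0 → (Q x).natDegree = m * d x.1 := by
    intro x hx
    rw [hQ x hx, natDegree_C_mul (pow_ne_zero _ (hpz x hx)), natDegree_prod _ _ fun w _ => hfac0 w,
      Finset.sum_congr rfl fun w _ => hfac w, Finset.sum_const, hslot x hx, smul_eq_mul, mul_comm]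
  have hQdeg' : ∀ x, (Q x).natDegree ≤ m * d x.1 := fun x => natDegree_hmg_le hA hB
  -- the quotient of the two coordinates is not constant
  have hndvd : ¬ Q ⟨i, j⟩ ∣ Q ⟨i, j'⟩ := by
    rintro ⟨T, hT⟩
    apply hne
    have hT' : C ((p i).rep j' ^ m) * Q ⟨i, j⟩ = C ((p i).rep j ^ m) * Q ⟨i, j'⟩ := by
      have h1 : ∃ t, T = C t := by
        by_cases hT0 : T = 0
        · exact ⟨0, by rw [hT0, C_0]⟩
        · refine ⟨T.coeff 0, eq_C_of_natDegree_eq_zero ?_⟩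
          have h2 := natDegree_mul (hQne _ hj) hT0
          rw [← hT, hQdeg _ hj] at h2
          have h3 := hQdeg' ⟨i, j'⟩
          have h4 : (Q ⟨i, j'⟩).natDegree ≤ m * d i := h3
          have h5 : (Q ⟨i, j'⟩).natDegree = m * d i + T.natDegree := h2
          omega
      obtain ⟨t, rfl⟩ := h1
      have h2 := hQ0 ⟨i, j'⟩
      rw [hT, Polynomial.eval_mul, eval_C] at h2
      have h3 := hQ0 ⟨i, j⟩
      have h4 : (p i).rep j' ^ m = (p i).rep j ^ m * t := by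
        rw [← h2, ← h3]
      rw [hT, h4, C_mul]
      ring
    have h1 : hmg (d i) A B (C ((p i).rep j' ^ m) * P ⟨i, j⟩ - C ((p i).rep j ^ m) * P ⟨i, j'⟩) =
        0 := by
      rw [hmg_sub, hmg_C_mul, hmg_C_mul, sub_eq_zero]
      exact hT'
    have h2 : (C ((p i).rep j' ^ m) * P ⟨i, j⟩ - C ((p i).rep j ^ m) * P ⟨i, j'⟩).natDegree ≤
        d i := by
      refine (natDegree_sub_le_of_le ((natDegree_C_mul_le _ _).trans (hPdeg ⟨i, j⟩))
        ((natDegree_C_mul_le _ _).trans (hPdeg ⟨i, j'⟩))).trans ?_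
      exact (max_self _).le
    exact sub_eq_zero.1 (hmg_injective hA0 hB0 hAne h2 h1)
  obtain ⟨hQj', s₁, hs₁⟩ := exists_root_of_not_dvd (hQne _ hj) hndvd
  have hs₁0 : s₁ ≠ 0 := by
    rintro rfl
    have h1 : IsRoot (Q ⟨i, j⟩) 0 := by
      rw [← rootMultiplicity_pos (hQne _ hj)]
      omega
    have h2 := hQ0 ⟨i, j⟩
    rw [h1.eq_zero] at h2
    exact pow_ne_zero _ (hpz _ hj) h2.symm
  -- division by the common factors
  have hnez : ∀ i, ∃ j, Q ⟨i, j⟩ ≠ 0 := by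
    intro i
    have h1 : ∃ j, (p i).rep j ≠ 0 := by
      by_contra hcon
      push Not at hcon
      exact (p i).rep_nonzero (funext hcon)
    obtain ⟨j, hj⟩ := h1
    refine ⟨j, fun h0 => ?_⟩
    have h2 := hQ0 ⟨i, j⟩
    rw [h0, eval_zero] at h2
    exact pow_ne_zero _ hj h2.symm
  choose μ P' hP' hP'1 hP'2 using fun i => exists_order (fun j => Q ⟨i, j⟩) s₁ (hnez i)
  set T : (Σ i, J i) → k[X] := fun x => P' x.1 x.2 with hTdef
  have hQT : ∀ x, Q x = (X - C s₁) ^ μ x.1 * T x := fun x => hP' x.1 x.2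
  have hXne : (X - C s₁ : k[X]) ≠ 0 := X_sub_C_ne_zero s₁
  have hTf : ∀ l, MvPolynomial.aeval T (f l) = 0 := by
    intro l
    have h1 := aeval_mul (hf l) (fun i => (X - C s₁ : k[X]) ^ μ i) T
    have h2 : (fun x : (Σ i, J i) => (fun i => (X - C s₁ : k[X]) ^ μ i) x.1 * T x) = Q :=
      funext fun x => (hQT x).symm
    rw [h2, hQf l] at h1
    refine (mul_eq_zero.1 h1.symm).resolve_left ?_
    exact Finset.prod_ne_zero_iff.2 fun i _ => pow_ne_zero _ (pow_ne_zero _ hXne)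
  obtain ⟨q, e, he, hq⟩ := exists_rep (m := m) (v := fun x => (T x).eval s₁) (fun i => hP'1 i)
  -- the product is an `m`-th power
  set S : Finset (Σ i, J i) := Finset.univ.filter fun x => a x ≠ 0 with hSdef
  have hS : ∀ x, x ∈ S ↔ a x ≠ 0 := fun x => by simp [hSdef]
  obtain ⟨T₀, hT₀⟩ := h.exists_pow' (S := S) hN hM hS (c := fun x => (p x.1).rep x.2 ^ m)
    (y := fun x => (p x.1).rep x.2) (fun x => rfl) hQ
  obtain ⟨T₁, hT₁⟩ := exists_pow_div hS hsum hQT hT₀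
  have hTne : ∀ x ∈ S, T x ≠ 0 := by
    intro x hx h0
    apply hQne x ((hS x).1 hx)
    rw [hQT x, h0, mul_zero]
  have hs₁' : (0 : k) - s₁ ≠ 0 := by
    rw [zero_sub]
    exact neg_ne_zero.2 hs₁0
  obtain ⟨g, h', hgh⟩ := relation (R := R) hζ hf hTf (a := 0) (b := s₁) (p := p) (q := q)
    (d := fun i => ((0 - s₁) ^ μ i)⁻¹) (e := e) (fun i => inv_ne_zero (pow_ne_zero _ hs₁')) he
    (fun x => by
      have h1 := hQ0 x
      rw [hQT x, Polynomial.eval_mul, eval_pow, eval_sub, eval_X, eval_C] at h1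
      rw [← h1, inv_mul_cancel_left₀ (pow_ne_zero _ hs₁')]) (fun x => hq x.1 x.2) ψ
    (fun {F} _ _ _ _ x hx τ t ht => by
      rw [hψ, DCI57.sum_eq_zero_of_root hζ hx hTne (fun j hj => by
        by_contra h0
        exact hj ((hS j).2 h0)) hT₁ ht]
      simp)
  -- the point `q` has a vanishing coordinate
  have hq0 : (act ζ h' q i).rep j = 0 := by
    have h1 : (DCI57.act ζ (fun j => h' ⟨i, j⟩) (q i)).rep j = 0 := by
      rw [DCI57.act_rep_zero]
      have h2 := hq i j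
      have h3 : (T ⟨i, j⟩).eval s₁ = 0 := hP'2 i j j' hQj' hs₁
      have h4 : e i * (q i).rep j ^ m = 0 := by
        rw [← h2]
        exact h3
      exact pow_eq_zero_iff hm.ne' |>.1 ((mul_eq_zero.1 h4).resolve_left (he i))
    exact h1
  rw [op_zero_of_rep hζ1 hω hψ (x := ⟨i, j⟩) hj hq0, sub_zero] at hgh
  rw [← op_act hζ1 ψ g p]
  exact Submodule.smul_mem _ _ hgh

end Pool.Agent.MPC
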